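import Pool.Agent.Lib.MP_eeed5c_co_D.Defs

/-!
# Deleting one more vertex, at a fixed number of edges

`cl_rec`: PROOF. `sum_insert` (in `Basic.lean`) with
`F M p = if p.1 = v ∧ S ⊆ free M then 1 else 0`. Left side: for `M ∈ mats G (k+1)` the inner sum is `1` if
`S ⊆ free M` and `v ∉ free M` (`sum_darts` with `f a = if a = v then 1 else 0`), otherwise `0`; so the left
side is `cl G (k+1) S - cl G (k+1) (insert v S)`. Right side (`sum_pairs` in `Step.lean`): for `N ∈ mats G k`
a nonzero term has `p = (v, w)`, `v, w ∈ free N`, `w ~ v`, and (`mem_free_insert`)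
`S ⊆ free (insert s(v,w) N)` iff `S ⊆ free N`, `v ∉ S`, `w ∉ S`. So the right side is
`∑ w (w ~ v, w ∉ S), #{N : insert w (insert v S) ⊆ free N}`.

`cl_slide`: PROOF. Fix `c ∉ S`. By `hreg` there are at least `r - |S|` vertices `v ~ c` with `v ∉ S`. So the left side
is at most `∑ N (N ∈ mats G k, insert c S ⊆ free N), #{v ~ c, v ∉ S}` `= I + II` where `I` counts the pairs
`(N, v)` with `v ∈ free N` and `II` those with `v ∉ free N`.
`I ≤ ∑ N (S ⊆ free N, c ∈ free N), |free N|`.
`II` (for `k = 0` it is zero; let `k = k' + 1`): the number of triples `(N, v, y)` with `s(v,y) ∈ N`, `v ~ c`, `v ∉ S`,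
`insert c S ⊆ free N`. By `sum_insert` it is the number of triples `(N', v, y)`, `N' ∈ mats G k'`,
`v, y ∈ free N'`, `v ~ y`, `v ~ c`, `insert c S ⊆ free N'`, `v, y ∉ insert c S` (`mem_free_insert`). By `sum_insert`
for the pair `(c, v)` this is at most the number of triples `(N'', v, y)` with `N'' ∈ mats G k`, `s(c,v) ∈ N''`,
`S ⊆ free N''`, `y ∈ free N''` (`N'' = insert s(c,v) N'`; `y ≠ c, v`), that is at most
`∑ N'' (S ⊆ free N'', c ∉ free N''), |free N''|` (for given `N''` there is at most one `v`,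
`partner_unique`). So `I + II ≤ ∑ N (S ⊆ free N), |free N| = (card V - 2 k) * cl G k S` (`card_free`).
-/

set_option autoImplicit false

namespace Pool.Agent.Lib.MP_eeed5c_coD

open Finset Pool.Agent.Lib.MP_eeed5c_co Pool.Agent.Lib.MP_eeed5c_coT

section

variable {V : Type*} [Fintype V] {G : SimpleGraph V}

open scoped Classical in
private theorem AA_sub {N : Finset (Sym2 V)} {S : Finset V} {a b : V} :
    S ⊆ free (insert s(a, b) N) ↔ S ⊆ free N ∧ a ∉ S ∧ b ∉ S := by
  constructor
  · intro h
    exact ⟨fun u hu => (mem_free_insert.1 (h hu)).1, fun hu => (mem_free_insert.1 (h hu)).2.1 rfl,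
      fun hu => (mem_free_insert.1 (h hu)).2.2 rfl⟩
  · rintro ⟨h1, h2, h3⟩ u hu
    exact mem_free_insert.2 ⟨h1 hu, ne_of_mem_of_not_mem hu h2, ne_of_mem_of_not_mem hu h3⟩

open scoped Classical in
private theorem AA_cl (k : ℕ) (S : Finset V) :
    cl G k S = ∑ N ∈ mats G k, if S ⊆ free N then (1 : ℝ) else 0 := by
  unfold cl
  rw [Finset.card_filter]
  push_cast
  rfl

open scoped Classical in
theorem cl_rec (k : ℕ) (S : Finset V) {v : V} (hv : v ∉ S) :
    cl G (k + 1) S = cl G (k + 1) (insert v S) +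
      ∑ w ∈ univ.filter (fun w => G.Adj v w ∧ w ∉ S), cl G k (insert w (insert v S)) := by
  have h1 : ∀ M ∈ mats G (k + 1), ∑ p ∈ univ.filter (fun p : V × V => s(p.1, p.2) ∈ M),
      (if p.1 = v ∧ S ⊆ free M then (1 : ℝ) else 0) =
      (if S ⊆ free M then (1 : ℝ) else 0) - (if insert v S ⊆ free M then (1 : ℝ) else 0) := by
    intro M hM
    have h2 := sum_darts hM (fun a => if a = v ∧ S ⊆ free M then (1 : ℝ) else 0)
    rw [h2]
    by_cases hS : S ⊆ free M
    · by_cases hvM : v ∈ free M
      · rw [if_pos hS, if_pos (Finset.insert_subset_iff.2 ⟨hvM, hS⟩), sub_self]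
        refine Finset.sum_eq_zero fun a ha => ?_
        rw [if_neg]
        rintro ⟨rfl, _⟩
        exact (Finset.mem_filter.1 ha).2 hvM
      · rw [if_pos hS, if_neg (fun h => hvM (Finset.insert_subset_iff.1 h).1), sub_zero,
          Finset.sum_eq_single v]
        · rw [if_pos ⟨rfl, hS⟩]
        · intro a _ hav
          rw [if_neg (fun h => hav h.1)]
        · intro h
          exact (h (Finset.mem_filter.2 ⟨Finset.mem_univ v, hvM⟩)).elim
    · rw [if_neg hS, if_neg (fun h => hS (Finset.insert_subset_iff.1 h).2), sub_zero]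
      exact Finset.sum_eq_zero fun a _ => if_neg (fun h => hS h.2)
  have h2 : ∀ N ∈ mats G k, ∑ p ∈ univ.filter
      (fun p : V × V => p.1 ∈ free N ∧ p.2 ∈ free N ∧ G.Adj p.1 p.2),
      (if p.1 = v ∧ S ⊆ free (insert s(p.1, p.2) N) then (1 : ℝ) else 0) =
      ∑ w ∈ univ.filter (fun w => G.Adj v w ∧ w ∉ S),
        if insert w (insert v S) ⊆ free N then (1 : ℝ) else 0 := by
    intro N _
    rw [Finset.sum_filter, Fintype.sum_prod_type, Finset.sum_eq_single v, Finset.sum_filter]
    · refine Finset.sum_congr rfl fun w _ => ?_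
      simp only [← ite_and]
      refine if_congr ?_ rfl rfl
      rw [AA_sub, Finset.insert_subset_iff, Finset.insert_subset_iff]
      tauto
    · intro a _ hav
      refine Finset.sum_eq_zero fun w _ => ?_
      simp only [← ite_and]
      exact if_neg (fun h => hav h.2.1)
    · intro h
      exact absurd (Finset.mem_univ _) h
  have h3 := sum_insert (G := G) k (fun M p => if p.1 = v ∧ S ⊆ free M then (1 : ℝ) else 0)
  rw [Finset.sum_congr rfl h1, Finset.sum_congr rfl h2, Finset.sum_sub_distrib, ← AA_cl, ← AA_cl,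
    Finset.sum_comm] at h3
  have h4 : ∑ w ∈ univ.filter (fun w => G.Adj v w ∧ w ∉ S), cl G k (insert w (insert v S)) =
      ∑ w ∈ univ.filter (fun w => G.Adj v w ∧ w ∉ S), ∑ N ∈ mats G k,
        if insert w (insert v S) ⊆ free N then (1 : ℝ) else 0 :=
    Finset.sum_congr rfl fun w _ => AA_cl _ _
  rw [h4, ← h3]
  ring

open scoped Classical in
/-- The part of the double count with a covered second vertex. -/
private theorem AA_two (k : ℕ) (S : Finset V) {c : V} (hc : c ∉ S) (A : Finset V)
    (hA : ∀ v ∈ A, G.Adj c v ∧ v ∉ S) :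
    ∑ N ∈ mats G k, (if insert c S ⊆ free N then ∑ v ∈ univ.filter (fun v => v ∉ free N),
      (if v ∈ A then (1 : ℝ) else 0) else 0) ≤
    ∑ N ∈ mats G k, (if S ⊆ free N ∧ c ∉ free N then ((free N).card : ℝ) else 0) := by
  rcases k with _ | k
  · refine Finset.sum_le_sum fun N hN => ?_
    have h0 : N = ∅ := Finset.card_eq_zero.1 (mem_mats.1 hN).2.1
    subst h0
    have h1 : (univ.filter fun v => v ∉ free (∅ : Finset (Sym2 V))) = ∅ := by
      refine Finset.filter_eq_empty_iff.2 fun v _ hv => hv ?_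
      exact mem_free.2 fun e he => absurd he (Finset.notMem_empty e)
    rw [h1, Finset.sum_empty, ite_self]
    split_ifs
    · positivity
    · exact le_refl _
  · have e1 : ∀ M ∈ mats G (k + 1), (if insert c S ⊆ free M then
        ∑ v ∈ univ.filter (fun v => v ∉ free M), (if v ∈ A then (1 : ℝ) else 0) else 0) =
        ∑ p ∈ univ.filter (fun p : V × V => s(p.1, p.2) ∈ M),
          (if insert c S ⊆ free M ∧ p.1 ∈ A then (1 : ℝ) else 0) := by
      intro M hM
      have h2 := sum_darts hM (fun a => if insert c S ⊆ free M ∧ a ∈ A then (1 : ℝ) else 0)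
      rw [h2]
      by_cases h : insert c S ⊆ free M
      · rw [if_pos h]
        refine Finset.sum_congr rfl fun v _ => if_congr ?_ rfl rfl
        tauto
      · rw [if_neg h]
        exact (Finset.sum_eq_zero fun v _ => if_neg fun h' => h h'.1).symm
    have e2 : ∀ M ∈ mats G (k + 1), (if S ⊆ free M ∧ c ∉ free M then ((free M).card : ℝ) else 0) =
        ∑ p ∈ univ.filter (fun p : V × V => s(p.1, p.2) ∈ M),
          (if p.1 = c ∧ S ⊆ free M then ((free M).card : ℝ) else 0) := by
      intro M hM
      have h2 := sum_darts hM (fun a => if a = c ∧ S ⊆ free M then ((free M).card : ℝ) else 0)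
      rw [h2]
      by_cases h : S ⊆ free M ∧ c ∉ free M
      · rw [if_pos h, Finset.sum_eq_single c]
        · rw [if_pos ⟨rfl, h.1⟩]
        · intro a _ hac
          exact if_neg fun h' => hac h'.1
        · intro h'
          exact (h' (Finset.mem_filter.2 ⟨Finset.mem_univ c, h.2⟩)).elim
      · rw [if_neg h]
        refine (Finset.sum_eq_zero fun a ha => if_neg ?_).symm
        rintro ⟨rfl, h'⟩
        exact h ⟨h', (Finset.mem_filter.1 ha).2⟩
    rw [Finset.sum_congr rfl e1, Finset.sum_congr rfl e2,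
      sum_insert (G := G) k (fun M p => if insert c S ⊆ free M ∧ p.1 ∈ A then (1 : ℝ) else 0),
      sum_insert (G := G) k (fun M p => if p.1 = c ∧ S ⊆ free M then ((free M).card : ℝ) else 0)]
    refine Finset.sum_le_sum fun N _ => ?_
    rw [Finset.sum_filter, Fintype.sum_prod_type, Finset.sum_filter, Fintype.sum_prod_type]
    have h3 : ∑ x : V, ∑ y : V, (if (x, y).1 ∈ free N ∧ (x, y).2 ∈ free N ∧ G.Adj (x, y).1 (x, y).2
        then (if (x, y).1 = c ∧ S ⊆ free (insert s((x, y).1, (x, y).2) N) then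
          ((free (insert s((x, y).1, (x, y).2) N)).card : ℝ) else 0) else 0) =
        ∑ y : V, (if (c, y).1 ∈ free N ∧ (c, y).2 ∈ free N ∧ G.Adj (c, y).1 (c, y).2
        then (if (c, y).1 = c ∧ S ⊆ free (insert s((c, y).1, (c, y).2) N) then
          ((free (insert s((c, y).1, (c, y).2) N)).card : ℝ) else 0) else 0) := by
      refine Finset.sum_eq_single c ?_ (fun h => absurd (Finset.mem_univ _) h)
      intro a _ hac
      refine Finset.sum_eq_zero fun y _ => ?_
      simp only [← ite_and]
      exact if_neg fun h => hac h.2.1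
    rw [h3]
    refine Finset.sum_le_sum fun v _ => ?_
    by_cases hQ : c ∈ free N ∧ v ∈ free N ∧ G.Adj c v ∧ S ⊆ free N ∧ v ∉ S
    · obtain ⟨q1, q2, q3, q4, q5⟩ := hQ
      have h4 : (if (c, v).1 ∈ free N ∧ (c, v).2 ∈ free N ∧ G.Adj (c, v).1 (c, v).2
        then (if (c, v).1 = c ∧ S ⊆ free (insert s((c, v).1, (c, v).2) N) then
          ((free (insert s((c, v).1, (c, v).2) N)).card : ℝ) else 0) else 0) =
          ((free (insert s(c, v) N)).card : ℝ) := by
        rw [if_pos ⟨q1, q2, q3⟩, if_pos ⟨rfl, AA_sub.2 ⟨q4, hc, q5⟩⟩]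
      rw [h4]
      simp only [← ite_and]
      rw [← Finset.sum_filter, Finset.sum_const, nsmul_eq_mul, mul_one, Nat.cast_le]
      refine Finset.card_le_card fun y hy => ?_
      obtain ⟨⟨_, y2, y3⟩, y4, _⟩ := (Finset.mem_filter.1 hy).2
      rw [AA_sub] at y4
      have y5 : y ≠ c := fun h => y4.2.2 (h ▸ Finset.mem_insert_self c S)
      exact mem_free_insert.2 ⟨y2, y5, y3.ne'⟩
    · refine le_trans (le_of_eq (b := (0 : ℝ)) ?_) ?_
      · refine Finset.sum_eq_zero fun y _ => ?_
        simp only [← ite_and]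
        refine if_neg ?_
        rintro ⟨⟨y1, _, _⟩, y4, y5⟩
        rw [AA_sub, Finset.insert_subset_iff] at y4
        exact hQ ⟨y4.1.1, y1, (hA v y5).1, y4.1.2, (hA v y5).2⟩
      · split_ifs
        · positivity
        · exact le_refl _
        · exact le_refl _

open scoped Classical in
theorem cl_slide {r : ℕ} (hreg : Reg G r) (k : ℕ) (S : Finset V) {c : V} (hc : c ∉ S) :
    ((r : ℝ) - S.card) * cl G k (insert c S) ≤ ((Fintype.card V : ℝ) - 2 * k) * cl G k S := by
  set A : Finset V := univ.filter fun v => G.Adj c v ∧ v ∉ S with hAd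
  have hA : ∀ v ∈ A, G.Adj c v ∧ v ∉ S := fun v hv => (Finset.mem_filter.1 hv).2
  have hcard : (r : ℝ) - S.card ≤ A.card := by
    have h1 : (univ.filter fun u => G.Adj c u) ⊆ A ∪ S := by
      intro u hu
      by_cases h : u ∈ S
      · exact Finset.mem_union_right _ h
      · exact Finset.mem_union_left _ (Finset.mem_filter.2 ⟨Finset.mem_univ _, (Finset.mem_filter.1 hu).2, h⟩)
    have h2 := (Finset.card_le_card h1).trans (Finset.card_union_le _ _)
    have h3 : (univ.filter fun u => G.Adj c u).card = r := hreg c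
    rw [h3] at h2
    have h4 : (r : ℝ) ≤ A.card + S.card := by exact_mod_cast h2
    linarith
  have hcl : 0 ≤ cl G k (insert c S) := by unfold cl; positivity
  refine (mul_le_mul_of_nonneg_right hcard hcl).trans ?_
  have e1 : (A.card : ℝ) * cl G k (insert c S) =
      ∑ N ∈ mats G k, (if insert c S ⊆ free N then ∑ v ∈ free N, (if v ∈ A then (1 : ℝ) else 0) else 0) +
      ∑ N ∈ mats G k, (if insert c S ⊆ free N then ∑ v ∈ univ.filter (fun v => v ∉ free N),
        (if v ∈ A then (1 : ℝ) else 0) else 0) := by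
    rw [AA_cl, Finset.mul_sum, ← Finset.sum_add_distrib]
    refine Finset.sum_congr rfl fun N _ => ?_
    by_cases h : insert c S ⊆ free N
    · rw [if_pos h, if_pos h, if_pos h, mul_one]
      have h1 := Finset.sum_filter_add_sum_filter_not (univ : Finset V) (fun v => v ∈ free N)
        (fun v => if v ∈ A then (1 : ℝ) else 0)
      have h2 : (univ.filter fun v => v ∈ free N) = free N := by
        ext v
        simp
      rw [h2] at h1
      rw [h1, Finset.sum_ite_mem, Finset.univ_inter, Finset.sum_const, nsmul_eq_mul, mul_one]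
    · rw [if_neg h, if_neg h, if_neg h, mul_zero, add_zero]
  have e2 : ((Fintype.card V : ℝ) - 2 * k) * cl G k S =
      ∑ N ∈ mats G k, (if S ⊆ free N ∧ c ∈ free N then ((free N).card : ℝ) else 0) +
      ∑ N ∈ mats G k, (if S ⊆ free N ∧ c ∉ free N then ((free N).card : ℝ) else 0) := by
    rw [AA_cl, Finset.mul_sum, ← Finset.sum_add_distrib]
    refine Finset.sum_congr rfl fun N hN => ?_
    have h1 : ((free N).card : ℝ) + 2 * k = Fintype.card V := by exact_mod_cast card_free hN
    by_cases h : S ⊆ free N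
    · by_cases h' : c ∈ free N
      · rw [if_pos h, if_pos ⟨h, h'⟩, if_neg (fun h2 => h2.2 h')]
        linarith
      · rw [if_pos h, if_neg (fun h2 => h' h2.2), if_pos ⟨h, h'⟩]
        linarith
    · rw [if_neg h, if_neg (fun h2 => h h2.1), if_neg (fun h2 => h h2.1), mul_zero, add_zero]
  rw [e1, e2]
  refine add_le_add ?_ (AA_two k S hc A hA)
  refine Finset.sum_le_sum fun N _ => ?_
  by_cases h : insert c S ⊆ free N
  · have h1 := Finset.insert_subset_iff.1 h
    rw [if_pos h, if_pos ⟨h1.2, h1.1⟩]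
    calc ∑ v ∈ free N, (if v ∈ A then (1 : ℝ) else 0) ≤ ∑ v ∈ free N, (1 : ℝ) := by
          refine Finset.sum_le_sum fun v _ => ?_
          split_ifs
          · exact le_refl _
          · exact zero_le_one
      _ = ((free N).card : ℝ) := by rw [Finset.sum_const, nsmul_eq_mul, mul_one]
  · rw [if_neg h]
    split_ifs
    · positivity
    · exact le_refl _

end

end Pool.Agent.Lib.MP_eeed5c_coD
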