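import Pool.Agent.Lib.MP_eeed5c_co_D.AA

/-!
# Deleting one more vertex, truncated weights

`ZJ_eq`: PROOF. `WS` is a sum over levels (`WS_levels` in `Base.lean` of the library `T`), and for
`N ∈ mats G k` `(free N).card = card V - 2 k` (`card_free`), so `(free N).card ≤ J` iff `card V ≤ 2 k + J`.

`ZJ_slide`: PROOF. `ZJ_eq`, term by term: if `card V ≤ 2 k + J`, then `card V - 2 k ≤ J`, and
`cl_slide` times `x^k`.

`ZJ_step`: PROOF. `ZJ_eq`, `cl_rec` for the levels `k + 1` (for the level `0`: `cl G 0 S = 1 = cl G 0 (insert c S)`,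
`mats G 0 = {∅}`): with `[k] = 1` if `card V ≤ 2 k + J` and `0` otherwise,
`ZJ J S = ZJ J (insert c S) + ∑ k, [k+1] x^(k+1) ∑ w (w ~ c, w ∉ S), cl G k (insert w (insert c S))`, and
`card V ≤ 2 (k + 1) + J` iff `card V ≤ 2 k + (J + 2)`, so
`ZJ J S = ZJ J (insert c S) + x ∑ w (w ~ c, w ∉ S), ZJ (J+2) (insert w (insert c S))`. There are at most `r` vertices `w`;
`w ∉ insert c S` (`c` is not adjacent to itself), and by `ZJ_slide` with the set `insert c S` (of
`S.card + 1` elements), `(r - (S.card + 1)) * ZJ (J+2) (insert w (insert c S)) ≤ (J + 2) ZJ (J+2) (insert c S)`,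
where `r - (S.card + 1) ≥ r / 2`; so every term is at most `(2 (J + 2) / r) ZJ (J+2) (insert c S)`.
`ZJ J (insert c S) ≤ ZJ (J+2) (insert c S)`.
-/

set_option autoImplicit false

namespace Pool.Agent.Lib.MP_eeed5c_coD

open Finset Pool.Agent.Lib.MP_eeed5c_co Pool.Agent.Lib.MP_eeed5c_coT

section

variable {V : Type*} [Fintype V] {G : SimpleGraph V}

private theorem AB_cl_nonneg (k : ℕ) (S : Finset V) : 0 ≤ cl G k S := by
  unfold cl
  exact Nat.cast_nonneg _

private theorem AB_lev (x : ℝ) (J : ℕ) (S : Finset V) {K : ℕ} (hK : Fintype.card V < 2 * K) :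
    ZJ G x J S = ∑ k ∈ range K,
      (if Fintype.card V ≤ 2 * k + J then x ^ k * cl G k S else 0) := by
  classical
  unfold ZJ WJ
  rw [WS_levels x _ hK]
  refine Finset.sum_congr rfl fun k _ => ?_
  by_cases h : Fintype.card V ≤ 2 * k + J
  · rw [if_pos h]
    unfold cl
    rw [Finset.card_filter, Nat.cast_sum]
    congr 1
    refine Finset.sum_congr rfl fun N hN => ?_
    have hc := card_free hN
    have h1 : (free N).card ≤ J := by omega
    by_cases h2 : S ⊆ free N
    · rw [if_pos ⟨h1, h2⟩, if_pos h2, Nat.cast_one]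
    · rw [if_neg (fun h3 => h2 h3.2), if_neg h2, Nat.cast_zero]
  · rw [if_neg h]
    refine mul_eq_zero_of_right _ (Finset.sum_eq_zero fun N hN => ?_)
    have hc := card_free hN
    rw [if_neg]
    rintro ⟨h1, _⟩
    omega

theorem ZJ_eq (x : ℝ) (J : ℕ) (S : Finset V) :
    ZJ G x J S = ∑ k ∈ range (Fintype.card V + 1),
      (if Fintype.card V ≤ 2 * k + J then x ^ k * cl G k S else 0) :=
  AB_lev x J S (by omega)

open scoped Classical in
theorem ZJ_slide {r : ℕ} (hreg : Reg G r) {x : ℝ} (hx : 0 ≤ x) (J : ℕ) (S : Finset V) {c : V}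
    (hc : c ∉ S) : ((r : ℝ) - S.card) * ZJ G x J (insert c S) ≤ J * ZJ G x J S := by
  rw [ZJ_eq, ZJ_eq, Finset.mul_sum, Finset.mul_sum]
  refine Finset.sum_le_sum fun k _ => ?_
  by_cases h : Fintype.card V ≤ 2 * k + J
  · rw [if_pos h, if_pos h]
    have h1 := cl_slide hreg k S hc
    have h2 : ((Fintype.card V : ℝ) - 2 * k) * cl G k S ≤ J * cl G k S := by
      refine mul_le_mul_of_nonneg_right ?_ (AB_cl_nonneg k S)
      have h' : (Fintype.card V : ℝ) ≤ 2 * k + J := by exact_mod_cast h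
      linarith
    calc ((r : ℝ) - S.card) * (x ^ k * cl G k (insert c S))
        = x ^ k * (((r : ℝ) - S.card) * cl G k (insert c S)) := by ring
      _ ≤ x ^ k * (J * cl G k S) := mul_le_mul_of_nonneg_left (h1.trans h2) (pow_nonneg hx k)
      _ = J * (x ^ k * cl G k S) := by ring
  · rw [if_neg h, if_neg h, mul_zero, mul_zero]

private theorem AB_ZJ_nonneg {x : ℝ} (hx : 0 ≤ x) (J : ℕ) (S : Finset V) : 0 ≤ ZJ G x J S := by
  rw [ZJ_eq]
  refine Finset.sum_nonneg fun k _ => ?_
  split_ifs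
  · exact mul_nonneg (pow_nonneg hx k) (AB_cl_nonneg k S)
  · exact le_rfl

private theorem AB_ZJ_mono {x : ℝ} (hx : 0 ≤ x) (J : ℕ) (S : Finset V) :
    ZJ G x J S ≤ ZJ G x (J + 2) S := by
  rw [ZJ_eq, ZJ_eq]
  refine Finset.sum_le_sum fun k _ => ?_
  by_cases h : Fintype.card V ≤ 2 * k + J
  · rw [if_pos h, if_pos (by omega)]
  · rw [if_neg h]
    split_ifs
    · exact mul_nonneg (pow_nonneg hx k) (AB_cl_nonneg k S)
    · exact le_rfl

open scoped Classical in
private theorem AB_cl_zero (S : Finset V) (c : V) : cl G 0 S = cl G 0 (insert c S) := by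
  unfold cl
  congr 1
  congr 1
  refine Finset.filter_congr fun N hN => ?_
  have h : N = ∅ := Finset.card_eq_zero.1 (mem_mats.1 hN).2.1
  subst h
  have hu : free (∅ : Finset (Sym2 V)) = univ := by
    ext v; simp [mem_free]
  rw [hu]
  exact ⟨fun _ => Finset.subset_univ _, fun _ => Finset.subset_univ _⟩

open scoped Classical in
private theorem AB_rec {x : ℝ} (J : ℕ) (S : Finset V) {c : V} (hc : c ∉ S) :
    ZJ G x J S = ZJ G x J (insert c S) + x * ∑ w ∈ univ.filter (fun w => G.Adj c w ∧ w ∉ S),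
      ZJ G x (J + 2) (insert w (insert c S)) := by
  rw [AB_lev x J S (K := Fintype.card V + 2) (by omega),
    AB_lev x J (insert c S) (K := Fintype.card V + 2) (by omega), Finset.sum_range_succ',
    Finset.sum_range_succ' (n := Fintype.card V + 1), AB_cl_zero S c]
  have h1 : ∑ w ∈ univ.filter (fun w => G.Adj c w ∧ w ∉ S), ZJ G x (J + 2) (insert w (insert c S)) =
      ∑ k ∈ range (Fintype.card V + 1), (if Fintype.card V ≤ 2 * k + (J + 2) then
        x ^ k * ∑ w ∈ univ.filter (fun w => G.Adj c w ∧ w ∉ S), cl G k (insert w (insert c S)) else 0) := by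
    rw [Finset.sum_congr rfl fun w _ => ZJ_eq x (J + 2) (insert w (insert c S)), Finset.sum_comm]
    refine Finset.sum_congr rfl fun k _ => ?_
    by_cases h : Fintype.card V ≤ 2 * k + (J + 2)
    · rw [if_pos h, Finset.mul_sum]
      exact Finset.sum_congr rfl fun w _ => by rw [if_pos h]
    · rw [if_neg h]
      exact Finset.sum_eq_zero fun w _ => by rw [if_neg h]
  rw [h1, Finset.mul_sum, add_right_comm, ← Finset.sum_add_distrib]
  congr 1
  refine Finset.sum_congr rfl fun k _ => ?_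
  by_cases h : Fintype.card V ≤ 2 * (k + 1) + J
  · have h' : Fintype.card V ≤ 2 * k + (J + 2) := by omega
    rw [if_pos h, if_pos h, if_pos h', cl_rec k S hc, pow_succ]
    ring
  · have h' : ¬ Fintype.card V ≤ 2 * k + (J + 2) := by omega
    rw [if_neg h, if_neg h, if_neg h', mul_zero, add_zero]

open scoped Classical in
theorem ZJ_step {r : ℕ} (hreg : Reg G r) {x : ℝ} (hx : 0 ≤ x) (J : ℕ) (S : Finset V) {c : V}
    (hc : c ∉ S) (hS : 2 * (S.card + 1) ≤ r) :
    ZJ G x J S ≤ (1 + 2 * x * (J + 2)) * ZJ G x (J + 2) (insert c S) := by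
  have hr0 : (0 : ℝ) < r := by
    have : 0 < r := by omega
    exact_mod_cast this
  have hrS : (r : ℝ) / 2 ≤ (r : ℝ) - (S.card + 1 : ℕ) := by
    have : 2 * ((S.card : ℝ) + 1) ≤ r := by exact_mod_cast hS
    push_cast
    linarith
  have hZ := AB_ZJ_nonneg (G := G) hx (J + 2) (insert c S)
  have hw : ∀ w ∈ univ.filter (fun w => G.Adj c w ∧ w ∉ S),
      ZJ G x (J + 2) (insert w (insert c S)) ≤ 2 * (J + 2) / r * ZJ G x (J + 2) (insert c S) := by
    intro w hw
    rw [Finset.mem_filter] at hw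
    have hwc : w ∉ insert c S := by
      rw [Finset.mem_insert, not_or]
      exact ⟨hw.2.1.ne', hw.2.2⟩
    have h1 := ZJ_slide hreg hx (J + 2) (insert c S) hwc
    rw [Finset.card_insert_of_notMem hc] at h1
    have h2 := AB_ZJ_nonneg (G := G) hx (J + 2) (insert w (insert c S))
    have h3 : (r : ℝ) / 2 * ZJ G x (J + 2) (insert w (insert c S)) ≤
        ((J + 2 : ℕ) : ℝ) * ZJ G x (J + 2) (insert c S) :=
      (mul_le_mul_of_nonneg_right hrS h2).trans h1
    push_cast at h3
    rw [div_mul_eq_mul_div, le_div_iff₀ hr0]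
    linarith
  have hcard : ((univ.filter (fun w => G.Adj c w ∧ w ∉ S)).card : ℝ) ≤ r := by
    have h := hreg c
    have h1 : (univ.filter (fun w => G.Adj c w ∧ w ∉ S)).card ≤ (univ.filter fun w => G.Adj c w).card :=
      Finset.card_le_card fun w hw => by
        rw [Finset.mem_filter] at hw ⊢
        exact ⟨hw.1, hw.2.1⟩
    rw [h] at h1
    exact_mod_cast h1
  have hsum : ∑ w ∈ univ.filter (fun w => G.Adj c w ∧ w ∉ S), ZJ G x (J + 2) (insert w (insert c S)) ≤
      2 * (J + 2) * ZJ G x (J + 2) (insert c S) := by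
    refine (Finset.sum_le_sum hw).trans ?_
    rw [Finset.sum_const, nsmul_eq_mul]
    calc ((univ.filter (fun w => G.Adj c w ∧ w ∉ S)).card : ℝ) *
          (2 * (J + 2) / r * ZJ G x (J + 2) (insert c S))
        ≤ r * (2 * (J + 2) / r * ZJ G x (J + 2) (insert c S)) :=
          mul_le_mul_of_nonneg_right hcard (by positivity)
      _ = 2 * (J + 2) * ZJ G x (J + 2) (insert c S) := by field_simp
  rw [AB_rec J S hc]
  have h4 := AB_ZJ_mono (G := G) hx J (insert c S)
  have h5 := mul_le_mul_of_nonneg_left hsum hx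
  calc ZJ G x J (insert c S) + x * ∑ w ∈ univ.filter (fun w => G.Adj c w ∧ w ∉ S),
        ZJ G x (J + 2) (insert w (insert c S))
      ≤ ZJ G x (J + 2) (insert c S) + x * (2 * (J + 2) * ZJ G x (J + 2) (insert c S)) :=
        add_le_add h4 h5
    _ = (1 + 2 * x * (J + 2)) * ZJ G x (J + 2) (insert c S) := by ring

end

end Pool.Agent.Lib.MP_eeed5c_coD
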