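import Pool.Agent.Lib.MP_eeed5c_co_D.AB

/-!
# Few given uncovered vertices

`ZJ_one_le`: `ZJ_slide` with `S = ∅`. `ZJ_two_le`: `ZJ_slide` with `S = {b}`, then with `S = ∅`.
`ZJ_four`: four times `ZJ_step`, with `S = ∅, {d}, {c,d}, {b,c,d}` (at most `3` elements, `8 ≤ r`), the factors
`1 + 2 x (J + 2)`, ..., `1 + 2 x (J + 8)` are at most `1 + 2 x (J + 8)`.
`ZJ_le`: `ZJ G x J ∅ ≤ ∑ x^|N| = (mp G).eval x` (`WS_one` in `Base.lean`, `WS_mono`). `WJ_mono`: pointwise.
`ZJ_markov`: PROOF. `(mp G).eval x * card V - 2 x (mp G)'.eval x = WS G x (fun N => (free N).card)` (`card_free`;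
`∑ k, x^k (card V - 2 k) |mats G k|`), and `(free N).card ≥ (J + 1) [(free N).card > J]`, so
`(J + 1) * (Z - ZJ G x J ∅) ≤ Z J / 2` with `Z = (mp G).eval x`, that is `Z - ZJ ≤ Z / 2`.
-/

set_option autoImplicit false

namespace Pool.Agent.Lib.MP_eeed5c_coD

open Finset Pool.Agent.Lib.MP_eeed5c_co Pool.Agent.Lib.MP_eeed5c_coT

section

variable {V : Type*} [Fintype V] {G : SimpleGraph V}

theorem WJ_mono {x : ℝ} (hx : 0 ≤ x) {J J' : ℕ} (hJ : J ≤ J') {E E' : Finset (Sym2 V) → Prop}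
    (h : ∀ N ∈ Mt G, (free N).card ≤ J → E N → E' N) : WJ G x J E ≤ WJ G x J' E' := by
  classical
  unfold WJ
  refine WS_mono hx fun N hN => ?_
  by_cases h1 : (free N).card ≤ J ∧ E N
  · rw [if_pos h1, if_pos ⟨h1.1.trans hJ, h N hN h1.1 h1.2⟩]
  · rw [if_neg h1]
    split_ifs
    · exact zero_le_one
    · exact le_refl _

theorem ZJ_le {x : ℝ} (hx : 0 ≤ x) (J : ℕ) : ZJ G x J ∅ ≤ (mp G).eval x := by
  rw [← WS_one]
  unfold ZJ WJ
  refine WS_mono hx fun N _ => ?_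
  split_ifs
  · exact le_refl _
  · exact zero_le_one

open scoped Classical in
theorem ZJ_one_le {r : ℕ} (hreg : Reg G r) {x : ℝ} (hx : 0 ≤ x) (J : ℕ) (a : V) :
    (r : ℝ) * ZJ G x J {a} ≤ J * (mp G).eval x := by
  have h1 := ZJ_slide hreg hx J ∅ (c := a) (Finset.notMem_empty a)
  rw [Finset.card_empty, Nat.cast_zero, sub_zero, insert_empty_eq] at h1
  exact h1.trans (mul_le_mul_of_nonneg_left (ZJ_le hx J) (Nat.cast_nonneg J))

open scoped Classical in
theorem ZJ_two_le {r : ℕ} (hr : 2 ≤ r) (hreg : Reg G r) {x : ℝ} (hx : 0 ≤ x) (J : ℕ) {a b : V}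
    (hab : a ≠ b) : (r : ℝ) * ((r : ℝ) - 1) * ZJ G x J {a, b} ≤ (J : ℝ) ^ 2 * (mp G).eval x := by
  have h1 := ZJ_slide hreg hx J {b} (c := a) (by rw [Finset.mem_singleton]; exact hab)
  rw [Finset.card_singleton, Nat.cast_one] at h1
  have h2 := ZJ_one_le hreg hx J b
  have hr0 : (0 : ℝ) ≤ r := Nat.cast_nonneg r
  have hJ0 : (0 : ℝ) ≤ J := Nat.cast_nonneg J
  calc (r : ℝ) * ((r : ℝ) - 1) * ZJ G x J {a, b} = r * (((r : ℝ) - 1) * ZJ G x J {a, b}) := by ring
    _ ≤ r * (J * ZJ G x J {b}) := mul_le_mul_of_nonneg_left h1 hr0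
    _ = J * (r * ZJ G x J {b}) := by ring
    _ ≤ J * (J * (mp G).eval x) := mul_le_mul_of_nonneg_left h2 hJ0
    _ = (J : ℝ) ^ 2 * (mp G).eval x := by ring

open scoped Classical in
theorem ZJ_four {r : ℕ} (hr : 8 ≤ r) (hreg : Reg G r) {x : ℝ} (hx : 0 ≤ x) (J : ℕ) {a b c d : V}
    (hab : a ≠ b) (hac : a ≠ c) (had : a ≠ d) (hbc : b ≠ c) (hbd : b ≠ d) (hcd : c ≠ d) :
    ZJ G x J ∅ ≤ (1 + 2 * x * (J + 8)) ^ 4 * ZJ G x (J + 8) {a, b, c, d} := by
  have hJ0 : (0 : ℝ) ≤ J := Nat.cast_nonneg J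
  have key : ∀ (J' : ℕ) (S : Finset V) (v : V), v ∉ S → 2 * (S.card + 1) ≤ r → J' + 2 ≤ J + 8 →
      ZJ G x J' S ≤ (1 + 2 * x * (J + 8)) * ZJ G x (J' + 2) (insert v S) := by
    intro J' S v hv hS hJ'
    refine (ZJ_step hreg hx J' S hv hS).trans (mul_le_mul_of_nonneg_right ?_ ?_)
    · have h1 : ((J' : ℝ) + 2) ≤ J + 8 := by exact_mod_cast hJ'
      have h2 := mul_le_mul_of_nonneg_left h1 (by linarith : (0 : ℝ) ≤ 2 * x)
      linarith
    · unfold ZJ WJ
      refine WS_nonneg hx fun N _ => ?_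
      split_ifs
      · exact zero_le_one
      · exact le_refl _
  have h1 := key J ∅ d (Finset.notMem_empty d) (by rw [Finset.card_empty]; omega) (by omega)
  have h2 := key (J + 2) {d} c (by rw [Finset.mem_singleton]; exact hcd) (by rw [Finset.card_singleton]; omega) (by omega)
  have h3 := key (J + 2 + 2) {c, d} b (by
    rw [Finset.mem_insert, Finset.mem_singleton]
    exact fun h => h.elim hbc hbd) (by
    have := Finset.card_le_two (a := c) (b := d)
    omega) (by omega)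
  have h4 := key (J + 2 + 2 + 2) {b, c, d} a (by
    rw [Finset.mem_insert, Finset.mem_insert, Finset.mem_singleton]
    rintro (h | h | h)
    · exact hab h
    · exact hac h
    · exact had h) (by
    have := Finset.card_le_three (a := b) (b := c) (c := d)
    omega) (by omega)
  rw [insert_empty_eq] at h1
  have hA : (0 : ℝ) ≤ 1 + 2 * x * (J + 8) := by
    have := mul_nonneg (by linarith : (0 : ℝ) ≤ 2 * x) (by linarith : (0 : ℝ) ≤ (J : ℝ) + 8)
    linarith
  calc ZJ G x J ∅ ≤ (1 + 2 * x * (J + 8)) * ZJ G x (J + 2) {d} := h1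
    _ ≤ (1 + 2 * x * (J + 8)) * ((1 + 2 * x * (J + 8)) * ZJ G x (J + 2 + 2) {c, d}) :=
        mul_le_mul_of_nonneg_left h2 hA
    _ ≤ (1 + 2 * x * (J + 8)) * ((1 + 2 * x * (J + 8)) * ((1 + 2 * x * (J + 8)) * ZJ G x (J + 2 + 2 + 2) {b, c, d})) :=
        mul_le_mul_of_nonneg_left (mul_le_mul_of_nonneg_left h3 hA) hA
    _ ≤ (1 + 2 * x * (J + 8)) * ((1 + 2 * x * (J + 8)) * ((1 + 2 * x * (J + 8)) * ((1 + 2 * x * (J + 8)) *
          ZJ G x (J + 2 + 2 + 2 + 2) {a, b, c, d}))) :=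
        mul_le_mul_of_nonneg_left (mul_le_mul_of_nonneg_left (mul_le_mul_of_nonneg_left h4 hA) hA) hA
    _ = (1 + 2 * x * (J + 8)) ^ 4 * ZJ G x (J + 8) {a, b, c, d} := by ring

theorem ZJ_markov {x : ℝ} (hx : 0 ≤ x) {J : ℕ}
    (h : 2 * ((Fintype.card V : ℝ) * (mp G).eval x - 2 * (x * (mp G).derivative.eval x)) ≤
      J * (mp G).eval x) : (mp G).eval x ≤ 2 * ZJ G x J ∅ := by
  classical
  have hJ0 : (0 : ℝ) ≤ J := Nat.cast_nonneg J
  have h1 : WS G x (fun N => ((free N).card : ℝ)) =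
      (Fintype.card V : ℝ) * (mp G).eval x - 2 * (x * (mp G).derivative.eval x) := by
    have hd : x * (mp G).derivative.eval x = ∑ i ∈ range (Fintype.card V + 1), (i : ℝ) * (((mats G i).card : ℝ) * x ^ i) := by
      unfold mp
      rw [Polynomial.derivative_sum, Polynomial.eval_finsetSum, Finset.mul_sum]
      refine Finset.sum_congr rfl fun j _ => ?_
      rw [Polynomial.derivative_monomial, Polynomial.eval_monomial]
      rcases Nat.eq_zero_or_pos j with rfl | hj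
      · simp
      · obtain ⟨i, rfl⟩ : ∃ i, j = i + 1 := ⟨j - 1, by omega⟩
        rw [Nat.add_sub_cancel, pow_succ]
        push_cast
        ring
    rw [WS_levels x _ (K := Fintype.card V + 1) (by omega), mp_eval, hd, Finset.mul_sum, Finset.mul_sum,
      ← Finset.sum_sub_distrib]
    refine Finset.sum_congr rfl fun i _ => ?_
    have h2 : ∑ N ∈ mats G i, ((free N).card : ℝ) = ∑ _N ∈ mats G i, ((Fintype.card V : ℝ) - 2 * i) := by
      refine Finset.sum_congr rfl fun N hN => ?_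
      have h3 : (((free N).card + 2 * i : ℕ) : ℝ) = Fintype.card V := by rw [card_free hN]
      push_cast at h3
      linarith
    rw [h2, Finset.sum_const, nsmul_eq_mul]
    ring
  have h2 : (J + 1 : ℝ) * ((mp G).eval x - ZJ G x J ∅) ≤ WS G x (fun N => ((free N).card : ℝ)) := by
    have h3 : (J + 1 : ℝ) * ((mp G).eval x - ZJ G x J ∅) =
        WS G x (fun N => (J + 1 : ℝ) * (1 - if (free N).card ≤ J ∧ (∅ : Finset V) ⊆ free N then 1 else 0)) := by
      have h6 : ZJ G x J ∅ = WS G x (fun N => if (free N).card ≤ J ∧ (∅ : Finset V) ⊆ free N then 1 else 0) := by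
        unfold ZJ WJ
        refine WS_congr x fun N _ => ?_
        by_cases h7 : (free N).card ≤ J ∧ (∅ : Finset V) ⊆ free N
        · rw [if_pos h7, if_pos h7]
        · rw [if_neg h7, if_neg h7]
      rw [WS_smul, WS_sub, WS_one, h6]
    rw [h3]
    refine WS_mono hx fun N _ => ?_
    by_cases h4 : (free N).card ≤ J ∧ (∅ : Finset V) ⊆ free N
    · rw [if_pos h4, sub_self, mul_zero]
      exact Nat.cast_nonneg _
    · rw [if_neg h4, sub_zero, mul_one]
      have h5 : J + 1 ≤ (free N).card := by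
        by_contra hcon
        exact h4 ⟨by omega, Finset.empty_subset _⟩
      exact_mod_cast h5
  rw [h1] at h2
  have hZ : 0 ≤ (mp G).eval x := zero_le_one.trans (mp_eval_pos hx)
  by_contra hcon
  push Not at hcon
  have h3 : 0 < (mp G).eval x - 2 * ZJ G x J ∅ := by linarith
  have h4 : (J + 1 : ℝ) * ((mp G).eval x - 2 * ZJ G x J ∅) + (J + 1) * (mp G).eval x ≤ J * (mp G).eval x := by
    linarith
  have h5 : 0 < (J + 1 : ℝ) * ((mp G).eval x - 2 * ZJ G x J ∅) := mul_pos (by linarith) h3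
  linarith

end

end Pool.Agent.Lib.MP_eeed5c_coD
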