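import Pool.Agent.Lib.MP_eeed5c_co_D.AC

/-!
# Matchings with given edges

`WS_edge`: `WS_insert` with `F' M p = if p = (a, b) then F M else 0`. `WS_edge2`: `WS_edge` for `s(a,b)`, then
for `s(c,d)`. `WJ_edge`: `WS_edge` and `ZJ_two_le` with `J + 2`. `WJ_edge2`: the same with `WS_edge2`.
-/

set_option autoImplicit false

namespace Pool.Agent.Lib.MP_eeed5c_coD

open Finset Pool.Agent.Lib.MP_eeed5c_co Pool.Agent.Lib.MP_eeed5c_coT

section

variable {V : Type*} [Fintype V] {G : SimpleGraph V}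

open scoped Classical in
theorem WS_edge (x : ℝ) {a b : V} (hab : G.Adj a b) (F : Finset (Sym2 V) → ℝ) :
    WS G x (fun M => if s(a, b) ∈ M then F M else 0) =
      x * WS G x (fun N => if a ∈ free N ∧ b ∈ free N then F (insert s(a, b) N) else 0) := by
  have h := WS_insert (G := G) x (fun M p => if p = (a, b) then F M else 0)
  have hl : ∀ M : Finset (Sym2 V), (∑ p ∈ univ.filter (fun p : V × V => s(p.1, p.2) ∈ M),
      if p = (a, b) then F M else 0) = if s(a, b) ∈ M then F M else 0 := by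
    intro M
    rw [Finset.sum_ite_eq']
    have hm : (a, b) ∈ univ.filter (fun p : V × V => s(p.1, p.2) ∈ M) ↔ s(a, b) ∈ M := by
      rw [Finset.mem_filter]
      exact ⟨fun h => h.2, fun h => ⟨Finset.mem_univ _, h⟩⟩
    by_cases hM : s(a, b) ∈ M
    · rw [if_pos hM, if_pos (hm.2 hM)]
    · rw [if_neg hM, if_neg (fun h1 => hM (hm.1 h1))]
  have hr : ∀ N : Finset (Sym2 V), (∑ p ∈ univ.filter
      (fun p : V × V => p.1 ∈ free N ∧ p.2 ∈ free N ∧ G.Adj p.1 p.2),
      if p = (a, b) then F (insert s(p.1, p.2) N) else 0) =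
        if a ∈ free N ∧ b ∈ free N then F (insert s(a, b) N) else 0 := by
    intro N
    rw [Finset.sum_ite_eq']
    by_cases hN : a ∈ free N ∧ b ∈ free N
    · rw [if_pos hN, if_pos (Finset.mem_filter.2 ⟨Finset.mem_univ _, hN.1, hN.2, hab⟩)]
    · rw [if_neg hN, if_neg (fun h1 => hN ⟨(Finset.mem_filter.1 h1).2.1, (Finset.mem_filter.1 h1).2.2.1⟩)]
  have h1 : (fun M : Finset (Sym2 V) => ∑ p ∈ univ.filter (fun p : V × V => s(p.1, p.2) ∈ M),
      if p = (a, b) then F M else 0) = fun M => if s(a, b) ∈ M then F M else 0 := funext hl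
  have h2 : (fun N : Finset (Sym2 V) => ∑ p ∈ univ.filter
      (fun p : V × V => p.1 ∈ free N ∧ p.2 ∈ free N ∧ G.Adj p.1 p.2),
      if p = (a, b) then F (insert s(p.1, p.2) N) else 0) =
        fun N => if a ∈ free N ∧ b ∈ free N then F (insert s(a, b) N) else 0 := funext hr
  rw [← h1, ← h2]
  exact h

open scoped Classical in
theorem WS_edge2 (x : ℝ) {a b c d : V} (hab : G.Adj a b) (hcd : G.Adj c d)
    (hac : a ≠ c) (had : a ≠ d) (hbc : b ≠ c) (hbd : b ≠ d) (F : Finset (Sym2 V) → ℝ) :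
    WS G x (fun M => if s(a, b) ∈ M ∧ s(c, d) ∈ M then F M else 0) =
      x ^ 2 * WS G x (fun N => if a ∈ free N ∧ b ∈ free N ∧ c ∈ free N ∧ d ∈ free N then
        F (insert s(a, b) (insert s(c, d) N)) else 0) := by
  have hne : s(c, d) ≠ s(a, b) := by
    intro h
    have h1 : c = a ∧ d = b ∨ c = b ∧ d = a := by simpa using h
    rcases h1 with h1 | h1
    · exact hac h1.1.symm
    · exact hbc h1.1.symm
  have e1 : WS G x (fun M => if s(a, b) ∈ M ∧ s(c, d) ∈ M then F M else 0) =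
      WS G x (fun M => if s(a, b) ∈ M then (if s(c, d) ∈ M then F M else 0) else 0) := by
    refine WS_congr x fun M _ => ?_
    by_cases h1 : s(a, b) ∈ M <;> by_cases h2 : s(c, d) ∈ M <;> simp [h1, h2]
  have e2 := WS_edge (G := G) x hab (fun M => if s(c, d) ∈ M then F M else 0)
  have e3 : WS G x (fun N => if a ∈ free N ∧ b ∈ free N then
      (if s(c, d) ∈ insert s(a, b) N then F (insert s(a, b) N) else 0) else 0) =
      WS G x (fun N => if s(c, d) ∈ N then
        (if a ∈ free N ∧ b ∈ free N then F (insert s(a, b) N) else 0) else 0) := by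
    refine WS_congr x fun N _ => ?_
    have h3 : s(c, d) ∈ insert s(a, b) N ↔ s(c, d) ∈ N := by
      rw [Finset.mem_insert]
      exact ⟨fun h => h.resolve_left hne, Or.inr⟩
    by_cases h1 : a ∈ free N ∧ b ∈ free N
    · by_cases h2 : s(c, d) ∈ N
      · rw [if_pos h1, if_pos (h3.2 h2), if_pos h2, if_pos h1]
      · rw [if_pos h1, if_neg (fun h => h2 (h3.1 h)), if_neg h2]
    · by_cases h2 : s(c, d) ∈ N
      · rw [if_neg h1, if_pos h2, if_neg h1]
      · rw [if_neg h1, if_neg h2]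
  have e4 := WS_edge (G := G) x hcd
    (fun N => if a ∈ free N ∧ b ∈ free N then F (insert s(a, b) N) else 0)
  have e5 : WS G x (fun N => if c ∈ free N ∧ d ∈ free N then
      (if a ∈ free (insert s(c, d) N) ∧ b ∈ free (insert s(c, d) N) then
        F (insert s(a, b) (insert s(c, d) N)) else 0) else 0) =
      WS G x (fun N => if a ∈ free N ∧ b ∈ free N ∧ c ∈ free N ∧ d ∈ free N then
        F (insert s(a, b) (insert s(c, d) N)) else 0) := by
    refine WS_congr x fun N _ => ?_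
    have h3 : a ∈ free (insert s(c, d) N) ↔ a ∈ free N := by
      rw [mem_free_insert]
      exact ⟨fun h => h.1, fun h => ⟨h, hac, had⟩⟩
    have h4 : b ∈ free (insert s(c, d) N) ↔ b ∈ free N := by
      rw [mem_free_insert]
      exact ⟨fun h => h.1, fun h => ⟨h, hbc, hbd⟩⟩
    by_cases h1 : c ∈ free N ∧ d ∈ free N
    · by_cases h2 : a ∈ free N ∧ b ∈ free N
      · rw [if_pos h1, if_pos ⟨h3.2 h2.1, h4.2 h2.2⟩, if_pos ⟨h2.1, h2.2, h1.1, h1.2⟩]
      · rw [if_pos h1, if_neg (fun h => h2 ⟨h3.1 h.1, h4.1 h.2⟩), if_neg (fun h => h2 ⟨h.1, h.2.1⟩)]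
    · rw [if_neg h1, if_neg (fun h => h1 ⟨h.2.2.1, h.2.2.2⟩)]
  rw [e1, e2, e3, e4, e5]
  ring

open scoped Classical in
theorem card_free_insert {N : Finset (Sym2 V)} {a b : V} (ha : a ∈ free N) (hb : b ∈ free N)
    (hab : a ≠ b) : (free (insert s(a, b) N)).card + 2 = (free N).card := by
  have h1 : free (insert s(a, b) N) = ((free N).erase a).erase b := by
    ext v
    rw [mem_free_insert, Finset.mem_erase, Finset.mem_erase]
    tauto
  have hb' : b ∈ (free N).erase a := Finset.mem_erase.2 ⟨hab.symm, hb⟩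
  have h2 := Finset.card_erase_add_one hb'
  have h3 := Finset.card_erase_add_one ha
  rw [h1]
  omega

theorem WJ_edge {r : ℕ} (hr : 2 ≤ r) (hreg : Reg G r) {x : ℝ} (hx : 0 ≤ x) (J : ℕ) {a b : V}
    (hab : G.Adj a b) : (r : ℝ) * ((r : ℝ) - 1) * WJ G x J (fun M => s(a, b) ∈ M) ≤
      x * ((J : ℝ) + 2) ^ 2 * (mp G).eval x := by
  classical
  have e1 : WJ G x J (fun M => s(a, b) ∈ M) = x * ZJ G x (J + 2) {a, b} := by
    unfold ZJ WJ
    have e2 := WS_edge (G := G) x hab (fun M => if (free M).card ≤ J then (1 : ℝ) else 0)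
    have e3 : WS G x (fun N => if (free N).card ≤ J ∧ s(a, b) ∈ N then (1 : ℝ) else 0) =
        WS G x (fun M => if s(a, b) ∈ M then (if (free M).card ≤ J then (1 : ℝ) else 0) else 0) := by
      refine WS_congr x fun M _ => ?_
      by_cases h1 : s(a, b) ∈ M <;> by_cases h2 : (free M).card ≤ J <;> simp [h1, h2]
    have e4 : WS G x (fun N => if a ∈ free N ∧ b ∈ free N then
        (if (free (insert s(a, b) N)).card ≤ J then (1 : ℝ) else 0) else 0) =
        WS G x (fun N => if (free N).card ≤ J + 2 ∧ ({a, b} : Finset V) ⊆ free N then (1 : ℝ) else 0) := by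
      refine WS_congr x fun N _ => ?_
      have h3 : ({a, b} : Finset V) ⊆ free N ↔ a ∈ free N ∧ b ∈ free N := by
        rw [Finset.insert_subset_iff, Finset.singleton_subset_iff]
      by_cases h1 : a ∈ free N ∧ b ∈ free N
      · have h4 := card_free_insert h1.1 h1.2 hab.ne
        by_cases h2 : (free N).card ≤ J + 2
        · rw [if_pos h1, if_pos (by omega), if_pos ⟨h2, h3.2 h1⟩]
        · rw [if_pos h1, if_neg (by omega), if_neg (fun h => h2 h.1)]
      · rw [if_neg h1, if_neg (fun h => h1 (h3.1 h.2))]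
    trans WS G x (fun N => if (free N).card ≤ J ∧ s(a, b) ∈ N then (1 : ℝ) else 0)
    · refine WS_congr x fun M _ => ?_
      by_cases h1 : (free M).card ≤ J ∧ s(a, b) ∈ M
      · rw [if_pos h1, if_pos h1]
      · rw [if_neg h1, if_neg h1]
    · rw [e3, e2, e4]
      congr 1
      refine WS_congr x fun M _ => ?_
      by_cases h1 : (free M).card ≤ J + 2 ∧ ({a, b} : Finset V) ⊆ free M
      · rw [if_pos h1, if_pos h1]
      · rw [if_neg h1, if_neg h1]
  rw [e1]
  have h := ZJ_two_le hr hreg hx (J + 2) hab.ne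
  have h1 := mul_le_mul_of_nonneg_left h hx
  push_cast at h1
  calc (r : ℝ) * ((r : ℝ) - 1) * (x * ZJ G x (J + 2) {a, b})
      = x * ((r : ℝ) * ((r : ℝ) - 1) * ZJ G x (J + 2) {a, b}) := by ring
    _ ≤ x * (((J : ℝ) + 2) ^ 2 * (mp G).eval x) := h1
    _ = x * ((J : ℝ) + 2) ^ 2 * (mp G).eval x := by ring

open scoped Classical in
theorem WJ_edge2 (x : ℝ) (J : ℕ) {a b c d : V} (hab : G.Adj a b) (hcd : G.Adj c d)
    (hac : a ≠ c) (had : a ≠ d) (hbc : b ≠ c) (hbd : b ≠ d) :
    WJ G x J (fun M => s(a, b) ∈ M ∧ s(c, d) ∈ M) = x ^ 2 * ZJ G x (J + 4) {a, b, c, d} := by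
  unfold ZJ WJ
  have e2 := WS_edge2 (G := G) x hab hcd hac had hbc hbd (fun M => if (free M).card ≤ J then (1 : ℝ) else 0)
  have e3 : WS G x (fun N => if (free N).card ≤ J ∧ s(a, b) ∈ N ∧ s(c, d) ∈ N then (1 : ℝ) else 0) =
      WS G x (fun M => if s(a, b) ∈ M ∧ s(c, d) ∈ M then
        (if (free M).card ≤ J then (1 : ℝ) else 0) else 0) := by
    refine WS_congr x fun M _ => ?_
    by_cases h1 : s(a, b) ∈ M ∧ s(c, d) ∈ M
    · by_cases h2 : (free M).card ≤ J
      · rw [if_pos ⟨h2, h1⟩, if_pos h1, if_pos h2]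
      · rw [if_neg (fun h => h2 h.1), if_pos h1, if_neg h2]
    · rw [if_neg (fun h => h1 h.2), if_neg h1]
  have e4 : WS G x (fun N => if a ∈ free N ∧ b ∈ free N ∧ c ∈ free N ∧ d ∈ free N then
      (if (free (insert s(a, b) (insert s(c, d) N))).card ≤ J then (1 : ℝ) else 0) else 0) =
      WS G x (fun N => if (free N).card ≤ J + 4 ∧ ({a, b, c, d} : Finset V) ⊆ free N then
        (1 : ℝ) else 0) := by
    refine WS_congr x fun N _ => ?_
    have h3 : ({a, b, c, d} : Finset V) ⊆ free N ↔ a ∈ free N ∧ b ∈ free N ∧ c ∈ free N ∧ d ∈ free N := by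
      rw [Finset.insert_subset_iff, Finset.insert_subset_iff, Finset.insert_subset_iff,
        Finset.singleton_subset_iff]
    by_cases h1 : a ∈ free N ∧ b ∈ free N ∧ c ∈ free N ∧ d ∈ free N
    · have h4 := card_free_insert h1.2.2.1 h1.2.2.2 hcd.ne
      have ha : a ∈ free (insert s(c, d) N) := mem_free_insert.2 ⟨h1.1, hac, had⟩
      have hb : b ∈ free (insert s(c, d) N) := mem_free_insert.2 ⟨h1.2.1, hbc, hbd⟩
      have h5 := card_free_insert ha hb hab.ne
      by_cases h2 : (free N).card ≤ J + 4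
      · rw [if_pos h1, if_pos (by omega), if_pos ⟨h2, h3.2 h1⟩]
      · rw [if_pos h1, if_neg (by omega), if_neg (fun h => h2 h.1)]
    · rw [if_neg h1, if_neg (fun h => h1 (h3.1 h.2))]
  trans WS G x (fun N => if (free N).card ≤ J ∧ s(a, b) ∈ N ∧ s(c, d) ∈ N then (1 : ℝ) else 0)
  · refine WS_congr x fun M _ => ?_
    by_cases h1 : (free M).card ≤ J ∧ s(a, b) ∈ M ∧ s(c, d) ∈ M
    · rw [if_pos h1, if_pos h1]
    · rw [if_neg h1, if_neg h1]
  · rw [e3, e2, e4]
    congr 1
    refine WS_congr x fun M _ => ?_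
    by_cases h1 : (free M).card ≤ J + 4 ∧ ({a, b, c, d} : Finset V) ⊆ free M
    · rw [if_pos h1, if_pos h1]
    · rw [if_neg h1, if_neg h1]

end

end Pool.Agent.Lib.MP_eeed5c_coD
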