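import Pool.Agent.Lib.MP_eeed5c_co_D.Defs

/-!
# The parameters at the last matchings

Notation: `x = T r q (N-1) / T r q N > 0` (`LB_x`), `μ = r - mb r x`, `v = vb r x`, `h = q μ`, `V = q v`,
`m = q r - N`. With the multiset `s` of `Lp_rp r`: `mb_eq`, `vb_eq` (in `VB.lean` of the library `M`),
`mb r x = mean s x`, `vb r x = var s x`; `var_le_card` and `card s ≤ r` give `v ≤ μ`; `var_nonneg`.

`hole_le`: PROOF. `sum_sq` with `y = N` (or one term of `sum_sq` with `y = q mb`): the term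
`i = N`: `T r q N x^N (N - q mb)^2 ≤ A V` with `A = (Lp r).eval x ^ q` (as in `V_low` in `LB.lean`), and
`low_T`: `T r q N x^N ≥ (3/4) A / (4 √V + 1)`. So `(h - m)^2 ≤ (4/3) (4 √V + 1) V ≤ (4/3) (4 √h + 1) h`.
If `h > 2 m ≥ 500` then `h - m > h / 2`, so `h^2 / 4 < (4/3) (4 √h + 1) h`, `h < (64/3) √h + 16/3`, but
`√h > 22`, `h = √h √h > 22 √h ≥ (64/3) √h + (2/3) √h ≥ (64/3) √h + 16/3`: contradiction.

`var_ge`: `V_low` with `b = m / 5` (`m ≥ 15`; `b ≤ N` because `q r ≤ 6 N`, so `m ≤ 5 N`): `V ≥ m / 80`.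

`x_ge`: `block_id`: `r - μ = mb = x (μ^2 + v) ≤ x (4 m^2 + 2 m) ≤ 6 m^2 x` because `v ≤ μ ≤ h ≤ 2 m`
(`q ≥ 1`), and `r - μ ≥ r - 2 m ≥ r / 2`.
`mu_ge`: `μ ≥ v = V / q ≥ m / (80 * 5 m^2) = 1 / (400 m)`.
`x_le`: `r ≥ mb = x (μ^2 + v) ≥ x v ≥ x / (400 m)`.
-/

set_option autoImplicit false

namespace Pool.Agent.Lib.MP_eeed5c_coD

open Finset Pool.Agent.Lib.MP_eeed5c_co Pool.Agent.Lib.MP_eeed5c_coT Pool.Agent.Lib.MP_eeed5c_coM

/-- The elementary facts about one block. -/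
private theorem BA_block {r : ℕ} {x : ℝ} (hx : 0 < x) :
    0 ≤ vb r x ∧ vb r x ≤ r - mb r x ∧ mb r x = x * (((r : ℝ) - mb r x) ^ 2 + vb r x) := by
  obtain ⟨s, hs, hL, hc⟩ := Lp_rp r
  have e1 := mb_eq hs hL hx
  have e2 := vb_eq hs hL hx
  have h3 := var_le_card hs hx.le
  have h4 : (Multiset.card s : ℝ) ≤ r := by exact_mod_cast hc
  have h5 := block_id hs hL hx
  rw [e1, e2]
  exact ⟨var_nonneg hs hx.le, by linarith, h5⟩

theorem hole_le {q r N m : ℕ} (hr : 1 ≤ r) (hN1 : 1 ≤ N) (hNm : N + m = q * r) (hm : 250 ≤ m)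
    {x : ℝ} (hx : x = T r q (N - 1) / T r q N) : (q : ℝ) * (r - mb r x) ≤ 2 * m := by
  have hN : N ≤ q * r := by omega
  have hx0 := LB_x hN hx
  have hlow := low_T hr hN1 hN hx
  obtain ⟨hv0, hvm, -⟩ := BA_block (r := r) hx0
  have hq : (0 : ℝ) ≤ q := Nat.cast_nonneg q
  have hsum := sum_sq r q hx0 (q * mb r x)
  rw [sub_self, zero_pow two_ne_zero, add_zero] at hsum
  obtain ⟨A, hA⟩ : ∃ A, A = (Lp r).eval x ^ q := ⟨_, rfl⟩
  obtain ⟨V, hV⟩ : ∃ V, V = (q : ℝ) * vb r x := ⟨_, rfl⟩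
  obtain ⟨h, hh⟩ : ∃ h, h = (q : ℝ) * (r - mb r x) := ⟨_, rfl⟩
  rw [← hA, ← hV] at hlow hsum
  rw [← hh]
  have hpos : ∀ i ∈ range (q * r + 1), 0 < T r q i * x ^ i := fun i hi =>
    mul_pos (T_pos (by rw [Finset.mem_range] at hi; omega)) (pow_pos hx0 _)
  have hmemN : N ∈ range (q * r + 1) := Finset.mem_range.2 (by omega)
  have htN := hpos N hmemN
  obtain ⟨t, ht⟩ : ∃ t, t = T r q N * x ^ N := ⟨_, rfl⟩
  have hterm : T r q N * x ^ N * ((N : ℝ) - q * mb r x) ^ 2 ≤ A * V := by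
    rw [← hsum]
    exact Finset.single_le_sum (f := fun i => T r q i * x ^ i * ((i : ℝ) - q * mb r x) ^ 2)
      (fun i hi => mul_nonneg (hpos i hi).le (sq_nonneg _)) hmemN
  rw [← ht] at hterm hlow htN
  have hNr : (N : ℝ) + m = q * r := by exact_mod_cast hNm
  have hdiff : (N : ℝ) - q * mb r x = h - m := by
    rw [hh]
    linear_combination hNr
  rw [hdiff] at hterm
  have hV0 : 0 ≤ V := by rw [hV]; exact mul_nonneg hq hv0
  have hVh : V ≤ h := by rw [hV, hh]; exact mul_le_mul_of_nonneg_left hvm hq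
  have h1 : t * (h - m) ^ 2 ≤ t * (4 / 3 * (4 * √V + 1) * V) := by
    have h2 := mul_le_mul_of_nonneg_right hlow hV0
    linarith
  have h2 : (h - m) ^ 2 ≤ 4 / 3 * (4 * √V + 1) * V := le_of_mul_le_mul_left h1 htN
  have hm' : (250 : ℝ) ≤ m := by exact_mod_cast hm
  by_contra hcon
  push Not at hcon
  have hh0 : 0 < h := by linarith
  have hVs : √V ≤ √h := Real.sqrt_le_sqrt hVh
  have h3 : (h - m) ^ 2 ≤ 4 / 3 * (4 * √h + 1) * h := by
    refine h2.trans (mul_le_mul (by linarith) hVh hV0 ?_)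
    have := Real.sqrt_nonneg h
    linarith
  have h4 : (h / 2) ^ 2 ≤ (h - m) ^ 2 := by
    refine pow_le_pow_left₀ (by linarith) (by linarith) 2
  have hs2 : √h * √h = h := Real.mul_self_sqrt hh0.le
  have hs22 : (22 : ℝ) ≤ √h := by
    rw [Real.le_sqrt (by norm_num) hh0.le]
    linarith
  have h5 : h * (h / 4) ≤ h * (4 / 3 * (4 * √h + 1)) := by
    have h6 : h * (h / 4) = (h / 2) ^ 2 := by ring
    rw [h6]
    linarith
  have h7 : h / 4 ≤ 4 / 3 * (4 * √h + 1) := le_of_mul_le_mul_left h5 hh0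
  have h8 : 22 * √h ≤ √h * √h := mul_le_mul_of_nonneg_right hs22 (Real.sqrt_nonneg _)
  rw [hs2] at h8
  linarith

theorem var_ge {q r N m : ℕ} (hr : 1 ≤ r) (hN1 : 1 ≤ N) (hNm : N + m = q * r) (hm : 250 ≤ m)
    (h6 : q * r ≤ 6 * N) {x : ℝ} (hx : x = T r q (N - 1) / T r q N) :
    (m : ℝ) / 80 ≤ q * vb r x := by
  obtain ⟨s, hs, hL, hc⟩ := Lp_rp r
  have hN : N ≤ q * r := by omega
  have hm' : (250 : ℝ) ≤ m := by exact_mod_cast hm
  have h5 : m ≤ 5 * N := by omega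
  have h5' : (m : ℝ) ≤ 5 * N := by exact_mod_cast h5
  have hNr : (N : ℝ) + m = q * r := by exact_mod_cast hNm
  have h := V_low hs hL hc hr hN1 hN hx (b := (m : ℝ) / 5) (by linarith) (by linarith) (by linarith)
  linarith

theorem vb_le_mu {r : ℕ} {x : ℝ} (hx : 0 < x) : vb r x ≤ r - mb r x := (BA_block hx).2.1

theorem x_ge {q r N m : ℕ} (hr : 1 ≤ r) (hN1 : 1 ≤ N) (hNm : N + m = q * r) (hm : 250 ≤ m)
    (hmr : 4 * m ≤ r) {x : ℝ} (hx : x = T r q (N - 1) / T r q N) :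
    (r : ℝ) ≤ 12 * (m : ℝ) ^ 2 * x := by
  have hN : N ≤ q * r := by omega
  have hx0 := LB_x hN hx
  obtain ⟨hv0, hvm, hid⟩ := BA_block (r := r) hx0
  have hh := hole_le hr hN1 hNm hm hx
  have hq1 : 1 ≤ q := by
    rcases Nat.eq_zero_or_pos q with h | h
    · rw [h, Nat.zero_mul] at hNm
      omega
    · exact h
  have hq : (1 : ℝ) ≤ q := by exact_mod_cast hq1
  have hm' : (250 : ℝ) ≤ m := by exact_mod_cast hm
  have hmr' : 4 * (m : ℝ) ≤ r := by exact_mod_cast hmr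
  obtain ⟨u, hu⟩ : ∃ u, u = (r : ℝ) - mb r x := ⟨_, rfl⟩
  have hmb : mb r x = r - u := by rw [hu]; ring
  rw [← hu] at hvm hh hid
  rw [hmb] at hid
  have hu0 : 0 ≤ u := hv0.trans hvm
  have hu2 : u ≤ 2 * m := by
    have : u ≤ q * u := by nlinarith
    linarith
  have h1 : u ^ 2 ≤ (2 * (m : ℝ)) ^ 2 := pow_le_pow_left₀ hu0 hu2 2
  have h2 : u ^ 2 + vb r x ≤ 6 * (m : ℝ) ^ 2 := by nlinarith
  have h3 := mul_le_mul_of_nonneg_left h2 hx0.le
  have h4 : (r : ℝ) / 2 ≤ r - u := by linarith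
  rw [hid] at h4
  linarith

/-- The lower bound for the variance of one block. -/
private theorem BA_v {q r N m : ℕ} (hr : 1 ≤ r) (hN1 : 1 ≤ N) (hNm : N + m = q * r) (hm : 250 ≤ m)
    (h6 : q * r ≤ 6 * N) (hq : q ≤ 5 * m ^ 2) {x : ℝ} (hx : x = T r q (N - 1) / T r q N) :
    1 ≤ 400 * (m : ℝ) * vb r x := by
  have h1 := var_ge hr hN1 hNm hm h6 hx
  have hm' : (250 : ℝ) ≤ m := by exact_mod_cast hm
  have hq' : (q : ℝ) ≤ 5 * (m : ℝ) ^ 2 := by exact_mod_cast hq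
  have hq1 : 1 ≤ q := by
    rcases Nat.eq_zero_or_pos q with h | h
    · rw [h, Nat.zero_mul] at hNm
      omega
    · exact h
  have hq0 : (0 : ℝ) < q := by exact_mod_cast hq1
  have h2 : (q : ℝ) * 1 ≤ q * (400 * (m : ℝ) * vb r x) := by
    have h3 := mul_le_mul_of_nonneg_left h1 (show (0 : ℝ) ≤ 400 * m by linarith)
    have h4 : 400 * (m : ℝ) * (m / 80) = 5 * (m : ℝ) ^ 2 := by ring
    have h5 : (q : ℝ) * (400 * (m : ℝ) * vb r x) = 400 * (m : ℝ) * (q * vb r x) := by ring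
    rw [h5]
    linarith
  exact le_of_mul_le_mul_left h2 hq0

theorem mu_ge {q r N m : ℕ} (hr : 1 ≤ r) (hN1 : 1 ≤ N) (hNm : N + m = q * r) (hm : 250 ≤ m)
    (h6 : q * r ≤ 6 * N) (hq : q ≤ 5 * m ^ 2) {x : ℝ} (hx : x = T r q (N - 1) / T r q N) :
    1 ≤ 400 * (m : ℝ) * (r - mb r x) := by
  have hN : N ≤ q * r := by omega
  have hx0 := LB_x hN hx
  have h1 := BA_v hr hN1 hNm hm h6 hq hx
  have h2 := vb_le_mu (r := r) hx0
  have hm' : (250 : ℝ) ≤ m := by exact_mod_cast hm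
  exact h1.trans (mul_le_mul_of_nonneg_left h2 (by linarith))

theorem x_le {q r N m : ℕ} (hr : 1 ≤ r) (hN1 : 1 ≤ N) (hNm : N + m = q * r) (hm : 250 ≤ m)
    (h6 : q * r ≤ 6 * N) (hq : q ≤ 5 * m ^ 2) {x : ℝ} (hx : x = T r q (N - 1) / T r q N) :
    x ≤ 400 * (m : ℝ) * r := by
  have hN : N ≤ q * r := by omega
  have hx0 := LB_x hN hx
  have h1 := BA_v hr hN1 hNm hm h6 hq hx
  obtain ⟨hv0, hvm, hid⟩ := BA_block (r := r) hx0
  have hm' : (250 : ℝ) ≤ m := by exact_mod_cast hm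
  have h2 : x * 1 ≤ x * (400 * (m : ℝ) * vb r x) := mul_le_mul_of_nonneg_left h1 hx0.le
  have h3 : mb r x ≤ r := by linarith
  have h4 : x * vb r x ≤ mb r x := by
    rw [hid]
    exact mul_le_mul_of_nonneg_left (by nlinarith [sq_nonneg ((r : ℝ) - mb r x)]) hx0.le
  have h5 : 400 * (m : ℝ) * (x * vb r x) ≤ 400 * (m : ℝ) * r :=
    mul_le_mul_of_nonneg_left (h4.trans h3) (by linarith)
  have h7 : x * (400 * (m : ℝ) * vb r x) = 400 * (m : ℝ) * (x * vb r x) := by ring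
  rw [h7, mul_one] at h2
  exact h2.trans h5

end Pool.Agent.Lib.MP_eeed5c_coD
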