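import Pool.Agent.Lib.MP_eeed5c_co_D.Defs

/-!
# A small difference has a small derivative

`deriv_small`: PROOF. Let `x = e^τ`, `F u = log (rp sP)(e^u) - log (rp sQ)(e^u) ≥ 0`,
`F' u = mean sP (e^u) - mean sQ (e^u) ≥ 0`, `F'' u = var sP (e^u) - var sQ (e^u)` (`hasDeriv_log`,
`hasDeriv_mean`). For `u = τ - v`, `0 ≤ v ≤ 1`, `F'' u ≤ var sP (e^u) ≤ e^v var sP x ≤ e W` (`var_nonneg`,
`var_scale_le` or `var_scale_ge` in `PEb.lean`). So with `f = F' τ`: `F' (τ - v) ≥ f - e W v`, and for `v1 ∈ [0, 1]`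
`δ = F τ ≥ F (τ - v1) + f v1 - e W v1^2 / 2 ≥ f v1 - e W v1^2 / 2` (the function
`w ↦ F (τ - w) + f w - e W w^2 / 2` is antitone on `[0, 1]`).
If `f ≤ e W`: `v1 = f / (e W)` gives `f^2 ≤ 2 e W δ ≤ 6 W δ`.
If `f > e W`: `v1 = 1` gives `δ ≥ f - e W / 2 > e W / 2 > 1`: contradiction.
Compare `SV.lean` of the library `M` (the same method).

`f_small`: PROOF. `mp_rp G` gives `sQ`, `Lp_rp r` gives `sK`; `sP = q • sK` (`rp_nsmul`, `Nn_nsmul`, `mean_nsmul`,
`var_nsmul`, `mb_eq`, `vb_eq`, `mean_eq`); `MB_mean` is `hmean`; `hle`: `gap` in `GA.lean` with the constant `0` as in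
`MB_le` (`MB.lean`), where `Far G 0` holds because all terms are nonnegative (`loc`, `tri ≥ 0`).
-/

set_option autoImplicit false

namespace Pool.Agent.Lib.MP_eeed5c_coD

open Finset Pool.Agent.Lib.MP_eeed5c_co Pool.Agent.Lib.MP_eeed5c_coT Pool.Agent.Lib.MP_eeed5c_coM

/-- A function with nonnegative derivative on an interval. -/
private theorem BB_mono {f f' : ℝ → ℝ} (h : ∀ u, HasDerivAt f (f' u) u) {a b : ℝ}
    (h0 : ∀ u, a ≤ u → u ≤ b → 0 ≤ f' u) {u v : ℝ} (hu : a ≤ u) (huv : u ≤ v) (hv : v ≤ b) :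
    f u ≤ f v := by
  have hm : MonotoneOn f (Set.Icc a b) := by
    refine monotoneOn_of_deriv_nonneg (convex_Icc a b) (fun y _ => (h y).continuousAt.continuousWithinAt)
      (fun y _ => (h y).differentiableAt.differentiableWithinAt) ?_
    intro y hy
    rw [interior_Icc] at hy
    rw [(h y).deriv]
    exact h0 y hy.1.le hy.2.le
  exact hm ⟨hu, huv.trans hv⟩ ⟨hu.trans huv, hv⟩ huv

theorem deriv_small {sP sQ : Multiset ℝ} (hP : Nn sP) (hQ : Nn sQ) {x δ W : ℝ} (hx : 0 < x)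
    (hδ : δ = Real.log ((rp sP).eval x) - Real.log ((rp sQ).eval x))
    (hmean : ∀ y, 0 < y → mean sQ y ≤ mean sP y)
    (hle : ∀ y, 0 < y → (rp sQ).eval y ≤ (rp sP).eval y)
    (hW : var sP x ≤ W) (hW1 : 1 ≤ W) (hδ1 : δ ≤ 1) :
    (mean sP x - mean sQ x) ^ 2 ≤ 6 * W * δ := by
  obtain ⟨τ, hτ⟩ : ∃ τ, τ = Real.log x := ⟨_, rfl⟩
  have hxτ : Real.exp τ = x := by rw [hτ]; exact Real.exp_log hx
  have hpos : ∀ (s : Multiset ℝ), Nn s → ∀ y : ℝ, 0 < y → 0 < (rp s).eval y := fun s hs y hy =>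
    lt_of_lt_of_le one_pos (one_le_rp hs hy.le)
  have he1 : Real.exp 1 < 2.7182818286 := Real.exp_one_lt_d9
  have he3 : 2.7182818283 < Real.exp 1 := Real.exp_one_gt_d9
  obtain ⟨c, hc⟩ : ∃ c, c = Real.exp 1 * W := ⟨_, rfl⟩
  obtain ⟨f, hf⟩ : ∃ f, f = mean sP x - mean sQ x := ⟨_, rfl⟩
  have hf0 : 0 ≤ f := by rw [hf]; linarith [hmean x hx]
  have hc2 : 2.7182818283 ≤ c := by
    rw [hc]
    calc (2.7182818283 : ℝ) ≤ Real.exp 1 * 1 := by linarith
      _ ≤ Real.exp 1 * W := mul_le_mul_of_nonneg_left hW1 (Real.exp_pos 1).le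
  have hc3 : c ≤ 3 * W := by
    rw [hc]
    exact mul_le_mul_of_nonneg_right (by linarith) (by linarith)
  -- the second derivative
  have hd2 : ∀ u, τ - 1 ≤ u → u ≤ τ → 0 ≤ c - (var sP (Real.exp u) - var sQ (Real.exp u)) := by
    intro u hu1 hu2
    have hv : 0 ≤ τ - u := by linarith
    have e : Real.exp u = x * Real.exp (-(τ - u)) := by
      rw [← hxτ, ← Real.exp_add]
      ring_nf
    have h1 := var_scale_le hP hx.le hv
    rw [← e] at h1
    have h2 := var_nonneg hQ (Real.exp_pos u).le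
    have h4 : Real.exp (τ - u) ≤ Real.exp 1 := Real.exp_le_exp.mpr (by linarith)
    have h5 : Real.exp (τ - u) * var sP x ≤ Real.exp 1 * W :=
      mul_le_mul h4 hW (var_nonneg hP hx.le) (Real.exp_pos 1).le
    rw [hc]
    linarith
  -- the first derivative
  have hG1 : ∀ u, HasDerivAt (fun u : ℝ => c * u - (mean sP (Real.exp u) - mean sQ (Real.exp u)))
      (c - (var sP (Real.exp u) - var sQ (Real.exp u))) u := by
    intro u
    have h1 := ((hasDerivAt_id u).const_mul c).sub ((hasDeriv_mean hP u).sub (hasDeriv_mean hQ u))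
    rw [mul_one] at h1
    exact h1
  have hd1 : ∀ u, τ - 1 ≤ u → u ≤ τ → 0 ≤ mean sP (Real.exp u) - mean sQ (Real.exp u) - f +
      c * (τ - u) := by
    intro u hu1 hu2
    have h := BB_mono hG1 hd2 hu1 hu2 (le_refl τ)
    rw [hxτ, ← hf] at h
    linarith
  have hG2 : ∀ u, HasDerivAt (fun u : ℝ => Real.log ((rp sP).eval (Real.exp u)) -
      Real.log ((rp sQ).eval (Real.exp u)) - f * u - c / 2 * (τ - u) ^ 2)
      (mean sP (Real.exp u) - mean sQ (Real.exp u) - f + c * (τ - u)) u := by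
    intro u
    have h1 := (((hasDeriv_log hP u).sub (hasDeriv_log hQ u)).sub
      ((hasDerivAt_id u).const_mul f)).sub ((((hasDerivAt_id u).const_sub τ).pow 2).const_mul (c / 2))
    refine h1.congr_deriv ?_
    simp only [id_eq]
    push_cast
    ring
  have hmain : ∀ v : ℝ, 0 ≤ v → v ≤ 1 → f * v - c / 2 * v ^ 2 ≤ δ := by
    intro v hv0 hv1
    have h := BB_mono hG2 hd1 (by linarith : τ - 1 ≤ τ - v) (by linarith : τ - v ≤ τ) (le_refl τ)
    rw [hxτ, ← hδ] at h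
    have h1 := Real.log_le_log (hpos sQ hQ _ (Real.exp_pos (τ - v))) (hle _ (Real.exp_pos (τ - v)))
    have h2 : f * (τ - v) = f * τ - f * v := by ring
    have h3 : c / 2 * (τ - (τ - v)) ^ 2 = c / 2 * v ^ 2 := by ring
    have h4 : c / 2 * (τ - τ) ^ 2 = 0 := by ring
    rw [h2, h3, h4] at h
    linarith
  rw [← hf]
  have hc0 : 0 < c := by linarith
  rcases le_or_gt f c with h | h
  · have h1 := hmain (f / c) (div_nonneg hf0 hc0.le) ((div_le_one hc0).2 h)
    have h2 : f * (f / c) - c / 2 * (f / c) ^ 2 = f ^ 2 / (2 * c) := by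
      field_simp
      ring
    rw [h2, div_le_iff₀ (by positivity)] at h1
    have hδ0 : 0 ≤ δ := by
      have := hmain 0 le_rfl zero_le_one
      simpa using this
    have h3 : δ * (2 * c) ≤ δ * (2 * (3 * W)) := mul_le_mul_of_nonneg_left (by linarith) hδ0
    linarith
  · exfalso
    have h1 := hmain 1 zero_le_one le_rfl
    rw [one_pow, mul_one, mul_one] at h1
    linarith

theorem mp_le {q r : ℕ} {V : Type} [Fintype V] {G : SimpleGraph V} (hr : 1 ≤ r)
    (hV : Fintype.card V = 2 * (q * r)) (hreg : Reg G r) {y : ℝ} (hy : 0 < y) :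
    (mp G).eval y ≤ (Lp r).eval y ^ q := by
  have hF0 : Far G 0 := by
    intro v u _
    have h1 : 0 ≤ loc G v u := by
      unfold loc
      exact Finset.sum_nonneg fun p _ => sq_nonneg _
    have h2 : 0 ≤ tri G v u := by
      unfold tri
      exact Nat.cast_nonneg _
    linarith
  have h := gap hr hV hreg (le_refl (0 : ℝ)) hF0 (x0 := min y 1) (lt_min hy one_pos) (min_le_right _ _)
    (min_le_left y 1)
  have e : Real.exp (-(0 * (q : ℝ) * (r : ℝ) ^ 2 * (min y 1) ^ 4 / (8 * (1 + 2 * (min y 1) * r) ^ 8))) = 1 := by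
    rw [zero_mul, zero_mul, zero_mul, zero_div, neg_zero, Real.exp_zero]
  rw [e, one_mul] at h
  exact h

theorem f_small {q r : ℕ} {V : Type} [Fintype V] {G : SimpleGraph V} (hr : 1 ≤ r)
    (hV : Fintype.card V = 2 * (q * r)) (hreg : Reg G r) {x δ W : ℝ} (hx : 0 < x)
    (hδ : δ = q * Real.log ((Lp r).eval x) - Real.log ((mp G).eval x))
    (hW : q * vb r x ≤ W) (hW1 : 1 ≤ W) (hδ1 : δ ≤ 1) :
    0 ≤ q * mb r x - x * (mp G).derivative.eval x / (mp G).eval x ∧
    (q * mb r x - x * (mp G).derivative.eval x / (mp G).eval x) ^ 2 ≤ 6 * W * δ := by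
  obtain ⟨sQ, hQ, hQe, _⟩ := mp_rp G hV
  obtain ⟨sK, hK, hL, _⟩ := Lp_rp r
  have hPe : ∀ y : ℝ, (rp (q • sK)).eval y = (Lp r).eval y ^ q := fun y => by
    rw [rp_nsmul, ← hL, Polynomial.eval_pow]
  have hmean : ∀ y, 0 < y → mean sQ y ≤ mean (q • sK) y := fun y hy => by
    rw [mean_nsmul]
    exact MB_mean hr hV hreg hK hQ hL hQe hy
  have h1 : mean (q • sK) x = q * mb r x := by rw [mean_nsmul, mb_eq hK hL hx]
  have h2 : mean sQ x = x * (mp G).derivative.eval x / (mp G).eval x := by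
    rw [mean_eq hQ hx.le, ← hQe]
  rw [← h1, ← h2]
  refine ⟨by linarith [hmean x hx], ?_⟩
  refine deriv_small (Nn_nsmul hK q) hQ hx ?_ hmean ?_ ?_ hW1 hδ1
  · rw [hδ, hPe, Real.log_pow, hQe]
  · intro y hy
    rw [hPe, ← hQe]
    exact mp_le hr hV hreg hy
  · rw [var_nsmul, ← vb_eq hK hL hx]
    exact hW

end Pool.Agent.Lib.MP_eeed5c_coD
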