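import Pool.Agent.Lib.MP_eeed5c_co_D.Defs
import Pool.Agent.Lib.MP_eeed5c_co_T.GA2

/-!
# The gap in terms of missing squares and triangles

`gap3`: this is `gap2` of `GA2.lean` (library `T`) with the larger quantity
`∑ q ∈ prA G, (loc G q.1 q.2 / 4 + r * tri G q.1 q.2)` in place of `dfc G r`, for `x0 = 1 / r`.
PROOF. Copy `SE2.lean` and `GA2.lean` of the library `T`: the proof of `BB_lower2` in `SE2.lean` begins with
`dfc_le` and continues with this sum; leave out the step `dfc_le` and put the sum in the statement. (Copy also the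
private lemmas of the two files, with new names.) At the end put `x0 = 1 / r`: `x0 * r = 1`,
`D x0^4 / (8 (1 + 2)^8) = D / (52488 r^4)`.

`squares_le`, `triangles_le`: PROOF. `δ = q log (Lp r)(x) - log (mp G)(x)`; `gap3` with `D` = the whole sum gives
`(mp G).eval x ≤ exp (-(D / (52488 r^4))) (Lp r).eval x ^ q`, take logarithms (`mp_eval_pos`, `Lp_pos`):
`D ≤ 52488 r^4 δ`. Then `dfc_le` for the first one; for the second `loc ≥ 0` and division by `r`.
-/

set_option autoImplicit false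

namespace Pool.Agent.Lib.MP_eeed5c_coD

open Finset Pool.Agent.Lib.MP_eeed5c_co Pool.Agent.Lib.MP_eeed5c_coT

section

variable {V : Type*} [Fintype V] {G : SimpleGraph V}

open scoped Classical in
private noncomputable def CA_C (G : SimpleGraph V) (v u : V) : Finset V := univ.filter fun w => G.Adj v w ∧ G.Adj u w

open scoped Classical in
private theorem CA_pairs (N : Finset (Sym2 V)) (f : V → V → ℝ) :
    ∑ a ∈ free N, ∑ v ∈ nb G N a, f a v =
      ∑ q ∈ prA G, if q.1 ∈ free N ∧ q.2 ∈ free N then f q.1 q.2 else 0 := by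
  unfold prA
  rw [Finset.sum_filter, Fintype.sum_prod_type]
  have h1 : ∑ a ∈ free N, ∑ v ∈ nb G N a, f a v = ∑ a, if a ∈ free N then ∑ v ∈ nb G N a, f a v else 0 := by
    rw [← Finset.sum_filter]
    refine Finset.sum_congr ?_ fun _ _ => rfl
    ext a
    simp
  rw [h1]
  refine Finset.sum_congr rfl fun a _ => ?_
  by_cases ha : a ∈ free N
  · rw [if_pos ha]
    have h2 : ∑ v ∈ nb G N a, f a v = ∑ v, if v ∈ nb G N a then f a v else 0 := by
      rw [← Finset.sum_filter]
      refine Finset.sum_congr ?_ fun _ _ => rfl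
      ext v
      simp
    rw [h2]
    refine Finset.sum_congr rfl fun v _ => ?_
    by_cases hv : v ∈ free N
    · by_cases hadj : G.Adj a v
      · rw [if_pos (mem_nb.2 ⟨hv, hadj⟩), if_pos hadj, if_pos ⟨ha, hv⟩]
      · rw [if_neg (fun h => hadj (mem_nb.1 h).2), if_neg hadj]
    · rw [if_neg (fun h => hv (mem_nb.1 h).1)]
      by_cases hadj : G.Adj a v
      · rw [if_pos hadj, if_neg (fun h => hv h.2)]
      · rw [if_neg hadj]
  · rw [if_neg ha]
    refine (Finset.sum_eq_zero fun v _ => ?_).symm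
    by_cases hadj : G.Adj a v
    · rw [if_pos hadj, if_neg (fun h => ha h.1)]
    · rw [if_neg hadj]

open scoped Classical in
private theorem CA_common (N : Finset (Sym2 V)) (a b : V) :
    (if a ∈ free N ∧ b ∈ free N then (((nb G N a).filter (fun v => G.Adj v b)).card : ℝ) else 0) =
      ∑ w ∈ CA_C G a b, if ({a, b, w} : Finset V) ⊆ free N then (1 : ℝ) else 0 := by
  by_cases h : a ∈ free N ∧ b ∈ free N
  · rw [if_pos h]
    have h1 : ∀ w, (({a, b, w} : Finset V) ⊆ free N) ↔ w ∈ free N := by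
      intro w
      simp only [Finset.insert_subset_iff, Finset.singleton_subset_iff]
      exact ⟨fun k => k.2.2, fun k => ⟨h.1, h.2, k⟩⟩
    simp only [h1]
    rw [← Finset.sum_filter, Finset.sum_const, nsmul_eq_mul, mul_one]
    have h2 : (nb G N a).filter (fun v => G.Adj v b) = (CA_C G a b).filter (fun w => w ∈ free N) := by
      ext w
      unfold CA_C
      simp only [Finset.mem_filter, mem_nb, Finset.mem_univ, true_and]
      constructor
      · rintro ⟨⟨k1, k2⟩, k3⟩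
        exact ⟨⟨k2, k3.symm⟩, k1⟩
      · rintro ⟨⟨k2, k3⟩, k1⟩
        exact ⟨⟨k1, k2⟩, k3.symm⟩
    rw [h2]
  · rw [if_neg h]
    refine (Finset.sum_eq_zero fun w _ => ?_).symm
    rw [if_neg]
    intro k
    simp only [Finset.insert_subset_iff, Finset.singleton_subset_iff] at k
    exact h ⟨k.1, k.2.1⟩

open scoped Classical in
private theorem CA_BB (x : ℝ) : BB G x = ∑ q ∈ prA G,
    (1 / 2 * WS G x (fun N => if q.1 ∈ free N ∧ q.2 ∈ free N then ((D G N q.1 : ℝ) - D G N q.2) ^ 2 else 0) +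
      ∑ w ∈ CA_C G q.1 q.2, ZS G x {q.1, q.2, w}) := by
  have h1 : BB G x = WS G x (fun N => ∑ q ∈ prA G,
      (1 / 2 * (if q.1 ∈ free N ∧ q.2 ∈ free N then ((D G N q.1 : ℝ) - D G N q.2) ^ 2 else 0) +
        ∑ w ∈ CA_C G q.1 q.2, if ({q.1, q.2, w} : Finset V) ⊆ free N then (1 : ℝ) else 0)) := by
    refine WS_congr x fun N _ => ?_
    rw [Finset.sum_add_distrib, ← Finset.mul_sum]
    unfold bq
    rw [CA_pairs N (fun a v => ((D G N a : ℝ) - D G N v) ^ 2),
      CA_pairs N (fun a b => (((nb G N a).filter (fun v => G.Adj v b)).card : ℝ))]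
    refine congrArg₂ _ rfl (Finset.sum_congr rfl fun q _ => ?_)
    exact CA_common N q.1 q.2
  rw [h1, WS_sum]
  refine Finset.sum_congr rfl fun q _ => ?_
  rw [WS_add, WS_smul, WS_sum]
  rfl

open scoped Classical in
private theorem CA_four (x : ℝ) (v u : V) :
    WS G x (fun N => if v ∈ free N ∧ u ∈ free N then
        ∑ p ∈ (prs G v u).filter (fun p => p.1 ∈ free N ∧ p.2 ∈ free N), (sg G v u p) ^ 2 else 0) =
      ∑ p ∈ prs G v u, (sg G v u p) ^ 2 * ZS G x {v, u, p.1, p.2} := by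
  unfold ZS
  simp only [← WS_smul]
  rw [← WS_sum]
  refine WS_congr x fun N _ => ?_
  by_cases h : v ∈ free N ∧ u ∈ free N
  · rw [if_pos h, Finset.sum_filter]
    refine Finset.sum_congr rfl fun p _ => ?_
    by_cases hp : p.1 ∈ free N ∧ p.2 ∈ free N
    · rw [if_pos hp, if_pos, mul_one]
      simp only [Finset.insert_subset_iff, Finset.singleton_subset_iff]
      exact ⟨h.1, h.2, hp.1, hp.2⟩
    · rw [if_neg hp, if_neg, mul_zero]
      intro k
      simp only [Finset.insert_subset_iff, Finset.singleton_subset_iff] at k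
      exact hp ⟨k.2.2.1, k.2.2.2⟩
  · rw [if_neg h]
    refine (Finset.sum_eq_zero fun p _ => ?_).symm
    rw [if_neg, mul_zero]
    intro k
    simp only [Finset.insert_subset_iff, Finset.singleton_subset_iff] at k
    exact h ⟨k.1, k.2.1⟩

private theorem CA_arith {x Z a b L t W S ρ : ℝ} (hx : 0 < x) (hρ : 0 ≤ ρ) (hx1 : x * ρ ≤ 1)
    (hZ : 0 < Z) (ha : 1 ≤ a) (hab : a ≤ b) (hL : 0 ≤ L) (ht : 0 ≤ t)
    (hW : x / (2 * b) * (L * (Z / a ^ 4)) ≤ W) (hS : t * (Z / a ^ 3) ≤ S) :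
    (L / 4 + ρ * t) * (x * Z / b ^ 5) ≤ 1 / 2 * W + S := by
  have ha0 : 0 < a := by linarith
  have hb0 : 0 < b := by linarith
  have e1 : x / (2 * b) * (L * (Z / a ^ 4)) = L / 2 * (x * Z / (b * a ^ 4)) := by
    field_simp
  have e2 : ρ * (x * Z / (b * a ^ 4)) ≤ Z / a ^ 3 := by
    have e5 : ρ * (x * Z / (b * a ^ 4)) = (x * ρ) * Z / (b * a ^ 4) := by ring
    rw [e5, div_le_div_iff₀ (by positivity) (by positivity)]
    have hba : 1 ≤ b * a := one_le_mul_of_one_le_of_one_le (by linarith) ha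
    have h3 : x * ρ ≤ b * a := by linarith
    have h4 : x * ρ * (Z * a ^ 3) ≤ b * a * (Z * a ^ 3) := mul_le_mul_of_nonneg_right h3 (by positivity)
    linarith [h4, show b * a * (Z * a ^ 3) = Z * (b * a ^ 4) by ring, show x * ρ * (Z * a ^ 3) = x * ρ * Z * a ^ 3 by ring]
  have e3 : x * Z / b ^ 5 ≤ x * Z / (b * a ^ 4) := by
    refine div_le_div_of_nonneg_left (by positivity) (by positivity) ?_
    have h5 : a ^ 4 ≤ b ^ 4 := pow_le_pow_left₀ ha0.le hab 4
    calc b * a ^ 4 ≤ b * b ^ 4 := mul_le_mul_of_nonneg_left h5 hb0.le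
      _ = b ^ 5 := by ring
  have h6 : (L / 4 + ρ * t) * (x * Z / b ^ 5) ≤ (L / 4 + ρ * t) * (x * Z / (b * a ^ 4)) :=
    mul_le_mul_of_nonneg_left e3 (by positivity)
  have h8 : t * (ρ * (x * Z / (b * a ^ 4))) ≤ t * (Z / a ^ 3) := mul_le_mul_of_nonneg_left e2 ht
  rw [e1] at hW
  have h9 : (L / 4 + ρ * t) * (x * Z / (b * a ^ 4)) =
      1 / 2 * (L / 2 * (x * Z / (b * a ^ 4))) + t * (ρ * (x * Z / (b * a ^ 4))) := by ring
  linarith

end

private theorem CA_lower {V : Type*} [Fintype V] {G : SimpleGraph V} {r : ℕ}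
    (hreg : Reg G r) {x : ℝ} (hx : 0 < x) (hx1 : x * r ≤ 1) :
    (∑ p ∈ prA G, (loc G p.1 p.2 / 4 + r * tri G p.1 p.2)) *
      (x * (mp G).eval x / (1 + 2 * x * r) ^ 5) ≤ BB G x := by
  classical
  have hZ : 0 < (mp G).eval x := lt_of_lt_of_le one_pos (mp_eval_pos hx.le)
  have hr : (0 : ℝ) ≤ r := Nat.cast_nonneg r
  have hxr : 0 ≤ x * r := mul_nonneg hx.le hr
  have ha : (1 : ℝ) ≤ 1 + x * r := by linarith
  have hab : 1 + x * r ≤ 1 + 2 * x * r := by linarith
  have ha0 : (0 : ℝ) < 1 + x * r := by linarith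
  have hb0 : (0 : ℝ) < 1 + 2 * x * r := by linarith
  rw [CA_BB, Finset.sum_mul]
  refine Finset.sum_le_sum fun q hq => ?_
  have hadj : G.Adj q.1 q.2 := mem_prA.1 hq
  have ht : 0 ≤ tri G q.1 q.2 := by
    unfold tri
    positivity
  have hl : 0 ≤ loc G q.1 q.2 := by
    unfold loc
    exact Finset.sum_nonneg fun p _ => sq_nonneg _
  refine CA_arith hx hr hx1 hZ ha hab hl ht ?_ ?_
  · have h1 := second_moment hreg hx q.1 q.2 hadj
    rw [CA_four] at h1
    refine le_trans ?_ h1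
    refine mul_le_mul_of_nonneg_left ?_ (by positivity)
    unfold loc
    rw [Finset.sum_mul]
    refine Finset.sum_le_sum fun p _ => mul_le_mul_of_nonneg_left ?_ (sq_nonneg _)
    rw [div_le_iff₀ (by positivity), mul_comm]
    exact ZS_four hreg hx.le q.1 q.2 p.1 p.2
  · have h2 : tri G q.1 q.2 * ((mp G).eval x / (1 + x * r) ^ 3) =
        ∑ w ∈ CA_C G q.1 q.2, (mp G).eval x / (1 + x * r) ^ 3 := by
      rw [Finset.sum_const, nsmul_eq_mul]
      rfl
    rw [h2]
    refine Finset.sum_le_sum fun w _ => ?_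
    rw [div_le_iff₀ (by positivity), mul_comm]
    exact ZS_three hreg hx.le q.1 q.2 w

private theorem CA_slack {V : Type*} [Fintype V] {G : SimpleGraph V} {q r : ℕ} (hr : 1 ≤ r)
    (hV : Fintype.card V = 2 * (q * r)) (hreg : Reg G r) {x : ℝ} (hx : 0 < x) :
    (mp G).derivative.eval x / (mp G).eval x +
      x ^ 2 / ((1 + x * r) * (1 + 2 * x * r) ^ 2) * BB G x / (2 * (mp G).eval x) ≤
      q * ((Lp r).derivative.eval x / (Lp r).eval x) := by
  obtain ⟨u, hu, hmono⟩ := exists_u hr hx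
  have hδ : 0 ≤ x ^ 2 / ((1 + x * r) * (1 + 2 * x * r) ^ 2) := by positivity
  have h := slack hreg hx.le hδ u hu hmono
  have hL : 0 < (Lp r).eval x := by linarith [Lp_pos r hx.le]
  have hZ : 0 < (mp G).eval x := by linarith [mp_eval_pos (G := G) hx.le]
  have hr0 : (0 : ℝ) < r := by exact_mod_cast hr
  have h1 : al r x * Fintype.card V * (mp G).eval x =
      2 * x * (mp G).eval x * (q * ((Lp r).derivative.eval x / (Lp r).eval x)) := by
    rw [hV]
    unfold al
    push_cast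
    field_simp
  rw [h1] at h
  set δ : ℝ := x ^ 2 / ((1 + x * r) * (1 + 2 * x * r) ^ 2)
  have h2 : ((mp G).derivative.eval x / (mp G).eval x + δ * BB G x / (2 * (mp G).eval x)) *
      (2 * x * (mp G).eval x) ≤
      (q * ((Lp r).derivative.eval x / (Lp r).eval x)) * (2 * x * (mp G).eval x) := by
    have e : ((mp G).derivative.eval x / (mp G).eval x + δ * BB G x / (2 * (mp G).eval x)) *
      (2 * x * (mp G).eval x) = 2 * (x * (mp G).derivative.eval x) + x * δ * BB G x := by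
      field_simp
    rw [e]
    linarith
  exact le_of_mul_le_mul_right h2 (by positivity)

private theorem CA_log_deriv {V : Type*} [Fintype V] {G : SimpleGraph V} {q r : ℕ} (hr : 1 ≤ r)
    (hV : Fintype.card V = 2 * (q * r)) (hreg : Reg G r) {D : ℝ} (hD0 : 0 ≤ D)
    (hD : D ≤ ∑ p ∈ prA G, (loc G p.1 p.2 / 4 + r * tri G p.1 p.2))
    {x : ℝ} (hx : 0 < x) (hx1 : x * r ≤ 1) :
    (mp G).derivative.eval x / (mp G).eval x + D * x ^ 3 / (2 * (1 + 2 * x * r) ^ 8) ≤
      q * ((Lp r).derivative.eval x / (Lp r).eval x) := by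
  have h := CA_slack hr hV hreg hx
  have hZ : 0 < (mp G).eval x := by linarith [mp_eval_pos (G := G) hx.le]
  have hr0 : (0 : ℝ) < r := by exact_mod_cast hr
  have h0 : D * (x * (mp G).eval x / (1 + 2 * x * r) ^ 5) ≤ BB G x :=
    (mul_le_mul_of_nonneg_right hD (by positivity)).trans (CA_lower hreg hx hx1)
  have h2 : D * x ^ 3 / (2 * (1 + 2 * x * r) ^ 8) ≤
      x ^ 2 / ((1 + x * r) * (1 + 2 * x * r) ^ 2) * BB G x / (2 * (mp G).eval x) := by
    have h3 : x ^ 2 / ((1 + x * r) * (1 + 2 * x * r) ^ 2) *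
        (D * (x * (mp G).eval x / (1 + 2 * x * r) ^ 5)) ≤
        x ^ 2 / ((1 + x * r) * (1 + 2 * x * r) ^ 2) * BB G x :=
      mul_le_mul_of_nonneg_left h0 (by positivity)
    have h4 := div_le_div_of_nonneg_right h3 (show 0 ≤ 2 * (mp G).eval x by positivity)
    refine le_trans ?_ h4
    have e : x ^ 2 / ((1 + x * r) * (1 + 2 * x * r) ^ 2) *
        (D * (x * (mp G).eval x / (1 + 2 * x * r) ^ 5)) /
        (2 * (mp G).eval x) =
        D * x ^ 3 / (2 * ((1 + x * r) * (1 + 2 * x * r) ^ 7)) := by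
      field_simp
    rw [e]
    refine div_le_div_of_nonneg_left (by positivity) (by positivity) ?_
    refine mul_le_mul_of_nonneg_left ?_ (by norm_num)
    rw [pow_succ' (1 + 2 * x * r) 7]
    refine mul_le_mul_of_nonneg_right ?_ (by positivity)
    have := mul_pos hx hr0
    linarith
  linarith

private theorem CA_gap {V : Type*} [Fintype V] {G : SimpleGraph V} {q r : ℕ} (hr : 1 ≤ r)
    (hV : Fintype.card V = 2 * (q * r)) (hreg : Reg G r) {D : ℝ} (hD0 : 0 ≤ D)
    (hD : D ≤ ∑ p ∈ prA G, (loc G p.1 p.2 / 4 + r * tri G p.1 p.2))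
    {x0 x : ℝ} (hx0 : 0 < x0) (hx1 : x0 * r ≤ 1) (hx : x0 ≤ x) :
    (mp G).eval x ≤ Real.exp (-(D * x0 ^ 4 / (8 * (1 + 2 * x0 * r) ^ 8))) *
      (Lp r).eval x ^ q := by
  have hr0 : (0 : ℝ) < r := by exact_mod_cast hr
  have hL : ∀ y : ℝ, 0 ≤ y → 0 < (Lp r).eval y := fun y hy => by linarith [Lp_pos r hy]
  have hZ : ∀ y : ℝ, 0 ≤ y → 0 < (mp G).eval y := fun y hy => by
    linarith [mp_eval_pos (G := G) hy]
  let h : ℝ → ℝ := fun y => q * Real.log ((Lp r).eval y) - Real.log ((mp G).eval y)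
  have hd : ∀ y : ℝ, 0 ≤ y → HasDerivAt h (q * ((Lp r).derivative.eval y / (Lp r).eval y) -
      (mp G).derivative.eval y / (mp G).eval y) y := by
    intro y hy
    have h1 := ((Lp r).hasDerivAt y).log (hL y hy).ne'
    have h2 := ((mp G).hasDerivAt y).log (hZ y hy).ne'
    exact (h1.const_mul (q : ℝ)).sub h2
  set c : ℝ := D / (8 * (1 + 2 * x0 * r) ^ 8) with hc
  have hc0 : 0 ≤ c := by positivity
  -- first part
  have hpart1 : c * x0 ^ 4 ≤ h x0 := by
    have hdg : ∀ y : ℝ, 0 ≤ y → HasDerivAt (fun y => h y - c * y ^ 4)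
        (q * ((Lp r).derivative.eval y / (Lp r).eval y) -
      (mp G).derivative.eval y / (mp G).eval y - c * (4 * y ^ 3)) y := by
      intro y hy
      have h1 := (hasDerivAt_pow 4 y).const_mul c
      exact (hd y hy).sub (by simpa using h1)
    have hm : MonotoneOn (fun y => h y - c * y ^ 4) (Set.Icc 0 x0) := by
      refine monotoneOn_of_deriv_nonneg (convex_Icc 0 x0) ?_ ?_ ?_
      · exact fun y hy => (hdg y hy.1).continuousAt.continuousWithinAt
      · intro y hy
        rw [interior_Icc] at hy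
        exact (hdg y hy.1.le).differentiableAt.differentiableWithinAt
      · intro y hy
        rw [interior_Icc] at hy
        rw [(hdg y hy.1.le).deriv]
        have h1 := CA_log_deriv hr hV hreg hD0 hD hy.1
          ((mul_le_mul_of_nonneg_right hy.2.le hr0.le).trans hx1)
        have h2 : c * (4 * y ^ 3) ≤ D * y ^ 3 / (2 * (1 + 2 * y * r) ^ 8) := by
          have e : c * (4 * y ^ 3) = D * y ^ 3 / (2 * (1 + 2 * x0 * r) ^ 8) := by
            rw [hc]
            field_simp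
            ring
          rw [e]
          have hy0 := hy.1
          refine div_le_div_of_nonneg_left (by positivity) (by positivity) ?_
          refine mul_le_mul_of_nonneg_left ?_ (by norm_num)
          refine pow_le_pow_left₀ (by positivity) ?_ 8
          have := mul_le_mul_of_nonneg_right hy.2.le hr0.le
          linarith
        linarith
    have h1 := hm (Set.left_mem_Icc.2 hx0.le) (Set.right_mem_Icc.2 hx0.le) hx0.le
    have h2 : h 0 = 0 := by
      show (q : ℝ) * Real.log ((Lp r).eval 0) - Real.log ((mp G).eval 0) = 0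
      rw [← Polynomial.coeff_zero_eq_eval_zero, ← Polynomial.coeff_zero_eq_eval_zero, Lp_coeff,
        ell_zero, mp_coeff, card_mats_zero]
      simp
    have h3 : h 0 - c * 0 ^ 4 ≤ h x0 - c * x0 ^ 4 := h1
    rw [h2] at h3
    linarith
  have hpart2 : h x0 ≤ h x := by
    have hm : MonotoneOn h (Set.Icc x0 x) := by
      refine monotoneOn_of_deriv_nonneg (convex_Icc x0 x) ?_ ?_ ?_
      · exact fun y hy => (hd y (hx0.le.trans hy.1)).continuousAt.continuousWithinAt
      · intro y hy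
        rw [interior_Icc] at hy
        exact (hd y (hx0.le.trans hy.1.le)).differentiableAt.differentiableWithinAt
      · intro y hy
        rw [interior_Icc] at hy
        rw [(hd y (hx0.le.trans hy.1.le)).deriv]
        have h1 := log_deriv_le hr hV hreg (hx0.trans hy.1)
        linarith
    exact hm (Set.left_mem_Icc.2 hx) (Set.right_mem_Icc.2 hx) hx
  have hx' : 0 ≤ x := hx0.le.trans hx
  have hfin : Real.log ((mp G).eval x) ≤ -(c * x0 ^ 4) + q * Real.log ((Lp r).eval x) := by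
    have : c * x0 ^ 4 ≤ q * Real.log ((Lp r).eval x) - Real.log ((mp G).eval x) :=
      hpart1.trans hpart2
    linarith
  have e : D * x0 ^ 4 / (8 * (1 + 2 * x0 * r) ^ 8) = c * x0 ^ 4 := by
    rw [hc]
    ring
  rw [e]
  have h3 := Real.exp_le_exp.2 hfin
  rw [Real.exp_log (hZ x hx'), Real.exp_add, mul_comm (q : ℝ), Real.exp_mul,
    Real.exp_log (hL x hx'), Real.rpow_natCast] at h3
  exact h3


theorem gap3 {V : Type*} [Fintype V] {G : SimpleGraph V} {q r : ℕ} (hr : 1 ≤ r)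
    (hV : Fintype.card V = 2 * (q * r)) (hreg : Reg G r) {D : ℝ} (hD0 : 0 ≤ D)
    (hD : D ≤ ∑ p ∈ prA G, (loc G p.1 p.2 / 4 + r * tri G p.1 p.2))
    {x : ℝ} (hx : 1 / (r : ℝ) ≤ x) :
    (mp G).eval x ≤ Real.exp (-(D / (52488 * (r : ℝ) ^ 4))) * (Lp r).eval x ^ q := by
  have hr0 : (0 : ℝ) < r := by exact_mod_cast hr
  have h1 : (1 / (r : ℝ)) * r = 1 := by
    rw [one_div, inv_mul_cancel₀ hr0.ne']
  have h := CA_gap hr hV hreg hD0 hD (x0 := 1 / (r : ℝ)) (x := x) (by positivity) h1.le hx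
  have e : D * (1 / (r : ℝ)) ^ 4 / (8 * (1 + 2 * (1 / (r : ℝ)) * r) ^ 8) =
      D / (52488 * (r : ℝ) ^ 4) := by
    rw [mul_assoc 2, h1, one_div, inv_pow]
    norm_num
    field_simp
    try ring
  rw [e] at h
  exact h

private theorem CA_sum_nonneg {V : Type*} [Fintype V] (G : SimpleGraph V) (r : ℕ) :
    0 ≤ ∑ p ∈ prA G, (loc G p.1 p.2 / 4 + r * tri G p.1 p.2) := by
  refine Finset.sum_nonneg fun p _ => ?_
  have h1 : 0 ≤ loc G p.1 p.2 := by
    unfold loc
    exact Finset.sum_nonneg fun p _ => sq_nonneg _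
  have h2 : 0 ≤ tri G p.1 p.2 := by
    unfold tri
    positivity
  positivity

private theorem CA_sum_le {V : Type*} [Fintype V] {G : SimpleGraph V} {q r : ℕ} (hr : 1 ≤ r)
    (hV : Fintype.card V = 2 * (q * r)) (hreg : Reg G r) {x δ : ℝ} (hx : 1 / (r : ℝ) ≤ x)
    (hδ : δ = q * Real.log ((Lp r).eval x) - Real.log ((mp G).eval x)) :
    ∑ p ∈ prA G, (loc G p.1 p.2 / 4 + r * tri G p.1 p.2) ≤ 52488 * δ * (r : ℝ) ^ 4 := by
  have hr0 : (0 : ℝ) < r := by exact_mod_cast hr
  have hx0 : 0 ≤ x := le_trans (by positivity) hx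
  have h := gap3 hr hV hreg (CA_sum_nonneg G r) le_rfl hx
  have hL : 0 < (Lp r).eval x := by linarith [Lp_pos r hx0]
  have hZ : 0 < (mp G).eval x := by linarith [mp_eval_pos (G := G) hx0]
  have h2 := Real.log_le_log hZ h
  rw [Real.log_mul (Real.exp_pos _).ne' (pow_pos hL q).ne', Real.log_exp, Real.log_pow] at h2
  have h3 : (∑ p ∈ prA G, (loc G p.1 p.2 / 4 + r * tri G p.1 p.2)) / (52488 * (r : ℝ) ^ 4) ≤ δ := by
    rw [hδ]
    linarith
  rw [div_le_iff₀ (by positivity)] at h3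
  calc _ ≤ _ := h3
    _ = 52488 * δ * (r : ℝ) ^ 4 := by ring

theorem squares_le {V : Type*} [Fintype V] {G : SimpleGraph V} {q r : ℕ} (hr : 1 ≤ r)
    (hV : Fintype.card V = 2 * (q * r)) (hreg : Reg G r) {x δ : ℝ} (hx : 1 / (r : ℝ) ≤ x)
    (hδ : δ = q * Real.log ((Lp r).eval x) - Real.log ((mp G).eval x)) :
    dfc G r ≤ 52488 * δ * (r : ℝ) ^ 4 :=
  (dfc_le hr hreg).trans (CA_sum_le hr hV hreg hx hδ)

theorem triangles_le {V : Type*} [Fintype V] {G : SimpleGraph V} {q r : ℕ} (hr : 1 ≤ r)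
    (hV : Fintype.card V = 2 * (q * r)) (hreg : Reg G r) {x δ : ℝ} (hx : 1 / (r : ℝ) ≤ x)
    (hδ : δ = q * Real.log ((Lp r).eval x) - Real.log ((mp G).eval x)) :
    ∑ p ∈ prA G, tri G p.1 p.2 ≤ 52488 * δ * (r : ℝ) ^ 3 := by
  have hr0 : (0 : ℝ) < r := by exact_mod_cast hr
  have h := CA_sum_le hr hV hreg hx hδ
  rw [Finset.sum_add_distrib, ← Finset.mul_sum] at h
  have h1 : 0 ≤ ∑ p ∈ prA G, loc G p.1 p.2 / 4 := by
    refine Finset.sum_nonneg fun p _ => ?_
    have h1 : 0 ≤ loc G p.1 p.2 := by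
      unfold loc
      exact Finset.sum_nonneg fun p _ => sq_nonneg _
    positivity
  have h2 : (r : ℝ) * ∑ p ∈ prA G, tri G p.1 p.2 ≤ r * (52488 * δ * (r : ℝ) ^ 3) := by
    have e : (r : ℝ) * (52488 * δ * (r : ℝ) ^ 3) = 52488 * δ * (r : ℝ) ^ 4 := by ring
    rw [e]
    linarith
  exact le_of_mul_le_mul_left h2 hr0

end Pool.Agent.Lib.MP_eeed5c_coD
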