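import Pool.Agent.Lib.MP_eeed5c_co_D.Defs

/-!
# The polynomials of `K_{s,s-1}` for nearly equal `s`

`kp_eval`: reversal of the order of the terms. `kp_ratio`: the terms up to `8 m` are comparable, the terms after
`8 m` decrease geometrically.
-/

set_option autoImplicit false

namespace Pool.Agent.Lib.MP_eeed5c_coD

open Finset Pool.Agent.Lib.MP_eeed5c_co Pool.Agent.Lib.MP_eeed5c_coT Pool.Agent.Lib.MP_eeed5c_coN

private theorem DA_term (h j : ℕ) {x : ℝ} (hx : 0 < x) :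
    kc (h + j + 1) j * x ^ j = ((h + j + 1).factorial : ℝ) * x ^ (h + j) *
      ((((h + j).descFactorial h : ℕ) : ℝ) / ((h.factorial : ℝ) * ((h + 1).factorial : ℝ) * x ^ h)) := by
  unfold kc
  have h1 : ((h + j + 1).choose j : ℝ) * (j.factorial : ℝ) * ((h + 1).factorial : ℝ) =
      ((h + j + 1).factorial : ℝ) := by
    have := Nat.choose_mul_factorial_mul_factorial (n := h + j + 1) (k := j) (by omega)
    have e : h + j + 1 - j = h + 1 := by omega
    rw [e] at this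
    exact_mod_cast this
  have h2 : ((h + j).choose j : ℝ) * (j.factorial : ℝ) * (h.factorial : ℝ) = ((h + j).factorial : ℝ) := by
    have := Nat.choose_mul_factorial_mul_factorial (n := h + j) (k := j) (by omega)
    have e : h + j - j = h := by omega
    rw [e] at this
    exact_mod_cast this
  have h3 : (j.factorial : ℝ) * (((h + j).descFactorial h : ℕ) : ℝ) = ((h + j).factorial : ℝ) := by
    have := Nat.factorial_mul_descFactorial (n := h + j) (k := h) (by omega)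
    have e : h + j - h = j := by omega
    rw [e] at this
    exact_mod_cast this
  have hj : (j.factorial : ℝ) ≠ 0 := by exact_mod_cast Nat.factorial_ne_zero j
  have hh : (h.factorial : ℝ) ≠ 0 := by exact_mod_cast Nat.factorial_ne_zero h
  have hh1 : ((h + 1).factorial : ℝ) ≠ 0 := by exact_mod_cast Nat.factorial_ne_zero (h + 1)
  have hxh : x ^ h ≠ 0 := (pow_pos hx h).ne'
  have h4 : (((h + j).descFactorial h : ℕ) : ℝ) = ((h + j).choose j : ℝ) * (h.factorial : ℝ) := by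
    apply mul_left_cancel₀ hj
    rw [h3, ← h2]
    ring
  have e1 : h + j + 1 - 1 = h + j := by omega
  rw [e1, h4, ← h1]
  have e2 : ((h + j).choose j : ℝ) * (h.factorial : ℝ) / ((h.factorial : ℝ) * ((h + 1).factorial : ℝ) * x ^ h) =
      ((h + j).choose j : ℝ) / (((h + 1).factorial : ℝ) * x ^ h) := by
    rw [mul_assoc (h.factorial : ℝ), mul_comm ((h + j).choose j : ℝ)]
    exact mul_div_mul_left _ _ hh
  rw [e2, pow_add]
  field_simp

theorem kp_eval {s : ℕ} (hs : 1 ≤ s) {x : ℝ} (hx : 0 < x) :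
    (kp s).eval x = (s.factorial : ℝ) * x ^ (s - 1) * ∑ h ∈ range s,
      (((s - 1).descFactorial h : ℕ) : ℝ) /
        ((h.factorial : ℝ) * ((h + 1).factorial : ℝ) * x ^ h) := by
  obtain ⟨n, rfl⟩ : ∃ n, s = n + 1 := ⟨s - 1, by omega⟩
  have e0 : n + 1 - 1 = n := by omega
  unfold kp
  rw [Polynomial.eval_finsetSum, Finset.sum_range_succ]
  have hlast : kc (n + 1) (n + 1) = 0 := by
    unfold kc
    rw [e0, Nat.choose_eq_zero_of_lt (show n < n + 1 by omega)]
    simp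
  rw [hlast, Polynomial.monomial_zero_right, Polynomial.eval_zero, add_zero]
  rw [← Finset.sum_range_reflect, Finset.mul_sum]
  refine Finset.sum_congr rfl fun h hh => ?_
  have hh' := Finset.mem_range.1 hh
  obtain ⟨j, rfl⟩ : ∃ j, n = h + j := ⟨n - h, by omega⟩
  have e1 : h + j + 1 - 1 - h = j := by omega
  rw [e1, e0, Polynomial.eval_monomial]
  exact DA_term h j hx

private theorem DA_geo (t : ℕ → ℝ) (k : ℕ) (h : ∀ i, k ≤ i → 16 * t (i + 1) ≤ 3 * t i) (n : ℕ) :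
    ∑ i ∈ range n, t (k + i) ≤ 16 / 13 * (t k - t (k + n)) := by
  induction n with
  | zero => simp
  | succ n ih =>
    rw [Finset.sum_range_succ]
    have := h (k + n) (by omega)
    have e : k + (n + 1) = k + n + 1 := by omega
    rw [e]
    linarith

private theorem DA_desc {r s m : ℕ} (hsr : s ≤ r) (h8 : 8 * m ≤ s) (h : ℕ) (hh : h ≤ 8 * m) :
    ((r : ℝ) - 8 * m - h * ((r : ℝ) - s)) * (((r - 1).descFactorial h : ℕ) : ℝ) ≤
      ((r : ℝ) - 8 * m) * (((s - 1).descFactorial h : ℕ) : ℝ) := by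
  induction h with
  | zero => simp
  | succ h ih =>
    have ih' := ih (by omega)
    rw [Nat.descFactorial_succ, Nat.descFactorial_succ]
    have e1 : ((r - 1 - h : ℕ) : ℝ) = (r : ℝ) - 1 - h := by
      rw [Nat.sub_sub, Nat.cast_sub (by omega)]
      push_cast
      ring
    have e2 : ((s - 1 - h : ℕ) : ℝ) = (s : ℝ) - 1 - h := by
      rw [Nat.sub_sub, Nat.cast_sub (by omega)]
      push_cast
      ring
    push_cast
    rw [e1, e2]
    set A : ℝ := (((r - 1).descFactorial h : ℕ) : ℝ) with hA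
    set B : ℝ := (((s - 1).descFactorial h : ℕ) : ℝ) with hB
    have hA0 : 0 ≤ A := Nat.cast_nonneg _
    have hc : (s : ℝ) ≤ r := by exact_mod_cast hsr
    have hs1 : (0 : ℝ) ≤ (s : ℝ) - 1 - h := by
      have : ((h + 1 : ℕ) : ℝ) ≤ s := by exact_mod_cast (by omega : h + 1 ≤ s)
      push_cast at this
      linarith
    have h3 := mul_le_mul_of_nonneg_left ih' hs1
    have hle : (r : ℝ) - 8 * m - h * ((r : ℝ) - s) ≤ (r : ℝ) - 1 - h := by
      have h4 : ((h + 1 : ℕ) : ℝ) ≤ ((8 * m : ℕ) : ℝ) := by exact_mod_cast hh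
      push_cast at h4
      have h5 : 0 ≤ (h : ℝ) * ((r : ℝ) - s) := mul_nonneg (Nat.cast_nonneg _) (by linarith)
      linarith
    have h6 : ((r : ℝ) - s) * ((r : ℝ) - 8 * m - h * ((r : ℝ) - s)) * A ≤
        ((r : ℝ) - s) * ((r : ℝ) - 1 - h) * A :=
      mul_le_mul_of_nonneg_right (mul_le_mul_of_nonneg_left hle (by linarith)) hA0
    calc ((r : ℝ) - 8 * m - ((h : ℝ) + 1) * ((r : ℝ) - s)) * (((r : ℝ) - 1 - h) * A)
        = ((s : ℝ) - 1 - h) * (((r : ℝ) - 8 * m - h * ((r : ℝ) - s)) * A) +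
          (((r : ℝ) - s) * ((r : ℝ) - 8 * m - h * ((r : ℝ) - s)) * A -
            ((r : ℝ) - s) * ((r : ℝ) - 1 - h) * A) := by ring
      _ ≤ ((s : ℝ) - 1 - h) * (((r : ℝ) - 8 * m - h * ((r : ℝ) - s)) * A) := by linarith
      _ ≤ ((s : ℝ) - 1 - h) * (((r : ℝ) - 8 * m) * B) := h3
      _ = ((r : ℝ) - 8 * m) * (((s : ℝ) - 1 - h) * B) := by ring

theorem kp_ratio {r s m : ℕ} (hm : 1 ≤ m) (hsr : s ≤ r) (hrs : 64 * m * (r - s) ≤ r)
    (hr : 100 * m ≤ r) {x : ℝ} (hx : 0 < x) (hxr : (r : ℝ) ≤ 12 * (m : ℝ) ^ 2 * x) :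
    3 / 8 * ((s.factorial : ℝ) * x ^ s * (kp r).eval x) ≤
      (r.factorial : ℝ) * x ^ r * (kp s).eval x := by
  have h64 : 64 * (r - s) ≤ r := by
    have : 64 * (r - s) ≤ 64 * m * (r - s) := by
      apply Nat.mul_le_mul_right
      omega
    omega
  have h8s : 8 * m + 1 ≤ s := by omega
  have hmr : (1 : ℝ) ≤ m := by exact_mod_cast hm
  have hrr : 100 * (m : ℝ) ≤ r := by exact_mod_cast hr
  have hsrr : (s : ℝ) ≤ r := by exact_mod_cast hsr
  have hrsr : 64 * (m : ℝ) * ((r : ℝ) - s) ≤ r := by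
    rw [← Nat.cast_sub hsr]
    exact_mod_cast hrs
  set t : ℕ → ℝ := fun h => (((r - 1).descFactorial h : ℕ) : ℝ) /
        ((h.factorial : ℝ) * ((h + 1).factorial : ℝ) * x ^ h) with ht
  set u : ℕ → ℝ := fun h => (((s - 1).descFactorial h : ℕ) : ℝ) /
        ((h.factorial : ℝ) * ((h + 1).factorial : ℝ) * x ^ h) with hu
  have hden : ∀ h : ℕ, 0 < (h.factorial : ℝ) * ((h + 1).factorial : ℝ) * x ^ h := by
    intro h
    have h1 : (0 : ℝ) < (h.factorial : ℝ) := by exact_mod_cast Nat.factorial_pos h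
    have h2 : (0 : ℝ) < ((h + 1).factorial : ℝ) := by exact_mod_cast Nat.factorial_pos (h + 1)
    positivity
  have ht0 : ∀ h, 0 ≤ t h := fun h => div_nonneg (Nat.cast_nonneg _) (hden h).le
  have hu0 : ∀ h, 0 ≤ u h := fun h => div_nonneg (Nat.cast_nonneg _) (hden h).le
  -- the first terms
  have hfirst : ∀ h, h ≤ 8 * m → 1 / 2 * t h ≤ u h := by
    intro h hh
    have h1 := DA_desc (m := m) hsr (by omega) h hh
    have hhr : (h : ℝ) ≤ 8 * m := by exact_mod_cast hh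
    have h2 : (h : ℝ) * ((r : ℝ) - s) ≤ 8 * m * ((r : ℝ) - s) :=
      mul_le_mul_of_nonneg_right hhr (by linarith)
    have hL : 0 < (r : ℝ) - 8 * m := by linarith
    have h3 : 1 / 2 * ((r : ℝ) - 8 * m) ≤ (r : ℝ) - 8 * m - h * ((r : ℝ) - s) := by linarith
    have h4 : 1 / 2 * ((r : ℝ) - 8 * m) * (((r - 1).descFactorial h : ℕ) : ℝ) ≤
        ((r : ℝ) - 8 * m) * (((s - 1).descFactorial h : ℕ) : ℝ) :=
      (mul_le_mul_of_nonneg_right h3 (Nat.cast_nonneg _)).trans h1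
    have h5 : ((r : ℝ) - 8 * m) * (1 / 2 * (((r - 1).descFactorial h : ℕ) : ℝ)) ≤
        ((r : ℝ) - 8 * m) * (((s - 1).descFactorial h : ℕ) : ℝ) := by
      refine le_trans (le_of_eq ?_) h4
      ring
    have h6 := le_of_mul_le_mul_left h5 hL
    simp only [ht, hu]
    rw [← mul_div_assoc]
    exact div_le_div_of_nonneg_right h6 (hden h).le
  -- the tail
  have htail : ∀ i, 8 * m ≤ i → 16 * t (i + 1) ≤ 3 * t i := by
    intro i hi
    have hir : 8 * (m : ℝ) ≤ i := by exact_mod_cast hi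
    have e1 : t (i + 1) = t i * (((r - 1 - i : ℕ) : ℝ) / (((i : ℝ) + 1) * ((i : ℝ) + 2) * x)) := by
      simp only [ht]
      rw [Nat.descFactorial_succ, Nat.factorial_succ (i + 1), Nat.factorial_succ i, pow_succ]
      push_cast
      have hi0 : (i.factorial : ℝ) ≠ 0 := by exact_mod_cast Nat.factorial_ne_zero i
      have hi1 : (i : ℝ) + 1 ≠ 0 := by positivity
      have hi2 : (i : ℝ) + 2 ≠ 0 := by positivity
      have hi3 : (i : ℝ) + 1 + 1 ≠ 0 := by positivity
      have hx0 := hx.ne'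
      have hxi : x ^ i ≠ 0 := (pow_pos hx i).ne'
      field_simp
      ring
    have h2 : ((r - 1 - i : ℕ) : ℝ) / (((i : ℝ) + 1) * ((i : ℝ) + 2) * x) ≤ 3 / 16 := by
      have hi1 : 0 < ((i : ℝ) + 1) * ((i : ℝ) + 2) * x := by positivity
      rw [div_le_iff₀ hi1]
      have h3 : ((r - 1 - i : ℕ) : ℝ) ≤ r := by exact_mod_cast (by omega : r - 1 - i ≤ r)
      have h4 : 64 * (m : ℝ) ^ 2 ≤ ((i : ℝ) + 1) * ((i : ℝ) + 2) := by nlinarith
      have h5 : 64 * (m : ℝ) ^ 2 * x ≤ ((i : ℝ) + 1) * ((i : ℝ) + 2) * x :=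
        mul_le_mul_of_nonneg_right h4 hx.le
      linarith
    rw [e1]
    have h6 := mul_le_mul_of_nonneg_left h2 (ht0 i)
    linarith
  have hgeo := DA_geo t (8 * m) htail
  -- the sums
  have hkr : ∑ h ∈ range r, t h ≤ 4 / 3 * ∑ h ∈ range (8 * m + 1), t h := by
    obtain ⟨n, hn⟩ : ∃ n, r = 8 * m + n := ⟨r - 8 * m, by omega⟩
    have e : ∑ h ∈ range r, t h = ∑ h ∈ range (8 * m), t h + ∑ i ∈ range n, t (8 * m + i) := by
      rw [hn]
      exact Finset.sum_range_add _ _ _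
    rw [e, Finset.sum_range_succ]
    have h1 := hgeo n
    have h2 := ht0 (8 * m + n)
    have h3 := ht0 (8 * m)
    have h4 : 0 ≤ ∑ h ∈ range (8 * m), t h := Finset.sum_nonneg fun h _ => ht0 h
    linarith
  have hks : ∑ h ∈ range (8 * m + 1), t h ≤ 2 * ∑ h ∈ range s, u h := by
    have h1 : ∑ h ∈ range (8 * m + 1), u h ≤ ∑ h ∈ range s, u h :=
      Finset.sum_le_sum_of_subset_of_nonneg (Finset.range_subset_range.2 h8s) fun i _ _ => hu0 i
    have h2 : ∑ h ∈ range (8 * m + 1), t h ≤ ∑ h ∈ range (8 * m + 1), 2 * u h := by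
      refine Finset.sum_le_sum fun h hh => ?_
      have := hfirst h (by have := Finset.mem_range.1 hh; omega)
      linarith
    rw [← Finset.mul_sum] at h2
    linarith
  have hmain : 3 / 8 * ∑ h ∈ range r, t h ≤ ∑ h ∈ range s, u h := by linarith
  rw [kp_eval (by omega : 1 ≤ r) hx, kp_eval (by omega : 1 ≤ s) hx]
  have e1 : x ^ s * x ^ (r - 1) = x ^ r * x ^ (s - 1) := by
    rw [← pow_add, ← pow_add]
    congr 1
    omega
  have hpos : 0 ≤ (s.factorial : ℝ) * (r.factorial : ℝ) * (x ^ r * x ^ (s - 1)) := by positivity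
  calc 3 / 8 * ((s.factorial : ℝ) * x ^ s * ((r.factorial : ℝ) * x ^ (r - 1) * ∑ h ∈ range r, t h))
      = (s.factorial : ℝ) * (r.factorial : ℝ) * (x ^ s * x ^ (r - 1)) * (3 / 8 * ∑ h ∈ range r, t h) := by ring
    _ = (s.factorial : ℝ) * (r.factorial : ℝ) * (x ^ r * x ^ (s - 1)) * (3 / 8 * ∑ h ∈ range r, t h) := by
        rw [e1]
    _ ≤ (s.factorial : ℝ) * (r.factorial : ℝ) * (x ^ r * x ^ (s - 1)) * ∑ h ∈ range s, u h :=
        mul_le_mul_of_nonneg_left hmain hpos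
    _ = (r.factorial : ℝ) * x ^ r * ((s.factorial : ℝ) * x ^ (s - 1) * ∑ h ∈ range s, u h) := by ring

end Pool.Agent.Lib.MP_eeed5c_coD
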