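import Pool.Agent.Lib.MP_eeed5c_co_D.DA

/-!
# The differences of the multipliers

`gp_diff`: PROOF. Definition of `gp` (`N/Defs.lean`):
`(gp R t).eval x = ∑ i ∈ range (t+1), t_i x^i (kp (R-i)).eval x` with `t_i = t.descFactorial i`. The term `i = 0` is
the same for `t` and `t + 1`, `t_(t+1) = 0`, and for `i ≤ t`:
`(t+1)_(i+1) - t_(i+1) = (t+1) t_i - (t-i) t_i = (i+1) t_i`.

`gp_diff_ge`: PROOF. `R = r - 1`; `gp_diff` with `t = R - a - 1` (so `R - a = t + 1`; `a < R`). All terms are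
nonnegative; keep those with `i = R - 1 - s`, `R - ρ ≤ s ≤ R - 1`, `ρ = r / (64 m) - 1` (natural division; `ρ ≥ 1`).
Such a term is `(R - s) * t_i * x^(R-s) * (kp s).eval x` (`R - (i+1) = s`), where
`t_i = t!/(t-i)! = (R-a-1)!/(s-a)!`. By `kp_ratio` (`64 m (r - s) ≤ 64 m (ρ + 1) ≤ r`)
`(kp s).eval x ≥ (3/8) (s!/r!) x^s x^(-r) (kp r).eval x`, so the term is at least
`(3/8) (R-s) * ((R-a-1)! s!/((s-a)! r!)) * (kp r).eval x / x` (`x^(R-s) x^s / x^r = 1/x`). Here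
`s!/(s-a)! = s_a ≥ (s-a)^a`, `(R-a-1)! ≥ (R-1)!/R^a`, so the bracket is at least
`((s-a)/R)^a / (r (r-1))`, and `((s-a)/R)^a ≥ 1 - a (R-s+a)/R ≥ 1/2` (Bernoulli `one_add_mul_le_pow`;
`a ≤ 12 m`, `R - s ≤ ρ ≤ r/(64 m)`, so `a (R - s) ≤ 12 r/64`, `a^2 ≤ 144 m^2 ≤ r / 16`, `R ≥ r/2 + ...`).
`∑ (R - s) = ρ (ρ+1)/2 ≥ r^2/(2 * 4300 m^2)`. So the difference is at least
`(3/8)(1/2)(1/(8600 m^2)) (kp r).eval x / x = (kp r).eval x / (45867 m^2 x)` (roughly; `3/(16 * 8600)`).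
-/

set_option autoImplicit false

namespace Pool.Agent.Lib.MP_eeed5c_coD

open Finset Pool.Agent.Lib.MP_eeed5c_co Pool.Agent.Lib.MP_eeed5c_coT Pool.Agent.Lib.MP_eeed5c_coN

private theorem DB_eval (R t : ℕ) (x : ℝ) : (gp R t).eval x = ∑ i ∈ range (t + 1),
    ((t.descFactorial i : ℕ) : ℝ) * x ^ i * (kp (R - i)).eval x := by
  unfold gp
  rw [Polynomial.eval_finsetSum]
  refine Finset.sum_congr rfl fun i _ => ?_
  rw [Polynomial.eval_mul, Polynomial.eval_mul, Polynomial.eval_C, Polynomial.eval_pow, Polynomial.eval_X]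

theorem gp_diff (R t : ℕ) (x : ℝ) :
    (gp R (t + 1)).eval x - (gp R t).eval x = ∑ i ∈ range (t + 1),
      ((i : ℝ) + 1) * ((t.descFactorial i : ℕ) : ℝ) * x ^ (i + 1) * (kp (R - (i + 1))).eval x := by
  have h1 : (gp R t).eval x = ∑ i ∈ range (t + 2),
      ((t.descFactorial i : ℕ) : ℝ) * x ^ i * (kp (R - i)).eval x := by
    rw [DB_eval, Finset.sum_range_succ _ (t + 1), Nat.descFactorial_of_lt (Nat.lt_succ_self t)]
    simp
  rw [h1, DB_eval R (t + 1), Finset.sum_range_succ' _ (t + 1), Finset.sum_range_succ' _ (t + 1),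
    Nat.descFactorial_zero, Nat.descFactorial_zero, add_sub_add_right_eq_sub, ← Finset.sum_sub_distrib]
  refine Finset.sum_congr rfl fun i hi => ?_
  have hi' : i ≤ t := by have := Finset.mem_range.1 hi; omega
  rw [Nat.succ_descFactorial_succ, Nat.descFactorial_succ]
  push_cast [Nat.cast_sub hi']
  ring

private theorem DB_kp_nonneg (s : ℕ) {x : ℝ} (hx : 0 ≤ x) : 0 ≤ (kp s).eval x := by
  rw [Polynomial.eval_eq_sum_range]
  exact Finset.sum_nonneg fun i _ => mul_nonneg (NN_kp s i) (pow_nonneg hx i)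

private theorem DB_desc {r m a i : ℕ} (hm : 1 ≤ m) (hr : 1000000 * m ^ 3 ≤ r) (ha : a ≤ 12 * m)
    (hi : 64 * m * (i + 2) ≤ r) :
    ((r - 2).descFactorial a : ℝ) ≤ 2 * ((r - 2 - i).descFactorial a : ℝ) := by
  have h1 : ((r - 2).descFactorial a : ℝ) ≤ ((r - 2 : ℕ) : ℝ) ^ a := by
    exact_mod_cast Nat.descFactorial_le_pow _ _
  have h2 : ((r - 2 - i + 1 - a : ℕ) : ℝ) ^ a ≤ ((r - 2 - i).descFactorial a : ℝ) := by
    exact_mod_cast Nat.pow_sub_le_descFactorial _ _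
  have hm2 : m ^ 2 ≤ m ^ 3 := Nat.pow_le_pow_right hm (by norm_num)
  have hm1 : m ≤ m ^ 2 := Nat.le_self_pow (by norm_num) m
  have h3 : 2 * (a * (i + a)) ≤ 24 * (m * i) + 288 * m ^ 2 := by
    calc 2 * (a * (i + a)) ≤ 2 * (12 * m * (i + 12 * m)) := by gcongr
      _ = 24 * (m * i) + 288 * m ^ 2 := by ring
  have h4 : 64 * (m * i) + 128 * m ≤ r := by
    calc 64 * (m * i) + 128 * m = 64 * m * (i + 2) := by ring
      _ ≤ r := hi
  have h5 : i ≤ m * i := Nat.le_mul_of_pos_left i hm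
  have h6 : 2 * (a * (i + a)) ≤ r - 2 := by omega
  have h7 : i + a + 1 ≤ r := by omega
  have hn : ((r - 2 : ℕ) : ℝ) = (r : ℝ) - 2 := by
    rw [Nat.cast_sub (by omega)]
    norm_num
  have hb : ((r - 2 - i + 1 - a : ℕ) : ℝ) = (r : ℝ) - 1 - i - a := by
    have h : r - 2 - i + 1 - a = r - (1 + i + a) := by omega
    rw [h, Nat.cast_sub (by omega)]
    push_cast
    ring
  have hn0 : (0 : ℝ) < ((r - 2 : ℕ) : ℝ) := by
    have : 0 < r - 2 := by omega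
    exact_mod_cast this
  have h8 : 2 * ((a : ℝ) * (i + a)) ≤ ((r - 2 : ℕ) : ℝ) := by exact_mod_cast h6
  have h9 : ((r - 2 : ℕ) : ℝ) ^ a ≤ 2 * ((r - 2 - i + 1 - a : ℕ) : ℝ) ^ a := by
    obtain ⟨n, hnd⟩ : ∃ n : ℝ, n = ((r - 2 : ℕ) : ℝ) := ⟨_, rfl⟩
    obtain ⟨b, hbd⟩ : ∃ b : ℝ, b = ((r - 2 - i + 1 - a : ℕ) : ℝ) := ⟨_, rfl⟩
    rw [← hnd, ← hbd]
    rw [← hnd] at hn hn0 h8
    rw [← hbd] at hb
    have hb0 : 0 ≤ b := by rw [hbd]; exact Nat.cast_nonneg _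
    have hp0 : 0 ≤ b / n := div_nonneg hb0 hn0.le
    have hB := one_add_mul_le_pow (a := b / n - 1) (by linarith) a
    have hbn : b = n + 1 - i - a := by rw [hb, hn]; ring
    have h10 : -(1 / 2) ≤ (a : ℝ) * (b / n - 1) := by
      have e : (a : ℝ) * (b / n - 1) = (a : ℝ) * (1 - i - a) / n := by
        rw [hbn]
        field_simp
        ring
      rw [e, le_div_iff₀ hn0]
      have ha0 : (0 : ℝ) ≤ a := Nat.cast_nonneg a
      have e2 : (a : ℝ) * (1 - i - a) = a - (a : ℝ) * (i + a) := by ring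
      rw [e2]
      linarith
    have h11 : 1 / 2 ≤ (b / n) ^ a := by
      have e : (1 : ℝ) + (b / n - 1) = b / n := by ring
      rw [e] at hB
      linarith
    rw [div_pow, le_div_iff₀ (pow_pos hn0 a)] at h11
    linarith
  linarith

private theorem DB_fact {r m a i : ℕ} (hm : 1 ≤ m) (hr : 1000000 * m ^ 3 ≤ r) (ha : a ≤ 12 * m)
    (hi : 64 * m * (i + 2) ≤ r) :
    (r.factorial : ℝ) ≤ 2 * (r : ℝ) ^ 2 *
      (((r - 1 - (a + 1)).descFactorial i : ℕ) : ℝ) * ((r - 1 - (i + 1)).factorial : ℝ) := by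
  have hd := DB_desc hm hr ha hi
  have hm2 : m ^ 2 ≤ m ^ 3 := Nat.pow_le_pow_right hm (by norm_num)
  have hm1 : m ≤ m ^ 2 := Nat.le_self_pow (by norm_num) m
  have h4 : 64 * (m * i) + 128 * m ≤ r := by
    calc 64 * (m * i) + 128 * m = 64 * m * (i + 2) := by ring
      _ ≤ r := hi
  have h5 : i ≤ m * i := Nat.le_mul_of_pos_left i hm
  obtain ⟨r', rfl⟩ : ∃ r', r = r' + 2 := ⟨r - 2, by omega⟩
  have e1 : r' + 2 - 2 = r' := rfl
  have e2 : r' + 2 - 1 - (a + 1) = r' - a := by omega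
  have e3 : r' + 2 - 1 - (i + 1) = r' - i := by omega
  rw [e1] at hd
  rw [e2, e3]
  have f1 := Nat.factorial_mul_descFactorial (n := r') (k := a) (by omega)
  have f2 := Nat.factorial_mul_descFactorial (n := r' - a) (k := i) (by omega)
  have f3 := Nat.factorial_mul_descFactorial (n := r' - i) (k := a) (by omega)
  have e5 : r' - a - i = r' - i - a := by omega
  rw [e5] at f2
  have g1 : (((r' - a).factorial : ℕ) : ℝ) * ((r'.descFactorial a : ℕ) : ℝ) = (r'.factorial : ℝ) := by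
    exact_mod_cast f1
  have g2 : (((r' - i - a).factorial : ℕ) : ℝ) * (((r' - a).descFactorial i : ℕ) : ℝ) =
      ((r' - a).factorial : ℝ) := by exact_mod_cast f2
  have g3 : (((r' - i - a).factorial : ℕ) : ℝ) * (((r' - i).descFactorial a : ℕ) : ℝ) =
      ((r' - i).factorial : ℝ) := by exact_mod_cast f3
  have g4 : (((r' + 2).factorial : ℕ) : ℝ) = ((r' : ℝ) + 2) * (((r' : ℝ) + 1) * (r'.factorial : ℝ)) := by
    rw [Nat.factorial_succ, Nat.factorial_succ]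
    push_cast
    ring
  rw [g4, ← g1, ← g3, ← g2]
  push_cast
  have hr0 : (0 : ℝ) ≤ r' := Nat.cast_nonneg _
  calc ((r' : ℝ) + 2) * (((r' : ℝ) + 1) * (((r' - i - a).factorial : ℝ) * ((r' - a).descFactorial i : ℝ) *
        (r'.descFactorial a : ℝ)))
      ≤ ((r' : ℝ) + 2) * (((r' : ℝ) + 2) * (((r' - i - a).factorial : ℝ) * ((r' - a).descFactorial i : ℝ) *
        (2 * ((r' - i).descFactorial a : ℝ)))) := by gcongr; norm_num
    _ = 2 * ((r' : ℝ) + 2) ^ 2 * ((r' - a).descFactorial i : ℝ) * (((r' - i - a).factorial : ℝ) *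
        ((r' - i).descFactorial a : ℝ)) := by ring

private theorem DB_sum (n : ℕ) : ∑ i ∈ range n, ((i : ℝ) + 1) = (n : ℝ) * (n + 1) / 2 := by
  induction n with
  | zero => simp
  | succ n ih =>
    rw [Finset.sum_range_succ, ih]
    push_cast
    ring

theorem gp_diff_ge {r m a : ℕ} (hm : 1 ≤ m) (hr : 1000000 * m ^ 3 ≤ r) (ha : a ≤ 12 * m) {x : ℝ}
    (hx : 0 < x) (hxr : (r : ℝ) ≤ 12 * (m : ℝ) ^ 2 * x) :
    (kp r).eval x ≤ 46000 * (m : ℝ) ^ 2 * x *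
      ((gp (r - 1) (r - 1 - a)).eval x - (gp (r - 1) (r - 1 - (a + 1))).eval x) := by
  have hm2 : m ^ 2 ≤ m ^ 3 := Nat.pow_le_pow_right hm (by norm_num)
  have hm1 : m ≤ m ^ 2 := Nat.le_self_pow (by norm_num) m
  have h64 : 0 < 64 * m := by omega
  obtain ⟨k, hk⟩ : ∃ k, k = r / (64 * m) := ⟨_, rfl⟩
  have hdiv : 64 * m * k ≤ r := by rw [hk]; exact Nat.mul_div_le r (64 * m)
  have hdiv2 : r < 64 * m * (k + 1) := by rw [hk]; exact Nat.lt_mul_div_succ r h64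
  have hk1 : 1 ≤ k := by
    rw [hk]
    exact (Nat.one_le_div_iff h64).2 (by omega)
  obtain ⟨ρ, rfl⟩ : ∃ ρ, k = ρ + 1 := ⟨k - 1, by omega⟩
  have hρr : 64 * ρ + 64 ≤ r := by
    calc 64 * ρ + 64 = 64 * 1 * (ρ + 1) := by ring
      _ ≤ 64 * m * (ρ + 1) := by gcongr
      _ ≤ r := hdiv
  have et : r - 1 - a = r - 1 - (a + 1) + 1 := by omega
  rw [et, gp_diff]
  obtain ⟨K, hK⟩ : ∃ K, K = (kp r).eval x := ⟨_, rfl⟩
  have hK0 : 0 ≤ K := by rw [hK]; exact DB_kp_nonneg r hx.le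
  rw [← hK]
  obtain ⟨t, ht⟩ : ∃ t, t = r - 1 - (a + 1) := ⟨_, rfl⟩
  have hρt : ρ ≤ t + 1 := by omega
  -- one term
  have hterm : ∀ i ∈ range ρ, 3 / 8 * K * ((i : ℝ) + 1) ≤ 2 * (r : ℝ) ^ 2 * x *
      (((i : ℝ) + 1) * ((t.descFactorial i : ℕ) : ℝ) * x ^ (i + 1) * (kp (r - 1 - (i + 1))).eval x) := by
    intro i hi
    have hi' : i < ρ := Finset.mem_range.1 hi
    have h1 : 64 * m * (i + 2) ≤ r :=
      (Nat.mul_le_mul_left (64 * m) (by omega : i + 2 ≤ ρ + 1)).trans hdiv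
    have hs : r - (r - 1 - (i + 1)) = i + 2 := by omega
    have h2 := kp_ratio (s := r - 1 - (i + 1)) hm (by omega) (by rw [hs]; exact h1) (by omega) hx hxr
    have h3 := DB_fact hm hr ha h1
    rw [← ht] at h3
    rw [← hK] at h2
    have hkp := DB_kp_nonneg (r - 1 - (i + 1)) hx.le
    have hxs : x ^ r = x ^ (r - 1 - (i + 1)) * x ^ (i + 2) := by
      rw [← pow_add]
      congr 1
      omega
    obtain ⟨S, hS⟩ : ∃ S, S = ((r - 1 - (i + 1)).factorial : ℝ) * x ^ (r - 1 - (i + 1)) := ⟨_, rfl⟩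
    have hS0 : 0 < S := by
      rw [hS]
      positivity
    have h4 : S * (3 / 8 * K) ≤ S * (2 * (r : ℝ) ^ 2 * ((t.descFactorial i : ℕ) : ℝ) * x ^ (i + 2) *
        (kp (r - 1 - (i + 1))).eval x) := by
      calc S * (3 / 8 * K)
          = 3 / 8 * (((r - 1 - (i + 1)).factorial : ℝ) * x ^ (r - 1 - (i + 1)) * K) := by
            rw [hS]; ring
        _ ≤ (r.factorial : ℝ) * x ^ r * (kp (r - 1 - (i + 1))).eval x := h2
        _ ≤ (2 * (r : ℝ) ^ 2 * ((t.descFactorial i : ℕ) : ℝ) * ((r - 1 - (i + 1)).factorial : ℝ)) *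
            x ^ r * (kp (r - 1 - (i + 1))).eval x :=
            mul_le_mul_of_nonneg_right (mul_le_mul_of_nonneg_right h3 (pow_nonneg hx.le r)) hkp
        _ = _ := by
            rw [hxs, hS]
            ring
    have h5 := le_of_mul_le_mul_left h4 hS0
    have hi0 : (0 : ℝ) ≤ (i : ℝ) + 1 := by positivity
    calc 3 / 8 * K * ((i : ℝ) + 1) ≤ (2 * (r : ℝ) ^ 2 * ((t.descFactorial i : ℕ) : ℝ) * x ^ (i + 2) *
        (kp (r - 1 - (i + 1))).eval x) * ((i : ℝ) + 1) := mul_le_mul_of_nonneg_right h5 hi0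
      _ = _ := by ring
  rw [← ht]
  obtain ⟨f, hf⟩ : ∃ f : ℕ → ℝ, f = fun i : ℕ => ((i : ℝ) + 1) * ((t.descFactorial i : ℕ) : ℝ) * x ^ (i + 1) *
      (kp (r - 1 - (i + 1))).eval x := ⟨_, rfl⟩
  have hf0 : ∀ i, 0 ≤ f i := by
    intro i
    rw [hf]
    have := DB_kp_nonneg (r - 1 - (i + 1)) hx.le
    positivity
  have hsum1 : ∑ i ∈ range ρ, f i ≤ ∑ i ∈ range (t + 1), f i :=
    Finset.sum_le_sum_of_subset_of_nonneg (Finset.range_subset_range.2 hρt) fun i _ _ => hf0 i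
  have hsum2 : 3 / 8 * K * ((ρ : ℝ) * (ρ + 1) / 2) ≤ 2 * (r : ℝ) ^ 2 * x * ∑ i ∈ range ρ, f i := by
    rw [← DB_sum, Finset.mul_sum, Finset.mul_sum]
    refine Finset.sum_le_sum fun i hi => ?_
    rw [hf]
    exact hterm i hi
  have hfe : ∑ i ∈ range (t + 1), (((i : ℕ) : ℝ) + 1) * ((t.descFactorial i : ℕ) : ℝ) * x ^ (i + 1) *
      (kp (r - 1 - (i + 1))).eval x = ∑ i ∈ range (t + 1), f i := by rw [hf]
  rw [hfe]
  obtain ⟨Dd, hDd⟩ : ∃ Dd, Dd = ∑ i ∈ range (t + 1), f i := ⟨_, rfl⟩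
  rw [← hDd] at hsum1 ⊢
  have hr0 : (0 : ℝ) < r := by
    have : 0 < r := by omega
    exact_mod_cast this
  have hsum3 : 3 / 8 * K * ((ρ : ℝ) * (ρ + 1) / 2) ≤ 2 * (r : ℝ) ^ 2 * x * Dd :=
    hsum2.trans (mul_le_mul_of_nonneg_left hsum1 (by positivity))
  -- the number of terms
  have hρ2 : 2 * (r : ℝ) ^ 2 ≤ 8625 * (m : ℝ) ^ 2 * ((ρ : ℝ) * (ρ + 1)) := by
    have hm0 : (1 : ℝ) ≤ m := by exact_mod_cast hm
    have hrm : 1000000 * (m : ℝ) ≤ r := by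
      have : 1000000 * m ≤ r := by omega
      exact_mod_cast this
    have h1 : (r : ℝ) ≤ 64 * m * (ρ + 2) := by
      have := hdiv2.le
      have h : ((r : ℕ) : ℝ) ≤ ((64 * m * (ρ + 1 + 1) : ℕ) : ℝ) := by exact_mod_cast this
      push_cast at h
      linarith
    obtain ⟨y, hy⟩ : ∃ y : ℝ, y = r / (64 * m) := ⟨_, rfl⟩
    have h64m : (0 : ℝ) < 64 * m := by linarith
    have hry : (r : ℝ) = 64 * m * y := by rw [hy]; field_simp
    have hy1 : 15625 ≤ y := by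
      rw [hy, le_div_iff₀ h64m]
      linarith
    have hyρ : y - 2 ≤ ρ := by
      rw [hry] at h1
      have := le_of_mul_le_mul_left h1 h64m
      linarith
    have h2 : (y - 2) * (y - 1) ≤ (ρ : ℝ) * (ρ + 1) :=
      mul_le_mul hyρ (by linarith) (by linarith) (by linarith)
    have h3 : 8192 * y ^ 2 ≤ 8625 * ((y - 2) * (y - 1)) := by nlinarith
    calc 2 * (r : ℝ) ^ 2 = (m : ℝ) ^ 2 * (8192 * y ^ 2) := by rw [hry]; ring
      _ ≤ (m : ℝ) ^ 2 * (8625 * ((y - 2) * (y - 1))) := mul_le_mul_of_nonneg_left h3 (by positivity)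
      _ ≤ (m : ℝ) ^ 2 * (8625 * ((ρ : ℝ) * (ρ + 1))) := by gcongr
      _ = _ := by ring
  have hfin : (r : ℝ) ^ 2 * K ≤ (r : ℝ) ^ 2 * (46000 * (m : ℝ) ^ 2 * x * Dd) := by
    have h1 := mul_le_mul_of_nonneg_right hρ2 hK0
    have h2 := mul_le_mul_of_nonneg_left hsum3 (by positivity : (0 : ℝ) ≤ 23000 * (m : ℝ) ^ 2)
    calc (r : ℝ) ^ 2 * K = 2 * (r : ℝ) ^ 2 * K / 2 := by ring
      _ ≤ 8625 * (m : ℝ) ^ 2 * ((ρ : ℝ) * (ρ + 1)) * K / 2 := by linarith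
      _ = 23000 * (m : ℝ) ^ 2 * (3 / 8 * K * ((ρ : ℝ) * (ρ + 1) / 2)) := by ring
      _ ≤ 23000 * (m : ℝ) ^ 2 * (2 * (r : ℝ) ^ 2 * x * Dd) := h2
      _ = _ := by ring
  exact le_of_mul_le_mul_left hfin (by positivity)

end Pool.Agent.Lib.MP_eeed5c_coD
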