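import Pool.Agent.Lib.MP_eeed5c_co_D.AD
import Pool.Agent.Lib.MP_eeed5c_co_D.DB

/-!
# The lower bound for the difference of the means

`Dp_eval`: PROOF. `Dp_coeff`, `Dp_coeff_zero` (`N/TB2.lean`): `2 Dp.eval x = ∑ k, x^(k+1) 2 Dp.coeff (k+1)`
`= (R+1) x ∑ i, ∑ j, x^i x^j ∑ N ∈ mats G i, WW G (ww R j) N` (sums over all `i, j`, finite support:
`ww_zero` for `j > R`, `mats G i = ∅` for `2 i > card V`). `WW G w N` is linear in `w` (`phi1`, `phi2`), and
`∑ j ≤ R, x^j ww R j a = (gp R (R-a)).eval x` (`ww`, `gp_coeff_zero`: the degree of `gp R t`, `t ≤ R`, is at most `R`).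

`WW_lower`: PROOF. `phi2 ≥ 0` (`phi2_nonneg`). `phi1`: for `u, v ∈ free N`, `u ~ v`, both `D G N u`, `D G N v` are
between `1` and `(free N).card ≤ 12 m`. If `D u > D v`, then
`w (D v - 1) - w (D u - 1) = ∑ a from D v - 1 to D u - 2, (w a - w (a+1)) ≥ (D u - D v) * Δ`, so
`phi1 ≥ (Δ/2) (D u - D v)^2`; the same if `D u < D v`; `phi1 = 0` if they are equal. `sum_pairs` and
`Finset.sum_product`, to write the double sum with the filter.

`typed`: PROOF. `r = R + 1`, `K = (Lp r).eval x`, `Z = (mp G).eval x`,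
`f = q mb r x - x Z'/Z` with `mb r x = x K'/K`. `Dp.eval x = q r K' Z - r K Z'`, so `x Dp.eval x = r K Z f`. By `Dp_eval`
`f Z = (x^2 / (2 K)) * WS G x (fun N => WW G w N)`, `w a = (gp R (R-a)).eval x`. `w` is antitone: `gp_mono`
(coefficientwise) and `x > 0`; `WW_nonneg` for the matchings with more than `J + 2` uncovered vertices and `WW_lower`
for the others (`J + 2 ≤ 12 m`), with `Δ = (kp r).eval x / (46000 m^2 x)` from `gp_diff_ge`. So
`f Z ≥ (x^2 / (2 K)) (Δ/2) WS G x (fun N => if (free N).card ≤ J + 2 then ∑ p (free, adj), (D N p.1 - D N p.2)^2 else 0)`.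
`WS_insert` with `F M p = if (free M).card ≤ J then (D G M p.1 - D G M p.2)^2 else 0`: for `M = insert s(u,v) N`,
`D G N u = D G M u + 1` and `D G N v = D G M v + 1` (the uncovered neighbours of `u` for `N` are those for `M` and
`v`), `card_free_insert`. So the last `WS` is `(1/x) WS G x (fun M => if .. ≤ J then em G M else 0)`, and
`f Z ≥ (x Δ / (4 K)) WS(..) = ((kp r).eval x / K) / (184000 m^2) WS(..)`. Finally `r (kp r).eval x = r K - x K'`
`= K (r - mb r x)`: `Lp_succ`, `Lp_deriv` (`N/TA1.lean`) with `r = R + 1`: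
`x K' = x (R+1)^2 (Lp R).eval x = (R+1) (K - (kp (R+1)).eval x)`.
-/

set_option autoImplicit false

namespace Pool.Agent.Lib.MP_eeed5c_coD

open Finset Pool.Agent.Lib.MP_eeed5c_co Pool.Agent.Lib.MP_eeed5c_coT Pool.Agent.Lib.MP_eeed5c_coN
open Pool.Agent.Lib.MP_eeed5c_coU

section

variable {V : Type*} [Fintype V] {G : SimpleGraph V}

private theorem DC_phi1_sum {ι : Type*} (s : Finset ι) (c : ι → ℝ) (f : ι → ℕ → ℝ) (u v : V)
    (N : Finset (Sym2 V)) : phi1 G (fun a => ∑ j ∈ s, c j * f j a) u v N =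
      ∑ j ∈ s, c j * phi1 G (f j) u v N := by
  unfold phi1
  split_ifs with h
  · rw [← Finset.sum_sub_distrib, Finset.mul_sum]
    exact Finset.sum_congr rfl fun j _ => by ring
  · simp

private theorem DC_phi2_sum {ι : Type*} (s : Finset ι) (c : ι → ℝ) (f : ι → ℕ → ℝ) (v : V)
    (N : Finset (Sym2 V)) : phi2 G (fun a => ∑ j ∈ s, c j * f j a) v N =
      ∑ j ∈ s, c j * phi2 G (f j) v N := by
  unfold phi2
  split_ifs with h
  · rw [← Finset.sum_sub_distrib, Finset.mul_sum]
    exact Finset.sum_congr rfl fun j _ => by ring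
  · simp

private theorem DC_WW_sum {ι : Type*} (s : Finset ι) (c : ι → ℝ) (f : ι → ℕ → ℝ)
    (N : Finset (Sym2 V)) : WW G (fun a => ∑ j ∈ s, c j * f j a) N =
      ∑ j ∈ s, c j * WW G (f j) N := by
  unfold WW
  simp only [mul_add, Finset.sum_add_distrib]
  congr 1
  · rw [Finset.sum_congr rfl fun u _ => Finset.sum_congr rfl fun v _ =>
      DC_phi1_sum (G := G) s c f u v N]
    rw [Finset.sum_congr rfl fun u _ => Finset.sum_comm, Finset.sum_comm]
    refine Finset.sum_congr rfl fun j _ => ?_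
    rw [Finset.mul_sum]
    refine Finset.sum_congr rfl fun u _ => ?_
    rw [Finset.mul_sum]
  · rw [Finset.sum_congr rfl fun v _ => DC_phi2_sum (G := G) s c f v N, Finset.sum_comm]
    refine Finset.sum_congr rfl fun j _ => ?_
    rw [Finset.mul_sum]

private theorem DC_gp_eval (R a : ℕ) (x : ℝ) :
    (gp R (R - a)).eval x = ∑ j ∈ range (R + 1), x ^ j * ww R j a := by
  rw [Polynomial.eval_eq_sum_range' (n := R + 1)]
  · exact Finset.sum_congr rfl fun j _ => by unfold ww; ring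
  · rw [Nat.lt_succ_iff, Polynomial.natDegree_le_iff_coeff_eq_zero]
    intro j hj
    exact gp_coeff_zero (Nat.sub_le _ _) hj

private theorem DC_WW_zero (N : Finset (Sym2 V)) : WW G (fun _ => 0) N = 0 := by
  have h := DC_WW_sum (G := G) (∅ : Finset ℕ) (fun _ => (0 : ℝ)) (fun _ _ => 0) N
  simpa using h

theorem Dp_eval {q R : ℕ} (hV : Fintype.card V = 2 * (q * (R + 1))) (hreg : Reg G (R + 1))
    (x : ℝ) : 2 * (Dp (R + 1) q G).eval x = ((R : ℝ) + 1) * x *
      WS G x (fun N => WW G (fun a => (gp R (R - a)).eval x) N) := by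
  classical
  set K := Fintype.card V + 1 with hK
  set S : ℕ × ℕ → ℝ := fun p => ∑ N ∈ mats G p.1, WW G (ww R p.2) N with hS
  have hS1 : ∀ p : ℕ × ℕ, K ≤ p.1 → S p = 0 := by
    intro p hp
    have h0 : (mats G p.1).card = 0 := card_mats_eq_zero (by omega)
    rw [hS]
    simp only
    rw [Finset.card_eq_zero.1 h0, Finset.sum_empty]
  have hS2 : ∀ p : ℕ × ℕ, R < p.2 → S p = 0 := by
    intro p hp
    rw [hS]
    simp only
    refine Finset.sum_eq_zero fun N _ => ?_
    have : ww R p.2 = fun _ => (0 : ℝ) := by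
      funext a
      exact ww_zero hp
    rw [this]
    exact DC_WW_zero N
  set Q : Polynomial ℝ := ∑ p ∈ range K ×ˢ range (R + 1), Polynomial.monomial (p.1 + p.2) (S p)
    with hQ
  have hQc : ∀ k, Q.coeff k = ∑ p ∈ antidiagonal k, S p := by
    intro k
    rw [hQ, Polynomial.finsetSum_coeff]
    simp only [Polynomial.coeff_monomial]
    rw [← Finset.sum_filter]
    refine Finset.sum_subset ?_ ?_
    · intro p hp
      exact mem_antidiagonal.2 (mem_filter.1 hp).2
    · intro p hp hnp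
      by_cases h1 : K ≤ p.1
      · exact hS1 p h1
      by_cases h2 : R < p.2
      · exact hS2 p h2
      exfalso
      apply hnp
      refine mem_filter.2 ⟨mem_product.2 ⟨mem_range.2 (by omega), mem_range.2 (by omega)⟩,
        mem_antidiagonal.1 hp⟩
  have hpoly : Polynomial.C (2 : ℝ) * Dp (R + 1) q G =
      Polynomial.C ((R : ℝ) + 1) * (Polynomial.X * Q) := by
    ext k
    rw [Polynomial.coeff_C_mul, Polynomial.coeff_C_mul]
    rcases k with _ | k
    · rw [Dp_coeff_zero hV hreg, Polynomial.mul_coeff_zero, Polynomial.coeff_X_zero]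
      ring
    · rw [Polynomial.coeff_X_mul, hQc, Dp_coeff hV hreg]
  have hev := congrArg (Polynomial.eval x) hpoly
  rw [Polynomial.eval_mul, Polynomial.eval_C, Polynomial.eval_mul, Polynomial.eval_C,
    Polynomial.eval_mul, Polynomial.eval_X] at hev
  rw [hev, mul_assoc]
  congr 2
  rw [WS_levels x _ (K := K) (by omega), hQ, Polynomial.eval_finsetSum, Finset.sum_product]
  refine Finset.sum_congr rfl fun i _ => ?_
  have e : ∀ N ∈ mats G i, WW G (fun a => (gp R (R - a)).eval x) N =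
      ∑ j ∈ range (R + 1), x ^ j * WW G (ww R j) N := by
    intro N _
    rw [← DC_WW_sum]
    congr 1
    funext a
    exact DC_gp_eval R a x
  rw [Finset.sum_congr rfl e, Finset.sum_comm, Finset.mul_sum]
  refine Finset.sum_congr rfl fun j _ => ?_
  rw [Polynomial.eval_monomial, hS, ← Finset.mul_sum, pow_add]
  ring

private theorem DC_tele {w : ℕ → ℝ} {Δ : ℝ} {b : ℕ} (hΔ : ∀ a ≤ b, Δ ≤ w a - w (a + 1)) {s t : ℕ}
    (hs : 1 ≤ s) (hst : s ≤ t) (ht : t ≤ b) : ((t : ℝ) - s) * Δ ≤ w (s - 1) - w (t - 1) := by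
  induction t, hst using Nat.le_induction with
  | base => simp
  | succ t hst ih =>
    have h1 := ih (by omega)
    have h2 := hΔ (t - 1) (by omega)
    rw [show t - 1 + 1 = t by omega] at h2
    rw [show t + 1 - 1 = t by omega]
    push_cast
    linarith

open scoped Classical in
theorem WW_lower {w : ℕ → ℝ} (hw : ∀ a, w (a + 1) ≤ w a) {Δ : ℝ} {b : ℕ}
    (hΔ : ∀ a ≤ b, Δ ≤ w a - w (a + 1)) {N : Finset (Sym2 V)} (hN : (free N).card ≤ b) :
    Δ / 2 * ∑ p ∈ univ.filter (fun p : V × V => p.1 ∈ free N ∧ p.2 ∈ free N ∧ G.Adj p.1 p.2),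
      ((D G N p.1 : ℝ) - D G N p.2) ^ 2 ≤ WW G w N := by
  have h2 : ∑ p ∈ univ.filter (fun p : V × V => p.1 ∈ free N ∧ p.2 ∈ free N ∧ G.Adj p.1 p.2),
      phi1 G w p.1 p.2 N ≤ ∑ u, ∑ v, phi1 G w u v N := by
    rw [← Finset.sum_product', Finset.univ_product_univ]
    exact Finset.sum_le_univ_sum_of_nonneg fun p => phi1_nonneg hw _ _ _
  have h3 : 0 ≤ ∑ v, phi2 G w v N := Finset.sum_nonneg fun v _ => phi2_nonneg hw v N
  have hDb : ∀ v, D G N v ≤ b := by
    intro v
    refine le_trans (Finset.card_le_card ?_) hN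
    intro u hu
    exact (mem_nb.1 hu).1
  have h4 : Δ / 2 * ∑ p ∈ univ.filter (fun p : V × V => p.1 ∈ free N ∧ p.2 ∈ free N ∧ G.Adj p.1 p.2),
      ((D G N p.1 : ℝ) - D G N p.2) ^ 2 ≤
      ∑ p ∈ univ.filter (fun p : V × V => p.1 ∈ free N ∧ p.2 ∈ free N ∧ G.Adj p.1 p.2),
      phi1 G w p.1 p.2 N := by
    rw [Finset.mul_sum]
    refine Finset.sum_le_sum fun p hp => ?_
    obtain ⟨hp1, hp2, hadj⟩ := (mem_filter.1 hp).2
    have hd1 : 1 ≤ D G N p.1 := Finset.card_pos.2 ⟨p.2, mem_nb.2 ⟨hp2, hadj⟩⟩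
    have hd2 : 1 ≤ D G N p.2 := Finset.card_pos.2 ⟨p.1, mem_nb.2 ⟨hp1, hadj.symm⟩⟩
    unfold phi1
    rw [if_pos ⟨hp1, hp2, hadj⟩]
    rcases le_total (D G N p.1) (D G N p.2) with h | h
    · have h5 := DC_tele hΔ hd1 h (hDb _)
      have h6 : ((D G N p.1 : ℕ) : ℝ) ≤ (D G N p.2 : ℕ) := by exact_mod_cast h
      have h7 := mul_le_mul_of_nonneg_left h5
        (by linarith : (0 : ℝ) ≤ (1 / 2) * (((D G N p.2 : ℕ) : ℝ) - (D G N p.1 : ℕ)))
      nlinarith
    · have h5 := DC_tele hΔ hd2 h (hDb _)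
      have h6 : ((D G N p.2 : ℕ) : ℝ) ≤ (D G N p.1 : ℕ) := by exact_mod_cast h
      have h7 := mul_le_mul_of_nonneg_left h5
        (by linarith : (0 : ℝ) ≤ (1 / 2) * (((D G N p.1 : ℕ) : ℝ) - (D G N p.2 : ℕ)))
      nlinarith
  unfold WW
  linarith

open scoped Classical in
private theorem DC_D_insert {N : Finset (Sym2 V)} {u v : V} (hv : v ∈ free N)
    (h : G.Adj u v) : D G N u = D G (insert s(u, v) N) u + 1 := by
  unfold D
  have e : nb G N u = insert v (nb G (insert s(u, v) N) u) := by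
    ext w
    rw [mem_nb, mem_insert, mem_nb, mem_free_insert]
    constructor
    · rintro ⟨h1, h2⟩
      by_cases hw : w = v
      · exact Or.inl hw
      · exact Or.inr ⟨⟨h1, h2.ne', hw⟩, h2⟩
    · rintro (rfl | ⟨⟨h1, _, _⟩, h2⟩)
      · exact ⟨hv, h⟩
      · exact ⟨h1, h2⟩
  rw [e, Finset.card_insert_of_notMem]
  intro hmem
  exact (mem_free_insert.1 (mem_nb.1 hmem).1).2.2 rfl

open scoped Classical in
private theorem DC_em (x : ℝ) (J : ℕ) :
    WS G x (fun M => if (free M).card ≤ J then em G M else 0) =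
      x * WS G x (fun N => if (free N).card ≤ J + 2 then
        ∑ p ∈ univ.filter (fun p : V × V => p.1 ∈ free N ∧ p.2 ∈ free N ∧ G.Adj p.1 p.2),
          ((D G N p.1 : ℝ) - D G N p.2) ^ 2 else 0) := by
  have h := WS_insert (G := G) x (fun M p =>
    if (free M).card ≤ J then ((D G M p.1 : ℝ) - D G M p.2) ^ 2 else 0)
  have e1 : WS G x (fun M => if (free M).card ≤ J then em G M else 0) =
      WS G x (fun M => ∑ p ∈ univ.filter (fun p : V × V => s(p.1, p.2) ∈ M),
        if (free M).card ≤ J then ((D G M p.1 : ℝ) - D G M p.2) ^ 2 else 0) := by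
    refine WS_congr x fun M _ => ?_
    split_ifs with h1
    · rfl
    · rw [Finset.sum_const_zero]
  rw [e1, h]
  congr 1
  refine WS_congr x fun N _ => ?_
  have e2 : ∀ p ∈ univ.filter (fun p : V × V => p.1 ∈ free N ∧ p.2 ∈ free N ∧ G.Adj p.1 p.2),
      (if (free (insert s(p.1, p.2) N)).card ≤ J then
        ((D G (insert s(p.1, p.2) N) p.1 : ℝ) - D G (insert s(p.1, p.2) N) p.2) ^ 2 else 0)
      = if (free N).card ≤ J + 2 then ((D G N p.1 : ℝ) - D G N p.2) ^ 2 else 0 := by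
    intro p hp
    obtain ⟨hp1, hp2, hadj⟩ := (mem_filter.1 hp).2
    have hc := card_free_insert hp1 hp2 hadj.ne
    have h1 := DC_D_insert (G := G) hp2 hadj
    have h2 := DC_D_insert (G := G) hp1 hadj.symm
    rw [show s(p.2, p.1) = s(p.1, p.2) from Sym2.eq_swap] at h2
    have hiff : (free (insert s(p.1, p.2) N)).card ≤ J ↔ (free N).card ≤ J + 2 := by omega
    by_cases h3 : (free N).card ≤ J + 2
    · rw [if_pos (hiff.2 h3), if_pos h3, h1, h2]
      push_cast
      ring
    · rw [if_neg (fun h4 => h3 (hiff.1 h4)), if_neg h3]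
  rw [Finset.sum_congr rfl e2]
  split_ifs with h3
  · rfl
  · rw [Finset.sum_const_zero]

private theorem DC_eval_mono {P Q : Polynomial ℝ} (h : ∀ j, P.coeff j ≤ Q.coeff j) {x : ℝ}
    (hx : 0 ≤ x) : P.eval x ≤ Q.eval x := by
  have h1 : NN (Q - P) := fun m => by
    rw [Polynomial.coeff_sub]
    linarith [h m]
  have h2 := eval_nonneg h1 hx
  rw [Polynomial.eval_sub] at h2
  linarith

theorem typed {q r m J : ℕ} (hV : Fintype.card V = 2 * (q * r)) (hreg : Reg G r)
    (hm : 1 ≤ m) (hr : 1000000 * m ^ 3 ≤ r) (hJ : J + 2 ≤ 12 * m) {x : ℝ} (hx : 0 < x)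
    (hxr : (r : ℝ) ≤ 12 * (m : ℝ) ^ 2 * x) :
    ((r : ℝ) - mb r x) * WS G x (fun M => if (free M).card ≤ J then em G M else 0) ≤
      184000 * (m : ℝ) ^ 2 * r *
        ((q * mb r x - x * (mp G).derivative.eval x / (mp G).eval x) * (mp G).eval x) := by
  classical
  have hr1 : 1 ≤ r := by
    have : 1 ≤ m ^ 3 := Nat.one_le_pow _ _ hm
    omega
  obtain ⟨R, rfl⟩ : ∃ R, r = R + 1 := ⟨r - 1, by omega⟩
  have hKpos : 0 < (Lp (R + 1)).eval x := by
    have := Lp_pos (R + 1) hx.le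
    linarith
  have hZpos : 0 < (mp G).eval x := by
    have := mp_eval_pos (G := G) hx.le
    linarith
  have hm0 : (1 : ℝ) ≤ (m : ℝ) := by exact_mod_cast hm
  set K := (Lp (R + 1)).eval x with hK
  set Z := (mp G).eval x with hZ
  set w : ℕ → ℝ := fun a => (gp R (R - a)).eval x with hw
  set κ := (kp (R + 1)).eval x with hκ
  have hDp := Dp_eval hV hreg x
  have hDp2 : (Dp (R + 1) q G).eval x = (q : ℝ) * ((R : ℝ) + 1) * (Lp (R + 1)).derivative.eval x * Z
      - ((R : ℝ) + 1) * K * (mp G).derivative.eval x := by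
    unfold Dp
    rw [Polynomial.eval_sub, Polynomial.eval_mul, Polynomial.eval_mul, Polynomial.eval_C,
      Polynomial.eval_mul, Polynomial.eval_mul, Polynomial.eval_C]
    push_cast
    ring
  -- the antitone weights
  have hanti : ∀ a, w (a + 1) ≤ w a := by
    intro a
    rw [hw]
    simp only
    by_cases ha : a + 1 ≤ R
    · have e : R - a = (R - (a + 1)) + 1 := by omega
      rw [e]
      exact DC_eval_mono (fun j => gp_mono R _ j) hx.le
    · have e : R - a = R - (a + 1) := by omega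
      rw [e]
  set Δ : ℝ := κ / (46000 * (m : ℝ) ^ 2 * x) with hΔdef
  have hden : 0 < 46000 * (m : ℝ) ^ 2 * x := by positivity
  have hΔ : ∀ a ≤ J + 2, Δ ≤ w a - w (a + 1) := by
    intro a ha
    have h := gp_diff_ge (a := a) hm hr (by omega) hx hxr
    rw [Nat.add_sub_cancel] at h
    rw [hΔdef, div_le_iff₀ hden]
    rw [hw]
    simp only
    linarith
  have hWW : WS G x (fun N => if (free N).card ≤ J + 2 then
        Δ / 2 * ∑ p ∈ univ.filter (fun p : V × V => p.1 ∈ free N ∧ p.2 ∈ free N ∧ G.Adj p.1 p.2),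
          ((D G N p.1 : ℝ) - D G N p.2) ^ 2 else 0) ≤ WS G x (fun N => WW G w N) := by
    refine WS_mono hx.le fun N _ => ?_
    split_ifs with h
    · exact WW_lower hanti hΔ h
    · exact WW_nonneg hanti N
  have hsm : WS G x (fun N => if (free N).card ≤ J + 2 then
        Δ / 2 * ∑ p ∈ univ.filter (fun p : V × V => p.1 ∈ free N ∧ p.2 ∈ free N ∧ G.Adj p.1 p.2),
          ((D G N p.1 : ℝ) - D G N p.2) ^ 2 else 0) = Δ / 2 *
      WS G x (fun N => if (free N).card ≤ J + 2 then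
        ∑ p ∈ univ.filter (fun p : V × V => p.1 ∈ free N ∧ p.2 ∈ free N ∧ G.Adj p.1 p.2),
          ((D G N p.1 : ℝ) - D G N p.2) ^ 2 else 0) := by
    rw [← WS_smul]
    refine WS_congr x fun N _ => ?_
    split_ifs <;> simp
  rw [hsm] at hWW
  have hem := DC_em (G := G) x J
  set A := WS G x (fun N => if (free N).card ≤ J + 2 then
        ∑ p ∈ univ.filter (fun p : V × V => p.1 ∈ free N ∧ p.2 ∈ free N ∧ G.Adj p.1 p.2),
          ((D G N p.1 : ℝ) - D G N p.2) ^ 2 else 0) with hA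
  rw [hem]
  -- the relation between kp and mb
  have hLs := congrArg (Polynomial.eval x) (Lp_succ R)
  rw [Polynomial.eval_add, Polynomial.eval_mul, Polynomial.eval_mul, Polynomial.eval_C,
    Polynomial.eval_X, ← hK, ← hκ] at hLs
  have hLd := congrArg (Polynomial.eval x) (Lp_deriv R)
  rw [Polynomial.eval_mul, Polynomial.eval_C] at hLd
  set K' := (Lp (R + 1)).derivative.eval x with hK'
  have hmb : K * (((R : ℝ) + 1) - mb (R + 1) x) = ((R : ℝ) + 1) * κ := by
    have h1 : K * mb (R + 1) x = x * K' := by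
      unfold mb
      rw [← hK, ← hK']
      field_simp
    rw [mul_sub, h1, hLd]
    linear_combination ((R : ℝ) + 1) * hLs
  set f := (q : ℝ) * mb (R + 1) x - x * (mp G).derivative.eval x / Z with hf
  have hfZ : 2 * K * (f * Z) = x ^ 2 * WS G x (fun N => WW G w N) := by
    have h1 : f * Z = (q : ℝ) * mb (R + 1) x * Z - x * (mp G).derivative.eval x := by
      rw [hf]
      field_simp
    have h2 : K * mb (R + 1) x = x * K' := by
      unfold mb
      rw [← hK, ← hK']
      field_simp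
    have hR1 : ((R : ℝ) + 1) ≠ 0 := by positivity
    apply mul_left_cancel₀ hR1
    have h3 : ((R : ℝ) + 1) * (2 * K * (f * Z)) = x * (2 * (Dp (R + 1) q G).eval x) := by
      rw [h1, hDp2]
      linear_combination (2 * ((R : ℝ) + 1) * q * Z) * h2
    rw [h3, hDp]
    ring
  have hmain : x ^ 2 * (Δ / 2 * A) ≤ 2 * K * (f * Z) := by
    rw [hfZ]
    exact mul_le_mul_of_nonneg_left hWW (by positivity)
  -- conclusion
  have hKne : K ≠ 0 := hKpos.ne'
  have h5 : ((R : ℝ) + 1) - mb (R + 1) x = ((R : ℝ) + 1) * κ / K := by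
    field_simp
    linarith
  have h6 : x ^ 2 * (Δ / 2 * A) * (92000 * (m : ℝ) ^ 2) = x * κ * A := by
    rw [hΔdef]
    field_simp
    ring
  have h7 : x * κ * A ≤ 2 * K * (f * Z) * (92000 * (m : ℝ) ^ 2) := by
    rw [← h6]
    exact mul_le_mul_of_nonneg_right hmain (by positivity)
  push_cast
  rw [h5]
  have h8 : ((R : ℝ) + 1) * κ / K * (x * A) = ((R : ℝ) + 1) * (x * κ * A) / K := by ring
  rw [h8, div_le_iff₀ hKpos]
  have hR0 : (0 : ℝ) ≤ (R : ℝ) + 1 := by positivity
  have h9 := mul_le_mul_of_nonneg_left h7 hR0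
  refine le_trans h9 (le_of_eq ?_)
  ring

end

end Pool.Agent.Lib.MP_eeed5c_coD
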