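import Pool.Agent.Lib.MP_eeed5c_co_M.MB
import Pool.Agent.Lib.MP_eeed5c_co_N.TB2
import Pool.Agent.Lib.MP_eeed5c_co_X.Defs

/-!
# Definitions (graphs with a small gap)

`cl G k S` is the number of matchings with `k` edges which do not cover the vertices of `S`; `WJ`, `ZJ` are
weights of matchings with at most `J` uncovered vertices. A map `c : V → Fin q × Fin 2` gives the block and the
side of a vertex; `KG c` (defined in `X/Defs.lean`) is the union of complete bipartite graphs, `Ys G c` the
edges of `G` which are not in `KG c`, `Xs G c` the edges of `KG c` which are not in `G`.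
-/

set_option autoImplicit false

namespace Pool.Agent.Lib.MP_eeed5c_coD

open Finset Pool.Agent.Lib.MP_eeed5c_co Pool.Agent.Lib.MP_eeed5c_coT Pool.Agent.Lib.MP_eeed5c_coX

section

variable {V : Type*} [Fintype V]

open scoped Classical in
/-- The number of matchings with `k` edges which do not cover the vertices of `S`. -/
noncomputable def cl (G : SimpleGraph V) (k : ℕ) (S : Finset V) : ℝ :=
  (((mats G k).filter fun N => S ⊆ free N).card : ℝ)

open scoped Classical in
/-- The weight of the matchings with at most `J` uncovered vertices and the property `E`. -/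
noncomputable def WJ (G : SimpleGraph V) (x : ℝ) (J : ℕ) (E : Finset (Sym2 V) → Prop) : ℝ :=
  WS G x fun N => if (free N).card ≤ J ∧ E N then 1 else 0

/-- The weight of the matchings with at most `J` uncovered vertices which do not cover the vertices
of `S`. -/
noncomputable def ZJ (G : SimpleGraph V) (x : ℝ) (J : ℕ) (S : Finset V) : ℝ :=
  WJ G x J fun N => S ⊆ free N

open scoped Classical in
/-- The sum over the oriented edges `(u, v)` of `M` of the squares of the differences of the
numbers of uncovered neighbours. -/
noncomputable def em (G : SimpleGraph V) (M : Finset (Sym2 V)) : ℝ :=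
  ∑ p ∈ univ.filter (fun p : V × V => s(p.1, p.2) ∈ M), ((D G M p.1 : ℝ) - D G M p.2) ^ 2

open scoped Classical in
/-- The number of pairs of a neighbour of `u` and a neighbour of `v` which are not adjacent. -/
noncomputable def nj (G : SimpleGraph V) (u v : V) : ℕ :=
  (univ.filter fun p : V × V => G.Adj u p.1 ∧ G.Adj v p.2 ∧ ¬ G.Adj p.1 p.2).card

open scoped Classical in
/-- The neighbours. -/
noncomputable def Nb (G : SimpleGraph V) (u : V) : Finset V := univ.filter fun w => G.Adj u w

variable {q : ℕ}

open scoped Classical in
/-- The number of neighbours in the opposite side. -/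
noncomputable def od (G : SimpleGraph V) (c : V → Fin q × Fin 2) (v : V) : ℕ :=
  (univ.filter fun w => G.Adj v w ∧ (KG c).Adj v w).card

open scoped Classical in
/-- The size of a side. -/
noncomputable def sz (c : V → Fin q × Fin 2) (s : Fin q × Fin 2) : ℕ :=
  (univ.filter fun v => c v = s).card

open scoped Classical in
/-- The number of uncovered vertices of a side. -/
noncomputable def fs (c : V → Fin q × Fin 2) (N : Finset (Sym2 V)) (s : Fin q × Fin 2) : ℕ :=
  ((free N).filter fun v => c v = s).card

/-- Balanced matchings: in every block the two sides have the same number of uncovered vertices. -/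
def Bal (c : V → Fin q × Fin 2) (N : Finset (Sym2 V)) : Prop :=
  ∀ i, fs c N (i, 0) = fs c N (i, 1)

end

end Pool.Agent.Lib.MP_eeed5c_coD
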