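import Pool.Agent.Lib.MP_eeed5c_co_D.Defs

/-!
# Non-adjacent pairs of neighbours

`nj_eq`: PROOF. There are `r * r` pairs `(a, b)` with `u ~ a`, `v ~ b`. The adjacent ones with `a = v` are `r`
(all `b ~ v`), those with `b = u` are `r` (all `a ~ u`), both: one. The adjacent pairs with `a ≠ v`, `b ≠ u` are
counted by `wc G v u` (`T/FC.lean`). So `r^2 - nj = 2 r - 1 + wc G v u`.
`sum_nj`: `nj_eq`, `sum_prA_swap` and the definition of `dfc`.
`nj_symm`: exchange the components.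
`cross`: PROOF. Let `B = Nb u ∩ Nb u'`. For `b ∈ B`, by inclusion and exclusion in `Nb b` (`r` elements):
`r ≥ |Nb b ∩ Nb v| + |Nb b ∩ Nb v'| - |Nb v ∩ Nb v'|`. Sum over `b ∈ B`; and
`∑ b ∈ B, (r - |Nb b ∩ Nb v|) ≤ nj G u v` (for `b ∈ Nb u`, the number of `c ∈ Nb v` not adjacent to `b` is
`r - |Nb b ∩ Nb v|`), the same for `u', v'`. So `|B| (r + |Nb v ∩ Nb v'|) ≥ 2 r |B| - nj G u v - nj G u' v'`.
`dich`: PROOF. If `b ≥ r / 2`: `r - a ≤ 2 η r^2 / b ≤ 4 η r`, so `a ≥ (1 - 4 η) r ≥ r / 2` and then `r - b ≤ 4 η r`.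
If `b < r / 2`: `a (r / 2) ≤ 2 η r^2`, `a ≤ 4 η r < r / 2`, `b (r / 2) ≤ 2 η r^2`.
-/

set_option autoImplicit false

namespace Pool.Agent.Lib.MP_eeed5c_coD

open Finset Pool.Agent.Lib.MP_eeed5c_co Pool.Agent.Lib.MP_eeed5c_coT

section

variable {V : Type*} [Fintype V] {G : SimpleGraph V}

theorem mem_Nb {u w : V} : w ∈ Nb G u ↔ G.Adj u w := by
  unfold Nb
  simp

theorem card_Nb {r : ℕ} (hreg : Reg G r) (u : V) : (Nb G u).card = r := hreg u

open scoped Classical in
theorem nj_symm (u v : V) : nj G u v = nj G v u := by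
  unfold nj
  refine Finset.card_bij (fun p _ => p.swap) ?_ ?_ ?_
  · intro p hp
    rw [Finset.mem_filter] at hp ⊢
    exact ⟨Finset.mem_univ _, hp.2.2.1, hp.2.1, fun h => hp.2.2.2 h.symm⟩
  · intro p _ p' _ h
    exact Prod.swap_injective h
  · intro p hp
    rw [Finset.mem_filter] at hp
    refine ⟨p.swap, ?_, Prod.swap_swap p⟩
    rw [Finset.mem_filter]
    exact ⟨Finset.mem_univ _, hp.2.2.1, hp.2.1, fun h => hp.2.2.2 h.symm⟩

open scoped Classical in
theorem nj_eq {r : ℕ} (hreg : Reg G r) {u v : V} (h : G.Adj u v) :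
    (nj G u v : ℝ) = ((r : ℝ) - 1) ^ 2 - wc G v u := by
  have hv : v ∈ Nb G u := mem_Nb.2 h
  have hu : u ∈ Nb G v := mem_Nb.2 h.symm
  have hr : 1 ≤ r := by
    rw [← card_Nb hreg u]
    exact Finset.card_pos.2 ⟨v, hv⟩
  have h1 := Finset.card_filter_add_card_filter_not (s := ((Nb G u).erase v) ×ˢ ((Nb G v).erase u))
    (fun p : V × V => G.Adj p.1 p.2)
  rw [Finset.card_product, Finset.card_erase_of_mem hv, Finset.card_erase_of_mem hu,
    card_Nb hreg, card_Nb hreg] at h1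
  have h2 : ((((Nb G u).erase v) ×ˢ ((Nb G v).erase u)).filter fun p : V × V => G.Adj p.1 p.2).card =
      wc G v u := by
    unfold wc
    refine congrArg Finset.card ?_
    ext p
    simp only [Finset.mem_filter, Finset.mem_product, Finset.mem_erase, mem_Nb, Finset.mem_univ,
      true_and]
    constructor
    · rintro ⟨⟨⟨a1, a2⟩, b1, b2⟩, c⟩
      exact ⟨a2, a1, c, b1, b2.symm⟩
    · rintro ⟨a2, a1, c, b1, b2⟩
      exact ⟨⟨⟨a1, a2⟩, b1, b2.symm⟩, c⟩
  have h3 : ((((Nb G u).erase v) ×ˢ ((Nb G v).erase u)).filter fun p : V × V => ¬ G.Adj p.1 p.2).card =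
      nj G u v := by
    unfold nj
    refine congrArg Finset.card ?_
    ext p
    simp only [Finset.mem_filter, Finset.mem_product, Finset.mem_erase, mem_Nb, Finset.mem_univ,
      true_and]
    constructor
    · rintro ⟨⟨⟨a1, a2⟩, b1, b2⟩, c⟩
      exact ⟨a2, b2, c⟩
    · rintro ⟨a2, b2, c⟩
      refine ⟨⟨⟨?_, a2⟩, ?_, b2⟩, c⟩
      · intro e
        rw [e] at c
        exact c b2
      · intro e
        rw [e] at c
        exact c a2.symm
  rw [h2, h3] at h1
  have h4 : (wc G v u : ℝ) + nj G u v = ((r - 1 : ℕ) : ℝ) * ((r - 1 : ℕ) : ℝ) := by exact_mod_cast h1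
  rw [Nat.cast_sub hr] at h4
  push_cast at h4
  linarith

theorem sum_nj {r : ℕ} (hreg : Reg G r) : ∑ p ∈ prA G, (nj G p.1 p.2 : ℝ) = dfc G r := by
  unfold dfc
  rw [← sum_prA_swap (G := G) fun q : V × V => ((r : ℝ) - 1) ^ 2 - wc G q.1 q.2]
  refine Finset.sum_congr rfl fun p hp => ?_
  exact nj_eq hreg (mem_prA.1 hp)

open scoped Classical in
private theorem EA_nj_sum {r : ℕ} (hreg : Reg G r) (u v : V) :
    (nj G u v : ℝ) = ∑ a ∈ Nb G u, ((r : ℝ) - (Nb G a ∩ Nb G v).card) := by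
  have h1 : nj G u v = ∑ a ∈ Nb G u, (Nb G v \ Nb G a).card := by
    unfold nj
    rw [Finset.card_eq_sum_card_fiberwise (f := fun p : V × V => p.1) (t := Nb G u)]
    · refine Finset.sum_congr rfl fun a ha => ?_
      refine Finset.card_bij (fun p _ => p.2) ?_ ?_ ?_
      · intro p hp
        simp only [Finset.mem_filter, Finset.mem_univ, true_and] at hp
        rw [Finset.mem_sdiff, mem_Nb, mem_Nb]
        refine ⟨hp.1.2.1, fun h => hp.1.2.2 ?_⟩
        rw [hp.2]
        exact h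
      · intro p hp p' hp' h
        simp only [Finset.mem_filter, Finset.mem_univ, true_and] at hp hp'
        exact Prod.ext (hp.2.trans hp'.2.symm) h
      · intro c hc
        rw [Finset.mem_sdiff, mem_Nb, mem_Nb] at hc
        refine ⟨(a, c), ?_, rfl⟩
        rw [Finset.mem_filter, Finset.mem_filter]
        exact ⟨⟨Finset.mem_univ _, mem_Nb.1 ha, hc.1, hc.2⟩, rfl⟩
    · intro p hp
      exact mem_Nb.2 (Finset.mem_filter.1 hp).2.1
  rw [h1]
  push_cast
  refine Finset.sum_congr rfl fun a _ => ?_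
  have h2 := Finset.card_sdiff_add_card_inter (Nb G v) (Nb G a)
  rw [card_Nb hreg, Finset.inter_comm] at h2
  have h3 : ((Nb G v \ Nb G a).card : ℝ) + (Nb G a ∩ Nb G v).card = r := by exact_mod_cast h2
  linarith

open scoped Classical in
private theorem EA_incl {r : ℕ} (hreg : Reg G r) (b v v' : V) :
    ((Nb G b ∩ Nb G v).card : ℝ) + (Nb G b ∩ Nb G v').card ≤ r + (Nb G v ∩ Nb G v').card := by
  have h1 := Finset.card_union_add_card_inter (Nb G b ∩ Nb G v) (Nb G b ∩ Nb G v')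
  have h2 : ((Nb G b ∩ Nb G v) ∪ (Nb G b ∩ Nb G v')).card ≤ (Nb G b).card :=
    Finset.card_le_card (Finset.union_subset Finset.inter_subset_left Finset.inter_subset_left)
  have h3 : ((Nb G b ∩ Nb G v) ∩ (Nb G b ∩ Nb G v')).card ≤ (Nb G v ∩ Nb G v').card :=
    Finset.card_le_card (Finset.inter_subset_inter Finset.inter_subset_right
      Finset.inter_subset_right)
  rw [card_Nb hreg] at h2
  have h4 : (Nb G b ∩ Nb G v).card + (Nb G b ∩ Nb G v').card ≤ r + (Nb G v ∩ Nb G v').card := by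
    omega
  exact_mod_cast h4

open scoped Classical in
theorem cross {r : ℕ} (hreg : Reg G r) (u v u' v' : V) :
    ((Nb G u ∩ Nb G u').card : ℝ) * ((r : ℝ) - (Nb G v ∩ Nb G v').card) ≤
      nj G u v + nj G u' v' := by
  have hle : ∀ a w : V, (0 : ℝ) ≤ (r : ℝ) - (Nb G a ∩ Nb G w).card := by
    intro a w
    have h1 : (Nb G a ∩ Nb G w).card ≤ (Nb G a).card := Finset.card_le_card Finset.inter_subset_left
    rw [card_Nb hreg] at h1
    have : ((Nb G a ∩ Nb G w).card : ℝ) ≤ r := by exact_mod_cast h1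
    linarith
  rw [EA_nj_sum hreg u v, EA_nj_sum hreg u' v']
  have h1 : ∑ a ∈ Nb G u ∩ Nb G u', ((r : ℝ) - (Nb G a ∩ Nb G v).card) ≤
      ∑ a ∈ Nb G u, ((r : ℝ) - (Nb G a ∩ Nb G v).card) :=
    Finset.sum_le_sum_of_subset_of_nonneg Finset.inter_subset_left fun a _ _ => hle a v
  have h2 : ∑ a ∈ Nb G u ∩ Nb G u', ((r : ℝ) - (Nb G a ∩ Nb G v').card) ≤
      ∑ a ∈ Nb G u', ((r : ℝ) - (Nb G a ∩ Nb G v').card) :=
    Finset.sum_le_sum_of_subset_of_nonneg Finset.inter_subset_right fun a _ _ => hle a v'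
  refine le_trans ?_ (add_le_add h1 h2)
  rw [← Finset.sum_add_distrib, ← nsmul_eq_mul, ← Finset.sum_const]
  refine Finset.sum_le_sum fun b _ => ?_
  have h3 := EA_incl hreg b v v'
  linarith

theorem dich {a b r η : ℝ} (ha : 0 ≤ a) (hb : 0 ≤ b) (hr : 0 < r) (hη : 0 ≤ η) (hη1 : η ≤ 1 / 100)
    (h1 : b * (r - a) ≤ 2 * η * r ^ 2) (h2 : a * (r - b) ≤ 2 * η * r ^ 2) :
    (a ≤ 4 * η * r ∧ b ≤ 4 * η * r) ∨ ((1 - 4 * η) * r ≤ a ∧ (1 - 4 * η) * r ≤ b) := by
  have hηr : 0 ≤ η * r := mul_nonneg hη hr.le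
  have hηr1 : η * r ≤ 1 / 100 * r := mul_le_mul_of_nonneg_right hη1 hr.le
  have key : ∀ s t : ℝ, r / 2 ≤ s → s * t ≤ 2 * η * r ^ 2 → t ≤ 4 * η * r := by
    intro s t hs hst
    by_contra hcon
    push Not at hcon
    have ht : 0 < t := by linarith [show 0 ≤ 4 * η * r by positivity]
    have h3 : r / 2 * t ≤ s * t := mul_le_mul_of_nonneg_right hs ht.le
    have h4 : r / 2 * (4 * η * r) < r / 2 * t := mul_lt_mul_of_pos_left hcon (by linarith)
    have e : r / 2 * (4 * η * r) = 2 * η * r ^ 2 := by ring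
    linarith
  by_cases hb2 : r / 2 ≤ b
  · right
    have h3 := key b (r - a) hb2 h1
    have h4 : (1 - 4 * η) * r ≤ a := by
      have e : (1 - 4 * η) * r = r - 4 * η * r := by ring
      linarith
    have h5 : r / 2 ≤ a := by
      have e : (1 - 4 * η) * r = r - 4 * (η * r) := by ring
      linarith
    have h6 := key a (r - b) h5 h2
    refine ⟨h4, ?_⟩
    have e : (1 - 4 * η) * r = r - 4 * η * r := by ring
    linarith
  · left
    push Not at hb2
    have h3 := key (r - b) a (by linarith) (by rw [mul_comm]; exact h2)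
    have h4 := key (r - a) b (by
      have e : 4 * η * r = 4 * (η * r) := by ring
      linarith) (by rw [mul_comm]; exact h1)
    exact ⟨h3, h4⟩

end

end Pool.Agent.Lib.MP_eeed5c_coD
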