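import Pool.Agent.Lib.MP_eeed5c_co_D.EA

/-!
# A maximal family of far good edges

`Xs G s` for `s = (d, b)` is the set of neighbours of `d.2` (`b = false`) or of `d.1` (`b = true`).

`near_of_not_far`: PROOF. Let `p, d` be good and not far. The four intersections of `Xs (p, false)`, `Xs (p, true)`
with `Xs (d, false)`, `Xs (d, true)` come in two pairs: `(a, b) = (|Xs (p,false) ∩ Xs (d,false)|,
|Xs (p,true) ∩ Xs (d,true)|)` and `(|Xs (p,false) ∩ Xs (d,true)|, |Xs (p,true) ∩ Xs (d,false)|)`. For each pair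
`cross` (with `nj ≤ η r^2`, `nj_symm`) gives the hypotheses of `dich`; one of the four numbers is `> 4 η r`, so in its
pair both are `≥ (1 - 4 η) r`.

`far_card`: PROOF. Suppose `F.card ≥ q + 1` and take `F' ⊆ F` with `q + 1` elements. For `w : V` let `c w` be the
number of `s ∈ F' ×ˢ univ` with `w ∈ Xs G s`. `∑ c w = 2 (q+1) r` (`card_Nb`). The number of pairs `(s, s')`,
`s ≠ s'`, with `w ∈ Xs s ∩ Xs s'` is `c w (c w - 1)`, and every intersection has at most `4 η r` elements (for the same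
`d`: the condition on `Nb d.1 ∩ Nb d.2`; otherwise far). `2 c ≤ 2 + c (c-1)` for every natural number `c`. So
`4 (q+1) r ≤ 2 * 2 q r + (2q+2)(2q+1) 4 η r`, i.e. `4 ≤ (2q+2)(2q+1) 4 η ≤ 4 q * 3 q * 4 η = 48 q^2 η`,
against `1000 q^2 η ≤ 1`.

`exists_family`: PROOF. Among the subsets `F` of `univ : Finset (V × V)` which consist of good pairs and are pairwise far
take one with the largest number of elements (`Finset.exists_max_image` on the filtered powerset; `∅` is such a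
set). `far_card` gives `F.card ≤ q`. If `p` is good and far from all `d ∈ F`, then `p ∉ F` or (`p ∈ F`) `p` is far from
itself; if `p ∈ F`, `p` is not far from itself, because `|Nb p.2 ∩ Nb p.2| = r > 4 η r`. So `p ∉ F` and `insert p F` is
pairwise far (`Far` is symmetric, `Finset.inter_comm`), a contradiction.
-/

set_option autoImplicit false

namespace Pool.Agent.Lib.MP_eeed5c_coD

open Finset Pool.Agent.Lib.MP_eeed5c_co Pool.Agent.Lib.MP_eeed5c_coT

section

variable {V : Type*} [Fintype V]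

/-- The set of a side of the block of an oriented edge. -/
noncomputable def Xs (G : SimpleGraph V) (s : (V × V) × Bool) : Finset V :=
  if s.2 then Nb G s.1.1 else Nb G s.1.2

open scoped Classical in
/-- Good oriented edges. -/
def Gd (G : SimpleGraph V) (r : ℕ) (η : ℝ) (p : V × V) : Prop :=
  G.Adj p.1 p.2 ∧ (nj G p.1 p.2 : ℝ) ≤ η * (r : ℝ) ^ 2 ∧
    ((Nb G p.1 ∩ Nb G p.2).card : ℝ) ≤ η * r

open scoped Classical in
/-- Far oriented edges. -/
def Fr (G : SimpleGraph V) (r : ℕ) (η : ℝ) (p d : V × V) : Prop :=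
  ∀ b c : Bool, ((Xs G (p, b) ∩ Xs G (d, c)).card : ℝ) ≤ 4 * η * r

variable {G : SimpleGraph V}

theorem card_Xs {r : ℕ} (hreg : Reg G r) (s : (V × V) × Bool) : (Xs G s).card = r := by
  unfold Xs
  split_ifs
  · exact card_Nb hreg _
  · exact card_Nb hreg _

private theorem EB_true (G : SimpleGraph V) (p : V × V) : Xs G (p, true) = Nb G p.1 := by
  unfold Xs
  simp

private theorem EB_false (G : SimpleGraph V) (p : V × V) : Xs G (p, false) = Nb G p.2 := by
  unfold Xs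
  simp

open scoped Classical in
theorem near_of_not_far {r : ℕ} (hr : 1 ≤ r) (hreg : Reg G r) {η : ℝ} (hη : 0 ≤ η)
    (hη1 : η ≤ 1 / 100) {p d : V × V} (hp : Gd G r η p) (hd : Gd G r η d) (h : ¬ Fr G r η p d) :
    ∃ e : Bool, ∀ b : Bool, (1 - 4 * η) * r ≤ ((Xs G (p, b) ∩ Xs G (d, xor e b)).card : ℝ) := by
  have hr0 : (0 : ℝ) < (r : ℝ) := by exact_mod_cast hr
  obtain ⟨_, hpn, _⟩ := hp
  obtain ⟨_, hdn, _⟩ := hd
  have hpn' : (nj G p.2 p.1 : ℝ) ≤ η * (r : ℝ) ^ 2 := by rw [nj_symm]; exact hpn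
  have hdn' : (nj G d.2 d.1 : ℝ) ≤ η * (r : ℝ) ^ 2 := by rw [nj_symm]; exact hdn
  have c1 := cross hreg p.1 p.2 d.1 d.2
  have c2 := cross hreg p.2 p.1 d.2 d.1
  have c3 := cross hreg p.1 p.2 d.2 d.1
  have c4 := cross hreg p.2 p.1 d.1 d.2
  have d1 := dich (a := ((Nb G p.2 ∩ Nb G d.2).card : ℝ)) (b := ((Nb G p.1 ∩ Nb G d.1).card : ℝ))
    (Nat.cast_nonneg _) (Nat.cast_nonneg _) hr0 hη hη1 (by linarith) (by linarith)
  have d2 := dich (a := ((Nb G p.2 ∩ Nb G d.1).card : ℝ)) (b := ((Nb G p.1 ∩ Nb G d.2).card : ℝ))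
    (Nat.cast_nonneg _) (Nat.cast_nonneg _) hr0 hη hη1 (by linarith) (by linarith)
  rcases d1 with ⟨a1, a2⟩ | ⟨a1, a2⟩
  · rcases d2 with ⟨b1, b2⟩ | ⟨b1, b2⟩
    · exfalso
      apply h
      intro b c
      cases b <;> cases c
      · rw [EB_false, EB_false]; exact a1
      · rw [EB_false, EB_true]; exact b1
      · rw [EB_true, EB_false]; exact b2
      · rw [EB_true, EB_true]; exact a2
    · refine ⟨true, fun b => ?_⟩
      cases b
      · rw [EB_false, show (xor true false) = true from rfl, EB_true]; exact b1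
      · rw [EB_true, show (xor true true) = false from rfl, EB_false]; exact b2
  · refine ⟨false, fun b => ?_⟩
    cases b
    · rw [EB_false, show (xor false false) = false from rfl, EB_false]; exact a1
    · rw [EB_true, show (xor false true) = true from rfl, EB_true]; exact a2

open scoped Classical in
private theorem EB_sum_c (A : Finset ((V × V) × Bool)) :
    ∑ w : V, ∑ s ∈ A, (if w ∈ Xs G s then (1 : ℝ) else 0) = ∑ s ∈ A, ((Xs G s).card : ℝ) := by
  rw [Finset.sum_comm]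
  refine Finset.sum_congr rfl (fun s _ => ?_)
  rw [Finset.sum_ite_mem, Finset.univ_inter, Finset.sum_const, nsmul_eq_mul, mul_one]

open scoped Classical in
private theorem EB_sum_cc (A : Finset ((V × V) × Bool)) :
    ∑ w : V, (∑ s ∈ A, (if w ∈ Xs G s then (1 : ℝ) else 0)) ^ 2
      = ∑ s ∈ A, ∑ s' ∈ A, ((Xs G s ∩ Xs G s').card : ℝ) := by
  have e : ∀ w : V, (∑ s ∈ A, (if w ∈ Xs G s then (1 : ℝ) else 0)) ^ 2
      = ∑ s ∈ A, ∑ s' ∈ A, (if w ∈ Xs G s ∩ Xs G s' then (1 : ℝ) else 0) := by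
    intro w
    rw [pow_two, Finset.sum_mul_sum]
    refine Finset.sum_congr rfl (fun s _ => Finset.sum_congr rfl (fun s' _ => ?_))
    by_cases h1 : w ∈ Xs G s <;> by_cases h2 : w ∈ Xs G s' <;> simp [h1, h2]
  rw [Finset.sum_congr rfl (fun w _ => e w), Finset.sum_comm]
  refine Finset.sum_congr rfl (fun s _ => ?_)
  rw [Finset.sum_comm]
  refine Finset.sum_congr rfl (fun s' _ => ?_)
  rw [Finset.sum_ite_mem, Finset.univ_inter, Finset.sum_const, nsmul_eq_mul, mul_one]

theorem far_card {q r : ℕ} (hV : Fintype.card V = 2 * (q * r)) (hq : 1 ≤ q) (hr : 1 ≤ r)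
    (hreg : Reg G r) {η : ℝ} (hη : 0 ≤ η) (hηq : 1000 * (q : ℝ) ^ 2 * η ≤ 1)
    {F : Finset (V × V)} (hF : ∀ p ∈ F, Gd G r η p)
    (hfar : ∀ p ∈ F, ∀ d ∈ F, p ≠ d → Fr G r η p d) : F.card ≤ q := by
  classical
  by_contra hcon
  push Not at hcon
  obtain ⟨F', hF', hcard⟩ := Finset.exists_subset_card_eq (show q + 1 ≤ F.card by omega)
  have hr0 : (0 : ℝ) < (r : ℝ) := by exact_mod_cast hr
  have hq1 : (1 : ℝ) ≤ (q : ℝ) := by exact_mod_cast hq
  set A : Finset ((V × V) × Bool) := F' ×ˢ univ with hA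
  have hAc : (A.card : ℝ) = 2 * ((q : ℝ) + 1) := by
    rw [hA, Finset.card_product, hcard, Finset.card_univ, Fintype.card_bool]
    push_cast
    ring
  have h1 := EB_sum_c (G := G) A
  have h2 := EB_sum_cc (G := G) A
  have hs1 : ∑ s ∈ A, ((Xs G s).card : ℝ) = (2 * ((q : ℝ) + 1)) * r := by
    rw [Finset.sum_congr rfl (fun s _ => by rw [card_Xs hreg s] : ∀ s ∈ A,
      ((Xs G s).card : ℝ) = (r : ℝ)), Finset.sum_const, nsmul_eq_mul, hAc]
  have hoff : ∀ s ∈ A, ∀ s' ∈ A, s ≠ s' → ((Xs G s ∩ Xs G s').card : ℝ) ≤ 4 * η * r := by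
    rintro ⟨p, b⟩ hs ⟨d, c⟩ hs' hne
    have hp : p ∈ F := hF' (mem_product.1 hs).1
    have hd : d ∈ F := hF' (mem_product.1 hs').1
    by_cases hpd : p = d
    · subst hpd
      have hbc : b ≠ c := fun h => hne (by rw [h])
      obtain ⟨_, _, h3⟩ := hF p hp
      have h4 : ((Nb G p.1 ∩ Nb G p.2).card : ℝ) ≤ 4 * η * r := by
        have : 0 ≤ η * r := mul_nonneg hη hr0.le
        linarith
      cases b <;> cases c
      · exact absurd rfl hbc
      · rw [EB_false, EB_true, Finset.inter_comm]; exact h4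
      · rw [EB_false, EB_true]; exact h4
      · exact absurd rfl hbc
    · exact hfar p hp d hd hpd b c
  have hs2 : ∑ s ∈ A, ∑ s' ∈ A, ((Xs G s ∩ Xs G s').card : ℝ) ≤
      (2 * ((q : ℝ) + 1)) * (r + (2 * (q : ℝ) + 1) * (4 * η * r)) := by
    have h3 : ∀ s ∈ A, ∑ s' ∈ A, ((Xs G s ∩ Xs G s').card : ℝ) ≤
        r + (2 * (q : ℝ) + 1) * (4 * η * r) := by
      intro s hs
      rw [← Finset.add_sum_erase A _ hs, Finset.inter_self, card_Xs hreg s]
      have h4 : ∑ s' ∈ A.erase s, ((Xs G s ∩ Xs G s').card : ℝ) ≤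
          ∑ _s' ∈ A.erase s, (4 * η * r) := by
        refine Finset.sum_le_sum (fun s' hs' => ?_)
        exact hoff s hs s' (Finset.mem_of_mem_erase hs') (Finset.ne_of_mem_erase hs').symm
      rw [Finset.sum_const, nsmul_eq_mul, Finset.card_erase_of_mem hs] at h4
      have h5 : ((A.card - 1 : ℕ) : ℝ) = 2 * (q : ℝ) + 1 := by
        have hA1 : 1 ≤ A.card := Finset.card_pos.2 ⟨s, hs⟩
        rw [Nat.cast_sub hA1, hAc]
        push_cast
        ring
      rw [h5] at h4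
      linarith
    calc _ ≤ ∑ _s ∈ A, (r + (2 * (q : ℝ) + 1) * (4 * η * r)) := Finset.sum_le_sum h3
      _ = _ := by rw [Finset.sum_const, nsmul_eq_mul, hAc]
  -- the inequality for every vertex
  have hnat : ∀ w : V, 2 * (∑ s ∈ A, (if w ∈ Xs G s then (1 : ℝ) else 0)) ≤
      2 + (∑ s ∈ A, (if w ∈ Xs G s then (1 : ℝ) else 0)) ^ 2
        - ∑ s ∈ A, (if w ∈ Xs G s then (1 : ℝ) else 0) := by
    intro w
    have e : ∑ s ∈ A, (if w ∈ Xs G s then (1 : ℝ) else 0)
        = (((A.filter fun s => w ∈ Xs G s).card : ℕ) : ℝ) := by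
      rw [Finset.sum_ite, Finset.sum_const, Finset.sum_const_zero, add_zero, nsmul_eq_mul, mul_one]
    rw [e]
    generalize (A.filter fun s => w ∈ Xs G s).card = n
    have hn : 0 ≤ ((n : ℝ) - 1) * ((n : ℝ) - 2) := by
      rcases Nat.lt_or_ge n 2 with h | h
      · have : n = 0 ∨ n = 1 := by omega
        rcases this with rfl | rfl <;> norm_num
      · have h' : (2 : ℝ) ≤ (n : ℝ) := by exact_mod_cast h
        exact mul_nonneg (by linarith) (by linarith)
    nlinarith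
  have hsum := Finset.sum_le_sum (fun w (_ : w ∈ (univ : Finset V)) => hnat w)
  rw [Finset.sum_sub_distrib, Finset.sum_add_distrib, ← Finset.mul_sum, h1, h2, hs1,
    Finset.sum_const, nsmul_eq_mul, Finset.card_univ, hV] at hsum
  push_cast at hsum
  have hkey : 4 * (r : ℝ) ≤ (2 * ((q : ℝ) + 1)) * ((2 * (q : ℝ) + 1) * (4 * η * r)) := by
    nlinarith
  have hkey2 : (2 * ((q : ℝ) + 1)) * ((2 * (q : ℝ) + 1) * (4 * η * r)) ≤
      48 * (q : ℝ) ^ 2 * η * r := by
    have h6 : (2 * ((q : ℝ) + 1)) * (2 * (q : ℝ) + 1) ≤ 12 * (q : ℝ) ^ 2 := by nlinarith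
    have h7 : 0 ≤ 4 * η * r := by positivity
    calc _ = ((2 * ((q : ℝ) + 1)) * (2 * (q : ℝ) + 1)) * (4 * η * r) := by ring
      _ ≤ (12 * (q : ℝ) ^ 2) * (4 * η * r) := mul_le_mul_of_nonneg_right h6 h7
      _ = _ := by ring
  have h8 : 48 * (q : ℝ) ^ 2 * η * r ≤ 48 / 1000 * r := by
    apply mul_le_mul_of_nonneg_right _ hr0.le
    linarith
  linarith

theorem exists_family {q r : ℕ} (hV : Fintype.card V = 2 * (q * r)) (hq : 1 ≤ q) (hr : 1 ≤ r)
    (hreg : Reg G r) {η : ℝ} (hη : 0 ≤ η) (hηq : 1000 * (q : ℝ) ^ 2 * η ≤ 1) :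
    ∃ F : Finset (V × V), (∀ p ∈ F, Gd G r η p) ∧
      (∀ p ∈ F, ∀ d ∈ F, p ≠ d → Fr G r η p d) ∧ F.card ≤ q ∧
      ∀ p, Gd G r η p → ∃ d ∈ F, ¬ Fr G r η p d := by
  classical
  have hr0 : (0 : ℝ) < (r : ℝ) := by exact_mod_cast hr
  have hq1 : (1 : ℝ) ≤ (q : ℝ) := by exact_mod_cast hq
  have hη1 : 1000 * η ≤ 1 := by
    have h1 : 1 * η ≤ (q : ℝ) ^ 2 * η := mul_le_mul_of_nonneg_right (by nlinarith) hη
    linarith
  set S : Finset (Finset (V × V)) := univ.filter (fun F => (∀ p ∈ F, Gd G r η p) ∧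
      (∀ p ∈ F, ∀ d ∈ F, p ≠ d → Fr G r η p d)) with hS
  have hne : S.Nonempty := ⟨∅, by simp [hS]⟩
  obtain ⟨F, hFS, hmax⟩ := Finset.exists_max_image S Finset.card hne
  obtain ⟨hF1, hF2⟩ := (mem_filter.1 hFS).2
  refine ⟨F, hF1, hF2, far_card hV hq hr hreg hη hηq hF1 hF2, ?_⟩
  intro p hp
  by_contra hcon
  push Not at hcon
  have hsymm : ∀ d, Fr G r η p d → Fr G r η d p := by
    intro d h b c
    rw [Finset.inter_comm]
    exact h c b
  have hpF : p ∉ F := by
    intro hpF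
    have h1 := hcon p hpF true true
    rw [Finset.inter_self, card_Xs hreg] at h1
    nlinarith
  have hins : insert p F ∈ S := by
    refine mem_filter.2 ⟨mem_univ _, ?_, ?_⟩
    · intro d hd
      rcases mem_insert.1 hd with rfl | hd
      · exact hp
      · exact hF1 d hd
    · intro d hd d' hd' hne
      rcases mem_insert.1 hd with h1 | h1
      · rcases mem_insert.1 hd' with h2 | h2
        · exact absurd (h1.trans h2.symm) hne
        · rw [h1]; exact hcon d' h2
      · rcases mem_insert.1 hd' with h2 | h2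
        · rw [h2]; exact hsymm d (hcon d h1)
        · exact hF2 d h1 d' h2 hne
  have := hmax _ hins
  rw [Finset.card_insert_of_notMem hpF] at this
  omega

end

end Pool.Agent.Lib.MP_eeed5c_coD
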