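import Pool.Agent.Lib.MP_eeed5c_co_D.EB

/-!
# The blocks

Let `F` be the family of `exists_family`, `s = F.card ≤ q`, index set `I = F ×ˢ univ` (`2 s` sides `Xs G i`,
`i = (d, b)`); for `i = (d, b)` let `i' = (d, !b)`.

(1) Number of bad oriented edges. For `p ∈ prA G` not good: `nj > η r^2` or `|Nb p.1 ∩ Nb p.2| = tri > η r`. By
`sum_nj` and `hD` there are at most `η r^2` of the first kind (`η > 0`: `η^2 r^4 / (η r^2)`; for `η = 0` both sums are
zero and there are none), by `hT` at most `η r^2` of the second kind: at most `2 η r^2` bad oriented edges.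
`card prA = 2 q r * r` (`card_prA`), so there is a good oriented edge and `F` is not empty.

(2) `bad_vertices`: a vertex `u` with at least one good `(u, v)`: by the family there is `d ∈ F`, not far, and
`near_of_not_far` with `b = true` (`Xs (p, true) = Nb u`) gives `i ∈ I` with `|Nb u ∩ Xs i| ≥ (1 - 4 η) r`. A vertex
without good `(u, v)` is the first vertex of `r` bad oriented edges, so there are at most `2 η r` such vertices.

(3) For every `w` let `main w ∈ I` be an index with the largest `|Nb w ∩ Xs i|` (`Finset.exists_max_image`),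
`τ w = (main w)'`. So all vertices except at most `2 η r` have `|Nb w ∩ Xs (main w)| ≥ (1 - 4 η) r`.

(4) Distinct sides `i ≠ j` have `|Xs i ∩ Xs j| ≤ 4 η r`. So `|⋃ Xs i| ≥ 2 s r - (2s)(2s-1)/2 * 4 η r` (as in
`far_card`).

(5) `{w : τ w = i'}`, i.e. `main w = i`: `∑ w |Nb w ∩ Xs i| = ∑ y ∈ Xs i, deg y = r^2`, so at most
`r / (1 - 4 η) ≤ (1 + 5 η) r` vertices `w` have `main w = i` and `|Nb w ∩ Xs i| ≥ (1 - 4 η) r`; with (2)
`|{w : τ w = i'}| ≤ (1 + 7 η) r` for every `i`. Sum over `i`: `2 q r ≤ 2 s (1 + 7 η) r`; if `s ≤ q - 1`, then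
`2 ≤ 14 q η`, a contradiction. So `s = q`. And each of the `2 q` sets has at least
`2 q r - (2 q - 1)(1 + 7 η) r ≥ (1 - 14 q η) r` elements.

(6) For `y ∈ Xs i`: if `|Nb y ∩ Xs i'| ≥ (3/4) r`, then every `j ≠ i'` has
`|Nb y ∩ Xs j| ≤ r / 4 + 4 η r < (3/4) r`, so `main y = i'`, `τ y = i`. The number of `y ∈ Xs i` with
`|Nb y ∩ Xs i'| < (3/4) r` is at most `4 η r`: each of them has more than `r / 4` non-neighbours in `Xs i'`, and the
number of non-adjacent pairs in `Xs i × Xs i'` is `nj G d.1 d.2 ≤ η r^2` (or `nj G d.2 d.1`, `nj_symm`).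

(7) For every `w` with `main w = i` (so `τ w = i'`): the neighbours `y` of `w` with `τ y = i` are at least
`|Nb w ∩ Xs i| - 4 η r`. For all but `2 η r` vertices this is `≥ (1 - 8 η) r`. For every vertex: with `s = q` and (4),
`∑ i |Nb w ∩ Xs i| ≥ |Nb w ∩ ⋃ Xs i| ≥ r - (2 q r - |⋃ Xs i|) ≥ r - 8 q^2 η r ≥ (1 - 8/1000) r`, so the largest is
`≥ (1 - 8/1000) r / (2 q)`, and `(1 - 8/1000) r / (2 q) - 4 η r ≥ r / (3 q)` (`η ≤ 1/(1000 q^2) ≤ 1/(1000 q)`).

(8) Take an equivalence `e : F ≃ Fin q` (`Finset.equivFinOfCardEq`) and `c w = (e (τ w).1, if (τ w).2 then 1 else 0)`.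
`(KG c).Adj w y` iff `(τ w).1 = (τ y).1` and `(τ w).2 ≠ (τ y).2`, i.e. `τ y = (τ w)' = main w`. The sides of `c` are the
sets `{w : τ w = i}`, `i ∈ I`.
-/

set_option autoImplicit false

namespace Pool.Agent.Lib.MP_eeed5c_coD

open Finset Pool.Agent.Lib.MP_eeed5c_co Pool.Agent.Lib.MP_eeed5c_coT Pool.Agent.Lib.MP_eeed5c_coX

section

variable {V : Type*} [Fintype V] {G : SimpleGraph V}

open scoped Classical in
private theorem EC_markov {ι : Type*} (s : Finset ι) (f : ι → ℝ) (a t : ℝ) (ha : 0 ≤ a)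
    (ht : 0 ≤ t) (hf : ∀ i ∈ s, 0 ≤ f i) (hs : ∑ i ∈ s, f i ≤ a * t) :
    ((s.filter fun i => a < f i).card : ℝ) ≤ t := by
  rcases ha.eq_or_lt with h0 | h0
  · have hz : s.filter (fun i => a < f i) = ∅ := by
      rw [Finset.filter_eq_empty_iff]
      intro i hi
      have h1 : f i ≤ ∑ j ∈ s, f j := Finset.single_le_sum hf hi
      rw [← h0] at hs ⊢
      rw [zero_mul] at hs
      exact not_lt.2 (h1.trans hs)
    rw [hz, Finset.card_empty, Nat.cast_zero]
    exact ht
  · have h1 : ((s.filter fun i => a < f i).card : ℝ) * a ≤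
        ∑ i ∈ s.filter (fun i => a < f i), f i := by
      rw [← nsmul_eq_mul]
      exact Finset.card_nsmul_le_sum _ _ _ (fun i hi => (Finset.mem_filter.1 hi).2.le)
    have h2 : ∑ i ∈ s.filter (fun i => a < f i), f i ≤ ∑ i ∈ s, f i :=
      Finset.sum_le_sum_of_subset_of_nonneg (Finset.filter_subset _ _) (fun i hi _ => hf i hi)
    have h3 : ((s.filter fun i => a < f i).card : ℝ) * a ≤ t * a := by linarith
    exact le_of_mul_le_mul_right h3 h0

open scoped Classical in
private theorem EC_tri (u v : V) : tri G u v = ((Nb G u ∩ Nb G v).card : ℝ) := by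
  unfold tri
  norm_cast
  congr 1
  ext w
  simp only [Finset.mem_filter, Finset.mem_univ, true_and, Finset.mem_inter, mem_Nb]

open scoped Classical in
/-- All but few vertices have a good oriented edge. -/
theorem bad_vertices {q r : ℕ} (hV : Fintype.card V = 2 * (q * r)) (hq : 1 ≤ q) (hr : 1 ≤ r)
    (hreg : Reg G r) {η : ℝ} (hη : 0 ≤ η) (hηq : 1000 * (q : ℝ) ^ 2 * η ≤ 1)
    (hD : dfc G r ≤ η ^ 2 * (r : ℝ) ^ 4)
    (hT : ∑ p ∈ prA G, tri G p.1 p.2 ≤ η ^ 2 * (r : ℝ) ^ 3) :
    ((univ.filter fun u : V => ∀ v, ¬ Gd G r η (u, v)).card : ℝ) ≤ 2 * η * r := by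
  have hr0 : (0 : ℝ) < r := by exact_mod_cast hr
  have h1 : (((prA G).filter fun p => η * (r : ℝ) ^ 2 < (nj G p.1 p.2 : ℝ)).card : ℝ) ≤
      η * (r : ℝ) ^ 2 := by
    refine EC_markov (prA G) (fun p => (nj G p.1 p.2 : ℝ)) (η * (r : ℝ) ^ 2) (η * (r : ℝ) ^ 2)
      (by positivity) (by positivity) (fun p _ => Nat.cast_nonneg _) ?_
    rw [sum_nj hreg]
    calc dfc G r ≤ η ^ 2 * (r : ℝ) ^ 4 := hD
      _ = η * (r : ℝ) ^ 2 * (η * (r : ℝ) ^ 2) := by ring
  have h2 : (((prA G).filter fun p => η * (r : ℝ) < tri G p.1 p.2).card : ℝ) ≤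
      η * (r : ℝ) ^ 2 := by
    refine EC_markov (prA G) (fun p => tri G p.1 p.2) (η * (r : ℝ)) (η * (r : ℝ) ^ 2)
      (by positivity) (by positivity) (fun p _ => ?_) ?_
    · rw [EC_tri]
      exact Nat.cast_nonneg _
    · calc ∑ p ∈ prA G, tri G p.1 p.2 ≤ η ^ 2 * (r : ℝ) ^ 3 := hT
        _ = η * (r : ℝ) * (η * (r : ℝ) ^ 2) := by ring
  set B : Finset V := univ.filter fun u : V => ∀ v, ¬ Gd G r η (u, v) with hB
  have h3 : B.card * r ≤ ((prA G).filter fun p => η * (r : ℝ) ^ 2 < (nj G p.1 p.2 : ℝ)).card +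
      ((prA G).filter fun p => η * (r : ℝ) < tri G p.1 p.2).card := by
    have h4 : B.card * r = (B.sigma fun u => Nb G u).card := by
      rw [Finset.card_sigma, Finset.sum_congr rfl (fun u _ => card_Nb hreg u), Finset.sum_const,
        smul_eq_mul]
    rw [h4]
    refine le_trans ?_ (Finset.card_union_le _ _)
    refine Finset.card_le_card_of_injOn (fun x => (x.1, x.2)) ?_ ?_
    · rintro ⟨u, v⟩ hx
      rw [Finset.mem_coe, Finset.mem_sigma, mem_Nb, hB, Finset.mem_filter] at hx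
      obtain ⟨⟨_, hu⟩, huv⟩ := hx
      have hn := hu v
      unfold Gd at hn
      have huv' : G.Adj u v := huv
      rw [Finset.mem_coe, Finset.mem_union, Finset.mem_filter, Finset.mem_filter]
      have hm : (u, v) ∈ prA G := by
        unfold prA
        rw [Finset.mem_filter]
        exact ⟨Finset.mem_univ _, huv'⟩
      by_cases ha : (nj G u v : ℝ) ≤ η * (r : ℝ) ^ 2
      · right
        refine ⟨hm, ?_⟩
        rw [EC_tri]
        by_contra hb
        exact hn ⟨huv', ha, not_lt.1 hb⟩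
      · left
        exact ⟨hm, not_le.1 ha⟩
    · rintro ⟨u, v⟩ _ ⟨u', v'⟩ _ hx
      simp only [Prod.mk.injEq] at hx
      obtain ⟨rfl, rfl⟩ := hx
      rfl
  have h5 : (B.card : ℝ) * r ≤ η * (r : ℝ) ^ 2 + η * (r : ℝ) ^ 2 := by
    have h6 : ((B.card * r : ℕ) : ℝ) ≤
        ((((prA G).filter fun p => η * (r : ℝ) ^ 2 < (nj G p.1 p.2 : ℝ)).card +
          ((prA G).filter fun p => η * (r : ℝ) < tri G p.1 p.2).card : ℕ) : ℝ) := by
      exact_mod_cast h3
    push_cast at h6
    linarith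
  have h7 : (B.card : ℝ) * r ≤ (2 * η * r) * r := by
    calc (B.card : ℝ) * r ≤ η * (r : ℝ) ^ 2 + η * (r : ℝ) ^ 2 := h5
      _ = (2 * η * r) * r := by ring
  exact le_of_mul_le_mul_right h7 hr0

private def EC_fl {V : Type*} (i : (V × V) × Bool) : (V × V) × Bool := (i.1, !i.2)

open scoped Classical in
/-- Distinct sides have small intersections. -/
private theorem EC_inter {r : ℕ} {η : ℝ} (hη : 0 ≤ η) {F : Finset (V × V)}
    (hF : ∀ p ∈ F, Gd G r η p) (hfar : ∀ p ∈ F, ∀ d ∈ F, p ≠ d → Fr G r η p d)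
    {i j : (V × V) × Bool} (hi : i.1 ∈ F) (hj : j.1 ∈ F) (hij : i ≠ j) :
    ((Xs G i ∩ Xs G j).card : ℝ) ≤ 4 * η * r := by
  rcases i with ⟨d, b⟩
  rcases j with ⟨d', b'⟩
  simp only at hi hj
  by_cases h : d = d'
  · subst h
    have hg := (hF d hi).2.2
    have hle : η * (r : ℝ) ≤ 4 * η * r := by
      have : 0 ≤ η * (r : ℝ) := by positivity
      linarith
    cases b <;> cases b'
    · exact absurd rfl hij
    · simp only [Xs, Bool.false_eq_true, if_false, if_true]
      rw [Finset.inter_comm]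
      exact hg.trans hle
    · simp only [Xs, Bool.false_eq_true, if_false, if_true]
      exact hg.trans hle
    · exact absurd rfl hij
  · exact hfar d hi d' hj h b b'

open scoped Classical in
/-- The number of vertices of a side with few neighbours in the opposite side. -/
private theorem EC_few {r : ℕ} (hr : 1 ≤ r) (hreg : Reg G r) {η : ℝ} {i : (V × V) × Bool}
    (hi : Gd G r η i.1) :
    (((Xs G i).filter fun y => ((Nb G y ∩ Xs G (EC_fl i)).card : ℝ) < 3 / 4 * r).card : ℝ) ≤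
      4 * η * r := by
  have hr0 : (0 : ℝ) < r := by exact_mod_cast hr
  set S := (Xs G i).filter fun y => ((Nb G y ∩ Xs G (EC_fl i)).card : ℝ) < 3 / 4 * r with hS
  -- the non-adjacent pairs
  have h1 : (S.sigma fun y => (Xs G (EC_fl i)).filter fun z => ¬ G.Adj y z).card ≤
      nj G i.1.1 i.1.2 := by
    rcases i with ⟨⟨a, b⟩, e⟩
    cases e
    · rw [nj_symm]
      unfold nj
      refine Finset.card_le_card_of_injOn (fun x => (x.1, x.2)) ?_ ?_
      · rintro ⟨y, z⟩ hx
        rw [Finset.mem_coe, Finset.mem_sigma, hS, Finset.mem_filter, Finset.mem_filter] at hx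
        obtain ⟨⟨h2, _⟩, h3, h4⟩ := hx
        simp only [EC_fl, Xs, Bool.false_eq_true, if_false, Bool.not_false, if_true, mem_Nb]
          at h2 h3
        rw [Finset.mem_coe, Finset.mem_filter]
        exact ⟨Finset.mem_univ _, h2, h3, h4⟩
      · rintro ⟨u, v⟩ _ ⟨u', v'⟩ _ hx
        simp only [Prod.mk.injEq] at hx
        obtain ⟨rfl, rfl⟩ := hx
        rfl
    · unfold nj
      refine Finset.card_le_card_of_injOn (fun x => (x.1, x.2)) ?_ ?_
      · rintro ⟨y, z⟩ hx
        rw [Finset.mem_coe, Finset.mem_sigma, hS, Finset.mem_filter, Finset.mem_filter] at hx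
        obtain ⟨⟨h2, _⟩, h3, h4⟩ := hx
        simp only [EC_fl, Xs, Bool.false_eq_true, if_false, Bool.not_true, if_true, mem_Nb]
          at h2 h3
        rw [Finset.mem_coe, Finset.mem_filter]
        exact ⟨Finset.mem_univ _, h2, h3, h4⟩
      · rintro ⟨u, v⟩ _ ⟨u', v'⟩ _ hx
        simp only [Prod.mk.injEq] at hx
        obtain ⟨rfl, rfl⟩ := hx
        rfl
  have h2 : ∀ y ∈ S, (r : ℝ) / 4 ≤ (((Xs G (EC_fl i)).filter fun z => ¬ G.Adj y z).card : ℝ) := by
    intro y hy
    rw [hS, Finset.mem_filter] at hy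
    have h3 : (Xs G (EC_fl i)).card = ((Xs G (EC_fl i)).filter fun z => G.Adj y z).card +
        ((Xs G (EC_fl i)).filter fun z => ¬ G.Adj y z).card :=
      (Finset.card_filter_add_card_filter_not (fun z => G.Adj y z)).symm
    have h4 : (Xs G (EC_fl i)).filter (fun z => G.Adj y z) = Nb G y ∩ Xs G (EC_fl i) := by
      ext z
      simp only [Finset.mem_filter, Finset.mem_inter, mem_Nb]
      exact and_comm
    rw [h4, card_Xs hreg] at h3
    have h5 : (r : ℝ) = ((Nb G y ∩ Xs G (EC_fl i)).card : ℝ) +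
        (((Xs G (EC_fl i)).filter fun z => ¬ G.Adj y z).card : ℝ) := by exact_mod_cast h3
    linarith [hy.2]
  have h3 : (S.card : ℝ) * ((r : ℝ) / 4) ≤ (nj G i.1.1 i.1.2 : ℝ) := by
    have h4 : (S.card : ℝ) * ((r : ℝ) / 4) ≤
        ∑ y ∈ S, (((Xs G (EC_fl i)).filter fun z => ¬ G.Adj y z).card : ℝ) := by
      rw [← nsmul_eq_mul]
      exact Finset.card_nsmul_le_sum _ _ _ h2
    have h5 : ∑ y ∈ S, (((Xs G (EC_fl i)).filter fun z => ¬ G.Adj y z).card : ℝ) =
        ((S.sigma fun y => (Xs G (EC_fl i)).filter fun z => ¬ G.Adj y z).card : ℝ) := by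
      rw [Finset.card_sigma]
      push_cast
      rfl
    rw [h5] at h4
    refine h4.trans ?_
    exact_mod_cast h1
  have h4 : (nj G i.1.1 i.1.2 : ℝ) ≤ η * (r : ℝ) ^ 2 := hi.2.1
  have h5 : (S.card : ℝ) * ((r : ℝ) / 4) ≤ (4 * η * r) * ((r : ℝ) / 4) := by
    calc (S.card : ℝ) * ((r : ℝ) / 4) ≤ η * (r : ℝ) ^ 2 := h3.trans h4
      _ = (4 * η * r) * ((r : ℝ) / 4) := by ring
  exact le_of_mul_le_mul_right h5 (by positivity)

open scoped Classical in
/-- Double counting of the edges between a set and all vertices. -/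
private theorem EC_dc {r : ℕ} (hreg : Reg G r) (X : Finset V) :
    ∑ w : V, ((Nb G w ∩ X).card : ℝ) = (r : ℝ) * X.card := by
  have h1 : ∀ w : V, ((Nb G w ∩ X).card : ℝ) = ∑ y ∈ X, if G.Adj w y then (1 : ℝ) else 0 := by
    intro w
    rw [Finset.sum_boole]
    congr 2
    ext y
    simp only [Finset.mem_filter, Finset.mem_inter, mem_Nb]
    exact and_comm
  rw [Finset.sum_congr rfl (fun w _ => h1 w), Finset.sum_comm]
  have h2 : ∀ y ∈ X, (∑ w : V, if G.Adj w y then (1 : ℝ) else 0) = r := by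
    intro y _
    rw [Finset.sum_boole]
    have h3 := hreg y
    rw [← h3]
    congr 2
    ext w
    simp only [Finset.mem_filter, Finset.mem_univ, true_and]
    exact G.adj_comm w y
  rw [Finset.sum_congr rfl h2, Finset.sum_const, nsmul_eq_mul, mul_comm]

open scoped Classical in
/-- The number of vertices outside of the union of almost disjoint sets. -/
private theorem EC_out {ι : Type*} (I : Finset ι) (X : ι → Finset V) (a : ℝ)
    (hX : ∑ i ∈ I, ((X i).card : ℝ) = Fintype.card V)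
    (hint : ∀ i ∈ I, ∀ j ∈ I, i ≠ j → ((X i ∩ X j).card : ℝ) ≤ a) (ha : 0 ≤ a) :
    ∃ O : Finset V, (∀ w, w ∈ O ↔ ∀ i ∈ I, w ∉ X i) ∧
      (O.card : ℝ) ≤ (I.card : ℝ) ^ 2 * a / 2 := by
  refine ⟨univ.filter fun w : V => ∀ i ∈ I, w ∉ X i, fun w => ?_, ?_⟩
  · rw [Finset.mem_filter]
    exact ⟨fun h => h.2, fun h => ⟨Finset.mem_univ _, h⟩⟩
  -- the number of the sets containing a vertex
  have hc : ∀ w : V, ((I.filter fun i => w ∈ X i).card : ℝ) =
      ∑ i ∈ I, if w ∈ X i then (1 : ℝ) else 0 := by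
    intro w
    rw [Finset.sum_boole]
  have h1 : ∑ w : V, ((I.filter fun i => w ∈ X i).card : ℝ) = Fintype.card V := by
    rw [Finset.sum_congr rfl (fun w _ => hc w), Finset.sum_comm, ← hX]
    refine Finset.sum_congr rfl (fun i _ => ?_)
    rw [Finset.sum_boole]
    congr 2
    ext w
    simp only [Finset.mem_filter, Finset.mem_univ, true_and]
  have h2 : ∑ w : V, ((I.filter fun i => w ∈ X i).card : ℝ) *
      (((I.filter fun i => w ∈ X i).card : ℝ) - 1) ≤ (I.card : ℝ) ^ 2 * a := by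
    have h3 : ∀ w : V, ((I.filter fun i => w ∈ X i).card : ℝ) *
        (((I.filter fun i => w ∈ X i).card : ℝ) - 1) =
        ∑ p ∈ I.offDiag, if w ∈ X p.1 ∩ X p.2 then (1 : ℝ) else 0 := by
      intro w
      rw [Finset.sum_boole]
      have h4 : (I.offDiag.filter fun p => w ∈ X p.1 ∩ X p.2) =
          (I.filter fun i => w ∈ X i).offDiag := by
        ext ⟨i, j⟩
        simp only [Finset.mem_filter, Finset.mem_offDiag, Finset.mem_inter]
        constructor
        · rintro ⟨⟨k1, k2, k3⟩, k4, k5⟩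
          exact ⟨⟨k1, k4⟩, ⟨k2, k5⟩, k3⟩
        · rintro ⟨⟨k1, k4⟩, ⟨k2, k5⟩, k3⟩
          exact ⟨⟨k1, k2, k3⟩, k4, k5⟩
      rw [h4, Finset.offDiag_card]
      rw [Nat.cast_sub (Nat.le_mul_self _)]
      push_cast
      ring
    rw [Finset.sum_congr rfl (fun w _ => h3 w), Finset.sum_comm]
    have h5 : ∀ p ∈ I.offDiag, (∑ w : V, if w ∈ X p.1 ∩ X p.2 then (1 : ℝ) else 0) ≤ a := by
      rintro ⟨i, j⟩ hp
      rw [Finset.mem_offDiag] at hp
      rw [Finset.sum_boole]
      refine le_trans (le_of_eq ?_) (hint i hp.1 j hp.2.1 hp.2.2)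
      congr 2
      ext w
      simp only [Finset.mem_filter, Finset.mem_univ, true_and]
    refine (Finset.sum_le_card_nsmul _ _ _ h5).trans ?_
    rw [nsmul_eq_mul]
    refine mul_le_mul_of_nonneg_right ?_ ha
    rw [Finset.offDiag_card]
    have h6 : I.card * I.card - I.card ≤ I.card * I.card := Nat.sub_le _ _
    have h7 : ((I.card * I.card - I.card : ℕ) : ℝ) ≤ ((I.card * I.card : ℕ) : ℝ) := by
      exact_mod_cast h6
    push_cast at h7
    calc ((I.card * I.card - I.card : ℕ) : ℝ) ≤ (I.card : ℝ) * I.card := h7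
      _ = (I.card : ℝ) ^ 2 := by ring
  have h3 : ((univ.filter fun w : V => ∀ i ∈ I, w ∉ X i).card : ℝ) =
      ∑ w : V, if (∀ i ∈ I, w ∉ X i) then (1 : ℝ) else 0 := by
    rw [Finset.sum_boole]
  have h4 : ∀ w : V, (if (∀ i ∈ I, w ∉ X i) then (1 : ℝ) else 0) ≤
      1 - ((I.filter fun i => w ∈ X i).card : ℝ) +
      ((I.filter fun i => w ∈ X i).card : ℝ) *
        (((I.filter fun i => w ∈ X i).card : ℝ) - 1) / 2 := by
    intro w
    set n := (I.filter fun i => w ∈ X i).card with hn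
    have h5 : (0 : ℝ) ≤ ((n : ℝ) - 1) * ((n : ℝ) - 2) := by
      rcases Nat.lt_or_ge n 2 with h | h
      · interval_cases n <;> norm_num
      · have h6 : (2 : ℝ) ≤ n := by exact_mod_cast h
        nlinarith
    split_ifs with h
    · have h6 : n = 0 := by
        rw [hn, Finset.card_eq_zero, Finset.filter_eq_empty_iff]
        exact h
      rw [h6]
      norm_num
    · nlinarith
  rw [h3]
  refine (Finset.sum_le_sum (fun w _ => h4 w)).trans ?_
  rw [Finset.sum_add_distrib, Finset.sum_sub_distrib, Finset.sum_const, nsmul_eq_mul, mul_one,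
    h1, Finset.card_univ, ← Finset.sum_div]
  linarith

open scoped Classical in
private theorem EC_incl {V : Type*} (A X Y : Finset V) :
    ((A ∩ X).card : ℝ) + ((A ∩ Y).card : ℝ) ≤ (A.card : ℝ) + ((X ∩ Y).card : ℝ) := by
  have h1 : ((A ∩ X) ∪ (A ∩ Y)).card + ((A ∩ X) ∩ (A ∩ Y)).card =
      (A ∩ X).card + (A ∩ Y).card := Finset.card_union_add_card_inter _ _
  have h2 : ((A ∩ X) ∪ (A ∩ Y)).card ≤ A.card := by
    refine Finset.card_le_card (fun y hy => ?_)
    rw [Finset.mem_union, Finset.mem_inter, Finset.mem_inter] at hy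
    rcases hy with hy | hy
    · exact hy.1
    · exact hy.1
  have h3 : ((A ∩ X) ∩ (A ∩ Y)).card ≤ (X ∩ Y).card := by
    refine Finset.card_le_card (fun y hy => ?_)
    simp only [Finset.mem_inter] at hy ⊢
    exact ⟨hy.1.2, hy.2.2⟩
  have h4 : (A ∩ X).card + (A ∩ Y).card ≤ A.card + (X ∩ Y).card := by omega
  exact_mod_cast h4

open scoped Classical in
theorem exists_blocks {q r : ℕ} (hV : Fintype.card V = 2 * (q * r)) (hq : 1 ≤ q) (hr : 1 ≤ r)
    (hreg : Reg G r) {η : ℝ} (hη : 0 ≤ η) (hηq : 1000 * (q : ℝ) ^ 2 * η ≤ 1)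
    (hD : dfc G r ≤ η ^ 2 * (r : ℝ) ^ 4)
    (hT : ∑ p ∈ prA G, tri G p.1 p.2 ≤ η ^ 2 * (r : ℝ) ^ 3) :
    ∃ c : V → Fin q × Fin 2, (∀ v, (r : ℝ) ≤ 3 * q * od G c v) ∧
      ((univ.filter fun v => (od G c v : ℝ) < (1 - 8 * η) * r).card : ℝ) ≤ 2 * η * r ∧
      ∀ s, (1 - 14 * q * η) * r ≤ sz c s ∧ (sz c s : ℝ) ≤ (1 + 7 * η) * r := by
  have hr0 : (0 : ℝ) < r := by exact_mod_cast hr
  have hq0 : (1 : ℝ) ≤ q := by exact_mod_cast hq
  have hq2 : (q : ℝ) ≤ (q : ℝ) ^ 2 := by nlinarith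
  have hηq1 : 1000 * (q : ℝ) * η ≤ 1 := by
    have h1 : (q : ℝ) * η ≤ (q : ℝ) ^ 2 * η := mul_le_mul_of_nonneg_right hq2 hη
    linarith
  have hη1 : η ≤ 1 / 1000 := by
    have h1 : 1 * η ≤ (q : ℝ) * η := mul_le_mul_of_nonneg_right hq0 hη
    linarith
  have hηr : 0 ≤ η * (r : ℝ) := by positivity
  obtain ⟨F, hF, hfar, hFq, hmax⟩ := exists_family hV hq hr hreg hη hηq
  have hbad := bad_vertices hV hq hr hreg hη hηq hD hT
  set B := univ.filter fun u : V => ∀ v, ¬ Gd G r η (u, v) with hB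
  set I : Finset ((V × V) × Bool) := F ×ˢ (univ : Finset Bool) with hI
  have hIm : ∀ i, i ∈ I ↔ i.1 ∈ F := by
    intro i
    rw [hI, Finset.mem_product]
    exact ⟨fun h => h.1, fun h => ⟨h, Finset.mem_univ _⟩⟩
  have hIc : I.card = F.card * 2 := by
    rw [hI, Finset.card_product, Finset.card_univ, Fintype.card_bool]
  have hVr : (Fintype.card V : ℝ) = 2 * (q * r) := by exact_mod_cast hV
  -- (2)
  have hgood : ∀ w, w ∉ B → ∃ i ∈ I, (1 - 4 * η) * r ≤ ((Nb G w ∩ Xs G i).card : ℝ) := by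
    intro w hw
    have hw' : ∃ v, Gd G r η (w, v) := by
      by_contra hno
      apply hw
      rw [hB, Finset.mem_filter]
      exact ⟨Finset.mem_univ _, fun v hv => hno ⟨v, hv⟩⟩
    obtain ⟨v, hv⟩ := hw'
    obtain ⟨d, hd, hnf⟩ := hmax (w, v) hv
    obtain ⟨e, he⟩ := near_of_not_far hr hreg hη (by linarith) hv (hF d hd) hnf
    refine ⟨(d, xor e true), (hIm _).2 hd, ?_⟩
    have h1 := he true
    have h2 : Xs G ((w, v), true) = Nb G w := by simp [Xs]
    rw [h2] at h1
    exact h1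
  have hIne : I.Nonempty := by
    have h1 : ∃ w, w ∉ B := by
      by_contra hno
      have h2 : B = univ := by
        ext w
        refine ⟨fun _ => Finset.mem_univ _, fun _ => ?_⟩
        by_contra hw
        exact hno ⟨w, hw⟩
      rw [h2, Finset.card_univ, hVr] at hbad
      have h3 : 2 * η * (r : ℝ) < 2 * (q * r) := by nlinarith
      linarith
    obtain ⟨w, hw⟩ := h1
    obtain ⟨i, hi, _⟩ := hgood w hw
    exact ⟨i, hi⟩
  -- (3)
  have hex : ∀ w : V, ∃ i ∈ I, ∀ j ∈ I,
      ((Nb G w ∩ Xs G j).card : ℝ) ≤ ((Nb G w ∩ Xs G i).card : ℝ) := fun w =>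
    Finset.exists_max_image I (fun j => ((Nb G w ∩ Xs G j).card : ℝ)) hIne
  choose main hmI hmm using hex
  have hmF : ∀ w, (main w).1 ∈ F := fun w => (hIm _).1 (hmI w)
  have hmgood : ∀ w, w ∉ B → (1 - 4 * η) * r ≤ ((Nb G w ∩ Xs G (main w)).card : ℝ) := by
    intro w hw
    obtain ⟨i, hi, h1⟩ := hgood w hw
    exact h1.trans (hmm w i hi)
  -- (5)
  have hcls : ∀ i ∈ I, ((univ.filter fun w => main w = i).card : ℝ) ≤ (1 + 7 * η) * r := by
    intro i hi
    set C := univ.filter fun w => w ∉ B ∧ main w = i with hC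
    have h1 : (univ.filter fun w => main w = i).card ≤ B.card + C.card := by
      refine le_trans (Finset.card_le_card (fun w hw => ?_)) (Finset.card_union_le _ _)
      rw [Finset.mem_filter] at hw
      rw [Finset.mem_union]
      by_cases hwB : w ∈ B
      · exact Or.inl hwB
      · right
        rw [hC, Finset.mem_filter]
        exact ⟨Finset.mem_univ _, hwB, hw.2⟩
    have h2 : (C.card : ℝ) * ((1 - 4 * η) * r) ≤ (r : ℝ) * r := by
      have h3 : (C.card : ℝ) * ((1 - 4 * η) * r) ≤ ∑ w ∈ C, ((Nb G w ∩ Xs G i).card : ℝ) := by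
        rw [← nsmul_eq_mul]
        refine Finset.card_nsmul_le_sum _ _ _ (fun w hw => ?_)
        rw [hC, Finset.mem_filter] at hw
        have h4 := hmgood w hw.2.1
        rw [hw.2.2] at h4
        exact h4
      have h4 : ∑ w ∈ C, ((Nb G w ∩ Xs G i).card : ℝ) ≤ ∑ w : V, ((Nb G w ∩ Xs G i).card : ℝ) :=
        Finset.sum_le_sum_of_subset_of_nonneg (Finset.subset_univ _)
          (fun w _ _ => Nat.cast_nonneg _)
      rw [EC_dc hreg, card_Xs hreg] at h4
      exact h3.trans h4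
    have h3 : (C.card : ℝ) ≤ (1 + 5 * η) * r := by
      have h4 : (0 : ℝ) < (1 - 4 * η) * r := mul_pos (by linarith) hr0
      have h5 : (r : ℝ) * r ≤ (1 + 5 * η) * r * ((1 - 4 * η) * r) := by
        have h6 : (1 : ℝ) ≤ (1 + 5 * η) * (1 - 4 * η) := by nlinarith
        calc (r : ℝ) * r = 1 * ((r : ℝ) * r) := by ring
          _ ≤ (1 + 5 * η) * (1 - 4 * η) * ((r : ℝ) * r) :=
            mul_le_mul_of_nonneg_right h6 (by positivity)
          _ = (1 + 5 * η) * r * ((1 - 4 * η) * r) := by ring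
      exact le_of_mul_le_mul_right (h2.trans h5) h4
    have h4 : ((univ.filter fun w => main w = i).card : ℝ) ≤ (B.card : ℝ) + C.card := by
      exact_mod_cast h1
    linarith
  have hsum : ∑ i ∈ I, ((univ.filter fun w => main w = i).card : ℝ) = 2 * (q * r) := by
    rw [← hVr, ← Finset.card_univ]
    have h1 := Finset.card_eq_sum_card_fiberwise (f := main) (s := (univ : Finset V)) (t := I)
      (fun w _ => hmI w)
    rw [h1]
    push_cast
    rfl
  have hs : F.card = q := by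
    refine le_antisymm hFq ?_
    by_contra hlt
    have h1 : F.card + 1 ≤ q := by omega
    have h2 : ((F.card : ℝ)) + 1 ≤ q := by exact_mod_cast h1
    have h3 : ∑ i ∈ I, ((univ.filter fun w => main w = i).card : ℝ) ≤
        (I.card : ℝ) * ((1 + 7 * η) * r) := by
      rw [← nsmul_eq_mul]
      exact Finset.sum_le_card_nsmul _ _ _ hcls
    rw [hsum, hIc] at h3
    push_cast at h3
    have h4 : 2 * (q : ℝ) * r ≤ (F.card * 2 * (1 + 7 * η)) * r := by
      calc 2 * (q : ℝ) * r = 2 * (q * r) := by ring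
        _ ≤ _ := h3
        _ = (F.card * 2 * (1 + 7 * η)) * r := by ring
    have h5 : 2 * (q : ℝ) ≤ F.card * 2 * (1 + 7 * η) := le_of_mul_le_mul_right h4 hr0
    have h6 : (F.card : ℝ) * η ≤ q * η := mul_le_mul_of_nonneg_right (by linarith) hη
    nlinarith
  have hIc' : (I.card : ℝ) = 2 * q := by
    rw [hIc, hs]
    push_cast
    ring
  have hcls' : ∀ i ∈ I, (1 - 14 * q * η) * r ≤ ((univ.filter fun w => main w = i).card : ℝ) := by
    intro i hi
    have h1 : ((univ.filter fun w => main w = i).card : ℝ) +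
        ∑ j ∈ I.erase i, ((univ.filter fun w => main w = j).card : ℝ) = 2 * (q * r) := by
      rw [← hsum]
      exact Finset.add_sum_erase I (fun j => ((univ.filter fun w => main w = j).card : ℝ)) hi
    have h2 : ∑ j ∈ I.erase i, ((univ.filter fun w => main w = j).card : ℝ) ≤
        ((I.erase i).card : ℝ) * ((1 + 7 * η) * r) := by
      rw [← nsmul_eq_mul]
      exact Finset.sum_le_card_nsmul _ _ _ (fun j hj => hcls j (Finset.mem_of_mem_erase hj))
    have h3 : ((I.erase i).card : ℝ) = 2 * q - 1 := by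
      have h4 : (I.erase i).card + 1 = I.card := Finset.card_erase_add_one hi
      have h5 : ((I.erase i).card : ℝ) + 1 = I.card := by exact_mod_cast h4
      linarith
    rw [h3] at h2
    have h4 : (2 * (q : ℝ) - 1) * ((1 + 7 * η) * r) ≤ 2 * (q * r) - (1 - 14 * q * η) * r := by
      have h5 : 2 * ((q : ℝ) * r) - (1 - 14 * q * η) * r - (2 * (q : ℝ) - 1) * ((1 + 7 * η) * r) =
          7 * (η * r) := by ring
      linarith
    linarith
  -- (4)
  have hint : ∀ i ∈ I, ∀ j ∈ I, i ≠ j → ((Xs G i ∩ Xs G j).card : ℝ) ≤ 4 * η * r :=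
    fun i hi j hj hij => EC_inter hη hF hfar ((hIm i).1 hi) ((hIm j).1 hj) hij
  -- (6)
  have hflI : ∀ i ∈ I, EC_fl i ∈ I := fun i hi => (hIm _).2 ((hIm i).1 hi)
  have hstar : ∀ i ∈ I, ∀ y, 3 / 4 * (r : ℝ) ≤ ((Nb G y ∩ Xs G (EC_fl i)).card : ℝ) →
      main y = EC_fl i := by
    intro i hi y hy
    by_contra hne
    have h1 := hmm y (EC_fl i) (hflI i hi)
    have h2 := EC_incl (Nb G y) (Xs G (main y)) (Xs G (EC_fl i))
    have h3 := hint (main y) (hmI y) (EC_fl i) (hflI i hi) hne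
    rw [card_Nb hreg] at h2
    nlinarith
  have hfew : ∀ i ∈ I, (((Xs G i).filter fun y => main y ≠ EC_fl i).card : ℝ) ≤ 4 * η * r := by
    intro i hi
    refine le_trans ?_ (EC_few hr hreg (hF i.1 ((hIm i).1 hi)))
    have h1 : ((Xs G i).filter fun y => main y ≠ EC_fl i).card ≤
        ((Xs G i).filter fun y => ((Nb G y ∩ Xs G (EC_fl i)).card : ℝ) < 3 / 4 * r).card := by
      refine Finset.card_le_card (fun y hy => ?_)
      rw [Finset.mem_filter] at hy ⊢
      refine ⟨hy.1, ?_⟩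
      by_contra hge
      exact hy.2 (hstar i hi y (not_lt.1 hge))
    exact_mod_cast h1
  -- (7)
  have hall : ∀ w, (1 - 8 / 1000) * (r : ℝ) ≤ 2 * q * ((Nb G w ∩ Xs G (main w)).card : ℝ) := by
    intro w
    have hXc : ∀ i ∈ I, ((Xs G i).card : ℝ) = r := fun i _ => by rw [card_Xs hreg i]
    obtain ⟨O, hO, h1⟩ := EC_out (V := V) I (Xs G) (4 * η * r) (by
      rw [Finset.sum_congr rfl hXc, Finset.sum_const, nsmul_eq_mul, hIc', hVr]
      ring) hint (by positivity)
    rw [hIc'] at h1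
    have h2 : (Nb G w).card ≤ O.card + ∑ i ∈ I, (Nb G w ∩ Xs G i).card := by
      refine le_trans (Finset.card_le_card (t := O ∪ I.biUnion fun i => Nb G w ∩ Xs G i)
        (fun y hy => ?_)) (le_trans (Finset.card_union_le _ _)
        (Nat.add_le_add_left Finset.card_biUnion_le _))
      rw [Finset.mem_union]
      by_cases hyO : y ∈ O
      · exact Or.inl hyO
      · right
        rw [hO, not_forall] at hyO
        obtain ⟨i, h3⟩ := hyO
        rw [Classical.not_imp, not_not] at h3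
        rw [Finset.mem_biUnion]
        exact ⟨i, h3.1, Finset.mem_inter.2 ⟨hy, h3.2⟩⟩
    rw [card_Nb hreg] at h2
    have h3 : (r : ℝ) ≤ (O.card : ℝ) + ∑ i ∈ I, ((Nb G w ∩ Xs G i).card : ℝ) := by
      exact_mod_cast h2
    have h4 : ∑ i ∈ I, ((Nb G w ∩ Xs G i).card : ℝ) ≤
        (I.card : ℝ) * ((Nb G w ∩ Xs G (main w)).card : ℝ) := by
      rw [← nsmul_eq_mul]
      exact Finset.sum_le_card_nsmul _ _ _ (fun i hi => hmm w i hi)
    rw [hIc'] at h4
    have h5 : (2 * (q : ℝ)) ^ 2 * (4 * η * r) / 2 ≤ 8 / 1000 * r := by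
      have h6 : (2 * (q : ℝ)) ^ 2 * (4 * η * r) / 2 = (8 / 1000) * (1000 * (q : ℝ) ^ 2 * η) * r := by
        ring
      rw [h6]
      nlinarith
    linarith
  -- (8)
  let e : F ≃ Fin q := Finset.equivFinOfCardEq hs
  let c : V → Fin q × Fin 2 := fun w => (e ⟨(main w).1, hmF w⟩, if (main w).2 then 1 else 0)
  have hadj : ∀ w y, main y = EC_fl (main w) → (KG c).Adj w y := by
    intro w y hy
    have h1 : (main y).1 = (main w).1 := by rw [hy]; rfl
    have h2 : (main y).2 = !(main w).2 := by rw [hy]; rfl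
    refine ⟨?_, ?_⟩
    · change e ⟨(main w).1, hmF w⟩ = e ⟨(main y).1, hmF y⟩
      congr 1
      exact Subtype.ext h1.symm
    · change (if (main w).2 then (1 : Fin 2) else 0) ≠ (if (main y).2 then (1 : Fin 2) else 0)
      rw [h2]
      cases (main w).2 <;> simp
  have hod : ∀ w, ((Nb G w ∩ Xs G (main w)).card : ℝ) ≤ (od G c w : ℝ) + 4 * η * r := by
    intro w
    have h1 : (Nb G w ∩ Xs G (main w)).card ≤ od G c w +
        ((Xs G (main w)).filter fun y => main y ≠ EC_fl (main w)).card := by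
      unfold od
      refine le_trans (Finset.card_le_card (fun y hy => ?_)) (Finset.card_union_le _ _)
      rw [Finset.mem_inter, mem_Nb] at hy
      rw [Finset.mem_union, Finset.mem_filter, Finset.mem_filter]
      by_cases hy2 : main y = EC_fl (main w)
      · exact Or.inl ⟨Finset.mem_univ _, hy.1, hadj w y hy2⟩
      · exact Or.inr ⟨hy.2, hy2⟩
    have h2 : ((Nb G w ∩ Xs G (main w)).card : ℝ) ≤ (od G c w : ℝ) +
        (((Xs G (main w)).filter fun y => main y ≠ EC_fl (main w)).card : ℝ) := by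
      exact_mod_cast h1
    have h3 := hfew (main w) (hmI w)
    linarith
  refine ⟨c, ?_, ?_, ?_⟩
  · intro w
    have h1 := hall w
    have h2 := hod w
    have h3 : 3 * (q : ℝ) * ((Nb G w ∩ Xs G (main w)).card : ℝ) ≤
        3 * q * ((od G c w : ℝ) + 4 * η * r) :=
      mul_le_mul_of_nonneg_left h2 (by positivity)
    have h4 : 12 * ((q : ℝ) * η) * r ≤ 12 / 1000 * r := by
      refine mul_le_mul_of_nonneg_right ?_ hr0.le
      linarith
    nlinarith
  · refine le_trans ?_ hbad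
    have h1 : (univ.filter fun v => (od G c v : ℝ) < (1 - 8 * η) * r).card ≤ B.card := by
      refine Finset.card_le_card (fun w hw => ?_)
      rw [Finset.mem_filter] at hw
      by_contra hwB
      have h2 := hmgood w hwB
      have h3 := hod w
      have h4 := hw.2
      nlinarith
    exact_mod_cast h1
  · intro s
    have h1 : sz c s = (univ.filter fun w => main w = ((e.symm s.1).1, decide (s.2 = 1))).card := by
      unfold sz
      congr 1
      ext w
      rw [Finset.mem_filter, Finset.mem_filter]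
      refine and_congr_right (fun _ => ?_)
      constructor
      · intro hw
        have h2 : (c w).1 = s.1 := by rw [hw]
        have h3 : (c w).2 = s.2 := by rw [hw]
        have h4 : e ⟨(main w).1, hmF w⟩ = s.1 := h2
        have h5 : (if (main w).2 then (1 : Fin 2) else 0) = s.2 := h3
        rw [← h4, ← h5, Equiv.symm_apply_apply]
        refine Prod.ext rfl ?_
        change (main w).2 = _
        cases (main w).2 <;> simp
      · intro hw
        have h2 : (main w).1 = (e.symm s.1).1 := by rw [hw]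
        have h3 : (main w).2 = decide (s.2 = 1) := by rw [hw]
        have h4 : (⟨(main w).1, hmF w⟩ : F) = e.symm s.1 := Subtype.ext h2
        refine Prod.ext ?_ ?_
        · change e ⟨(main w).1, hmF w⟩ = s.1
          rw [h4, Equiv.apply_symm_apply]
        · change (if (main w).2 then (1 : Fin 2) else 0) = s.2
          rw [h3]
          rcases Fin.exists_fin_two.1 ⟨s.2, rfl⟩ with h5 | h5
          · rw [h5]; simp
          · rw [h5]; simp
    have h2 : ((e.symm s.1).1, decide (s.2 = 1)) ∈ I := (hIm _).2 (e.symm s.1).2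
    rw [h1]
    exact ⟨hcls' _ h2, hcls _ h2⟩

end

end Pool.Agent.Lib.MP_eeed5c_coD
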