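import Pool.Agent.Lib.MP_eeed5c_co_D.Defs

/-!
# The number of extra edges, and exact blocks

`Ys_le`: PROOF. Double counting: `2 |Ys| = ∑ v, #{w ~ v, ¬ (KG c).Adj v w} = ∑ v, (r - od v)` (the pairs `(v, w)` with
`s(v,w) ∈ Ys G c`: two for every element of `Ys`). For the vertices with `od v ≥ (1 - 8 η) r` the term is at
most `8 η r`, for the others (at most `2 η r`) it is at most `r`. So `2 |Ys| ≤ 2 q r 8 η r + 2 η r^2`.

`exact_blocks`: PROOF. Fix `i`, let `A = {v : c v = (i, 0)}`, `B = {v : c v = (i, 1)}`, `a = |A|`, `b = |B|`, `e` the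
number of pairs `(u, w) ∈ A × B` with `u ~ w`. `r a = ∑ u ∈ A deg u = e + xA`, where `xA` is the number of pairs `(u, w)`,
`u ∈ A`, `w ~ u`, `¬ (KG c).Adj u w`; `xA ≤ 2 T`, `T = |Ys|` (the pairs `(u, w)` with `s(u,w) ∈ Ys` are `2 T`). The same for `B`:
`r b = e + xB`. So `r |a - b| ≤ 2 T < r`, and `a = b`. `e ≤ a b = a^2`, so `r a - 2 T ≤ a^2`, `a (r - a) ≤ 2 T < r - 1`.
If `1 ≤ a ≤ r - 1`, then `a (r - a) ≥ r - 1`: a contradiction. So `a ≥ r` (`a ≥ 1`). The same for `B`. All `2 q` sides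
have at least `r` elements and together `2 q r`, so all have exactly `r`.
-/

set_option autoImplicit false

namespace Pool.Agent.Lib.MP_eeed5c_coD

open Finset Pool.Agent.Lib.MP_eeed5c_co Pool.Agent.Lib.MP_eeed5c_coT Pool.Agent.Lib.MP_eeed5c_coX

section

variable {V : Type*} [Fintype V] {G : SimpleGraph V}

theorem ED_prod (P : V × V → Prop) [DecidablePred P] :
    (univ.filter P).card = ∑ v : V, (univ.filter (fun w => P (v, w))).card := by
  rw [Finset.card_filter, Fintype.sum_prod_type]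
  refine Finset.sum_congr rfl fun v _ => ?_
  rw [Finset.card_filter]

open scoped Classical in
/-- The oriented elements of a set of edges. -/
theorem ED_pairs (S : Finset (Sym2 V)) (hS : ∀ e ∈ S, ¬ e.IsDiag) :
    (univ.filter (fun p : V × V => s(p.1, p.2) ∈ S)).card = 2 * S.card := by
  rw [Finset.card_eq_sum_card_fiberwise (f := fun p : V × V => s(p.1, p.2)) (t := S)]
  · have h1 : ∀ e ∈ S, ((univ.filter (fun p : V × V => s(p.1, p.2) ∈ S)).filter
        (fun p : V × V => s(p.1, p.2) = e)).card = 2 := by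
      intro e he
      have hd := hS e he
      induction e using Sym2.ind with
      | _ a b =>
      rw [Sym2.mk_isDiag_iff] at hd
      have h2 : (univ.filter (fun p : V × V => s(p.1, p.2) ∈ S)).filter
          (fun p : V × V => s(p.1, p.2) = s(a, b)) = {(a, b), (b, a)} := by
        ext ⟨u, w⟩
        rw [Finset.mem_filter, Finset.mem_filter, Finset.mem_insert, Finset.mem_singleton]
        constructor
        · rintro ⟨-, h3⟩
          rw [Sym2.eq_iff] at h3
          rcases h3 with ⟨h3, h4⟩ | ⟨h3, h4⟩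
          · left
            rw [Prod.mk.injEq]
            exact ⟨h3, h4⟩
          · right
            rw [Prod.mk.injEq]
            exact ⟨h3, h4⟩
        · rintro (h3 | h3)
          · rw [Prod.mk.injEq] at h3
            rw [h3.1, h3.2]
            exact ⟨⟨Finset.mem_univ _, he⟩, rfl⟩
          · rw [Prod.mk.injEq] at h3
            rw [h3.1, h3.2]
            exact ⟨⟨Finset.mem_univ _, by rw [Sym2.eq_swap]; exact he⟩, Sym2.eq_swap⟩
      rw [h2, Finset.card_pair]
      intro h3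
      rw [Prod.mk.injEq] at h3
      exact hd h3.1
    rw [Finset.sum_congr rfl h1, Finset.sum_const, smul_eq_mul, mul_comm]
  · intro p hp
    exact (Finset.mem_filter.1 hp).2

open scoped Classical in
theorem ED_Ys {q : ℕ} {c : V → Fin q × Fin 2} {u w : V} :
    s(u, w) ∈ Ys G c ↔ G.Adj u w ∧ ¬ (KG c).Adj u w := by
  unfold Ys
  rw [Finset.mem_filter]
  constructor
  · rintro ⟨-, h1, h2⟩
    exact ⟨h1, h2⟩
  · rintro ⟨h1, h2⟩
    exact ⟨Finset.mem_univ _, h1, h2⟩

open scoped Classical in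
theorem ED_Ys_pairs {q : ℕ} (c : V → Fin q × Fin 2) :
    (univ.filter (fun p : V × V => G.Adj p.1 p.2 ∧ ¬ (KG c).Adj p.1 p.2)).card = 2 * (Ys G c).card := by
  rw [← ED_pairs (Ys G c)]
  · refine congrArg Finset.card (Finset.filter_congr fun p _ => ?_)
    exact ED_Ys.symm
  · intro e he
    induction e using Sym2.ind with
    | _ a b =>
    rw [Sym2.mk_isDiag_iff]
    exact (ED_Ys.1 he).1.ne

open scoped Classical in
theorem ED_split {q r : ℕ} (hreg : Reg G r) (c : V → Fin q × Fin 2) (v : V) :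
    ((univ.filter (fun w => G.Adj v w ∧ ¬ (KG c).Adj v w)).card : ℝ) = r - od G c v := by
  have h1 := Finset.card_filter_add_card_filter_not (s := univ.filter (fun w => G.Adj v w)) (fun w => (KG c).Adj v w)
  rw [Finset.filter_filter, Finset.filter_filter, hreg v] at h1
  have h2 : ((od G c v : ℕ) : ℝ) + ((univ.filter (fun w => G.Adj v w ∧ ¬ (KG c).Adj v w)).card : ℝ) = r := by
    rw [← h1]
    push_cast
    rfl
  linarith

open scoped Classical in
/-- The number of edges between two sides. -/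
theorem ED_side {q r : ℕ} (hreg : Reg G r) (c : V → Fin q × Fin 2) (i : Fin q) {j j' : Fin 2} (hj : j ≠ j') :
    r * sz c (i, j) ≤ (univ.filter (fun p : V × V => (c p.1 = (i, j) ∧ c p.2 = (i, j')) ∧ G.Adj p.1 p.2)).card +
      2 * (Ys G c).card ∧
    (univ.filter (fun p : V × V => (c p.1 = (i, j) ∧ c p.2 = (i, j')) ∧ G.Adj p.1 p.2)).card ≤ r * sz c (i, j) := by
  have h0 : (univ.filter (fun p : V × V => c p.1 = (i, j) ∧ G.Adj p.1 p.2)).card = r * sz c (i, j) := by
    rw [ED_prod]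
    have h1 : ∀ v ∈ (univ : Finset V), (univ.filter (fun w => c v = (i, j) ∧ G.Adj v w)).card =
        if c v = (i, j) then r else 0 := by
      intro v _
      by_cases h2 : c v = (i, j)
      · rw [if_pos h2, ← hreg v]
        refine congrArg Finset.card (Finset.filter_congr fun w _ => ?_)
        exact ⟨fun h => h.2, fun h => ⟨h2, h⟩⟩
      · rw [if_neg h2, Finset.card_eq_zero, Finset.filter_eq_empty_iff]
        intro w _ h
        exact h2 h.1
    rw [Finset.sum_congr rfl h1, ← Finset.sum_filter, Finset.sum_const, smul_eq_mul, mul_comm]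
    rfl
  have h1 := Finset.card_filter_add_card_filter_not
    (s := univ.filter (fun p : V × V => c p.1 = (i, j) ∧ G.Adj p.1 p.2)) (fun p => c p.2 = (i, j'))
  rw [h0] at h1
  have h2 : ((univ.filter (fun p : V × V => c p.1 = (i, j) ∧ G.Adj p.1 p.2)).filter (fun p => c p.2 = (i, j'))) =
      univ.filter (fun p : V × V => (c p.1 = (i, j) ∧ c p.2 = (i, j')) ∧ G.Adj p.1 p.2) := by
    rw [Finset.filter_filter]
    refine Finset.filter_congr fun p _ => ?_
    exact ⟨fun h => ⟨⟨h.1.1, h.2⟩, h.1.2⟩, fun h => ⟨⟨h.1.1, h.2⟩, h.1.2⟩⟩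
  have h3 : ((univ.filter (fun p : V × V => c p.1 = (i, j) ∧ G.Adj p.1 p.2)).filter (fun p => ¬ c p.2 = (i, j'))).card ≤
      2 * (Ys G c).card := by
    rw [← ED_Ys_pairs]
    refine Finset.card_le_card fun p hp => ?_
    rw [Finset.mem_filter, Finset.mem_filter] at hp
    rw [Finset.mem_filter]
    refine ⟨Finset.mem_univ _, hp.1.2.2, fun hk => hp.2 ?_⟩
    obtain ⟨hk1, hk2⟩ : (c p.1).1 = (c p.2).1 ∧ (c p.1).2 ≠ (c p.2).2 := hk
    rw [hp.1.2.1] at hk1 hk2
    refine Prod.ext hk1.symm ?_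
    show (c p.2).2 = j'
    have hk3 : j ≠ (c p.2).2 := hk2
    omega
  rw [h2] at h1
  omega

open scoped Classical in
theorem ED_symm {q : ℕ} (c : V → Fin q × Fin 2) (s s' : Fin q × Fin 2) :
    (univ.filter (fun p : V × V => (c p.1 = s ∧ c p.2 = s') ∧ G.Adj p.1 p.2)).card =
    (univ.filter (fun p : V × V => (c p.1 = s' ∧ c p.2 = s) ∧ G.Adj p.1 p.2)).card := by
  refine Finset.card_equiv (Equiv.prodComm V V) fun p => ?_
  rw [Finset.mem_filter, Finset.mem_filter]
  exact ⟨fun h => ⟨Finset.mem_univ _, ⟨h.2.1.2, h.2.1.1⟩, h.2.2.symm⟩,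
    fun h => ⟨Finset.mem_univ _, ⟨h.2.1.2, h.2.1.1⟩, h.2.2.symm⟩⟩

open scoped Classical in
theorem ED_prod_le {q : ℕ} (c : V → Fin q × Fin 2) (s s' : Fin q × Fin 2) :
    (univ.filter (fun p : V × V => (c p.1 = s ∧ c p.2 = s') ∧ G.Adj p.1 p.2)).card ≤ sz c s * sz c s' := by
  unfold sz
  rw [← Finset.card_product]
  refine Finset.card_le_card fun p hp => ?_
  rw [Finset.mem_filter] at hp
  rw [Finset.mem_product, Finset.mem_filter, Finset.mem_filter]
  exact ⟨⟨Finset.mem_univ _, hp.2.1.1⟩, ⟨Finset.mem_univ _, hp.2.1.2⟩⟩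

theorem ED_arith {r a b e T : ℕ} (h1 : r * a ≤ e + 2 * T) (h2 : e ≤ r * a) (h3 : r * b ≤ e + 2 * T) (h4 : e ≤ r * b)
    (h5 : e ≤ a * b) (ha : 1 ≤ a) (hT : 2 * T + 1 < r) : r ≤ a := by
  have h6 : a = b := by
    rcases Nat.lt_trichotomy a b with h | h | h
    · have h7 : r * (a + 1) ≤ r * b := Nat.mul_le_mul_left r h
      have h8 : r * (a + 1) = r * a + r := by ring
      omega
    · exact h
    · have h7 : r * (b + 1) ≤ r * a := Nat.mul_le_mul_left r h
      have h8 : r * (b + 1) = r * b + r := by ring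
      omega
  rw [← h6] at h5
  by_contra hcon
  obtain ⟨d, hd⟩ : ∃ d, r = a + d + 1 := ⟨r - a - 1, by omega⟩
  obtain ⟨a', ha'⟩ : ∃ a', a = a' + 1 := ⟨a - 1, by omega⟩
  have h7 : r * a = a * a + a * d + a := by
    rw [hd]
    ring
  have h8 : a * d = a' * d + d := by
    rw [ha']
    ring
  have h9 : 0 ≤ a' * d := Nat.zero_le _
  omega

open scoped Classical in
theorem Ys_le {q r : ℕ} (hV : Fintype.card V = 2 * (q * r)) (hreg : Reg G r) {η : ℝ} (hη : 0 ≤ η)
    {c : V → Fin q × Fin 2}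
    (hbad : ((univ.filter fun v => (od G c v : ℝ) < (1 - 8 * η) * r).card : ℝ) ≤ 2 * η * r) :
    ((Ys G c).card : ℝ) ≤ (8 * q + 1) * η * (r : ℝ) ^ 2 := by
  have h1 : (2 : ℝ) * (Ys G c).card = ∑ v : V, ((r : ℝ) - od G c v) := by
    have h2 : ((2 * (Ys G c).card : ℕ) : ℝ) = ∑ v : V, ((r : ℝ) - od G c v) := by
      rw [← ED_Ys_pairs, ED_prod]
      push_cast
      exact Finset.sum_congr rfl fun v _ => ED_split hreg c v
    push_cast at h2
    exact h2
  have hr0 : (0 : ℝ) ≤ r := Nat.cast_nonneg r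
  have h2 : ∑ v : V, ((r : ℝ) - od G c v) ≤
      ∑ v : V, (8 * η * r + if (od G c v : ℝ) < (1 - 8 * η) * r then (r : ℝ) else 0) := by
    refine Finset.sum_le_sum fun v _ => ?_
    have ho : (0 : ℝ) ≤ od G c v := Nat.cast_nonneg _
    have h8 : 0 ≤ 8 * η * r := by positivity
    split_ifs with h3
    · linarith
    · push Not at h3
      linarith
  have h3 : ∑ v : V, (8 * η * r + if (od G c v : ℝ) < (1 - 8 * η) * r then (r : ℝ) else 0) =
      (2 * (q * r)) * (8 * η * r) + ((univ.filter fun v => (od G c v : ℝ) < (1 - 8 * η) * r).card : ℝ) * r := by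
    rw [Finset.sum_add_distrib, Finset.sum_const, Finset.card_univ, hV, ← Finset.sum_filter, Finset.sum_const,
      nsmul_eq_mul, nsmul_eq_mul]
    push_cast
    ring
  have h4 := mul_le_mul_of_nonneg_right hbad hr0
  have h5 : (2 : ℝ) * (Ys G c).card ≤ (2 * (q * r)) * (8 * η * r) + 2 * η * r * r := by linarith
  have h6 : (2 * ((q : ℝ) * r)) * (8 * η * r) + 2 * η * r * r = 2 * ((8 * q + 1) * η * (r : ℝ) ^ 2) := by ring
  linarith

theorem exact_blocks {q r : ℕ} (hV : Fintype.card V = 2 * (q * r)) (hreg : Reg G r)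
    {c : V → Fin q × Fin 2} (hpos : ∀ s, 1 ≤ sz c s) (hT : 2 * (Ys G c).card + 1 < r) :
    Cells r c := by
  classical
  have hge : ∀ s, r ≤ sz c s := by
    rintro ⟨i, j⟩
    obtain ⟨j', hj⟩ : ∃ j' : Fin 2, j ≠ j' := ⟨1 - j, by omega⟩
    have h1 := ED_side hreg c i hj
    have h2 := ED_side hreg c i hj.symm
    have h3 := ED_symm (G := G) c (i, j) (i, j')
    have h4 := ED_prod_le (G := G) c (i, j) (i, j')
    rw [← h3] at h2
    exact ED_arith h1.1 h1.2 h2.1 h2.2 h4 (hpos _) hT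
  have hsum : ∑ s : Fin q × Fin 2, sz c s = ∑ _s : Fin q × Fin 2, r := by
    have h1 : ∑ s : Fin q × Fin 2, sz c s = Fintype.card V := by
      unfold sz
      rw [← Finset.card_univ, Finset.card_eq_sum_card_fiberwise (f := c) (t := (univ : Finset (Fin q × Fin 2)))
        (fun v _ => Finset.mem_coe.2 (Finset.mem_univ _))]
    rw [h1, hV, Finset.sum_const, Finset.card_univ, Fintype.card_prod, Fintype.card_fin, Fintype.card_fin, smul_eq_mul]
    ring
  intro z
  have h1 := (Finset.sum_eq_sum_iff_of_le (s := (univ : Finset (Fin q × Fin 2))) (f := fun _ => r) (g := fun s => sz c s)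
    (fun s _ => hge s)).1 hsum.symm z (Finset.mem_univ z)
  exact h1.symm

end

end Pool.Agent.Lib.MP_eeed5c_coD
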