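import Pool.Agent.Lib.MP_eeed5c_co_D.AC

/-!
# Unbalanced matchings

`em_ge`: PROOF. Let the two sides of the block `i` have different numbers of uncovered vertices,
`f0 = fs c M (i, 0) ≠ f1 = fs c M (i, 1)`. Let `S0 = {w : c w = (i, 0)}`, `S1 = {w : c w = (i, 1)}`.
(1) Let `B0` be the set of the `w ∈ S0` for which there is an uncovered `y` with (`c y = (i, 1)` and not `w ~ y`) or
(`c y ≠ (i, 1)` and `w ~ y`). For an uncovered `y` with `c y = (i, 1)` the number of `w ∈ S0` not adjacent to `y` is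
`sz c (i, 0) - od G c y ≤ (1 + 7 η) r - (1 - 8 η) r = 15 η r` (the neighbours of `y` in `S0` are exactly those counted by
`od`). For `c y ≠ (i, 1)` the number of `w ∈ S0`, `w ~ y`, is at most `r - od G c y ≤ 8 η r` (they are neighbours of `y`
which are not adjacent in `KG c`). So `|B0| ≤ 15 J η r`. Define `B1` in the same way (sides exchanged).
For `w ∈ S0 \ B0`: `D G M w = f1`. For `z ∈ S1 \ B1`: `D G M z = f0`.
(2) Consider the `w ∈ S0` which are covered, `s(w, z) ∈ M`, with `s(w, z) ∉ Ys G c`, `w ∉ B0`, `z ∉ B1`. As `s(w,z)` is an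
edge of `G` not in `Ys`, it is an edge of `KG c`, so `z ∈ S1`. At most `J` elements of `S0` are uncovered, at most
`2 |M ∩ Ys| ≤ r / 4` are in an edge of `M ∩ Ys`, at most `|B1|` have their partner in `B1` (`partner_unique`). So the number of
such `w` is at least `(1 - 14 q η) r - J - r / 4 - 30 J η r ≥ r (1 - 1/16 - 1/16 - 1/4 - 1/16) ≥ r / 2`.
(3) Each such pair gives the two elements `(w, z)`, `(z, w)` of the sum `em G M`, with the value
`(f1 - f0)^2 ≥ 1`. So `em G M ≥ 2 (r / 2)`.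

`unbal_le`: PROOF. Pointwise for `M ∈ Mt G` with `(free M).card ≤ J` which is not balanced: by `em_ge` one of
the following holds: `em G M ≥ r`; some uncovered vertex `v` has `od G c v < (1 - 8 η) r`; `8 |M ∩ Ys G c| > r`. So
`1 ≤ (1/r) em G M + ∑ v (od v < (1 - 8 η) r), [v ∈ free M] + (8/r) ∑ e ∈ Ys G c, [e ∈ M]`. Sum (`WS_mono`, `WS_add`,
`WS_sum`, `WS_smul`). `em G M ≥ 0`.
-/

set_option autoImplicit false

namespace Pool.Agent.Lib.MP_eeed5c_coD

open Finset Pool.Agent.Lib.MP_eeed5c_co Pool.Agent.Lib.MP_eeed5c_coT Pool.Agent.Lib.MP_eeed5c_coX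

section

variable {V : Type*} [Fintype V] {G : SimpleGraph V}

open scoped Classical in
/-- The oriented elements of a set of edges. -/
theorem FA_pairs (S : Finset (Sym2 V)) (hS : ∀ e ∈ S, ¬ e.IsDiag) :
    (univ.filter (fun p : V × V => s(p.1, p.2) ∈ S)).card = 2 * S.card := by
  rw [Finset.card_eq_sum_card_fiberwise (f := fun p : V × V => s(p.1, p.2)) (t := S)]
  · have h1 : ∀ e ∈ S, ((univ.filter (fun p : V × V => s(p.1, p.2) ∈ S)).filter
        (fun p : V × V => s(p.1, p.2) = e)).card = 2 := by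
      intro e he
      have hd := hS e he
      induction e using Sym2.ind with
      | _ a b =>
      rw [Sym2.mk_isDiag_iff] at hd
      have h2 : (univ.filter (fun p : V × V => s(p.1, p.2) ∈ S)).filter
          (fun p : V × V => s(p.1, p.2) = s(a, b)) = {(a, b), (b, a)} := by
        ext ⟨u, w⟩
        rw [Finset.mem_filter, Finset.mem_filter, Finset.mem_insert, Finset.mem_singleton]
        constructor
        · rintro ⟨-, h3⟩
          rw [Sym2.eq_iff] at h3
          rcases h3 with ⟨h3, h4⟩ | ⟨h3, h4⟩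
          · left
            rw [Prod.mk.injEq]
            exact ⟨h3, h4⟩
          · right
            rw [Prod.mk.injEq]
            exact ⟨h3, h4⟩
        · rintro (h3 | h3)
          · rw [Prod.mk.injEq] at h3
            rw [h3.1, h3.2]
            exact ⟨⟨Finset.mem_univ _, he⟩, rfl⟩
          · rw [Prod.mk.injEq] at h3
            rw [h3.1, h3.2]
            exact ⟨⟨Finset.mem_univ _, by rw [Sym2.eq_swap]; exact he⟩, Sym2.eq_swap⟩
      rw [h2, Finset.card_pair]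
      intro h3
      rw [Prod.mk.injEq] at h3
      exact hd h3.1
    rw [Finset.sum_congr rfl h1, Finset.sum_const, smul_eq_mul, mul_comm]
  · intro p hp
    exact (Finset.mem_filter.1 hp).2

open scoped Classical in
theorem FA_Ys {q : ℕ} {c : V → Fin q × Fin 2} {u w : V} :
    s(u, w) ∈ Ys G c ↔ G.Adj u w ∧ ¬ (KG c).Adj u w := by
  unfold Ys
  rw [Finset.mem_filter]
  constructor
  · rintro ⟨-, h1, h2⟩
    exact ⟨h1, h2⟩
  · rintro ⟨h1, h2⟩
    exact ⟨Finset.mem_univ _, h1, h2⟩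

open scoped Classical in
theorem FA_split {q r : ℕ} (hreg : Reg G r) (c : V → Fin q × Fin 2) (v : V) :
    ((univ.filter (fun w => G.Adj v w ∧ ¬ (KG c).Adj v w)).card : ℝ) = r - od G c v := by
  have h1 := Finset.card_filter_add_card_filter_not (s := univ.filter (fun w => G.Adj v w)) (fun w => (KG c).Adj v w)
  rw [Finset.filter_filter, Finset.filter_filter, hreg v] at h1
  have h2 : ((od G c v : ℕ) : ℝ) + ((univ.filter (fun w => G.Adj v w ∧ ¬ (KG c).Adj v w)).card : ℝ) = r := by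
    rw [← h1]
    push_cast
    rfl
  linarith

open scoped Classical in
/-- The bad vertices of a side. -/
theorem FA_bad {q r J : ℕ} (hreg : Reg G r) {η : ℝ} (hη : 0 ≤ η) {c : V → Fin q × Fin 2}
    (i : Fin q) {j j' : Fin 2} (hj : j ≠ j') (hsz : (sz c (i, j) : ℝ) ≤ (1 + 7 * η) * r)
    {M : Finset (Sym2 V)} (hJ : (free M).card ≤ J) (hgood : ∀ v ∈ free M, (1 - 8 * η) * r ≤ od G c v) :
    ((univ.filter (fun w => c w = (i, j) ∧ ∃ y ∈ free M, (c y = (i, j') ∧ ¬ G.Adj w y) ∨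
      (c y ≠ (i, j') ∧ G.Adj w y))).card : ℝ) ≤ 15 * J * η * r := by
  have hr0 : (0 : ℝ) ≤ r := Nat.cast_nonneg r
  have hηr : 0 ≤ η * r := mul_nonneg hη hr0
  have h1 : (univ.filter (fun w => c w = (i, j) ∧ ∃ y ∈ free M, (c y = (i, j') ∧ ¬ G.Adj w y) ∨
      (c y ≠ (i, j') ∧ G.Adj w y))) ⊆ (free M).biUnion (fun y => univ.filter (fun w => c w = (i, j) ∧
        ((c y = (i, j') ∧ ¬ G.Adj w y) ∨ (c y ≠ (i, j') ∧ G.Adj w y)))) := by
    intro w hw
    rw [Finset.mem_filter] at hw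
    obtain ⟨-, h2, y, hy, h3⟩ := hw
    rw [Finset.mem_biUnion]
    exact ⟨y, hy, Finset.mem_filter.2 ⟨Finset.mem_univ _, h2, h3⟩⟩
  have h2 : ∀ y ∈ free M, ((univ.filter (fun w => c w = (i, j) ∧
        ((c y = (i, j') ∧ ¬ G.Adj w y) ∨ (c y ≠ (i, j') ∧ G.Adj w y)))).card : ℝ) ≤ 15 * η * r := by
    intro y hy
    have hg := hgood y hy
    by_cases hc : c y = (i, j')
    · have h3 := Finset.card_filter_add_card_filter_not (s := univ.filter (fun w => c w = (i, j)))
        (fun w => G.Adj w y)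
      have h4 : ((univ.filter (fun w => c w = (i, j))).filter (fun w => G.Adj w y)).card = od G c y := by
        unfold od
        rw [Finset.filter_filter]
        refine congrArg Finset.card (Finset.filter_congr fun w _ => ?_)
        constructor
        · rintro ⟨h5, h6⟩
          refine ⟨h6.symm, ?_, ?_⟩
          · rw [hc, h5]
          · rw [hc, h5]
            exact hj.symm
        · rintro ⟨h5, h6, h7⟩
          rw [hc] at h6 h7
          refine ⟨Prod.ext h6.symm ?_, h5.symm⟩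
          have h8 : j' ≠ (c w).2 := h7
          show (c w).2 = j
          omega
      have h5 : (univ.filter (fun w => c w = (i, j) ∧
          ((c y = (i, j') ∧ ¬ G.Adj w y) ∨ (c y ≠ (i, j') ∧ G.Adj w y)))) =
          (univ.filter (fun w => c w = (i, j))).filter (fun w => ¬ G.Adj w y) := by
        rw [Finset.filter_filter]
        refine Finset.filter_congr fun w _ => ?_
        constructor
        · rintro ⟨h6, h7 | h7⟩
          · exact ⟨h6, h7.2⟩
          · exact absurd hc h7.1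
        · rintro ⟨h6, h7⟩
          exact ⟨h6, Or.inl ⟨hc, h7⟩⟩
      rw [h4, ← h5] at h3
      have h6 : ((od G c y : ℕ) : ℝ) + ((univ.filter (fun w => c w = (i, j) ∧
          ((c y = (i, j') ∧ ¬ G.Adj w y) ∨ (c y ≠ (i, j') ∧ G.Adj w y)))).card : ℝ) = (sz c (i, j) : ℕ) := by
        rw [← Nat.cast_add, h3]
        rfl
      linarith
    · have h3 : (univ.filter (fun w => c w = (i, j) ∧
          ((c y = (i, j') ∧ ¬ G.Adj w y) ∨ (c y ≠ (i, j') ∧ G.Adj w y)))) ⊆
          univ.filter (fun w => G.Adj y w ∧ ¬ (KG c).Adj y w) := by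
        intro w hw
        rw [Finset.mem_filter] at hw
        obtain ⟨-, h4, h5⟩ := hw
        rcases h5 with h5 | h5
        · exact absurd h5.1 hc
        · refine Finset.mem_filter.2 ⟨Finset.mem_univ _, h5.2.symm, fun h6 => hc ?_⟩
          obtain ⟨h7, h8⟩ : (c y).1 = (c w).1 ∧ (c y).2 ≠ (c w).2 := h6
          rw [h4] at h7 h8
          refine Prod.ext h7 ?_
          have h9 : (c y).2 ≠ j := h8
          show (c y).2 = j'
          omega
      have h4 : ((univ.filter (fun w => c w = (i, j) ∧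
          ((c y = (i, j') ∧ ¬ G.Adj w y) ∨ (c y ≠ (i, j') ∧ G.Adj w y)))).card : ℝ) ≤
          ((univ.filter (fun w => G.Adj y w ∧ ¬ (KG c).Adj y w)).card : ℝ) := by
        exact_mod_cast Finset.card_le_card h3
      rw [FA_split hreg c y] at h4
      linarith
  calc ((univ.filter (fun w => c w = (i, j) ∧ ∃ y ∈ free M, (c y = (i, j') ∧ ¬ G.Adj w y) ∨
      (c y ≠ (i, j') ∧ G.Adj w y))).card : ℝ)
      ≤ (((free M).biUnion (fun y => univ.filter (fun w => c w = (i, j) ∧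
        ((c y = (i, j') ∧ ¬ G.Adj w y) ∨ (c y ≠ (i, j') ∧ G.Adj w y))))).card : ℝ) := by
        exact_mod_cast Finset.card_le_card h1
    _ ≤ ((∑ y ∈ free M, (univ.filter (fun w => c w = (i, j) ∧
        ((c y = (i, j') ∧ ¬ G.Adj w y) ∨ (c y ≠ (i, j') ∧ G.Adj w y)))).card : ℕ) : ℝ) := by
        exact_mod_cast Finset.card_biUnion_le
    _ ≤ ∑ _y ∈ free M, 15 * η * r := by
        push_cast
        exact Finset.sum_le_sum h2
    _ = (free M).card * (15 * η * r) := by rw [Finset.sum_const, nsmul_eq_mul]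
    _ ≤ J * (15 * η * r) := mul_le_mul_of_nonneg_right (by exact_mod_cast hJ) (by linarith)
    _ = 15 * J * η * r := by ring

theorem FA_WJ (x : ℝ) (J : ℕ) (E : Finset (Sym2 V) → Prop) [DecidablePred E] :
    WJ G x J E = WS G x (fun M => if (free M).card ≤ J ∧ E M then 1 else 0) := by
  unfold WJ
  refine WS_congr x fun N _ => ?_
  by_cases h7 : (free N).card ≤ J ∧ E N
  · rw [if_pos h7, if_pos h7]
  · rw [if_neg h7, if_neg h7]

theorem FA_D {q : ℕ} {c : V → Fin q × Fin 2} (i : Fin q) (j' : Fin 2) {M : Finset (Sym2 V)} {w : V}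
    (h : ¬ ∃ y ∈ free M, (c y = (i, j') ∧ ¬ G.Adj w y) ∨ (c y ≠ (i, j') ∧ G.Adj w y)) :
    MP_eeed5c_co.D G M w = fs c M (i, j') := by
  classical
  unfold MP_eeed5c_co.D fs nb
  refine congrArg Finset.card (Finset.filter_congr fun y hy => ?_)
  constructor
  · intro h1
    by_contra h2
    exact h ⟨y, hy, Or.inr ⟨h2, h1⟩⟩
  · intro h1
    by_contra h2
    exact h ⟨y, hy, Or.inl ⟨h1, h2⟩⟩

open scoped Classical in
theorem em_ge {q r k J : ℕ} (hreg : Reg G r) {η : ℝ} (hη : 0 ≤ η) {c : V → Fin q × Fin 2}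
    (hsz : ∀ s, (1 - 14 * q * η) * r ≤ sz c s ∧ (sz c s : ℝ) ≤ (1 + 7 * η) * r)
    (hq : 14 * q * η ≤ 1 / 16) (hJη : 30 * J * η ≤ 1 / 16) (hJr : 16 * J ≤ r)
    {M : Finset (Sym2 V)} (hM : M ∈ mats G k) (hJ : (free M).card ≤ J)
    (hgood : ∀ v ∈ free M, (1 - 8 * η) * r ≤ od G c v) (hY : 8 * (M ∩ Ys G c).card ≤ r)
    (hbal : ¬ Bal c M) : (r : ℝ) ≤ em G M := by
  have hr0 : (0 : ℝ) ≤ r := Nat.cast_nonneg r
  obtain ⟨i, hi⟩ : ∃ i, fs c M (i, 0) ≠ fs c M (i, 1) := by
    by_contra hcon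
    push Not at hcon
    exact hbal hcon
  have h01 : (0 : Fin 2) ≠ 1 := by decide
  obtain ⟨B0, hB0⟩ : ∃ B0 : Finset V, B0 = univ.filter (fun w => c w = (i, 0) ∧ ∃ y ∈ free M,
      (c y = (i, 1) ∧ ¬ G.Adj w y) ∨ (c y ≠ (i, 1) ∧ G.Adj w y)) := ⟨_, rfl⟩
  obtain ⟨B1, hB1⟩ : ∃ B1 : Finset V, B1 = univ.filter (fun w => c w = (i, 1) ∧ ∃ y ∈ free M,
      (c y = (i, 0) ∧ ¬ G.Adj w y) ∨ (c y ≠ (i, 0) ∧ G.Adj w y)) := ⟨_, rfl⟩
  have hcB0 : (B0.card : ℝ) ≤ 15 * J * η * r := by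
    rw [hB0]
    exact FA_bad hreg hη i h01 (hsz _).2 hJ hgood
  have hcB1 : (B1.card : ℝ) ≤ 15 * J * η * r := by
    rw [hB1]
    exact FA_bad hreg hη i h01.symm (hsz _).2 hJ hgood
  have hD0 : ∀ w, c w = (i, 0) → w ∉ B0 → MP_eeed5c_co.D G M w = fs c M (i, 1) := by
    intro w hw hwB
    refine FA_D i 1 fun h => hwB ?_
    rw [hB0]
    exact Finset.mem_filter.2 ⟨Finset.mem_univ _, hw, h⟩
  have hD1 : ∀ w, c w = (i, 1) → w ∉ B1 → MP_eeed5c_co.D G M w = fs c M (i, 0) := by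
    intro w hw hwB
    refine FA_D i 0 fun h => hwB ?_
    rw [hB1]
    exact Finset.mem_filter.2 ⟨Finset.mem_univ _, hw, h⟩
  obtain ⟨P0, hP0⟩ : ∃ P0 : Finset (V × V), P0 = univ.filter (fun p : V × V => s(p.1, p.2) ∈ M ∧
      (c p.1 = (i, 0) ∧ p.1 ∉ B0) ∧ (c p.2 = (i, 1) ∧ p.2 ∉ B1)) := ⟨_, rfl⟩
  obtain ⟨P1, hP1⟩ : ∃ P1 : Finset (V × V), P1 = univ.filter (fun p : V × V => s(p.1, p.2) ∈ M ∧
      (c p.2 = (i, 0) ∧ p.2 ∉ B0) ∧ (c p.1 = (i, 1) ∧ p.1 ∉ B1)) := ⟨_, rfl⟩
  have hP01 : P1.card = P0.card := by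
    rw [hP1, hP0]
    refine Finset.card_equiv (Equiv.prodComm V V) fun p => ?_
    rw [Finset.mem_filter, Finset.mem_filter]
    constructor
    · rintro ⟨-, h1, h2, h3⟩
      exact ⟨Finset.mem_univ _, by rw [Sym2.eq_swap]; exact h1, h2, h3⟩
    · rintro ⟨-, h1, h2, h3⟩
      exact ⟨Finset.mem_univ _, by rw [Sym2.eq_swap]; exact h1, h2, h3⟩
  have hdisj : Disjoint P0 P1 := by
    rw [Finset.disjoint_left]
    intro p h1 h2
    rw [hP0, Finset.mem_filter] at h1
    rw [hP1, Finset.mem_filter] at h2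
    have h3 := h1.2.2.1.1.symm.trans h2.2.2.2.1
    rw [Prod.mk.injEq] at h3
    exact h01 h3.2
  have hsq : (1 : ℝ) ≤ ((fs c M (i, 1) : ℝ) - fs c M (i, 0)) ^ 2 := by
    have h1 : ((fs c M (i, 1) : ℤ) - fs c M (i, 0)) ≠ 0 := by
      intro h2
      apply hi
      omega
    have h2 : (1 : ℤ) ≤ ((fs c M (i, 1) : ℤ) - fs c M (i, 0)) ^ 2 := by
      have := sq_pos_of_ne_zero h1
      omega
    exact_mod_cast h2
  have hem : ((P0.card : ℝ) + P1.card) ≤ em G M := by
    unfold em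
    have h1 : P0 ∪ P1 ⊆ univ.filter (fun p : V × V => s(p.1, p.2) ∈ M) := by
      intro p hp
      rw [Finset.mem_union] at hp
      refine Finset.mem_filter.2 ⟨Finset.mem_univ _, ?_⟩
      rcases hp with hp | hp
      · rw [hP0, Finset.mem_filter] at hp
        exact hp.2.1
      · rw [hP1, Finset.mem_filter] at hp
        exact hp.2.1
    have h2 : ∑ p ∈ P0 ∪ P1, ((MP_eeed5c_co.D G M p.1 : ℝ) - MP_eeed5c_co.D G M p.2) ^ 2 ≤
        ∑ p ∈ univ.filter (fun p : V × V => s(p.1, p.2) ∈ M),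
          ((MP_eeed5c_co.D G M p.1 : ℝ) - MP_eeed5c_co.D G M p.2) ^ 2 :=
      Finset.sum_le_sum_of_subset_of_nonneg h1 fun p _ _ => sq_nonneg _
    refine le_trans ?_ h2
    have h3 : ((P0.card : ℝ) + P1.card) = ∑ _p ∈ P0 ∪ P1, (1 : ℝ) := by
      rw [Finset.sum_const, nsmul_eq_mul, mul_one, Finset.card_union_of_disjoint hdisj]
      push_cast
      rfl
    rw [h3]
    refine Finset.sum_le_sum fun p hp => ?_
    rw [Finset.mem_union] at hp
    rcases hp with hp | hp
    · rw [hP0, Finset.mem_filter] at hp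
      rw [hD0 _ hp.2.2.1.1 hp.2.2.1.2, hD1 _ hp.2.2.2.1 hp.2.2.2.2]
      exact hsq
    · rw [hP1, Finset.mem_filter] at hp
      rw [hD0 _ hp.2.2.1.1 hp.2.2.1.2, hD1 _ hp.2.2.2.1 hp.2.2.2.2]
      have h4 : ((fs c M (i, 0) : ℝ) - fs c M (i, 1)) ^ 2 = ((fs c M (i, 1) : ℝ) - fs c M (i, 0)) ^ 2 := by ring
      rw [h4]
      exact hsq
  -- the number of good vertices
  obtain ⟨I1, hI1⟩ : ∃ I1 : Finset (V × V), I1 = univ.filter (fun p : V × V => s(p.1, p.2) ∈ M ∩ Ys G c) := ⟨_, rfl⟩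
  obtain ⟨I2, hI2⟩ : ∃ I2 : Finset (V × V), I2 = univ.filter (fun p : V × V => s(p.1, p.2) ∈ M ∧ p.2 ∈ B1) := ⟨_, rfl⟩
  have hI1c : I1.card = 2 * (M ∩ Ys G c).card := by
    rw [hI1]
    refine FA_pairs _ fun e he => ?_
    induction e using Sym2.ind with
    | _ a b =>
    rw [Sym2.mk_isDiag_iff]
    exact (edge_mem hM (Finset.mem_inter.1 he).1).ne
  have hI2c : I2.card ≤ B1.card := by
    refine Finset.card_le_card_of_injOn Prod.snd ?_ ?_
    · intro p hp
      rw [Finset.mem_coe, hI2, Finset.mem_filter] at hp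
      exact hp.2.2
    · intro p hp p' hp' hpp
      rw [Finset.mem_coe, hI2, Finset.mem_filter] at hp hp'
      have h1 : s(p.2, p.1) ∈ M := by rw [Sym2.eq_swap]; exact hp.2.1
      have h2 : s(p.2, p'.1) ∈ M := by rw [Sym2.eq_swap, hpp]; exact hp'.2.1
      exact Prod.ext (partner_unique hM h1 h2) hpp
  have hcover : univ.filter (fun v => c v = (i, 0)) ⊆
      B0 ∪ free M ∪ I1.image Prod.fst ∪ I2.image Prod.fst ∪ P0.image Prod.fst := by
    intro w hw
    rw [Finset.mem_filter] at hw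
    have hw := hw.2
    rw [Finset.mem_union, Finset.mem_union, Finset.mem_union, Finset.mem_union]
    by_cases h1 : w ∈ B0
    · exact Or.inl (Or.inl (Or.inl (Or.inl h1)))
    by_cases h2 : w ∈ free M
    · exact Or.inl (Or.inl (Or.inl (Or.inr h2)))
    rw [mem_free] at h2
    push Not at h2
    obtain ⟨e, he, hwe⟩ := h2
    obtain ⟨z, rfl⟩ : ∃ z, e = s(w, z) := ⟨Sym2.Mem.other hwe, (Sym2.other_spec hwe).symm⟩
    by_cases h3 : s(w, z) ∈ Ys G c
    · refine Or.inl (Or.inl (Or.inr (Finset.mem_image.2 ⟨(w, z), ?_, rfl⟩)))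
      rw [hI1]
      exact Finset.mem_filter.2 ⟨Finset.mem_univ _, Finset.mem_inter.2 ⟨he, h3⟩⟩
    by_cases h4 : z ∈ B1
    · refine Or.inl (Or.inr (Finset.mem_image.2 ⟨(w, z), ?_, rfl⟩))
      rw [hI2]
      exact Finset.mem_filter.2 ⟨Finset.mem_univ _, he, h4⟩
    · refine Or.inr (Finset.mem_image.2 ⟨(w, z), ?_, rfl⟩)
      rw [hP0]
      have hK : (KG c).Adj w z := by
        by_contra hcon
        exact h3 (FA_Ys.2 ⟨edge_mem hM he, hcon⟩)
      obtain ⟨h5, h6⟩ : (c w).1 = (c z).1 ∧ (c w).2 ≠ (c z).2 := hK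
      rw [hw] at h5 h6
      refine Finset.mem_filter.2 ⟨Finset.mem_univ _, he, ⟨hw, h1⟩, Prod.ext h5.symm ?_, h4⟩
      have h7 : (0 : Fin 2) ≠ (c z).2 := h6
      show (c z).2 = 1
      omega
  have hcard : (sz c (i, 0) : ℝ) ≤ B0.card + (free M).card + 2 * (M ∩ Ys G c).card + B1.card + P0.card := by
    have h1 : sz c (i, 0) ≤ B0.card + (free M).card + 2 * (M ∩ Ys G c).card + B1.card + P0.card := by
      unfold sz
      refine (Finset.card_le_card hcover).trans ?_
      refine (Finset.card_union_le _ _).trans ?_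
      refine add_le_add ((Finset.card_union_le _ _).trans ?_) Finset.card_image_le
      refine add_le_add ((Finset.card_union_le _ _).trans ?_) (Finset.card_image_le.trans hI2c)
      refine add_le_add (Finset.card_union_le _ _) (Finset.card_image_le.trans hI1c.le)
    exact_mod_cast h1
  have hsz0 := (hsz (i, 0)).1
  have hJ' : ((free M).card : ℝ) ≤ J := by exact_mod_cast hJ
  have hJr' : (16 : ℝ) * J ≤ r := by exact_mod_cast hJr
  have hY' : (8 : ℝ) * (M ∩ Ys G c).card ≤ r := by exact_mod_cast hY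
  have e1 : 14 * q * η * r ≤ 1 / 16 * r := mul_le_mul_of_nonneg_right hq hr0
  have e2 : 30 * J * η * r ≤ 1 / 16 * r := mul_le_mul_of_nonneg_right hJη hr0
  rw [hP01] at hem
  linarith

open scoped Classical in
theorem unbal_le {q r J : ℕ} (hr : 1 ≤ r) (hreg : Reg G r) {η : ℝ} (hη : 0 ≤ η)
    {c : V → Fin q × Fin 2}
    (hsz : ∀ s, (1 - 14 * q * η) * r ≤ sz c s ∧ (sz c s : ℝ) ≤ (1 + 7 * η) * r)
    (hq : 14 * q * η ≤ 1 / 16) (hJη : 30 * J * η ≤ 1 / 16) (hJr : 16 * J ≤ r) {x : ℝ} (hx : 0 ≤ x) :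
    WJ G x J (fun M => ¬ Bal c M) ≤
      1 / (r : ℝ) * WS G x (fun M => if (free M).card ≤ J then em G M else 0) +
      ∑ v ∈ univ.filter (fun v => (od G c v : ℝ) < (1 - 8 * η) * r), ZJ G x J {v} +
      8 / (r : ℝ) * ∑ e ∈ Ys G c, WJ G x J (fun M => e ∈ M) := by
  have hr0 : (0 : ℝ) < r := by exact_mod_cast hr
  have hR : 1 / (r : ℝ) * WS G x (fun M => if (free M).card ≤ J then em G M else 0) +
      ∑ v ∈ univ.filter (fun v => (od G c v : ℝ) < (1 - 8 * η) * r), ZJ G x J {v} +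
      8 / (r : ℝ) * ∑ e ∈ Ys G c, WJ G x J (fun M => e ∈ M) =
      WS G x (fun M => (1 / (r : ℝ) * (if (free M).card ≤ J then em G M else 0) +
        ∑ v ∈ univ.filter (fun v => (od G c v : ℝ) < (1 - 8 * η) * r),
          (if (free M).card ≤ J ∧ ({v} : Finset V) ⊆ free M then (1 : ℝ) else 0)) +
        8 / (r : ℝ) * ∑ e ∈ Ys G c, (if (free M).card ≤ J ∧ e ∈ M then (1 : ℝ) else 0)) := by
    rw [WS_add, WS_add, WS_smul, WS_smul, WS_sum, WS_sum]
    refine congrArg₂ (· + ·) (congrArg₂ (· + ·) rfl (Finset.sum_congr rfl fun v _ => ?_))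
      (congrArg (fun t => 8 / (r : ℝ) * t) (Finset.sum_congr rfl fun e _ => ?_))
    · exact FA_WJ x J (fun N => ({v} : Finset V) ⊆ free N)
    · exact FA_WJ x J (fun N => e ∈ N)
  rw [hR]
  unfold WJ
  refine WS_mono hx fun M hM => ?_
  have hem0 : 0 ≤ em G M := by
    unfold em
    exact Finset.sum_nonneg fun p _ => sq_nonneg _
  have t1 : 0 ≤ 1 / (r : ℝ) * (if (free M).card ≤ J then em G M else 0) := by
    refine mul_nonneg (by positivity) ?_
    split_ifs
    · exact hem0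
    · exact le_refl _
  have t2 : 0 ≤ ∑ v ∈ univ.filter (fun v => (od G c v : ℝ) < (1 - 8 * η) * r),
      (if (free M).card ≤ J ∧ ({v} : Finset V) ⊆ free M then (1 : ℝ) else 0) := by
    refine Finset.sum_nonneg fun v _ => ?_
    split_ifs
    · exact zero_le_one
    · exact le_refl _
  have t3 : 0 ≤ 8 / (r : ℝ) * ∑ e ∈ Ys G c, (if (free M).card ≤ J ∧ e ∈ M then (1 : ℝ) else 0) := by
    refine mul_nonneg (by positivity) (Finset.sum_nonneg fun v _ => ?_)
    split_ifs
    · exact zero_le_one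
    · exact le_refl _
  by_cases h1 : (free M).card ≤ J ∧ ¬ Bal c M
  · rw [if_pos h1]
    by_cases hg : ∀ v ∈ free M, (1 - 8 * η) * r ≤ od G c v
    · by_cases hY : 8 * (M ∩ Ys G c).card ≤ r
      · have h2 := em_ge hreg hη hsz hq hJη hJr (mem_Mt.1 hM) h1.1 hg hY h1.2
        have h3 : 1 ≤ 1 / (r : ℝ) * (if (free M).card ≤ J then em G M else 0) := by
          rw [if_pos h1.1, one_div, inv_mul_eq_div, le_div_iff₀ hr0, one_mul]
          exact h2
        linarith
      · have h2 : ∑ e ∈ Ys G c, (if (free M).card ≤ J ∧ e ∈ M then (1 : ℝ) else 0) = (M ∩ Ys G c).card := by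
          rw [← Finset.sum_filter, Finset.sum_const, nsmul_eq_mul, mul_one, Finset.inter_comm]
          refine congrArg (fun s : Finset (Sym2 V) => ((s.card : ℕ) : ℝ)) ?_
          ext e
          rw [Finset.mem_filter, Finset.mem_inter]
          exact ⟨fun h => ⟨h.1, h.2.2⟩, fun h => ⟨h.1, h1.1, h.2⟩⟩
        have h3 : 1 ≤ 8 / (r : ℝ) * ∑ e ∈ Ys G c, (if (free M).card ≤ J ∧ e ∈ M then (1 : ℝ) else 0) := by
          rw [h2, div_mul_eq_mul_div, le_div_iff₀ hr0, one_mul]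
          exact_mod_cast (not_le.1 hY).le
        linarith
    · push Not at hg
      obtain ⟨v, hv, hv'⟩ := hg
      have h2 : (1 : ℝ) ≤ ∑ v ∈ univ.filter (fun v => (od G c v : ℝ) < (1 - 8 * η) * r),
          (if (free M).card ≤ J ∧ ({v} : Finset V) ⊆ free M then (1 : ℝ) else 0) := by
        have h3 : (if (free M).card ≤ J ∧ ({v} : Finset V) ⊆ free M then (1 : ℝ) else 0) = 1 :=
          if_pos ⟨h1.1, Finset.singleton_subset_iff.2 hv⟩
        have hmem : v ∈ univ.filter (fun v => (od G c v : ℝ) < (1 - 8 * η) * r) :=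
          Finset.mem_filter.2 ⟨Finset.mem_univ v, hv'⟩
        refine h3.symm.le.trans ?_
        refine Finset.single_le_sum (f := fun v => if (free M).card ≤ J ∧ ({v} : Finset V) ⊆ free M then (1 : ℝ) else 0)
          (fun v _ => ?_) hmem
        show (0 : ℝ) ≤ if (free M).card ≤ J ∧ ({v} : Finset V) ⊆ free M then (1 : ℝ) else 0
        split_ifs
        · exact zero_le_one
        · exact le_refl _
      linarith
  · rw [if_neg h1]
    linarith

end

end Pool.Agent.Lib.MP_eeed5c_coD
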