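import Pool.Agent.Lib.MP_eeed5c_co_D.AD

/-!
# Switching

Conventions: `G`-edges `s(a, c')` in `Ys G c` join vertices `a`, `c'` which are not adjacent in `KG c`. `On G c a` is the set of
the neighbours of `a` in the side opposite to `a`.

`unbal_of_switch`: PROOF. Let `M = insert s(a,b) (insert s(a',b') N)` and `M' = insert s(a,a') N`. All of `a, b, a', b'` are
distinct and uncovered in `N`. By `mem_free_insert` `free M' = free M ∪ {b, b'}`, so
`fs c M' s = fs c M s + [c b = s] + [c b' = s]`. If both were balanced, then for every `i`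
`[c b = (i,0)] + [c b' = (i,0)] = [c b = (i,1)] + [c b' = (i,1)]`; with `i = (c b).1` this gives `(c b').1 = (c b).1` and
`(c b').2 ≠ (c b).2`. `(c a).1 = (c b).1`, `(c a).2 ≠ (c b).2`, `(c a').1 = (c b').1`, `(c a').2 ≠ (c b').2`. So
`(c a).1 = (c a').1` and `(c a).2 ≠ (c a').2` (`Fin 2` has two elements): `a` and `a'` are adjacent in `KG c`, a
contradiction.

`switch_up`: PROOF. Fix `p = (a, a')` with `s(a,a') ∈ E'`, `b ∈ On G c a`, `b' ∈ On G c a'`. `b ≠ a'` and `b' ≠ a`, because `a`, `a'` are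
not adjacent in `KG c`. If `b = b'`, the term is zero (`a ≠ a'`, `edge_unique`). Otherwise `WS_edge2` (with `F M = 1` if
`(free M).card ≤ J`, `Bal c M`, `Disjoint M E'`) and `WS_edge`:
`term = x^2 WS(N: a, b, a', b' free, (free M).card ≤ J, Bal c M, Disjoint M E')`, `M = insert s(a,b) (insert s(a',b') N)`, and for such `N` the
matching `M' = insert s(a,a') N` has at most `J + 2` uncovered vertices, `b, b' ∈ free M'`, it is not balanced
(`unbal_of_switch`), and `M' ∩ E' = {s(a,a')}` (`N ⊆ M`). So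
`term ≤ x WS(M': s(a,a') ∈ M', b, b' ∈ free M', (free M').card ≤ J + 2, ¬ Bal, M' ∩ E' = {s(a,a')})`. Sum over `b, b'`: for
fixed `M'` there are at most `(J+2)^2` pairs `(b, b')` of uncovered vertices; sum over `p`: for fixed `M'` there are at most two
pairs `p` with `M' ∩ E' = {s(p.1, p.2)}`.

`switch_low`: PROOF. `p = (a, a')`. For `b ∈ On G c a`, `b' ∈ On G c a'`, `b ≠ b'`: `WJ_edge2`:
`x^2 ZJ G x (J+4) {a, b, a', b'} = WJ(s(a,b), s(a',b') ∈ M)
≤ WJ(s(a,b), s(a',b') ∈ M, Bal, Disjoint) + WJ(s(a,b), s(a',b') ∈ M, ¬ (Bal ∧ Disjoint))`. The sum over `b, b'` of the last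
terms is at most `WJ(¬ (Bal ∧ Disjoint))`: for every `M` there is at most one such pair (`partner_unique`). The number of
pairs `(b, b')`, `b ≠ b'`, is at least `od a * (od a' - 1)` (`od G c a = |On G c a|`; `0 ≤ ζ`; if `od a' = 0` the left side is
`≤ 0`).
-/

set_option autoImplicit false

namespace Pool.Agent.Lib.MP_eeed5c_coD

open Finset Pool.Agent.Lib.MP_eeed5c_co Pool.Agent.Lib.MP_eeed5c_coT Pool.Agent.Lib.MP_eeed5c_coX

section

variable {V : Type*} [Fintype V]

open scoped Classical in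
/-- The neighbours in the opposite side. -/
noncomputable def On {q : ℕ} (G : SimpleGraph V) (c : V → Fin q × Fin 2) (v : V) : Finset V :=
  univ.filter fun w => G.Adj v w ∧ (KG c).Adj v w

/-- The weight of the balanced matchings without edges of `E'` in which `a` and `a'` are matched
in their opposite sides. -/
noncomputable def Ph {q : ℕ} (G : SimpleGraph V) (x : ℝ) (J : ℕ) (c : V → Fin q × Fin 2)
    (E' : Finset (Sym2 V)) (p : V × V) : ℝ :=
  ∑ b ∈ On G c p.1, ∑ b' ∈ On G c p.2,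
    WJ G x J fun M => s(p.1, b) ∈ M ∧ s(p.2, b') ∈ M ∧ Bal c M ∧ Disjoint M E'

variable {G : SimpleGraph V}

open scoped Classical in
private theorem FB_fs {q : ℕ} {c : V → Fin q × Fin 2} {N : Finset (Sym2 V)} {a b a' b' : V}
    (hb : b ∈ free N) (hb' : b' ∈ free N) (hab : a ≠ b) (hab' : a ≠ b') (hba' : b ≠ a')
    (hbb' : b ≠ b') (ha'b' : a' ≠ b') (s : Fin q × Fin 2) :
    fs c (insert s(a, a') N) s = fs c (insert s(a, b) (insert s(a', b') N)) s +
      (if c b = s then 1 else 0) + (if c b' = s then 1 else 0) := by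
  have h1 : free (insert s(a, a') N) =
      insert b (insert b' (free (insert s(a, b) (insert s(a', b') N)))) := by
    ext v
    rw [Finset.mem_insert, Finset.mem_insert, mem_free_insert, mem_free_insert, mem_free_insert]
    constructor
    · rintro ⟨k1, k2, k3⟩
      by_cases k4 : v = b
      · exact Or.inl k4
      · by_cases k5 : v = b'
        · exact Or.inr (Or.inl k5)
        · exact Or.inr (Or.inr ⟨⟨k1, k3, k5⟩, k2, k4⟩)
    · rintro (k | k | ⟨⟨k1, k2, k3⟩, k4, k5⟩)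
      · rw [k]
        exact ⟨hb, hab.symm, hba'⟩
      · rw [k]
        exact ⟨hb', hab'.symm, ha'b'.symm⟩
      · exact ⟨k1, k4, k2⟩
  have h2 : b' ∉ free (insert s(a, b) (insert s(a', b') N)) := by
    rw [mem_free_insert, mem_free_insert]
    rintro ⟨⟨_, _, k⟩, _⟩
    exact k rfl
  have h3 : b ∉ insert b' (free (insert s(a, b) (insert s(a', b') N))) := by
    rw [Finset.mem_insert, mem_free_insert]
    rintro (k | ⟨_, _, k⟩)
    · exact hbb' k
    · exact k rfl
  unfold fs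
  rw [h1, Finset.card_filter, Finset.sum_insert h3, Finset.sum_insert h2, ← Finset.card_filter]
  ring

private theorem FB_fin {x y : Fin 2} (h : x ≠ y) (z : Fin 2) : z = x ∨ z = y := by
  revert x y z
  decide

open scoped Classical in
theorem unbal_of_switch {q : ℕ} {c : V → Fin q × Fin 2} {N : Finset (Sym2 V)} {a b a' b' : V}
    (ha : a ∈ free N) (hb : b ∈ free N) (ha' : a' ∈ free N) (hb' : b' ∈ free N)
    (hab : a ≠ b) (haa' : a ≠ a') (hab' : a ≠ b') (hba' : b ≠ a') (hbb' : b ≠ b') (ha'b' : a' ≠ b')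
    (h1 : (KG c).Adj a b) (h2 : (KG c).Adj a' b') (h3 : ¬ (KG c).Adj a a')
    (hbal : Bal c (insert s(a, b) (insert s(a', b') N))) : ¬ Bal c (insert s(a, a') N) := by
  intro hb2
  have h4 := hb2 (c b).1
  have h5 := hbal (c b).1
  rw [FB_fs hb hb' hab hab' hba' hbb' ha'b', FB_fs hb hb' hab hab' hba' hbb' ha'b', h5] at h4
  obtain ⟨h11, h12⟩ := h1
  obtain ⟨h21, h22⟩ := h2
  -- the values of `c b'`
  have h6 : (c b').1 = (c b).1 ∧ (c b').2 ≠ (c b).2 := by
    rcases FB_fin (show (0 : Fin 2) ≠ 1 by decide) (c b).2 with h7 | h7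
    · have h8 : c b = ((c b).1, 0) := Prod.ext rfl h7
      have h9 : c b ≠ ((c b).1, 1) := by
        intro h
        have h' := congrArg Prod.snd h
        simp only at h'
        rw [h7] at h'
        exact absurd h' (by decide)
      rw [if_pos h8, if_neg h9] at h4
      by_cases h10 : c b' = ((c b).1, 1)
      · refine ⟨by rw [h10], ?_⟩
        rw [h10, h7]
        simp
      · rw [if_neg h10] at h4
        omega
    · have h8 : c b = ((c b).1, 1) := Prod.ext rfl h7
      have h9 : c b ≠ ((c b).1, 0) := by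
        intro h
        have h' := congrArg Prod.snd h
        simp only at h'
        rw [h7] at h'
        exact absurd h' (by decide)
      rw [if_pos h8, if_neg h9] at h4
      by_cases h10 : c b' = ((c b).1, 0)
      · refine ⟨by rw [h10], ?_⟩
        rw [h10, h7]
        simp
      · rw [if_neg h10] at h4
        omega
  refine h3 ⟨by rw [h11, h21, h6.1], ?_⟩
  intro h7
  rcases FB_fin h6.2 (c a).2 with h8 | h8
  · exact h22 (by rw [← h7, h8])
  · exact h12 h8

open scoped Classical in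
private noncomputable def FB_I (P : Prop) : ℝ := if P then 1 else 0

private theorem FB_I_pos {P : Prop} (h : P) : FB_I P = 1 := if_pos h

private theorem FB_I_neg {P : Prop} (h : ¬ P) : FB_I P = 0 := if_neg h

private theorem FB_I_nonneg (P : Prop) : 0 ≤ FB_I P := by
  by_cases h : P
  · rw [FB_I_pos h]
    exact zero_le_one
  · rw [FB_I_neg h]

private theorem FB_I_mono {P Q : Prop} (h : P → Q) : FB_I P ≤ FB_I Q := by
  by_cases k : P
  · rw [FB_I_pos k, FB_I_pos (h k)]
  · rw [FB_I_neg k]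
    exact FB_I_nonneg Q

open scoped Classical in
private theorem FB_WJ (x : ℝ) (J : ℕ) (E : Finset (Sym2 V) → Prop) :
    WJ G x J E = WS G x (fun N => FB_I ((free N).card ≤ J ∧ E N)) := by
  unfold WJ
  refine WS_congr x (fun N _ => ?_)
  by_cases h : (free N).card ≤ J ∧ E N
  · rw [FB_I_pos h, if_pos h]
  · rw [FB_I_neg h, if_neg h]

open scoped Classical in
private theorem FB_one {M : Finset (Sym2 V)} (hM : M ∈ Mt G) (a : V) (S : Finset V) :
    (∑ b ∈ S, if s(a, b) ∈ M then (1 : ℝ) else 0) ≤ 1 := by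
  rw [Finset.sum_boole]
  have h1 : (S.filter fun b => s(a, b) ∈ M).card ≤ 1 := by
    rw [Finset.card_le_one]
    intro b hb b' hb'
    rw [Finset.mem_filter] at hb hb'
    exact partner_unique (mem_Mt.1 hM) hb.2 hb'.2
  exact_mod_cast h1

open scoped Classical in
private theorem FB_Ys {q : ℕ} {c : V → Fin q × Fin 2} {E' : Finset (Sym2 V)} (hE : E' ⊆ Ys G c)
    {a a' : V} (h : s(a, a') ∈ E') : G.Adj a a' ∧ ¬ (KG c).Adj a a' := by
  have h1 := hE h
  unfold Ys at h1
  rw [Finset.mem_filter] at h1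
  exact ⟨by simpa using h1.2.1, by simpa using h1.2.2⟩

open scoped Classical in
private theorem FB_On {q : ℕ} {c : V → Fin q × Fin 2} {a b : V} :
    b ∈ On G c a ↔ G.Adj a b ∧ (KG c).Adj a b := by
  unfold On
  rw [Finset.mem_filter]
  exact ⟨fun h => h.2, fun h => ⟨Finset.mem_univ _, h⟩⟩

open scoped Classical in
/-- The indicator of the matchings after the exchange. -/
private noncomputable def FB_in {q : ℕ} (J : ℕ) (c : V → Fin q × Fin 2) (E' : Finset (Sym2 V))
    (p : V × V) (b b' : V) (M : Finset (Sym2 V)) : ℝ :=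
  FB_I (b ∈ free M ∧ b' ∈ free M ∧ (free M).card ≤ J + 2 ∧ ¬ Bal c M ∧ M ∩ E' = {s(p.1, p.2)})

open scoped Classical in
private theorem FB_term {q J : ℕ} {c : V → Fin q × Fin 2} {E' : Finset (Sym2 V)}
    (hE : E' ⊆ Ys G c) {x : ℝ} (hx : 0 ≤ x) {a a' b b' : V} (hp : s(a, a') ∈ E')
    (hb : b ∈ On G c a) (hb' : b' ∈ On G c a') :
    WJ G x J (fun M => s(a, b) ∈ M ∧ s(a', b') ∈ M ∧ Bal c M ∧ Disjoint M E') ≤
      x * WS G x (fun M => if s(a, a') ∈ M then FB_in J c E' (a, a') b b' M else 0) := by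
  obtain ⟨hG, hK⟩ := FB_Ys hE hp
  rw [FB_On] at hb hb'
  have haa' : a ≠ a' := hG.ne
  have hab : a ≠ b := hb.1.ne
  have ha'b' : a' ≠ b' := hb'.1.ne
  have hab' : a ≠ b' := by
    rintro rfl
    exact hK hb'.2.symm
  have hba' : b ≠ a' := by
    rintro rfl
    exact hK hb.2
  have hin : ∀ M : Finset (Sym2 V), 0 ≤ FB_in J c E' (a, a') b b' M :=
    fun M => FB_I_nonneg _
  have hR : 0 ≤ WS G x (fun M => if s(a, a') ∈ M then FB_in J c E' (a, a') b b' M else 0) := by
    refine WS_nonneg hx (fun M _ => ?_)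
    split_ifs
    · exact hin M
    · exact le_refl _
  by_cases hbb' : b = b'
  · subst hbb'
    have h1 : WJ G x J (fun M => s(a, b) ∈ M ∧ s(a', b) ∈ M ∧ Bal c M ∧ Disjoint M E') ≤ 0 := by
      rw [FB_WJ]
      refine le_of_le_of_eq (WS_mono hx (F' := fun _ => 0) (fun M hM => ?_)) ?_
      · rw [FB_I_neg]
        rintro ⟨_, k1, k2, _⟩
        rw [Sym2.eq_swap] at k1 k2
        exact haa' (partner_unique (mem_Mt.1 hM) k1 k2)
      · unfold WS
        simp
    exact h1.trans (mul_nonneg hx hR)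
  · have h1 : WJ G x J (fun M => s(a, b) ∈ M ∧ s(a', b') ∈ M ∧ Bal c M ∧ Disjoint M E') =
        WS G x (fun M => if s(a, b) ∈ M ∧ s(a', b') ∈ M then
          FB_I ((free M).card ≤ J ∧ Bal c M ∧ Disjoint M E') else 0) := by
      rw [FB_WJ]
      refine WS_congr x (fun M _ => ?_)
      by_cases k1 : s(a, b) ∈ M ∧ s(a', b') ∈ M
      · rw [if_pos k1]
        exact le_antisymm (FB_I_mono (fun h => ⟨h.1, h.2.2.2⟩))
          (FB_I_mono (fun h => ⟨h.1, k1.1, k1.2, h.2⟩))
      · rw [if_neg k1, FB_I_neg]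
        exact fun h => k1 ⟨h.2.1, h.2.2.1⟩
    rw [h1, WS_edge2 x hb.1 hb'.1 haa' hab' hba' hbb'
      (fun M => FB_I ((free M).card ≤ J ∧ Bal c M ∧ Disjoint M E')),
      WS_edge x hG (fun M => FB_in J c E' (a, a') b b' M), ← mul_assoc, ← pow_two]
    refine mul_le_mul_of_nonneg_left (WS_mono hx (fun N hN => ?_)) (pow_nonneg hx _)
    by_cases k1 : a ∈ free N ∧ b ∈ free N ∧ a' ∈ free N ∧ b' ∈ free N
    · obtain ⟨ka, kb, ka', kb'⟩ := k1
      rw [if_pos ⟨ka, kb, ka', kb'⟩, if_pos ⟨ka, ka'⟩]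
      by_cases k2 : (free (insert s(a, b) (insert s(a', b') N))).card ≤ J ∧
          Bal c (insert s(a, b) (insert s(a', b') N)) ∧
          Disjoint (insert s(a, b) (insert s(a', b') N)) E'
      · rw [FB_I_pos k2]
        obtain ⟨k3, k4, k5⟩ := k2
        unfold FB_in
        rw [FB_I_pos]
        refine ⟨mem_free_insert.2 ⟨kb, hab.symm, hba'⟩,
          mem_free_insert.2 ⟨kb', hab'.symm, ha'b'.symm⟩, ?_, ?_, ?_⟩
        · have e1 := card_free_insert ka ka' haa'
          have e2 := card_free_insert ka' kb' ha'b'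
          have e3 : (free (insert s(a, b) (insert s(a', b') N))).card + 2 =
              (free (insert s(a', b') N)).card :=
            card_free_insert (mem_free_insert.2 ⟨ka, haa', hab'⟩)
              (mem_free_insert.2 ⟨kb, hba', hbb'⟩) hab
          omega
        · exact unbal_of_switch ka kb ka' kb' hab haa' hab' hba' hbb' ha'b' hb.2 hb'.2 hK k4
        · ext e
          rw [Finset.mem_inter, Finset.mem_insert, Finset.mem_singleton]
          constructor
          · rintro ⟨k6 | k6, k7⟩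
            · exact k6
            · exfalso
              exact Finset.disjoint_left.1 k5
                (Finset.mem_insert_of_mem (Finset.mem_insert_of_mem k6)) k7
          · intro k6
            rw [k6]
            exact ⟨Or.inl rfl, hp⟩
      · rw [FB_I_neg k2]
        exact hin _
    · rw [if_neg k1]
      split_ifs
      · exact hin _
      · exact le_refl _

open scoped Classical in
private theorem FB_point {q J : ℕ} {c : V → Fin q × Fin 2} {E' : Finset (Sym2 V)}
    (P : Finset (V × V)) (S S' : V × V → Finset V) (M : Finset (Sym2 V)) :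
    (∑ p ∈ P, ∑ b ∈ S p, ∑ b' ∈ S' p,
      if s(p.1, p.2) ∈ M then FB_in J c E' p b b' M else 0) ≤
      2 * ((J : ℝ) + 2) ^ 2 * FB_I ((free M).card ≤ J + 2 ∧ ¬ Bal c M) := by
  by_cases h0 : (free M).card ≤ J + 2 ∧ ¬ Bal c M
  · rw [FB_I_pos h0, mul_one]
    have h1 : ∀ p ∈ P, (∑ b ∈ S p, ∑ b' ∈ S' p,
        if s(p.1, p.2) ∈ M then FB_in J c E' p b b' M else 0) ≤
        ((J : ℝ) + 2) ^ 2 * (if M ∩ E' = {s(p.1, p.2)} then 1 else 0) := by
      intro p _
      by_cases h2 : M ∩ E' = {s(p.1, p.2)}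
      · rw [if_pos h2, mul_one]
        have h3 : ∀ b ∈ S p, ∀ b' ∈ S' p,
            (if s(p.1, p.2) ∈ M then FB_in J c E' p b b' M else 0) ≤
            (if b ∈ free M then (1 : ℝ) else 0) * (if b' ∈ free M then 1 else 0) := by
          intro b _ b' _
          have h4 : (0 : ℝ) ≤ (if b ∈ free M then (1 : ℝ) else 0) *
              (if b' ∈ free M then 1 else 0) := by
            split_ifs <;> norm_num
          by_cases h5 : s(p.1, p.2) ∈ M
          · rw [if_pos h5]
            unfold FB_in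
            by_cases h6 : b ∈ free M ∧ b' ∈ free M
            · rw [if_pos h6.1, if_pos h6.2, mul_one]
              exact (FB_I_mono (fun _ => trivial)).trans (le_of_eq (FB_I_pos trivial))
            · rw [FB_I_neg (fun h => h6 ⟨h.1, h.2.1⟩)]
              exact h4
          · rw [if_neg h5]
            exact h4
        have h6 : ∀ T : Finset V, (∑ b ∈ T, if b ∈ free M then (1 : ℝ) else 0) ≤ (J : ℝ) + 2 := by
          intro T
          rw [Finset.sum_boole]
          have h7 : (T.filter fun b => b ∈ free M).card ≤ J + 2 := by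
            refine le_trans (Finset.card_le_card (fun b hb => (Finset.mem_filter.1 hb).2)) h0.1
          exact_mod_cast h7
        calc (∑ b ∈ S p, ∑ b' ∈ S' p,
            if s(p.1, p.2) ∈ M then FB_in J c E' p b b' M else 0) ≤
            ∑ b ∈ S p, ∑ b' ∈ S' p,
              (if b ∈ free M then (1 : ℝ) else 0) * (if b' ∈ free M then 1 else 0) :=
              Finset.sum_le_sum (fun b hb => Finset.sum_le_sum (fun b' hb' => h3 b hb b' hb'))
          _ = (∑ b ∈ S p, if b ∈ free M then (1 : ℝ) else 0) *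
              (∑ b' ∈ S' p, if b' ∈ free M then (1 : ℝ) else 0) := by
              rw [Finset.sum_mul_sum]
          _ ≤ ((J : ℝ) + 2) * ((J : ℝ) + 2) := by
              refine mul_le_mul (h6 _) (h6 _) ?_ (by positivity)
              refine Finset.sum_nonneg (fun b _ => ?_)
              split_ifs <;> norm_num
          _ = ((J : ℝ) + 2) ^ 2 := by ring
      · rw [if_neg h2, mul_zero]
        refine le_of_eq (Finset.sum_eq_zero (fun b _ => Finset.sum_eq_zero (fun b' _ => ?_)))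
        by_cases h5 : s(p.1, p.2) ∈ M
        · rw [if_pos h5]
          unfold FB_in
          rw [FB_I_neg]
          exact fun h => h2 h.2.2.2.2
        · rw [if_neg h5]
    refine (Finset.sum_le_sum h1).trans ?_
    rw [← Finset.mul_sum, Finset.sum_boole]
    have h2 : (P.filter fun p => M ∩ E' = {s(p.1, p.2)}).card ≤ 2 := by
      rcases (P.filter fun p => M ∩ E' = {s(p.1, p.2)}).eq_empty_or_nonempty with h3 | ⟨p0, h3⟩
      · rw [h3]
        simp
      · have h4 : (P.filter fun p => M ∩ E' = {s(p.1, p.2)}) ⊆ {p0, p0.swap} := by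
          intro p hp
          rw [Finset.mem_filter] at hp h3
          have h5 : s(p.1, p.2) = s(p0.1, p0.2) := by
            have h6 : ({s(p.1, p.2)} : Finset (Sym2 V)) = {s(p0.1, p0.2)} :=
              hp.2.symm.trans h3.2
            exact Finset.singleton_injective h6
          rw [Finset.mem_insert, Finset.mem_singleton]
          rw [Sym2.eq_iff] at h5
          rcases h5 with h5 | h5
          · exact Or.inl (Prod.ext h5.1 h5.2)
          · exact Or.inr (Prod.ext h5.1 h5.2)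
        exact (Finset.card_le_card h4).trans Finset.card_le_two
    have h3 : ((P.filter fun p => M ∩ E' = {s(p.1, p.2)}).card : ℝ) ≤ 2 := by exact_mod_cast h2
    calc ((J : ℝ) + 2) ^ 2 * ((P.filter fun p => M ∩ E' = {s(p.1, p.2)}).card : ℝ) ≤
        ((J : ℝ) + 2) ^ 2 * 2 := mul_le_mul_of_nonneg_left h3 (by positivity)
      _ = 2 * ((J : ℝ) + 2) ^ 2 := by ring
  · rw [FB_I_neg h0, mul_zero]
    refine le_of_eq (Finset.sum_eq_zero (fun p _ => Finset.sum_eq_zero (fun b _ =>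
      Finset.sum_eq_zero (fun b' _ => ?_))))
    by_cases h5 : s(p.1, p.2) ∈ M
    · rw [if_pos h5]
      unfold FB_in
      rw [FB_I_neg]
      exact fun h => h0 ⟨h.2.2.1, h.2.2.2.1⟩
    · rw [if_neg h5]

open scoped Classical in
theorem switch_up {q J : ℕ} {c : V → Fin q × Fin 2} {E' : Finset (Sym2 V)} (hE : E' ⊆ Ys G c)
    {x : ℝ} (hx : 0 ≤ x) :
    ∑ p ∈ univ.filter (fun p : V × V => s(p.1, p.2) ∈ E'), Ph G x J c E' p ≤
      2 * x * ((J : ℝ) + 2) ^ 2 * WJ G x (J + 2) (fun M => ¬ Bal c M) := by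
  set P := univ.filter (fun p : V × V => s(p.1, p.2) ∈ E') with hP
  have h1 : ∀ p ∈ P, Ph G x J c E' p ≤ ∑ b ∈ On G c p.1, ∑ b' ∈ On G c p.2,
      x * WS G x (fun M => if s(p.1, p.2) ∈ M then FB_in J c E' p b b' M else 0) := by
    intro p hp
    rw [hP, Finset.mem_filter] at hp
    unfold Ph
    exact Finset.sum_le_sum (fun b hb => Finset.sum_le_sum (fun b' hb' =>
      FB_term hE hx hp.2 hb hb'))
  refine (Finset.sum_le_sum h1).trans ?_
  have h2 : ∑ p ∈ P, ∑ b ∈ On G c p.1, ∑ b' ∈ On G c p.2,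
      x * WS G x (fun M => if s(p.1, p.2) ∈ M then FB_in J c E' p b b' M else 0) =
      x * WS G x (fun M => ∑ p ∈ P, ∑ b ∈ On G c p.1, ∑ b' ∈ On G c p.2,
        if s(p.1, p.2) ∈ M then FB_in J c E' p b b' M else 0) := by
    rw [WS_sum, Finset.mul_sum]
    refine Finset.sum_congr rfl (fun p _ => ?_)
    rw [WS_sum, Finset.mul_sum]
    refine Finset.sum_congr rfl (fun b _ => ?_)
    rw [WS_sum, Finset.mul_sum]
  rw [h2]
  have h3 : WS G x (fun M => ∑ p ∈ P, ∑ b ∈ On G c p.1, ∑ b' ∈ On G c p.2,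
        if s(p.1, p.2) ∈ M then FB_in J c E' p b b' M else 0) ≤
      2 * ((J : ℝ) + 2) ^ 2 * WJ G x (J + 2) (fun M => ¬ Bal c M) := by
    rw [FB_WJ, ← WS_smul]
    exact WS_mono hx (fun M _ => FB_point P (fun p => On G c p.1) (fun p => On G c p.2) M)
  calc x * WS G x (fun M => ∑ p ∈ P, ∑ b ∈ On G c p.1, ∑ b' ∈ On G c p.2,
        if s(p.1, p.2) ∈ M then FB_in J c E' p b b' M else 0) ≤
      x * (2 * ((J : ℝ) + 2) ^ 2 * WJ G x (J + 2) (fun M => ¬ Bal c M)) :=
        mul_le_mul_of_nonneg_left h3 hx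
    _ = 2 * x * ((J : ℝ) + 2) ^ 2 * WJ G x (J + 2) (fun M => ¬ Bal c M) := by ring

open scoped Classical in
theorem switch_low {q J : ℕ} {c : V → Fin q × Fin 2} {E' : Finset (Sym2 V)} (hE : E' ⊆ Ys G c)
    {x ζ : ℝ} (hx : 0 ≤ x) (hζ0 : 0 ≤ ζ)
    (hζ : ∀ a b a' b' : V, a ≠ b → a ≠ a' → a ≠ b' → b ≠ a' → b ≠ b' → a' ≠ b' →
      ζ ≤ ZJ G x (J + 4) {a, b, a', b'})
    {p : V × V} (hp : s(p.1, p.2) ∈ E') :
    x ^ 2 * ((od G c p.1 : ℝ) * ((od G c p.2 : ℝ) - 1)) * ζ ≤
      Ph G x J c E' p + WJ G x J (fun M => ¬ (Bal c M ∧ Disjoint M E')) := by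
  rcases p with ⟨a, a'⟩
  simp only at hp ⊢
  obtain ⟨hG, hK⟩ := FB_Ys hE hp
  have haa' : a ≠ a' := hG.ne
  have hWJ0 : ∀ E : Finset (Sym2 V) → Prop, 0 ≤ WJ G x J E := by
    intro E
    rw [FB_WJ]
    exact WS_nonneg hx (fun M _ => FB_I_nonneg _)
  -- one pair
  have h1 : ∀ b ∈ On G c a, ∀ b' ∈ (On G c a').erase b, x ^ 2 * ζ ≤
      WJ G x J (fun M => s(a, b) ∈ M ∧ s(a', b') ∈ M ∧ Bal c M ∧ Disjoint M E') +
      WJ G x J (fun M => s(a, b) ∈ M ∧ s(a', b') ∈ M ∧ ¬ (Bal c M ∧ Disjoint M E')) := by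
    intro b hb b' hb'
    rw [Finset.mem_erase] at hb'
    obtain ⟨hbb, hb'⟩ := hb'
    rw [FB_On] at hb hb'
    have hab : a ≠ b := hb.1.ne
    have ha'b' : a' ≠ b' := hb'.1.ne
    have hab' : a ≠ b' := by
      rintro rfl
      exact hK hb'.2.symm
    have hba' : b ≠ a' := by
      rintro rfl
      exact hK hb.2
    have h2 := hζ a b a' b' hab haa' hab' hba' hbb.symm ha'b'
    have h3 := WJ_edge2 (G := G) x J hb.1 hb'.1 haa' hab' hba' hbb.symm
    have h4 : WJ G x J (fun M => s(a, b) ∈ M ∧ s(a', b') ∈ M) ≤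
        WJ G x J (fun M => s(a, b) ∈ M ∧ s(a', b') ∈ M ∧ Bal c M ∧ Disjoint M E') +
        WJ G x J (fun M => s(a, b) ∈ M ∧ s(a', b') ∈ M ∧ ¬ (Bal c M ∧ Disjoint M E')) := by
      rw [FB_WJ, FB_WJ, FB_WJ, ← WS_add]
      refine WS_mono hx (fun M _ => ?_)
      by_cases k2 : Bal c M ∧ Disjoint M E'
      · exact (FB_I_mono (fun h => ⟨h.1, h.2.1, h.2.2, k2⟩)).trans
          (le_add_of_nonneg_right (FB_I_nonneg _))
      · exact (FB_I_mono (fun h => ⟨h.1, h.2.1, h.2.2, k2⟩)).trans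
          (le_add_of_nonneg_left (FB_I_nonneg _))
    calc x ^ 2 * ζ ≤ x ^ 2 * ZJ G x (J + 4) {a, b, a', b'} :=
          mul_le_mul_of_nonneg_left h2 (pow_nonneg hx _)
      _ = _ := h3.symm
      _ ≤ _ := h4
  -- the sum over all pairs
  have h2 : ∑ b ∈ On G c a, ∑ b' ∈ (On G c a').erase b, x ^ 2 * ζ ≤
      ∑ b ∈ On G c a, ∑ b' ∈ (On G c a').erase b,
        (WJ G x J (fun M => s(a, b) ∈ M ∧ s(a', b') ∈ M ∧ Bal c M ∧ Disjoint M E') +
        WJ G x J (fun M => s(a, b) ∈ M ∧ s(a', b') ∈ M ∧ ¬ (Bal c M ∧ Disjoint M E'))) :=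
    Finset.sum_le_sum (fun b hb => Finset.sum_le_sum (fun b' hb' => h1 b hb b' hb'))
  have h3 : x ^ 2 * ((od G c a : ℝ) * ((od G c a' : ℝ) - 1)) * ζ ≤
      ∑ b ∈ On G c a, ∑ b' ∈ (On G c a').erase b, x ^ 2 * ζ := by
    have hx2 : 0 ≤ x ^ 2 * ζ := mul_nonneg (pow_nonneg hx _) hζ0
    have h4 : ∀ b ∈ On G c a, ((od G c a' : ℝ) - 1) * (x ^ 2 * ζ) ≤
        ∑ b' ∈ (On G c a').erase b, x ^ 2 * ζ := by
      intro b _
      rw [Finset.sum_const, nsmul_eq_mul]
      refine mul_le_mul_of_nonneg_right ?_ hx2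
      have h5 : (On G c a').card ≤ ((On G c a').erase b).card + 1 := by
        have h5' : (On G c a').card - 1 ≤ ((On G c a').erase b).card :=
          Finset.pred_card_le_card_erase
        omega
      have h6 : (od G c a' : ℝ) ≤ (((On G c a').erase b).card : ℝ) + 1 := by exact_mod_cast h5
      linarith
    have h5 : ∑ b ∈ On G c a, ((od G c a' : ℝ) - 1) * (x ^ 2 * ζ) ≤
        ∑ b ∈ On G c a, ∑ b' ∈ (On G c a').erase b, x ^ 2 * ζ := Finset.sum_le_sum h4
    rw [Finset.sum_const, nsmul_eq_mul] at h5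
    have h6 : ((On G c a).card : ℝ) = od G c a := rfl
    rw [h6] at h5
    calc x ^ 2 * ((od G c a : ℝ) * ((od G c a' : ℝ) - 1)) * ζ =
        (od G c a : ℝ) * (((od G c a' : ℝ) - 1) * (x ^ 2 * ζ)) := by ring
      _ ≤ _ := h5
  have h4 : ∑ b ∈ On G c a, ∑ b' ∈ (On G c a').erase b,
      WJ G x J (fun M => s(a, b) ∈ M ∧ s(a', b') ∈ M ∧ Bal c M ∧ Disjoint M E') ≤
      Ph G x J c E' (a, a') := by
    unfold Ph
    refine Finset.sum_le_sum (fun b _ => ?_)
    exact Finset.sum_le_sum_of_subset_of_nonneg (Finset.erase_subset _ _)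
      (fun b' _ _ => hWJ0 _)
  have h5 : ∑ b ∈ On G c a, ∑ b' ∈ (On G c a').erase b,
      WJ G x J (fun M => s(a, b) ∈ M ∧ s(a', b') ∈ M ∧ ¬ (Bal c M ∧ Disjoint M E')) ≤
      WJ G x J (fun M => ¬ (Bal c M ∧ Disjoint M E')) := by
    have h6 : ∑ b ∈ On G c a, ∑ b' ∈ (On G c a').erase b,
        WJ G x J (fun M => s(a, b) ∈ M ∧ s(a', b') ∈ M ∧ ¬ (Bal c M ∧ Disjoint M E')) ≤
        ∑ b ∈ On G c a, ∑ b' ∈ On G c a',
        WJ G x J (fun M => s(a, b) ∈ M ∧ s(a', b') ∈ M ∧ ¬ (Bal c M ∧ Disjoint M E')) :=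
      Finset.sum_le_sum (fun b _ => Finset.sum_le_sum_of_subset_of_nonneg
        (Finset.erase_subset _ _) (fun b' _ _ => hWJ0 _))
    refine h6.trans ?_
    have h7 : ∑ b ∈ On G c a, ∑ b' ∈ On G c a',
        WJ G x J (fun M => s(a, b) ∈ M ∧ s(a', b') ∈ M ∧ ¬ (Bal c M ∧ Disjoint M E')) =
        WS G x (fun N => ∑ b ∈ On G c a, ∑ b' ∈ On G c a',
          FB_I ((free N).card ≤ J ∧ s(a, b) ∈ N ∧ s(a', b') ∈ N ∧
            ¬ (Bal c N ∧ Disjoint N E'))) := by
      rw [WS_sum]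
      refine Finset.sum_congr rfl (fun b _ => ?_)
      rw [WS_sum]
      exact Finset.sum_congr rfl (fun b' _ => FB_WJ _ _ _)
    rw [h7, FB_WJ]
    refine WS_mono hx (fun M hM => ?_)
    by_cases k1 : (free M).card ≤ J ∧ ¬ (Bal c M ∧ Disjoint M E')
    · rw [FB_I_pos k1]
      have h8 : ∀ b ∈ On G c a, ∀ b' ∈ On G c a',
          FB_I ((free M).card ≤ J ∧ s(a, b) ∈ M ∧ s(a', b') ∈ M ∧
            ¬ (Bal c M ∧ Disjoint M E')) =
          (if s(a, b) ∈ M then (1 : ℝ) else 0) * (if s(a', b') ∈ M then (1 : ℝ) else 0) := by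
        intro b _ b' _
        by_cases k2 : s(a, b) ∈ M
        · by_cases k3 : s(a', b') ∈ M
          · rw [FB_I_pos ⟨k1.1, k2, k3, k1.2⟩, if_pos k2, if_pos k3, mul_one]
          · rw [FB_I_neg (fun h => k3 h.2.2.1), if_neg k3, mul_zero]
        · rw [FB_I_neg (fun h => k2 h.2.1), if_neg k2, zero_mul]
      rw [Finset.sum_congr rfl (fun b hb => Finset.sum_congr rfl (fun b' hb' => h8 b hb b' hb')),
        ← Finset.sum_mul_sum]
      have h9 : (0 : ℝ) ≤ ∑ b' ∈ On G c a', if s(a', b') ∈ M then (1 : ℝ) else 0 := by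
        refine Finset.sum_nonneg (fun b' _ => ?_)
        split_ifs <;> norm_num
      calc (∑ b ∈ On G c a, if s(a, b) ∈ M then (1 : ℝ) else 0) *
          (∑ b' ∈ On G c a', if s(a', b') ∈ M then (1 : ℝ) else 0) ≤ 1 * 1 :=
            mul_le_mul (FB_one hM a _) (FB_one hM a' _) h9 zero_le_one
        _ = 1 := one_mul 1
    · rw [FB_I_neg k1]
      refine le_of_eq (Finset.sum_eq_zero (fun b _ => Finset.sum_eq_zero (fun b' _ => ?_)))
      rw [FB_I_neg]
      exact fun h => k1 ⟨h.1, h.2.2.2⟩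
  have h6 : ∑ b ∈ On G c a, ∑ b' ∈ (On G c a').erase b,
        (WJ G x J (fun M => s(a, b) ∈ M ∧ s(a', b') ∈ M ∧ Bal c M ∧ Disjoint M E') +
        WJ G x J (fun M => s(a, b) ∈ M ∧ s(a', b') ∈ M ∧ ¬ (Bal c M ∧ Disjoint M E'))) =
      ∑ b ∈ On G c a, ∑ b' ∈ (On G c a').erase b,
        WJ G x J (fun M => s(a, b) ∈ M ∧ s(a', b') ∈ M ∧ Bal c M ∧ Disjoint M E') +
      ∑ b ∈ On G c a, ∑ b' ∈ (On G c a').erase b,
        WJ G x J (fun M => s(a, b) ∈ M ∧ s(a', b') ∈ M ∧ ¬ (Bal c M ∧ Disjoint M E')) := by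
    rw [← Finset.sum_add_distrib]
    exact Finset.sum_congr rfl (fun b _ => Finset.sum_add_distrib)
  rw [h6] at h2
  linarith

end

end Pool.Agent.Lib.MP_eeed5c_coD
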