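import Pool.Agent.Lib.MP_eeed5c_co_D.FZ

/-!
# The switching argument, numerical form
-/

set_option autoImplicit false

namespace Pool.Agent.Lib.MP_eeed5c_coD

open Finset Pool.Agent.Lib.MP_eeed5c_co Pool.Agent.Lib.MP_eeed5c_coT Pool.Agent.Lib.MP_eeed5c_coX
open Pool.Agent.Lib.MP_eeed5c_coM

section

variable {V : Type*} [Fintype V] {G : SimpleGraph V}

open scoped Classical in
theorem FX_darts {E' : Finset (Sym2 V)} (hE : ∀ e ∈ E', e ∈ G.edgeSet) :
    (univ.filter (fun p : V × V => s(p.1, p.2) ∈ E')).card = 2 * E'.card := by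
  rw [Finset.card_eq_sum_card_fiberwise (f := fun p : V × V => s(p.1, p.2)) (t := E')]
  · have h : ∀ e ∈ E', ((univ.filter (fun p : V × V => s(p.1, p.2) ∈ E')).filter
        (fun p : V × V => s(p.1, p.2) = e)).card = 2 := by
      intro e he
      have hG := hE e he
      induction e using Sym2.ind with
      | _ a b =>
      have hab : G.Adj a b := hG
      have hne : a ≠ b := hab.ne
      have : ((univ.filter (fun p : V × V => s(p.1, p.2) ∈ E')).filter
          (fun p : V × V => s(p.1, p.2) = s(a, b))) = {(a, b), (b, a)} := by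
        ext ⟨u, v⟩
        simp only [Finset.mem_filter, Finset.mem_univ, true_and, Finset.mem_insert,
          Finset.mem_singleton, Prod.mk.injEq]
        constructor
        · rintro ⟨_, h2⟩
          rcases Sym2.eq_iff.1 h2 with h3 | h3
          · exact Or.inl h3
          · exact Or.inr h3
        · rintro (⟨rfl, rfl⟩ | ⟨rfl, rfl⟩)
          · exact ⟨he, rfl⟩
          · exact ⟨by rw [Sym2.eq_swap]; exact he, Sym2.eq_swap⟩
      rw [this, Finset.card_pair]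
      intro h
      exact hne (congrArg Prod.fst h)
    rw [Finset.sum_congr rfl h, Finset.sum_const, smul_eq_mul, mul_comm]
  · intro p hp
    exact (Finset.mem_filter.1 hp).2

open scoped Classical in
theorem FX_small {q r m : ℕ} (hm : 10 ^ 42 ≤ m) (hq1 : 1 ≤ q)
    (hqm : q ≤ 5 * m ^ 2) (hr : m ^ 20 ≤ r) (hreg : Reg G r)
    {c : V → Fin q × Fin 2} (hod : ∀ v, (r : ℝ) ≤ 3 * q * od G c v)
    {x : ℝ} (hx : 0 < x) (hxr : x ≤ 400 * (m : ℝ) * r) (hxr' : (r : ℝ) ≤ 12 * (m : ℝ) ^ 2 * x)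
    (hZ2 : (mp G).eval x ≤ 2 * ZJ G x (9 * m) ∅)
    (hU : WJ G x (9 * m + 6) (fun M => ¬ Bal c M) ≤ 1 / (m : ℝ) ^ 33 * (mp G).eval x) :
    m ^ 18 * (Ys G c).card ≤ r := by
  have hM : (10 : ℝ) ^ 42 ≤ m := by exact_mod_cast hm
  have hM1 : (1 : ℝ) ≤ m := le_trans (by norm_num) hM
  have hM0 : (0 : ℝ) < m := by linarith
  have hm1 : 1 ≤ m := le_trans (by norm_num) hm
  have hqR : (q : ℝ) ≤ 5 * (m : ℝ) ^ 2 := by exact_mod_cast hqm
  have hq1R : (1 : ℝ) ≤ q := by exact_mod_cast hq1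
  have hq0 : (0 : ℝ) < q := by linarith
  have hrR : (m : ℝ) ^ 20 ≤ r := by exact_mod_cast hr
  have hm20 : (m : ℝ) ≤ (m : ℝ) ^ 20 := le_self_pow₀ hM1 (by norm_num)
  have hr0 : (0 : ℝ) < r := by linarith
  have hrN : m ≤ r := by exact_mod_cast (hm20.trans hrR)
  have hr8 : 8 ≤ r := le_trans (by norm_num) (hm.trans hrN)
  have hr2 : 2 ≤ r := by omega
  have hZ : 0 < (mp G).eval x := lt_of_lt_of_le one_pos (mp_eval_pos hx.le)
  obtain ⟨Z, hZd⟩ : ∃ Z, Z = (mp G).eval x := ⟨_, rfl⟩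
  rw [← hZd] at hZ hZ2 hU
  -- the subset
  obtain ⟨t, ht⟩ : ∃ t, t = min (Ys G c).card (r / m ^ 15) := ⟨_, rfl⟩
  obtain ⟨E', hE, hEc⟩ := Finset.exists_subset_card_eq (s := Ys G c) (n := t)
    (by rw [ht]; exact min_le_left _ _)
  have htR : (t : ℝ) ≤ r / (m : ℝ) ^ 15 := by
    have h1 : t ≤ r / m ^ 15 := by rw [ht]; exact min_le_right _ _
    have h2 : ((r / m ^ 15 : ℕ) : ℝ) ≤ (r : ℝ) / ((m ^ 15 : ℕ) : ℝ) := Nat.cast_div_le
    have h3 : (t : ℝ) ≤ ((r / m ^ 15 : ℕ) : ℝ) := by exact_mod_cast h1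
    push_cast at h2
    linarith
  -- zeta
  have hmx : 1 ≤ (m : ℝ) * x := by
    have h1 : (12 : ℝ) * (m : ℝ) ≤ (m : ℝ) ^ 20 := by
      calc (12 : ℝ) * (m : ℝ) ≤ m * m := mul_le_mul_of_nonneg_right (le_trans (by norm_num) hM) hM0.le
        _ = (m : ℝ) ^ 2 := by ring
        _ ≤ (m : ℝ) ^ 20 := pow_le_pow_right₀ hM1 (by norm_num)
    have h2 : 12 * (m : ℝ) * 1 ≤ 12 * (m : ℝ) * ((m : ℝ) * x) := by
      have e : 12 * (m : ℝ) * ((m : ℝ) * x) = 12 * (m : ℝ) ^ 2 * x := by ring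
      rw [e]
      linarith
    exact le_of_mul_le_mul_left h2 (by positivity)
  obtain ⟨ζ, hζd⟩ : ∃ ζ, ζ = Z / (2 * (21 * ((m : ℝ) * x)) ^ 4) := ⟨_, rfl⟩
  have hζ0 : 0 ≤ ζ := by rw [hζd]; positivity
  have hζ : ∀ a b a' b' : V, a ≠ b → a ≠ a' → a ≠ b' → b ≠ a' → b ≠ b' → a' ≠ b' →
      ζ ≤ ZJ G x (9 * m + 4 + 4) {a, b, a', b'} := by
    intro a b a' b' h1 h2 h3 h4 h5 h6
    have h7 := ZJ_four hr8 hreg hx.le (9 * m) h1 h2 h3 h4 h5 h6
    have e : 9 * m + 4 + 4 = 9 * m + 8 := by ring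
    rw [e]
    have hB : 0 ≤ ZJ G x (9 * m + 8) {a, b, a', b'} := WJ_nonneg hx.le _ _
    have h8 : (1 + 2 * x * (((9 * m : ℕ) : ℝ) + 8)) ^ 4 ≤ (21 * ((m : ℝ) * x)) ^ 4 := by
      refine pow_le_pow_left₀ (by positivity) ?_ 4
      push_cast
      have h9 : (8 : ℝ) ≤ m := le_trans (by norm_num) hM
      have h10 : 2 * x * (9 * (m : ℝ) + 8) ≤ 2 * x * (10 * m) :=
        mul_le_mul_of_nonneg_left (by linarith) (by positivity)
      have h11 : 2 * x * (10 * (m : ℝ)) = 20 * ((m : ℝ) * x) := by ring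
      linarith
    have h12 : Z ≤ 2 * ((21 * ((m : ℝ) * x)) ^ 4 * ZJ G x (9 * m + 8) {a, b, a', b'}) := by
      have h13 := mul_le_mul_of_nonneg_right h8 hB
      linarith
    rw [hζd, div_le_iff₀ (by positivity)]
    calc Z ≤ 2 * ((21 * ((m : ℝ) * x)) ^ 4 * ZJ G x (9 * m + 8) {a, b, a', b'}) := h12
      _ = ZJ G x (9 * m + 8) {a, b, a', b'} * (2 * (21 * ((m : ℝ) * x)) ^ 4) := by ring
  -- the lower bound for the first term
  have hlow : ∀ p : V × V, 1 / (m : ℝ) ^ 11 * Z ≤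
      x ^ 2 * ((od G c p.1 : ℝ) * ((od G c p.2 : ℝ) - 1)) * ζ := by
    intro p
    have h1 : (r : ℝ) / (3 * q) ≤ od G c p.1 := by
      rw [div_le_iff₀ (by positivity)]
      linarith [hod p.1]
    have h2 : (r : ℝ) / (4 * q) ≤ (od G c p.2 : ℝ) - 1 := by
      have h3 : (r : ℝ) / (3 * q) ≤ od G c p.2 := by
        rw [div_le_iff₀ (by positivity)]
        linarith [hod p.2]
      have h4 : 1 ≤ (r : ℝ) / (12 * q) := by
        rw [le_div_iff₀ (by positivity)]
        have h5 : 60 * (m : ℝ) ^ 2 ≤ (m : ℝ) ^ 20 := by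
          calc 60 * (m : ℝ) ^ 2 ≤ m * (m : ℝ) ^ 2 :=
                mul_le_mul_of_nonneg_right (le_trans (by norm_num) hM) (by positivity)
            _ = (m : ℝ) ^ 3 := by ring
            _ ≤ (m : ℝ) ^ 20 := pow_le_pow_right₀ hM1 (by norm_num)
        linarith
      have h6 : (r : ℝ) / (3 * q) = r / (4 * q) + r / (12 * q) := by
        field_simp
        norm_num
      linarith
    have h3 : (r : ℝ) / (3 * q) * (r / (4 * q)) ≤ (od G c p.1 : ℝ) * ((od G c p.2 : ℝ) - 1) :=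
      mul_le_mul h1 h2 (by positivity) (le_trans (by positivity) h1)
    have h4 : (r : ℝ) ^ 2 / (300 * (m : ℝ) ^ 4) ≤ (r : ℝ) / (3 * q) * (r / (4 * q)) := by
      have e : (r : ℝ) / (3 * q) * (r / (4 * q)) = (r : ℝ) ^ 2 / (12 * (q : ℝ) ^ 2) := by
        field_simp
        norm_num
      rw [e]
      refine div_le_div_of_nonneg_left (by positivity) (by positivity) ?_
      have h5 := pow_le_pow_left₀ hq0.le hqR 2
      have e2 : (5 * (m : ℝ) ^ 2) ^ 2 = 25 * (m : ℝ) ^ 4 := by ring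
      rw [e2] at h5
      linarith
    have h5 : x ^ 2 * ((r : ℝ) ^ 2 / (300 * (m : ℝ) ^ 4)) * ζ ≤
        x ^ 2 * ((od G c p.1 : ℝ) * ((od G c p.2 : ℝ) - 1)) * ζ := by
      refine mul_le_mul_of_nonneg_right ?_ hζ0
      exact mul_le_mul_of_nonneg_left (h4.trans h3) (by positivity)
    refine le_trans ?_ h5
    have e3 : x ^ 2 * ((r : ℝ) ^ 2 / (300 * (m : ℝ) ^ 4)) * ζ =
        (r : ℝ) ^ 2 / (116688600 * (m : ℝ) ^ 8 * x ^ 2) * Z := by
      rw [hζd]
      field_simp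
      norm_num
    rw [e3]
    refine mul_le_mul_of_nonneg_right ?_ hZ.le
    rw [div_le_div_iff₀ (by positivity) (by positivity), one_mul]
    have h6 : x ^ 2 ≤ (400 * (m : ℝ) * r) ^ 2 := pow_le_pow_left₀ hx.le hxr 2
    calc 116688600 * (m : ℝ) ^ 8 * x ^ 2 ≤ 116688600 * (m : ℝ) ^ 8 * (400 * (m : ℝ) * r) ^ 2 :=
          mul_le_mul_of_nonneg_left h6 (by positivity)
      _ = (116688600 * 160000) * (m : ℝ) ^ 10 * (r : ℝ) ^ 2 := by ring
      _ ≤ m * (m : ℝ) ^ 10 * (r : ℝ) ^ 2 := by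
          refine mul_le_mul_of_nonneg_right (mul_le_mul_of_nonneg_right ?_ ?_) ?_
          · exact le_trans (by norm_num) hM
          · positivity
          · positivity
      _ = (r : ℝ) ^ 2 * (m : ℝ) ^ 11 := by ring
  -- the error term
  have herr : WJ G x (9 * m + 4) (fun M => ¬ (Bal c M ∧ Disjoint M E')) ≤
      1 / 2 * (1 / (m : ℝ) ^ 11 * Z) := by
    have h1 : WJ G x (9 * m + 4) (fun M => ¬ (Bal c M ∧ Disjoint M E')) ≤
        WJ G x (9 * m + 6) (fun M => ¬ Bal c M) + ∑ e ∈ E', WJ G x (9 * m + 4) (fun M => e ∈ M) := by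
      unfold WJ
      rw [← WS_sum, ← WS_add]
      refine WS_mono hx.le fun M _ => ?_
      beta_reduce
      by_cases hc1 : (free M).card ≤ 9 * m + 4 ∧ ¬ (Bal c M ∧ Disjoint M E')
      · rw [if_pos hc1]
        by_cases hb : Bal c M
        · have hd : ¬ Disjoint M E' := fun h => hc1.2 ⟨hb, h⟩
          rw [Finset.not_disjoint_iff] at hd
          obtain ⟨e, he1, he2⟩ := hd
          refine le_trans ?_ (le_add_of_nonneg_left ?_)
          · refine le_trans ?_ (Finset.single_le_sum (fun e _ => ?_) he2)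
            · rw [if_pos ⟨hc1.1, he1⟩]
            · split_ifs <;> norm_num
          · split_ifs <;> norm_num
        · refine le_trans ?_ (le_add_of_nonneg_right ?_)
          · rw [if_pos ⟨by omega, hb⟩]
          · exact Finset.sum_nonneg fun e _ => by split_ifs <;> norm_num
      · rw [if_neg hc1]
        refine add_nonneg ?_ (Finset.sum_nonneg fun e _ => ?_)
        · split_ifs <;> norm_num
        · split_ifs <;> norm_num
    have h2 : ∀ e ∈ E', WJ G x (9 * m + 4) (fun M => e ∈ M) ≤ 80000 * (m : ℝ) ^ 3 / r * Z := by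
      intro e he
      rw [hZd]
      exact FZ_edge hm1 hr2 hreg hx.le hxr (by omega) (Ys_edge (hE he))
    have h3 := Finset.sum_le_card_nsmul _ _ _ h2
    rw [nsmul_eq_mul, hEc] at h3
    have h4 : (t : ℝ) * (80000 * (m : ℝ) ^ 3 / r * Z) ≤
        r / (m : ℝ) ^ 15 * (80000 * (m : ℝ) ^ 3 / r * Z) :=
      mul_le_mul_of_nonneg_right htR (by positivity)
    have e1 : r / (m : ℝ) ^ 15 * (80000 * (m : ℝ) ^ 3 / r * Z) =
        1 / 4 * (320000 * (m : ℝ) ^ 3 * (1 / (m : ℝ) ^ 15) * Z) := by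
      field_simp
      norm_num
    have h5 := mul_le_mul_of_nonneg_right
      (FY_abs (b := 320000) (i := 3) (j := 15) (k := 11) hM (by norm_num) (by norm_num)) hZ.le
    have h6 : 1 / (m : ℝ) ^ 33 * Z ≤ 1 / 4 * (1 / (m : ℝ) ^ 11 * Z) := by
      have h7 := mul_le_mul_of_nonneg_right
        (FY_abs (b := 4) (i := 0) (j := 33) (k := 11) hM (by norm_num) (by norm_num)) hZ.le
      rw [pow_zero, mul_one] at h7
      linarith
    linarith
  -- the sum
  have hPh : ∀ p ∈ univ.filter (fun p : V × V => s(p.1, p.2) ∈ E'),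
      1 / 2 * (1 / (m : ℝ) ^ 11 * Z) ≤ Ph G x (9 * m + 4) c E' p := by
    intro p hp
    have h1 := switch_low (J := 9 * m + 4) hE hx.le hζ0 hζ (Finset.mem_filter.1 hp).2
    have h2 := hlow p
    linarith
  have h1 := Finset.card_nsmul_le_sum _ _ _ hPh
  rw [FX_darts (fun e he => Ys_edge (hE he)), hEc, nsmul_eq_mul] at h1
  have h2 := switch_up (J := 9 * m + 4) hE hx.le
  have h3 : 2 * x * (((9 * m + 4 : ℕ) : ℝ) + 2) ^ 2 *
      WJ G x (9 * m + 4 + 2) (fun M => ¬ Bal c M) ≤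
      2 * (400 * (m : ℝ) * r) * (10 * m) ^ 2 * (1 / (m : ℝ) ^ 33 * Z) := by
    have h4 : (((9 * m + 4 : ℕ) : ℝ) + 2) ^ 2 ≤ (10 * (m : ℝ)) ^ 2 := by
      refine pow_le_pow_left₀ (by positivity) ?_ 2
      push_cast
      have : (6 : ℝ) ≤ m := le_trans (by norm_num) hM
      linarith
    have e : 9 * m + 4 + 2 = 9 * m + 6 := by ring
    rw [e]
    refine mul_le_mul ?_ hU (WJ_nonneg hx.le _ _) (by positivity)
    exact mul_le_mul (by linarith) h4 (by positivity) (by positivity)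
  have h4 : (t : ℝ) * (m : ℝ) ^ 18 ≤ r := by
    have h5 := h1.trans (h2.trans h3)
    have e1 : ((2 * t : ℕ) : ℝ) * (1 / 2 * (1 / (m : ℝ) ^ 11 * Z)) = (t : ℝ) * (m : ℝ) ^ 22 *
        (1 / (m : ℝ) ^ 33 * Z) := by
      push_cast
      field_simp
    have e2 : 2 * (400 * (m : ℝ) * r) * (10 * m) ^ 2 * (1 / (m : ℝ) ^ 33 * Z) =
        80000 * (m : ℝ) ^ 3 * r * (1 / (m : ℝ) ^ 33 * Z) := by ring
    rw [e1, e2] at h5
    have h6 : (t : ℝ) * (m : ℝ) ^ 22 ≤ 80000 * (m : ℝ) ^ 3 * r :=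
      le_of_mul_le_mul_right h5 (by positivity)
    have h7 : (t : ℝ) * (m : ℝ) ^ 18 * (m : ℝ) ^ 4 ≤ r * (m : ℝ) ^ 4 := by
      calc (t : ℝ) * (m : ℝ) ^ 18 * (m : ℝ) ^ 4 = (t : ℝ) * (m : ℝ) ^ 22 := by ring
        _ ≤ 80000 * (m : ℝ) ^ 3 * r := h6
        _ ≤ m * (m : ℝ) ^ 3 * r := by
            refine mul_le_mul_of_nonneg_right (mul_le_mul_of_nonneg_right ?_ ?_) hr0.le
            · exact le_trans (by norm_num) hM
            · positivity
        _ = r * (m : ℝ) ^ 4 := by ring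
    exact le_of_mul_le_mul_right h7 (by positivity)
  have h5 : t * m ^ 18 ≤ r := by exact_mod_cast h4
  -- t is the number of all additional edges
  have h6 : t = (Ys G c).card := by
    rcases le_total (Ys G c).card (r / m ^ 15) with h | h
    · rw [ht, min_eq_left h]
    · exfalso
      rw [ht, min_eq_right h] at h5
      have hmp : 0 < m ^ 15 := by positivity
      have h7 := Nat.lt_div_mul_add (a := r) hmp
      have h8 : r * m ^ 3 < r / m ^ 15 * m ^ 15 * m ^ 3 + m ^ 15 * m ^ 3 := by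
        have := Nat.mul_lt_mul_of_pos_right h7 (show 0 < m ^ 3 by positivity)
        calc r * m ^ 3 < (r / m ^ 15 * m ^ 15 + m ^ 15) * m ^ 3 := this
          _ = _ := by ring
      have h9 : r / m ^ 15 * m ^ 15 * m ^ 3 = r / m ^ 15 * m ^ 18 := by ring
      have h10 : m ^ 15 * m ^ 3 ≤ r := by
        calc m ^ 15 * m ^ 3 = m ^ 18 := by ring
          _ ≤ m ^ 20 := Nat.pow_le_pow_right hm1 (by norm_num)
          _ ≤ r := hr
      have h11 : 2 * r ≤ r * m ^ 3 := by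
        have : 2 ≤ m ^ 3 := by
          calc 2 ≤ m := le_trans (by norm_num) hm
            _ ≤ m ^ 3 := Nat.le_self_pow (by norm_num) m
        calc 2 * r = r * 2 := by ring
          _ ≤ r * m ^ 3 := Nat.mul_le_mul_left _ this
      omega
  rw [← h6, mul_comm]
  exact h5

end

/-- A small gap implies a structure of blocks. -/
theorem blocks {q r k : ℕ} {V : Type} [Fintype V] {G : SimpleGraph V}
    (hV : Fintype.card V = 2 * (q * r)) (hreg : Reg G r) (hk1 : 1 ≤ k) (hkn : k < q * r)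
    (h6 : q * r ≤ 6 * k) (hm : 10 ^ 42 ≤ q * r - k) (hqm : q ≤ 5 * (q * r - k) ^ 2)
    (hr : (q * r - k) ^ 20 ≤ r) {x : ℝ} (hx : x = T r q (k - 1) / T r q k)
    (hF : q * Real.log ((Lp r).eval x) - Real.log ((mp G).eval x) <
      1 / (((q * r - k : ℕ) : ℝ)) ^ 80) :
    ∃ c : V → Fin q × Fin 2, Cells r c ∧
      (q * r - k) ^ 9 * (Pool.Agent.Lib.MP_eeed5c_coX.Xs G c).card ≤ r := by
  classical
  obtain ⟨m, hmd⟩ : ∃ m, m = q * r - k := ⟨_, rfl⟩
  rw [← hmd] at hm hqm hr hF ⊢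
  have hkm : k + m = q * r := by omega
  have hM : (10 : ℝ) ^ 42 ≤ m := by exact_mod_cast hm
  have hM1 : (1 : ℝ) ≤ m := le_trans (by norm_num) hM
  have hM0 : (0 : ℝ) < m := by linarith
  have hm1 : 1 ≤ m := le_trans (by norm_num) hm
  have hm250 : 250 ≤ m := le_trans (by norm_num) hm
  have hq1 : 1 ≤ q := by
    rcases Nat.eq_zero_or_pos q with h | h
    · rw [h, zero_mul] at hkn
      omega
    · exact h
  have hmr : 4 * m ≤ r := by
    calc 4 * m ≤ m * m := Nat.mul_le_mul_right _ (le_trans (by norm_num) hm)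
      _ = m ^ 2 := by ring
      _ ≤ m ^ 20 := Nat.pow_le_pow_right hm1 (by norm_num)
      _ ≤ r := hr
  have hr1 : 1 ≤ r := by omega
  have hrR1 : (1 : ℝ) ≤ r := by exact_mod_cast hr1
  have hr0 : (0 : ℝ) < r := by linarith
  have hx0 : 0 < x := LB_x (by omega) hx
  have f1 := hole_le hr1 hk1 hkm hm250 hx
  have f2 := x_ge hr1 hk1 hkm hm250 hmr hx
  have f3 := mu_ge hr1 hk1 hkm hm250 h6 hqm hx
  have f4 := x_le hr1 hk1 hkm hm250 h6 hqm hx
  have f5 := vb_le_mu (r := r) hx0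
  have hZ : 0 < (mp G).eval x := lt_of_lt_of_le one_pos (mp_eval_pos hx0.le)
  obtain ⟨δ, hδ⟩ : ∃ δ, δ = q * Real.log ((Lp r).eval x) - Real.log ((mp G).eval x) := ⟨_, rfl⟩
  rw [← hδ] at hF
  have hqR : (1 : ℝ) ≤ q := by exact_mod_cast hq1
  have hW : (q : ℝ) * vb r x ≤ 2 * m := by
    have := mul_le_mul_of_nonneg_left f5 (by linarith : (0 : ℝ) ≤ q)
    linarith
  have hδ1 : δ ≤ 1 := by
    have h1 : 1 / (m : ℝ) ^ 80 ≤ 1 := by
      rw [div_le_one (by positivity)]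
      exact one_le_pow₀ hM1
    linarith
  obtain ⟨hf0, hf2⟩ := f_small hr1 hV hreg hx0 hδ hW (by linarith) hδ1
  obtain ⟨f, hf⟩ : ∃ f, f = q * mb r x - x * (mp G).derivative.eval x / (mp G).eval x := ⟨_, rfl⟩
  rw [← hf] at hf0 hf2
  have hf1 := FY_f hM hf0 hf2 hF
  -- the number of uncovered vertices
  have hZ2 : (mp G).eval x ≤ 2 * ZJ G x (9 * m) ∅ := by
    refine ZJ_markov hx0.le ?_
    have h1 : x * (mp G).derivative.eval x = (q * mb r x - f) * (mp G).eval x := by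
      rw [hf]
      field_simp
      ring
    rw [h1, hV]
    have h2 : f ≤ 1 := by
      have h3 : 1 / (m : ℝ) ^ 39 ≤ 1 := by
        rw [div_le_one (by positivity)]
        exact one_le_pow₀ hM1
      linarith
    have h3 : 2 * (((2 * (q * r) : ℕ) : ℝ) * (mp G).eval x -
        2 * ((q * mb r x - f) * (mp G).eval x)) =
        (4 * ((q : ℝ) * (r - mb r x)) + 4 * f) * (mp G).eval x := by
      push_cast
      ring
    rw [h3]
    refine mul_le_mul_of_nonneg_right ?_ hZ.le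
    push_cast
    have : (4 : ℝ) ≤ m := le_trans (by norm_num) hM
    linarith
  -- the blocks
  have hxr : 1 / (r : ℝ) ≤ x := by
    rw [div_le_iff₀ hr0]
    have h1 : 12 * (m : ℝ) ^ 2 ≤ r := by
      have h2 : 12 * m ^ 2 ≤ r := by
        calc 12 * m ^ 2 ≤ m * m ^ 2 := Nat.mul_le_mul_right _ (le_trans (by norm_num) hm)
          _ = m ^ 3 := by ring
          _ ≤ m ^ 20 := Nat.pow_le_pow_right hm1 (by norm_num)
          _ ≤ r := hr
      exact_mod_cast h2
    have h2 : (r : ℝ) ≤ r * x := by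
      refine f2.trans ?_
      exact mul_le_mul_of_nonneg_right h1 hx0.le
    have h3 : 1 ≤ x := by
      by_contra h
      push Not at h
      have := mul_lt_mul_of_pos_left h hr0
      linarith
    nlinarith
  have hη := FY_eta hM hF
  have hD : dfc G r ≤ (1 / (m : ℝ) ^ 39) ^ 2 * (r : ℝ) ^ 4 :=
    (squares_le hr1 hV hreg hxr hδ).trans (mul_le_mul_of_nonneg_right hη (by positivity))
  have hT : ∑ p ∈ prA G, tri G p.1 p.2 ≤ (1 / (m : ℝ) ^ 39) ^ 2 * (r : ℝ) ^ 3 :=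
    (triangles_le hr1 hV hreg hxr hδ).trans (mul_le_mul_of_nonneg_right hη (by positivity))
  have hqmR : (q : ℝ) ≤ 5 * (m : ℝ) ^ 2 := by exact_mod_cast hqm
  have hηq : 1000 * (q : ℝ) ^ 2 * (1 / (m : ℝ) ^ 39) ≤ 1 := by
    have h1 : (q : ℝ) ^ 2 ≤ 25 * (m : ℝ) ^ 4 := by
      have := pow_le_pow_left₀ (by linarith : (0 : ℝ) ≤ q) hqmR 2
      calc (q : ℝ) ^ 2 ≤ (5 * (m : ℝ) ^ 2) ^ 2 := this
        _ = 25 * (m : ℝ) ^ 4 := by ring
    have h2 := FY_abs (b := 25000) (i := 4) (j := 39) (k := 0) hM (by norm_num) (by norm_num)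
    rw [pow_zero, div_one] at h2
    refine le_trans ?_ h2
    refine mul_le_mul_of_nonneg_right ?_ (by positivity)
    linarith
  obtain ⟨c, hod, hbad, hsz⟩ := exists_blocks hV hq1 hr1 hreg (by positivity) hηq hD hT
  have hU := FZ_unbal hV hm hqm hr hreg rfl hbad hsz hx0 f4 f2 f3 hf hf1
  have hsmall := FX_small hm hq1 hqm hr hreg hod hx0 f4 f2 hZ2 hU
  have hcells : Cells r c := by
    refine exact_blocks hV hreg (fun s => ?_) ?_
    · have h1 := (hsz s).1
      have h2 : 14 * q * (1 / (m : ℝ) ^ 39) ≤ 1 / 2 := by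
        have h3 := FY_abs (b := 140) (i := 2) (j := 39) (k := 0) hM (by norm_num) (by norm_num)
        rw [pow_zero, div_one] at h3
        have h4 : 14 * q * (1 / (m : ℝ) ^ 39) ≤ 70 * (m : ℝ) ^ 2 * (1 / (m : ℝ) ^ 39) :=
          mul_le_mul_of_nonneg_right (by linarith) (by positivity)
        linarith
      have h3 : (0 : ℝ) < sz c s := by
        have h4 : 1 / 2 * (r : ℝ) ≤ (1 - 14 * q * (1 / (m : ℝ) ^ 39)) * r :=
          mul_le_mul_of_nonneg_right (by linarith) hr0.le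
        linarith
      exact_mod_cast h3
    · have h1 : 4 * (Ys G c).card ≤ r := by
        refine le_trans (Nat.mul_le_mul_right _ ?_) hsmall
        calc 4 ≤ m := le_trans (by norm_num) hm
          _ ≤ m ^ 18 := Nat.le_self_pow (by norm_num) m
      have h2 : 4 ≤ r := by omega
      omega
  refine ⟨c, hcells, ?_⟩
  rw [card_XY hcells hreg]
  refine le_trans (Nat.mul_le_mul_right _ ?_) hsmall
  exact Nat.pow_le_pow_right hm1 (by norm_num)

end Pool.Agent.Lib.MP_eeed5c_coD
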