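import Pool.Agent.Lib.MP_eeed5c_co_D.Defs

/-!
# Numerical inequalities for the theorem on blocks
-/

set_option autoImplicit false

namespace Pool.Agent.Lib.MP_eeed5c_coD

/-- Powers of a large number. -/
theorem FY_pow {M : ℝ} (hM : 10 ^ 42 ≤ M) (k : ℕ) : 0 < M ^ k := by
  have : (0 : ℝ) < 10 ^ 42 := by positivity
  exact pow_pos (by linarith) k

/-- The difference of the means. -/
theorem FY_f {M f δ : ℝ} (hM : 10 ^ 42 ≤ M) (hf : 0 ≤ f) (h : f ^ 2 ≤ 6 * (2 * M) * δ)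
    (hδ : δ < 1 / M ^ 80) : f ≤ 1 / M ^ 39 := by
  have hM0 : (0 : ℝ) < M := by
    have : (0 : ℝ) < 10 ^ 42 := by positivity
    linarith
  have h1 : f ^ 2 ≤ (1 / M ^ 39) ^ 2 := by
    have h2 : 6 * (2 * M) * δ ≤ 12 * M * (1 / M ^ 80) := by
      have := mul_le_mul_of_nonneg_left hδ.le (by linarith : (0 : ℝ) ≤ 12 * M)
      linarith
    have h3 : 12 * M * (1 / M ^ 80) ≤ (1 / M ^ 39) ^ 2 := by
      have e : (1 / M ^ 39) ^ 2 = M ^ 2 * (1 / M ^ 80) := by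
        field_simp
      rw [e]
      refine mul_le_mul_of_nonneg_right ?_ (by positivity)
      have h12 : (12 : ℝ) ≤ M := le_trans (by norm_num) hM
      nlinarith
    linarith
  exact (abs_le_of_sq_le_sq' h1 (by positivity)).2

theorem FY_eta {M δ : ℝ} (hM : 10 ^ 42 ≤ M) (hδ : δ < 1 / M ^ 80) :
    52488 * δ ≤ (1 / M ^ 39) ^ 2 := by
  have hM0 : (0 : ℝ) < M := by
    have : (0 : ℝ) < 10 ^ 42 := by positivity
    linarith
  have e : (1 / M ^ 39) ^ 2 = M ^ 2 * (1 / M ^ 80) := by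
    field_simp
  rw [e]
  have h1 : (52488 : ℝ) ≤ M := le_trans (by norm_num) hM
  have h2 : (52488 : ℝ) ≤ M ^ 2 := by nlinarith
  calc 52488 * δ ≤ 52488 * (1 / M ^ 80) := by linarith
    _ ≤ M ^ 2 * (1 / M ^ 80) := mul_le_mul_of_nonneg_right h2 (by positivity)

/-- `b * M ^ i / M ^ j ≤ 1 / M ^ k` when `b ≤ 10 ^ 42` and `i + k + 1 ≤ j`. -/
theorem FY_abs {M b : ℝ} (hM : 10 ^ 42 ≤ M) (hb : b ≤ 10 ^ 42) {i j k : ℕ} (h : i + k + 1 ≤ j) :
    b * M ^ i * (1 / M ^ j) ≤ 1 / M ^ k := by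
  have hM1 : (1 : ℝ) ≤ M := le_trans (by norm_num) hM
  have hM0 : (0 : ℝ) < M := by linarith
  rw [mul_one_div, div_le_div_iff₀ (by positivity) (by positivity), one_mul]
  calc b * M ^ i * M ^ k ≤ M * M ^ i * M ^ k := by
        refine mul_le_mul_of_nonneg_right (mul_le_mul_of_nonneg_right (hb.trans hM) ?_) ?_ <;>
        positivity
    _ = M ^ (i + k + 1) := by ring
    _ ≤ M ^ j := pow_le_pow_right₀ hM1 h

end Pool.Agent.Lib.MP_eeed5c_coD
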