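import Pool.Agent.Lib.MP_eeed5c_co_D.BA
import Pool.Agent.Lib.MP_eeed5c_co_D.BB
import Pool.Agent.Lib.MP_eeed5c_co_D.CA
import Pool.Agent.Lib.MP_eeed5c_co_D.DC
import Pool.Agent.Lib.MP_eeed5c_co_D.EC
import Pool.Agent.Lib.MP_eeed5c_co_D.ED
import Pool.Agent.Lib.MP_eeed5c_co_D.FA
import Pool.Agent.Lib.MP_eeed5c_co_D.FB
import Pool.Agent.Lib.MP_eeed5c_co_D.FY
import Pool.Agent.Lib.MP_eeed5c_co_X.XE

/-!
# A small gap implies a structure of blocks
-/

set_option autoImplicit false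

namespace Pool.Agent.Lib.MP_eeed5c_coD

open Finset Pool.Agent.Lib.MP_eeed5c_co Pool.Agent.Lib.MP_eeed5c_coT Pool.Agent.Lib.MP_eeed5c_coX
open Pool.Agent.Lib.MP_eeed5c_coM

section

variable {V : Type*} [Fintype V] {G : SimpleGraph V}

/-- An edge is in a random matching with small probability. -/
theorem FZ_edge {r m J : ℕ} (hm : 1 ≤ m) (hr : 2 ≤ r) (hreg : Reg G r) {x : ℝ} (hx : 0 ≤ x)
    (hxr : x ≤ 400 * (m : ℝ) * r) (hJ : J + 2 ≤ 10 * m) {e : Sym2 V} (he : e ∈ G.edgeSet) :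
    WJ G x J (fun M => e ∈ M) ≤ 80000 * (m : ℝ) ^ 3 / r * (mp G).eval x := by
  induction e using Sym2.ind with
  | _ a b =>
  have hab : G.Adj a b := he
  have h := WJ_edge hr hreg hx J hab
  have hr2 : (2 : ℝ) ≤ r := by exact_mod_cast hr
  have hr0 : (0 : ℝ) < r := by linarith
  have hZ : 0 < (mp G).eval x := lt_of_lt_of_le one_pos (mp_eval_pos hx)
  have hm0 : (0 : ℝ) ≤ m := Nat.cast_nonneg m
  have hJ' : (J : ℝ) + 2 ≤ 10 * m := by exact_mod_cast hJ
  have hJ0 : (0 : ℝ) ≤ (J : ℝ) + 2 := by positivity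
  have h1 : x * ((J : ℝ) + 2) ^ 2 * (mp G).eval x ≤
      (400 * (m : ℝ) * r) * (10 * m) ^ 2 * (mp G).eval x := by
    refine mul_le_mul_of_nonneg_right ?_ hZ.le
    exact mul_le_mul hxr (pow_le_pow_left₀ hJ0 hJ' 2) (by positivity) (by positivity)
  have hW0 : 0 ≤ WJ G x J (fun M => s(a, b) ∈ M) := by
    unfold WJ
    exact WS_nonneg hx fun N _ => by split_ifs <;> norm_num
  have h2 : (r : ℝ) * (r / 2) * WJ G x J (fun M => s(a, b) ∈ M) ≤
      r * ((r : ℝ) - 1) * WJ G x J (fun M => s(a, b) ∈ M) := by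
    refine mul_le_mul_of_nonneg_right ?_ hW0
    exact mul_le_mul_of_nonneg_left (by linarith) hr0.le
  have h3 : (r : ℝ) * (r / 2) * WJ G x J (fun M => s(a, b) ∈ M) ≤
      (400 * (m : ℝ) * r) * (10 * m) ^ 2 * (mp G).eval x := by linarith
  rw [div_mul_eq_mul_div, le_div_iff₀ hr0]
  have h4 : (r : ℝ) * (WJ G x J (fun M => s(a, b) ∈ M) * r) ≤
      r * (80000 * (m : ℝ) ^ 3 * (mp G).eval x) := by
    have e1 : (r : ℝ) * (r / 2) * WJ G x J (fun M => s(a, b) ∈ M) =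
        (r * (WJ G x J (fun M => s(a, b) ∈ M) * r)) / 2 := by ring
    have e2 : (400 * (m : ℝ) * r) * (10 * m) ^ 2 * (mp G).eval x =
        (r * (80000 * (m : ℝ) ^ 3 * (mp G).eval x)) / 2 := by ring
    rw [e1, e2] at h3
    linarith
  exact le_of_mul_le_mul_left h4 hr0

theorem WJ_nonneg {x : ℝ} (hx : 0 ≤ x) (J : ℕ) (E : Finset (Sym2 V) → Prop) : 0 ≤ WJ G x J E := by
  unfold WJ
  exact WS_nonneg hx fun N _ => by split_ifs <;> norm_num

theorem em_nonneg (M : Finset (Sym2 V)) : 0 ≤ em G M := by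
  unfold em
  exact Finset.sum_nonneg fun p _ => sq_nonneg _

theorem Ys_edge {q : ℕ} {c : V → Fin q × Fin 2} {e : Sym2 V} (he : e ∈ Ys G c) : e ∈ G.edgeSet := by
  classical
  unfold Ys at he
  exact (Finset.mem_filter.1 he).2.1

open scoped Classical in
/-- Few unbalanced matchings. -/
theorem FZ_unbal {q r m : ℕ} (hV : Fintype.card V = 2 * (q * r)) (hm : 10 ^ 42 ≤ m)
    (hqm : q ≤ 5 * m ^ 2) (hr : m ^ 20 ≤ r) (hreg : Reg G r) {η : ℝ} (hηd : η = 1 / (m : ℝ) ^ 39)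
    {c : V → Fin q × Fin 2}
    (hbad : ((univ.filter fun v => (od G c v : ℝ) < (1 - 8 * η) * r).card : ℝ) ≤ 2 * η * r)
    (hsz : ∀ s, (1 - 14 * q * η) * r ≤ sz c s ∧ (sz c s : ℝ) ≤ (1 + 7 * η) * r)
    {x f : ℝ} (hx : 0 < x) (hxr : x ≤ 400 * (m : ℝ) * r) (hxr' : (r : ℝ) ≤ 12 * (m : ℝ) ^ 2 * x)
    (hmu : 1 ≤ 400 * (m : ℝ) * (r - mb r x))
    (hf : f = q * mb r x - x * (mp G).derivative.eval x / (mp G).eval x)
    (hf1 : f ≤ 1 / (m : ℝ) ^ 39) :
    WJ G x (9 * m + 6) (fun M => ¬ Bal c M) ≤ 1 / (m : ℝ) ^ 33 * (mp G).eval x := by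
  have hM : (10 : ℝ) ^ 42 ≤ m := by exact_mod_cast hm
  have hM1 : (1 : ℝ) ≤ m := le_trans (by norm_num) hM
  have hM0 : (0 : ℝ) < m := by linarith
  have hm1 : 1 ≤ m := le_trans (by norm_num) hm
  have hqR : (q : ℝ) ≤ 5 * (m : ℝ) ^ 2 := by exact_mod_cast hqm
  have hrR : (m : ℝ) ^ 20 ≤ r := by exact_mod_cast hr
  have hm20 : (m : ℝ) ≤ (m : ℝ) ^ 20 := le_self_pow₀ hM1 (by norm_num)
  have hr0 : (0 : ℝ) < r := by linarith
  have hrN : m ≤ r := by exact_mod_cast (hm20.trans hrR)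
  have hr2 : 2 ≤ r := le_trans (by norm_num) (hm.trans hrN)
  have hη0 : 0 ≤ η := by rw [hηd]; positivity
  have hZ : 0 < (mp G).eval x := lt_of_lt_of_le one_pos (mp_eval_pos hx.le)
  have hm3 : 1000000 * m ^ 3 ≤ r := by
    have h1 : 1000000 * m ^ 3 ≤ m ^ 20 := by
      calc 1000000 * m ^ 3 ≤ m * m ^ 3 := Nat.mul_le_mul_right _ (le_trans (by norm_num) hm)
        _ = m ^ 4 := by ring
        _ ≤ m ^ 20 := Nat.pow_le_pow_right hm1 (by norm_num)
    exact h1.trans hr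
  have hq14 : 14 * q * η ≤ 1 / 16 := by
    have h1 : 14 * q * η ≤ 70 * (m : ℝ) ^ 2 * (1 / (m : ℝ) ^ 39) := by
      rw [hηd]
      refine mul_le_mul_of_nonneg_right ?_ (by positivity)
      linarith
    have h2 := FY_abs (b := 70) (i := 2) (j := 39) (k := 1) hM (by norm_num) (by norm_num)
    have h3 : 1 / (m : ℝ) ^ 1 ≤ 1 / 16 := by
      rw [pow_one]
      exact one_div_le_one_div_of_le (by norm_num) (le_trans (by norm_num) hM)
    linarith
  have hJη : 30 * ((9 * m + 6 : ℕ) : ℝ) * η ≤ 1 / 16 := by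
    have h1 : 30 * ((9 * m + 6 : ℕ) : ℝ) * η ≤ 300 * (m : ℝ) ^ 1 * (1 / (m : ℝ) ^ 39) := by
      rw [hηd]
      refine mul_le_mul_of_nonneg_right ?_ (by positivity)
      push_cast
      have : (180 : ℝ) ≤ 30 * m := by
        have : (180 : ℝ) ≤ m := le_trans (by norm_num) hM
        linarith
      rw [pow_one]
      linarith
    have h2 := FY_abs (b := 300) (i := 1) (j := 39) (k := 1) hM (by norm_num) (by norm_num)
    have h3 : 1 / (m : ℝ) ^ 1 ≤ 1 / 16 := by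
      rw [pow_one]
      exact one_div_le_one_div_of_le (by norm_num) (le_trans (by norm_num) hM)
    linarith
  have hJr : 16 * (9 * m + 6) ≤ r := by
    have h1 : 16 * (9 * m + 6) ≤ 1000000 * m ^ 3 := by
      have : m ≤ m ^ 3 := Nat.le_self_pow (by norm_num) m
      omega
    exact h1.trans hm3
  have key := unbal_le (J := 9 * m + 6) (by omega) hreg hη0 hsz hq14 hJη hJr hx.le
  -- the first term
  have hA : 1 / (r : ℝ) * WS G x (fun M => if (free M).card ≤ 9 * m + 6 then em G M else 0) ≤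
      1 / 4 * (1 / (m : ℝ) ^ 33 * (mp G).eval x) := by
    have h1 := typed (J := 9 * m + 6) hV hreg hm1 hm3 (by omega) hx hxr'
    rw [← hf] at h1
    obtain ⟨E, hE⟩ : ∃ E, E = WS G x (fun M => if (free M).card ≤ 9 * m + 6 then em G M else 0) :=
      ⟨_, rfl⟩
    rw [← hE] at h1 ⊢
    have hE0 : 0 ≤ E := by
      rw [hE]
      exact WS_nonneg hx.le fun N _ => by
        split_ifs
        · exact em_nonneg N
        · exact le_rfl
    have h2 : E ≤ 73600000 * (m : ℝ) ^ 3 * r * (f * (mp G).eval x) := by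
      have a1 : E ≤ 400 * (m : ℝ) * (r - mb r x) * E := le_mul_of_one_le_left hE0 hmu
      have a2 := mul_le_mul_of_nonneg_left h1 (by positivity : (0 : ℝ) ≤ 400 * (m : ℝ))
      have a3 : 400 * (m : ℝ) * (184000 * (m : ℝ) ^ 2 * r * (f * (mp G).eval x)) =
          73600000 * (m : ℝ) ^ 3 * r * (f * (mp G).eval x) := by ring
      have a4 : 400 * (m : ℝ) * (((r : ℝ) - mb r x) * E) = 400 * (m : ℝ) * (r - mb r x) * E := by
        ring
      linarith
    have h3 : 73600000 * (m : ℝ) ^ 3 * r * (f * (mp G).eval x) ≤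
        73600000 * (m : ℝ) ^ 3 * r * (1 / (m : ℝ) ^ 39 * (mp G).eval x) := by
      refine mul_le_mul_of_nonneg_left ?_ (by positivity)
      exact mul_le_mul_of_nonneg_right hf1 hZ.le
    have h4 := FY_abs (b := 294400000) (i := 3) (j := 39) (k := 33) hM (by norm_num) (by norm_num)
    have h5 := mul_le_mul_of_nonneg_right h4 hZ.le
    rw [one_div, inv_mul_le_iff₀ hr0]
    have h6 : 73600000 * (m : ℝ) ^ 3 * r * (1 / (m : ℝ) ^ 39 * (mp G).eval x) =
        r * (1 / 4 * (294400000 * (m : ℝ) ^ 3 * (1 / (m : ℝ) ^ 39) * (mp G).eval x)) := by ring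
    have h7 : r * (1 / 4 * (294400000 * (m : ℝ) ^ 3 * (1 / (m : ℝ) ^ 39) * (mp G).eval x)) ≤
        r * (1 / 4 * (1 / (m : ℝ) ^ 33 * (mp G).eval x)) := by
      refine mul_le_mul_of_nonneg_left ?_ hr0.le
      linarith
    linarith
  -- the second term
  have hB : ∑ v ∈ univ.filter (fun v => (od G c v : ℝ) < (1 - 8 * η) * r), ZJ G x (9 * m + 6) {v} ≤
      1 / 4 * (1 / (m : ℝ) ^ 33 * (mp G).eval x) := by
    have h1 : ∀ v ∈ univ.filter (fun v => (od G c v : ℝ) < (1 - 8 * η) * r),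
        ZJ G x (9 * m + 6) {v} ≤ 10 * (m : ℝ) / r * (mp G).eval x := by
      intro v _
      have a1 := ZJ_one_le hreg hx.le (9 * m + 6) v
      rw [div_mul_eq_mul_div, le_div_iff₀ hr0, mul_comm]
      refine a1.trans (mul_le_mul_of_nonneg_right ?_ hZ.le)
      push_cast
      have : (6 : ℝ) ≤ m := le_trans (by norm_num) hM
      linarith
    have h2 := Finset.sum_le_card_nsmul _ _ _ h1
    rw [nsmul_eq_mul] at h2
    have h3 := mul_le_mul_of_nonneg_right hbad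
      (by positivity : (0 : ℝ) ≤ 10 * (m : ℝ) / r * (mp G).eval x)
    have h4 : 2 * η * r * (10 * (m : ℝ) / r * (mp G).eval x) =
        1 / 4 * (80 * (m : ℝ) ^ 1 * (1 / (m : ℝ) ^ 39) * (mp G).eval x) := by
      rw [hηd]
      field_simp
      ring
    have h5 := FY_abs (b := 80) (i := 1) (j := 39) (k := 33) hM (by norm_num) (by norm_num)
    have h6 := mul_le_mul_of_nonneg_right h5 hZ.le
    linarith
  -- the third term
  have hC : 8 / (r : ℝ) * ∑ e ∈ Ys G c, WJ G x (9 * m + 6) (fun M => e ∈ M) ≤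
      1 / 4 * (1 / (m : ℝ) ^ 33 * (mp G).eval x) := by
    have h1 : ∀ e ∈ Ys G c, WJ G x (9 * m + 6) (fun M => e ∈ M) ≤
        80000 * (m : ℝ) ^ 3 / r * (mp G).eval x := fun e he =>
      FZ_edge hm1 hr2 hreg hx.le hxr (by omega) (Ys_edge he)
    have h2 := Finset.sum_le_card_nsmul _ _ _ h1
    rw [nsmul_eq_mul] at h2
    have h3 := Ys_le hV hreg hη0 hbad
    have h4 : (8 * (q : ℝ) + 1) * η * (r : ℝ) ^ 2 ≤ 41 * (m : ℝ) ^ 2 * η * (r : ℝ) ^ 2 := by
      refine mul_le_mul_of_nonneg_right (mul_le_mul_of_nonneg_right ?_ hη0) (by positivity)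
      have : (1 : ℝ) ≤ (m : ℝ) ^ 2 := one_le_pow₀ hM1
      linarith
    have h5 := mul_le_mul_of_nonneg_right (h3.trans h4)
      (by positivity : (0 : ℝ) ≤ 80000 * (m : ℝ) ^ 3 / r * (mp G).eval x)
    have h6 := mul_le_mul_of_nonneg_left (h2.trans h5) (by positivity : (0 : ℝ) ≤ 8 / (r : ℝ))
    have h7 : 8 / (r : ℝ) * (41 * (m : ℝ) ^ 2 * η * (r : ℝ) ^ 2 *
        (80000 * (m : ℝ) ^ 3 / r * (mp G).eval x)) =
        1 / 4 * (104960000 * (m : ℝ) ^ 5 * (1 / (m : ℝ) ^ 39) * (mp G).eval x) := by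
      rw [hηd]
      field_simp
      ring
    have h8 := FY_abs (b := 104960000) (i := 5) (j := 39) (k := 33) hM (by norm_num) (by norm_num)
    have h9 := mul_le_mul_of_nonneg_right h8 hZ.le
    linarith
  have hlast : 0 ≤ 1 / (m : ℝ) ^ 33 * (mp G).eval x := by positivity
  linarith

end

end Pool.Agent.Lib.MP_eeed5c_coD
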